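import Pool.Agent.Lib.MP_820104_pr.Free

/-! A series and its reciprocal both satisfy linear differential equations only if the logarithmic
derivative is algebraic; application to free powers. -/

noncomputable section

namespace Pool.Agent.Lib.MP_820104_pr

open Finset Polynomial

section
variable {B R : Type} [CommRing B] [CommRing R] [Algebra B R] (D : Derivation B R R)

theorem hs_leib (a b : R) (n : ℕ) : D^[n] (a * b) =
    ∑ p ∈ antidiagonal n, n.choose p.1 • (D^[p.1] a * D^[p.2] b) := by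
  induction n with
  | zero => simp
  | succ n ih =>
    rw [sum_antidiagonal_choose_succ_nsmul (M := R) (fun i j => D^[i] a * D^[j] b) n]
    simp only [Function.iterate_succ_apply', ih, map_sum, map_nsmul, Derivation.leibniz,
      smul_eq_mul, smul_add, sum_add_distrib]
    congr 1
    refine sum_congr rfl fun ⟨i, j⟩ hij => ?_
    rw [n.choose_symm_of_eq_add (HasAntidiagonal.mem_antidiagonal.1 hij).symm, mul_comm]

variable [Algebra ℤ[X] R]

/-- the span of the derivatives of order below `n` -/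
def hsW (g : R) (n : ℕ) : Submodule ℤ[X] R :=
  Submodule.span ℤ[X] ((fun i => D^[i] g) '' Set.Iio n)

/-- a linear differential equation with a polynomial right hand side -/
def HsEq (g : R) : Prop := ∃ (s : Finset ℕ) (p : ℕ → ℤ[X]) (q : ℤ[X]),
  (∃ i ∈ s, p i ≠ 0) ∧ ∑ i ∈ s, p i • D^[i] g = algebraMap ℤ[X] R q

variable {D} (hD : ∀ p : ℤ[X], D (algebraMap ℤ[X] R p) = algebraMap ℤ[X] R (derivative p))

theorem hsW_mem (g : R) {i n : ℕ} (h : i < n) : D^[i] g ∈ hsW D g n :=
  Submodule.subset_span ⟨i, h, rfl⟩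

theorem hsW_mono (g : R) (n : ℕ) : hsW D g n ≤ hsW D g (n + 1) :=
  Submodule.span_mono (Set.image_mono fun _ h => Nat.lt_succ_of_lt h)

include hD

theorem hs_smul (p : ℤ[X]) (x : R) : D (p • x) = derivative p • x + p • D x := by
  rw [Algebra.smul_def, Algebra.smul_def, Algebra.smul_def, Derivation.leibniz, hD, smul_eq_mul,
    smul_eq_mul]
  ring

theorem hsW_D {g w : R} {n : ℕ} (h : w ∈ hsW D g n) : D w ∈ hsW D g (n + 1) := by
  induction h using Submodule.span_induction with
  | mem x hx =>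
    obtain ⟨i, hi, rfl⟩ := hx
    rw [← Function.iterate_succ_apply' D]
    exact hsW_mem g (Nat.succ_lt_succ hi)
  | zero => simp
  | add x y _ _ hx hy => rw [map_add]; exact add_mem hx hy
  | smul p x hx ih =>
    rw [hs_smul hD]
    exact add_mem (Submodule.smul_mem _ _ (hsW_mono g n hx)) (Submodule.smul_mem _ _ ih)

theorem hs_aff {f : R} (h : ¬LinearIndependent ℤ[X] fun i : ℕ => D^[i] f) (c l : ℤ) :
    HsEq D (c * f + l) := by
  obtain ⟨s, p, h0, hp⟩ := not_linearIndependent_iff.1 h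
  have e : ∀ i, D^[i] (c * f + l) =
      c * D^[i] f + algebraMap ℤ[X] R (derivative^[i] (l : ℤ[X])) := fun i => by
    induction i with
    | zero => simp
    | succ i ih => simp [Function.iterate_succ_apply', ih, hD]
  refine ⟨s, p, ∑ i ∈ s, p i * derivative^[i] (l : ℤ[X]), hp, ?_⟩
  have := congrArg ((c : R) * ·) h0
  simp only [mul_sum, mul_zero, Algebra.smul_def] at this
  simp only [e, Algebra.smul_def, mul_add, sum_add_distrib, map_sum, map_mul, mul_left_comm _ (c : R),
    this, zero_add]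

theorem hs_top {g : R} (h : HsEq D g) :
    ∃ (N : ℕ) (c : ℤ[X]), c ≠ 0 ∧ ∀ n, N ≤ n → c • D^[n] g ∈ hsW D g n := by
  classical
  obtain ⟨s, p, q, ⟨i, hi, hp⟩, e⟩ := h
  obtain ⟨r, hr, hm⟩ := exists_max_image (s.filter (p · ≠ 0)) id ⟨i, mem_filter.2 ⟨hi, hp⟩⟩
  obtain ⟨hr, hpr⟩ := mem_filter.1 hr
  have key : ∀ j, p r • D^[r + j] g - algebraMap ℤ[X] R (derivative^[j] q) ∈ hsW D g (r + j) := by
    intro j
    induction j with
    | zero =>
      rw [Function.iterate_zero_apply, ← e, ← add_sum_erase _ _ hr, add_zero, sub_add_cancel_left]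
      refine neg_mem (sum_mem fun i hi => ?_)
      by_cases h0 : p i = 0
      · simp [h0]
      · obtain ⟨h1, h2⟩ := mem_erase.1 hi
        exact Submodule.smul_mem _ _
          (hsW_mem g (lt_of_le_of_ne (hm i (mem_filter.2 ⟨h2, h0⟩)) h1))
    | succ j ih =>
      have := sub_mem (hsW_D hD ih)
        (Submodule.smul_mem _ (derivative (p r)) (hsW_mem (D := D) g (Nat.lt_succ_self (r + j))))
      rw [map_sub, hs_smul hD, hD] at this
      rw [← add_assoc, Function.iterate_succ_apply', Function.iterate_succ_apply']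
      convert this using 1
      abel
  refine ⟨r + q.natDegree + 1, p r, hpr, fun n hn => ?_⟩
  obtain ⟨j, rfl⟩ := Nat.exists_eq_add_of_le (show r ≤ n by omega)
  simpa [iterate_derivative_eq_zero (show q.natDegree < j by omega)] using key j

theorem hs_max {Γ : Type} [LinearOrderedCommGroupWithZero Γ] (v : Valuation R Γ)
    (hv : ∀ p : ℤ[X], p ≠ 0 → v (algebraMap ℤ[X] R p) = 1) {g : R} (h : HsEq D g) :
    ∃ i, (∀ n, v (D^[n] g) ≤ v (D^[i] g)) ∧ ∀ n < i, v (D^[n] g) < v (D^[i] g) := by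
  classical
  obtain ⟨N, c, hc, hN⟩ := hs_top hD h
  obtain ⟨i, -, hi⟩ := exists_max_image (range (N + 1)) (fun i => v (D^[i] g)) ⟨0, by simp⟩
  have ex : ∃ i, ∀ n, v (D^[n] g) ≤ v (D^[i] g) := ⟨i, fun n => by
    induction n using Nat.strong_induction_on with
    | _ n ih =>
      rcases le_or_gt n N with h1 | h1
      · exact hi n (mem_range.2 (by omega))
      have : ∀ w ∈ hsW D g n, v w ≤ v (D^[i] g) := fun w hw => by
        induction hw using Submodule.span_induction with
        | mem x hx =>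
          obtain ⟨j, hj, rfl⟩ := hx
          exact ih j hj
        | zero => simp
        | add x y _ _ hx hy => exact v.map_add_le hx hy
        | smul p x _ ih =>
          by_cases h0 : p = 0
          · simp [h0]
          · rwa [Algebra.smul_def, map_mul, hv p h0, one_mul]
      have := this _ (hN n h1.le)
      rwa [Algebra.smul_def, map_mul, hv c hc, one_mul] at this⟩
  refine ⟨Nat.find ex, Nat.find_spec ex, fun n hn => ?_⟩
  obtain ⟨m, hm⟩ := not_forall.1 (Nat.find_min ex hn)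
  exact (not_le.1 hm).trans_le (Nat.find_spec ex m)

theorem hs_val {Γ : Type} [LinearOrderedCommGroupWithZero Γ] (v : Valuation R Γ)
    (hv : ∀ p : ℤ[X], p ≠ 0 → v (algebraMap ℤ[X] R p) = 1) {g z : R} (hg : HsEq D g)
    (hz : HsEq D z) (h0 : v (g * z) ≠ 0) (h1 : D (g * z) = 0) : v (D g) ≤ v g := by
  obtain ⟨i, gi, gi'⟩ := hs_max hD v hv hg
  obtain ⟨j, zj, zj'⟩ := hs_max hD v hv hz
  rcases i with _ | i
  · exact gi 1
  exfalso
  rw [map_mul] at h0
  have pg : 0 < v (D^[i + 1] g) := (zero_lt_iff.2 (left_ne_zero_of_mul h0)).trans_le (gi 0)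
  have pz : 0 < v (D^[j] z) := (zero_lt_iff.2 (right_ne_zero_of_mul h0)).trans_le (zj 0)
  have e := hs_leib D g z (i + 1 + j)
  have e0 : D^[i + 1 + j] (g * z) = 0 := by
    rw [add_right_comm, Function.iterate_succ_apply, h1]
    exact Function.iterate_fixed (map_zero D) _
  have hc : ∀ p ∈ antidiagonal (i + 1 + j),
      v ((i + 1 + j).choose p.1 • (D^[p.1] g * D^[p.2] z)) = v (D^[p.1] g) * v (D^[p.2] z) := by
    intro p hp
    have := HasAntidiagonal.mem_antidiagonal.1 hp
    have := hv ((i + 1 + j).choose p.1 : ℕ) (Nat.cast_ne_zero.2 (Nat.choose_pos (by omega)).ne')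
    rw [map_natCast] at this
    rw [nsmul_eq_mul, map_mul, this, one_mul, map_mul]
  have hm : (i + 1, j) ∈ antidiagonal (i + 1 + j) := HasAntidiagonal.mem_antidiagonal.2 rfl
  have := v.map_sum_eq_of_lt (f := fun p : ℕ × ℕ =>
    (i + 1 + j).choose p.1 • (D^[p.1] g * D^[p.2] z)) hm fun p hp => by
      obtain ⟨h2, h3⟩ := mem_sdiff.1 hp
      rw [hc p h2, hc _ hm]
      have h4 := HasAntidiagonal.mem_antidiagonal.1 h2
      rcases lt_trichotomy p.1 (i + 1) with h | h | h
      · exact mul_lt_mul_of_lt_of_le_of_nonneg_of_pos (gi' _ h) (zj _) zero_le pz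
      · exact (h3 (mem_singleton.2 (Prod.ext h (by omega)))).elim
      · exact mul_lt_mul_of_le_of_lt_of_nonneg_of_pos (gi _) (zj' _ (by omega)) zero_le pg
  rw [← e, e0, map_zero, hc _ hm] at this
  exact (mul_pos pg pz).ne this

theorem hs_alg {F : Type} [Field F] [Algebra R F] [Algebra ℤ[X] F] [IsScalarTower ℤ[X] R F]
    (i1 : Function.Injective (algebraMap ℤ[X] F)) {g z : R} (hg : HsEq D g) (hz : HsEq D z)
    (h0 : algebraMap R F (g * z) ≠ 0) (h1 : D (g * z) = 0) :
    IsAlgebraic ℤ[X] (algebraMap R F (D g) / algebraMap R F g) := by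
  let K := Subalgebra.algebraicClosure ℤ[X] F
  have : algebraMap R F (D g) / algebraMap R F g ∈
      (integralClosure (Subring.closure (K.toSubring : Set F)) F).toSubring := by
    rw [← iInf_valuationSubring_superset, Subring.mem_iInf]
    rintro ⟨V, hV⟩
    have hv : ∀ p : ℤ[X], p ≠ 0 →
        V.valuation.comap (algebraMap R F) (algebraMap ℤ[X] R p) = 1 := fun p hp => by
      have a : IsAlgebraic ℤ[X] (algebraMap ℤ[X] F p) := isAlgebraic_algebraMap p
      have n : V.valuation (algebraMap ℤ[X] F p) ≠ 0 := by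
        simpa using (map_ne_zero_iff _ i1).2 hp
      have b := (V.valuation_le_one_iff _).2 (hV a.inv)
      rw [Valuation.comap_apply, ← IsScalarTower.algebraMap_apply]
      rw [map_inv₀, inv_le_one₀ (zero_lt_iff.2 n)] at b
      exact le_antisymm ((V.valuation_le_one_iff _).2 (hV a)) b
    have := hs_val hD _ hv hg hz (by simpa using h0) h1
    refine (V.valuation_le_one_iff _).1 ?_
    rw [map_div₀]
    exact div_le_one_of_le₀ this zero_le
  rw [Subring.closure_eq] at this
  exact IsIntegral.trans_isAlgebraic ℤ[X] (S := K) this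

end

theorem hs_fin {F : Type} [Field F] [CharZero F] [Algebra ℤ[X] F] {k l m : ℤ} (hk : k ≠ 0)
    (hl : k ≠ l) (hm : l ≠ m) (hkm : k ≠ m) {x y : F} (hy : y ≠ 0) (gl : (k - l : ℤ) * x + l ≠ 0)
    (gm : (k - m : ℤ) * x + m ≠ 0)
    (al : IsAlgebraic ℤ[X] ((k - l : ℤ) * y / ((k - l : ℤ) * x + l)))
    (am : IsAlgebraic ℤ[X] ((k - m : ℤ) * y / ((k - m : ℤ) * x + m))) : IsAlgebraic ℤ[X] x := by
  have c1 : ((k - l : ℤ) : F) ≠ 0 := Int.cast_ne_zero.2 (sub_ne_zero.2 hl)
  have c2 : ((k - m : ℤ) : F) ≠ 0 := Int.cast_ne_zero.2 (sub_ne_zero.2 hkm)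
  have c3 : ((k * (l - m) : ℤ) : F) ≠ 0 := Int.cast_ne_zero.2 (mul_ne_zero hk (sub_ne_zero.2 hm))
  have ea := div_mul_cancel₀ ((k - l : ℤ) * y) gl
  have eb := div_mul_cancel₀ ((k - m : ℤ) * y) gm
  generalize (k - l : ℤ) * y / ((k - l : ℤ) * x + l) = a at al ea
  generalize (k - m : ℤ) * y / ((k - m : ℤ) * x + m) = b at am eb
  have a0 : a ≠ 0 := left_ne_zero_of_mul (ea ▸ mul_ne_zero c1 hy)
  have b0 : b ≠ 0 := left_ne_zero_of_mul (eb ▸ mul_ne_zero c2 hy)
  have e : ((k - m : ℤ) * (k - l : ℤ) * (b - a)) * y = a * b * (k * (l - m) : ℤ) := by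
    push_cast at ea eb ⊢
    linear_combination (-(k - m : F) * b) * ea + ((k - l : F) * a) * eb
  have ay : IsAlgebraic ℤ[X] y := IsAlgebraic.of_mul
    (mem_nonZeroDivisors_of_ne_zero
      (left_ne_zero_of_mul (e ▸ mul_ne_zero (mul_ne_zero a0 b0) c3)))
    (((isAlgebraic_intCast _).mul (isAlgebraic_intCast _)).mul (am.sub al))
    (e ▸ (al.mul am).mul (isAlgebraic_intCast _))
  have e' : (a * (k - l : ℤ)) * x = (k - l : ℤ) * y - a * l := by linear_combination ea
  exact IsAlgebraic.of_mul (mem_nonZeroDivisors_of_ne_zero (mul_ne_zero a0 c1))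
    (al.mul (isAlgebraic_intCast _))
    (e' ▸ ((isAlgebraic_intCast _).mul ay).sub (al.mul (isAlgebraic_intCast _)))

theorem hs_key {B R F : Type} [CommRing B] [CommRing R] [Algebra B R] {D : Derivation B R R}
    [Algebra ℤ[X] R]
    (hD : ∀ p : ℤ[X], D (algebraMap ℤ[X] R p) = algebraMap ℤ[X] R (derivative p))
    [Field F] [Algebra R F] [Algebra ℤ[X] F] [IsScalarTower ℤ[X] R F]
    (i0 : Function.Injective (algebraMap R F)) (i1 : Function.Injective (algebraMap ℤ[X] F))
    {k l m : ℤ} (hk : k ≠ 0) (hl0 : l ≠ 0) (hm0 : m ≠ 0) (hl : k ≠ l) (hm : l ≠ m) (hkm : k ≠ m)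
    {x y z : R} (hx : ¬LinearIndependent ℤ[X] fun i : ℕ => D^[i] x)
    (hy : ¬LinearIndependent ℤ[X] fun i : ℕ => D^[i] y)
    (hz : ¬LinearIndependent ℤ[X] fun i : ℕ => D^[i] z) (h0 : D x ≠ 0)
    (ey : ((k - l : ℤ) * x + l) * ((l - k : ℤ) * y + k) = (k * l : ℤ))
    (ez : ((k - m : ℤ) * x + m) * ((m - k : ℤ) * z + k) = (k * m : ℤ)) : IsAlgebraic ℤ[X] x := by
  have : CharZero F := charZero_of_injective_algebraMap i1
  have key : ∀ (j : ℤ) (w : R), j ≠ 0 → (¬LinearIndependent ℤ[X] fun i : ℕ => D^[i] w) →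
      ((k - j : ℤ) * x + j) * ((j - k : ℤ) * w + k) = (k * j : ℤ) →
      ((k - j : ℤ) * algebraMap R F x + j ≠ 0) ∧ IsAlgebraic ℤ[X]
        ((k - j : ℤ) * algebraMap R F (D x) / ((k - j : ℤ) * algebraMap R F x + j)) := by
    intro j w hj hw e
    have n : algebraMap R F (((k - j : ℤ) * x + j) * ((j - k : ℤ) * w + k)) ≠ 0 := by
      rw [e, map_intCast]
      exact Int.cast_ne_zero.2 (mul_ne_zero hk hj)
    have := hs_alg hD i1 (hs_aff hD hx (k - j) j) (hs_aff hD hw (j - k) k) n
      (by rw [e, Derivation.map_intCast])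
    rw [map_mul] at n
    refine ⟨by simpa only [map_add, map_mul, map_intCast] using left_ne_zero_of_mul n, ?_⟩
    simpa only [map_add, map_mul, map_intCast, Derivation.leibniz, Derivation.map_intCast,
      smul_eq_mul, mul_zero, add_zero] using this
  obtain ⟨gl, al⟩ := key l y hl0 hy ey
  obtain ⟨gm, am⟩ := key m z hm0 hz ez
  exact (isAlgebraic_algebraMap_iff i0).1
    (hs_fin hk hl hm hkm ((map_ne_zero_iff _ i0).2 h0) gl gm al am)

theorem hs_one {G : Type} [Group G] (S : Finset G) :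
    sawGF S = 1 + PowerSeries.X * PowerSeries.mk fun n => (saw S (n + 1) : ℤ) := by
  ext (_ | n)
  · simp [sawGF, saw_zero]
  · simp [sawGF, PowerSeries.coeff_succ_X_mul, PowerSeries.coeff_one]

theorem hs_gf {G : Type} [Group G] {S : Finset G} (h1 : 1 ∉ S) (k : ℕ) :
    sawGF (gens k S) * (k - (k - 1) * sawGF S) = sawGF S := by
  have e1 : (PowerSeries.mk fun n => (FJ k S n : ℤ)) + sawGF (gens k S) =
      PowerSeries.C (k : ℤ) * sawGF (gens k S) + 1 := by
    ext (_ | n)
    · simp [sawGF, saw_zero, FJ_zero]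
    · simp only [sawGF, map_add, PowerSeries.coeff_mk, PowerSeries.coeff_C_mul,
        PowerSeries.coeff_one, if_neg n.succ_ne_zero, add_zero]
      exact_mod_cast FJ_succ h1 n
  have e2 : (PowerSeries.mk fun n => (saw (gens k S) (n + 1) : ℤ)) =
      (PowerSeries.mk fun n => (saw S (n + 1) : ℤ)) * PowerSeries.mk fun n => (FJ k S n : ℤ) := by
    ext n
    simp [PowerSeries.coeff_mul, saw_succ h1]
  have e3 := hs_one (gens k S)
  have e4 := hs_one S
  rw [e2] at e3
  rw [map_natCast] at e1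
  linear_combination e3 - (PowerSeries.mk fun n => (FJ k S n : ℤ)) * e4 + (sawGF S - 1) * e1

theorem hs_prod {G : Type} [Group G] {S : Finset G} (h1 : 1 ∉ S) (k l : ℕ) :
    (((k - l : ℤ) : PowerSeries ℤ) * sawGF (gens k S) + (l : ℤ)) *
      ((l - k : ℤ) * sawGF (gens l S) + (k : ℤ)) = (k * l : ℤ) := by
  have a := hs_gf h1 k
  have b := hs_gf h1 l
  have n : sawGF S ≠ 0 := fun h => by
    simpa [sawGF, saw_zero] using congrArg (PowerSeries.coeff 0) h
  refine mul_right_cancel₀ (mul_ne_zero (right_ne_zero_of_mul (a.symm ▸ n))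
    (right_ne_zero_of_mul (b.symm ▸ n))) ?_
  push_cast
  linear_combination ((k - l : PowerSeries ℤ) * ((l - k) * sawGF (gens l S) + k) *
    (l - (l - 1) * sawGF S)) * a + (k * (l - (l - 1) * sawGF S) * (l - k : PowerSeries ℤ)) * b

theorem alg_of_three {G : Type} [Group G] {S : Finset G} (h1 : 1 ∉ S) {k l m : ℕ} (hk : 1 ≤ k)
    (hl : k < l) (hm : l < m)
    (h : ∀ j ∈ ({k, l, m} : Finset ℕ), ¬LinearIndependent ℤ[X] fun i : ℕ =>
      (PowerSeries.derivative ℤ)^[i] (sawGF (gens j S))) : IsAlgebraic ℤ[X] (sawGF S) := by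
  have ec : ∀ p : ℤ[X], algebraMap ℤ[X] (PowerSeries ℤ) p = p := fun p => by
    simp [PowerSeries.algebraMap_apply']
  have hD : ∀ p : ℤ[X], PowerSeries.derivative ℤ (algebraMap ℤ[X] (PowerSeries ℤ) p) =
      algebraMap ℤ[X] (PowerSeries ℤ) (derivative p) := fun p => by
    rw [ec, ec, PowerSeries.derivative_coe]
  have i0 := IsFractionRing.injective (PowerSeries ℤ) (FractionRing (PowerSeries ℤ))
  have i1 : Function.Injective (algebraMap ℤ[X] (FractionRing (PowerSeries ℤ))) := fun p q e => by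
    rw [IsScalarTower.algebraMap_apply ℤ[X] (PowerSeries ℤ) _ p,
      IsScalarTower.algebraMap_apply ℤ[X] (PowerSeries ℤ) _ q, ec, ec] at e
    exact Polynomial.coe_injective ℤ (i0 e)
  have ak : IsAlgebraic ℤ[X] (sawGF (gens k S)) := by
    by_cases hy : PowerSeries.derivative ℤ (sawGF (gens k S)) = 0
    · have : sawGF (gens k S) = 1 :=
        PowerSeries.derivative.ext (by simp [hy]) (by simp [sawGF, saw_zero])
      rw [this]
      exact isAlgebraic_one
    exact hs_key hD i0 i1 (k := k) (l := l) (m := m) (by omega) (by omega) (by omega) (by omega)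
      (by omega) (by omega) (h k (by simp)) (h l (by simp)) (h m (by simp)) hy (hs_prod h1 k l)
      (hs_prod h1 k m)
  have e : (1 + (k - 1 : ℤ) * sawGF (gens k S)) * sawGF S = (k : ℤ) * sawGF (gens k S) := by
    push_cast
    linear_combination -hs_gf h1 k
  refine IsAlgebraic.of_mul (mem_nonZeroDivisors_of_ne_zero fun h0 => ?_)
    (isAlgebraic_one.add ((isAlgebraic_intCast _).mul ak)) (e ▸ (isAlgebraic_intCast _).mul ak)
  have := congrArg PowerSeries.constantCoeff h0
  simp [sawGF, saw_zero] at this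
  omega

end Pool.Agent.Lib.MP_820104_pr
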