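import Mathlib

/-! Self-avoiding walks, free powers, planarity, degree and height. -/

noncomputable section

namespace Pool.Agent.Lib.MP_820104_pr

open Finset Filter Polynomial Monoid CoprodI
open scoped Classical

section
variable {K : Type} [Group K]

/-- the number of `n`-step self-avoiding walks from the identity in the Cayley graph of `S` -/
def saw (S : Finset K) (n : ℕ) : ℕ :=
  Set.ncard {f : Fin (n + 1) → K | Function.Injective f ∧ f 0 = 1 ∧
    ∀ i : Fin n, (f i.castSucc)⁻¹ * f i.succ ∈ S}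

/-- `μ` is the connective constant of the Cayley graph of `S` -/
def IsConn (S : Finset K) (μ : ℝ) : Prop :=
  Tendsto (fun n : ℕ => (saw S n : ℝ) ^ ((1 : ℝ) / n)) atTop (nhds μ)

end

/-- the free product of `k` copies of `G` -/
abbrev FP (G : Type) [Group G] (k : ℕ) : Type := CoprodI fun _ : Fin k => G

variable {G : Type} [Group G] {k : ℕ}

/-- the inclusion of the `j`-th factor -/
abbrev inc (j : Fin k) : G →* FP G k := of (M := fun _ : Fin k => G) (i := j)

/-- the union of the copies of `S` in the factors -/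
def gens (k : ℕ) (S : Finset G) : Finset (FP G k) := image₂ (fun j s => inc j s) univ S

/-- the generating function of self-avoiding walks -/
def sawGF (S : Finset G) : PowerSeries ℤ := PowerSeries.mk fun n => saw S n

/-- the Cayley graph of `S` embeds in the plane -/
def Planar (S : Finset G) : Prop :=
  ∃ p : G → ℂ, Function.Injective p ∧ ∃ γ : G → G → ℝ → ℂ,
    (∀ g h : G, g⁻¹ * h ∈ S →
      ContinuousOn (γ g h) (Set.Icc 0 1) ∧ Set.InjOn (γ g h) (Set.Icc 0 1) ∧
      γ g h 0 = p g ∧ γ g h 1 = p h ∧ ∀ x : G, p x ∉ γ g h '' Set.Ioo 0 1) ∧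
    (∀ g h g' h' : G, g⁻¹ * h ∈ S → g'⁻¹ * h' ∈ S →
      ¬(g = g' ∧ h = h') → ¬(g = h' ∧ h = g') →
      Disjoint (γ g h '' Set.Ioo 0 1) (γ g' h' '' Set.Ioo 0 1))

/-- the standard generators of the square lattice -/
def sqGen : Finset (Multiplicative (ℤ × ℤ)) :=
  {.ofAdd (1, 0), .ofAdd (-1, 0), .ofAdd (0, 1), .ofAdd (0, -1)}

/-- `x` is a root of a nonzero integer polynomial of degree at most `D` whose coefficients are at
most `H` in absolute value -/
def AlgLe (D H : ℕ) (x : ℝ) : Prop :=
  ∃ R : ℤ[X], R ≠ 0 ∧ R.natDegree ≤ D ∧ (∀ i, |R.coeff i| ≤ H) ∧ aeval x R = 0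

end Pool.Agent.Lib.MP_820104_pr
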