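import Pool.Agent.Lib.MP_820104_pr.Liou
import Pool.Agent.Lib.MP_820104_pr.Defs

/-! The auxiliary polynomial argument. -/

noncomputable section

namespace Pool.Agent.Lib.MP_820104_pr

open Polynomial Finset Filter

variable {χ : PowerSeries ℤ} {r : ℝ} {μ : ℕ → ℝ} (p : ℕ → ℕ → ℤ) (N : ℕ)

def FF (χ : PowerSeries ℤ) : PowerSeries ℤ :=
  ∑ i ∈ range (N + 1), ∑ j ∈ range (N + 1), PowerSeries.monomial i (p i j) * χ ^ j

def inn (k i : ℕ) : ℤ := ∑ j ∈ range (N + 1), p i j * k ^ j * (k - 1) ^ (N - j)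

def QQ (k : ℕ) : ℤ[X] := ∑ i ∈ range (N + 1), monomial (N - i) (inn p N k i)

def ht : ℤ := ∑ i ∈ range (N + 1), ∑ j ∈ range (N + 1), |p i j|

theorem inn_eq {k : ℕ} (hk : 3 ≤ k) (i : ℕ) : (inn p N k i : ℝ) =
    (k - 1) ^ N * ∑ j ∈ range (N + 1), p i j * (k / (k - 1) : ℝ) ^ j := by
  have : (3 : ℝ) ≤ k := by exact_mod_cast hk
  have : (k - 1 : ℝ) ≠ 0 := by linarith
  rw [inn, mul_sum]
  push_cast
  refine sum_congr rfl fun j hj => ?_
  obtain ⟨m, rfl⟩ := Nat.exists_eq_add_of_le (Nat.lt_succ_iff.1 (mem_range.1 hj))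
  rw [Nat.add_sub_cancel_left, div_pow, pow_add]
  field_simp

theorem QQ_deg (k : ℕ) : (QQ p N k).natDegree ≤ N :=
  natDegree_sum_le_of_forall_le _ _ fun _ _ => (natDegree_monomial_le _).trans (Nat.sub_le _ _)

theorem QQ_le {k : ℕ} (hk : 1 ≤ k) (m : ℕ) : |(QQ p N k).coeff m| ≤ ht p N * k ^ N := by
  have : (1 : ℤ) ≤ k := by exact_mod_cast hk
  rw [QQ, finsetSum_coeff, ht, sum_mul]
  refine (abs_sum_le_sum_abs _ _).trans (sum_le_sum fun i _ => le_trans (b := |inn p N k i|) ?_ ?_)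
  · rw [coeff_monomial]
    split_ifs <;> simp
  rw [sum_mul]
  refine (abs_sum_le_sum_abs _ _).trans (sum_le_sum fun j hj => ?_)
  obtain ⟨m, rfl⟩ := Nat.exists_eq_add_of_le (Nat.lt_succ_iff.1 (mem_range.1 hj))
  rw [Nat.add_sub_cancel_left, abs_mul, abs_mul, abs_pow, abs_pow, pow_add, mul_assoc,
    abs_of_nonneg (a := (k : ℤ)) (by omega), abs_of_nonneg (a := (k - 1 : ℤ)) (by omega)]
  gcongr
  omega

theorem QQ_coeff (k : ℕ) {i : ℕ} (hi : i ≤ N) : (QQ p N k).coeff (N - i) = inn p N k i := by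
  rw [QQ, finsetSum_coeff, sum_eq_single_of_mem i (mem_range.2 (by omega)) fun j hj h => by
    rw [coeff_monomial, if_neg (by have := mem_range.1 hj; omega)], coeff_monomial, if_pos rfl]

/-- the numbers `μ k` are the inverses of the points where the series takes the values
`k / (k - 1)` -/
def Hy (χ : PowerSeries ℤ) (r : ℝ) (μ : ℕ → ℝ) : Prop := 0 < r ∧ ∀ k : ℕ, 3 ≤ k →
  (k - 1 : ℝ) ≤ μ k ∧ (μ k)⁻¹ ≤ r ∧ Ev r (μ k)⁻¹ χ (k / (k - 1))

theorem Hy.val (h : Hy χ r μ) {k : ℕ} (hk : 3 ≤ k) : ∃ v, Ev r (μ k)⁻¹ (FF p N χ) v ∧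
    aeval (μ k) (QQ p N k) = μ k ^ N * (k - 1) ^ N * v := by
  obtain ⟨h1, h2, h3⟩ := h.2 k hk
  have : (3 : ℝ) ≤ k := by exact_mod_cast hk
  have m0 : 0 < μ k := by linarith
  have h4 := (abs_of_pos (inv_pos.2 m0)).trans_le h2
  refine ⟨_, .sum fun i _ => .sum fun j _ => .mul h4 (.mono _ _) (h3.pow h4 j), ?_⟩
  rw [QQ, map_sum, mul_sum]
  refine sum_congr rfl fun i hi => ?_
  obtain ⟨m, rfl⟩ := Nat.exists_eq_add_of_le (Nat.lt_succ_iff.1 (mem_range.1 hi))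
  rw [aeval_monomial, eq_intCast, inn_eq _ _ hk, Nat.add_sub_cancel_left, mul_sum, mul_sum, sum_mul]
  refine sum_congr rfl fun j _ => ?_
  rw [pow_add (μ k), inv_pow]
  field_simp

theorem aeval_eq {P : ℤ[X][X]} (h1 : P.natDegree ≤ N) (h2 : ∀ j, (P.coeff j).natDegree ≤ N) :
    aeval χ P = FF (fun i j => (P.coeff j).coeff i) N χ := by
  rw [aeval_eq_sum_range' (Nat.lt_succ_of_le h1), FF, sum_comm]
  refine sum_congr rfl fun j _ => ?_
  rw [← sum_mul, Algebra.smul_def]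
  congr 1
  conv_lhs => rw [(P.coeff j).as_sum_range' _ (Nat.lt_succ_of_le (h2 j)), map_sum]
  refine sum_congr rfl fun i _ => ?_
  simp [PowerSeries.algebraMap_apply']

/-- an algebraic series gives numbers of bounded degree and polynomial height -/
theorem Hy.of_alg (h : Hy χ r μ) (ha : IsAlgebraic ℤ[X] χ) :
    ∃ D B, ∀ᶠ k in atTop, AlgLe D (k ^ B) (μ k) := by
  obtain ⟨P, P0, hP⟩ := ha
  obtain ⟨N, h1, h2⟩ : ∃ N, P.natDegree ≤ N ∧ ∀ j, (P.coeff j).natDegree ≤ N :=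
    ⟨max P.natDegree (P.support.sup fun j => (P.coeff j).natDegree), le_max_left _ _, fun j => by
      by_cases hj : j ∈ P.support
      · exact le_max_of_le_right (le_sup (f := fun j => (P.coeff j).natDegree) hj)
      · simp [notMem_support_iff.1 hj]⟩
  rw [aeval_eq N h1 h2] at hP
  set p := fun i j => (P.coeff j).coeff i
  set i := P.leadingCoeff.natDegree
  have G0 : (∑ j ∈ range (N + 1), monomial j (p i j : ℝ)) ≠ 0 := fun e => by
    have := congrArg (coeff · P.natDegree) e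
    simp only [finsetSum_coeff, coeff_monomial, sum_ite_eq', mem_range, Nat.lt_succ_of_le h1,
      if_true, coeff_zero, Int.cast_eq_zero] at this
    exact P0 (leadingCoeff_eq_zero.1 (leadingCoeff_eq_zero.1 this))
  have inj : Function.Injective fun t : ℕ => ((t + 3 : ℕ) / ((t + 3 : ℕ) - 1) : ℝ) := fun s t e => by
    have : ∀ t : ℕ, (((t + 3 : ℕ) : ℝ) - 1) ≠ 0 := fun t => by push_cast; linarith [t.cast_nonneg (α := ℝ)]
    rw [div_eq_div_iff (this _) (this _)] at e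
    push_cast at e
    exact_mod_cast (by linarith : (s : ℝ) = t)
  have ev := inj.tendsto_cofinite.eventually (eventually_cofinite_not_isRoot G0)
  obtain ⟨t0, h0⟩ := eventually_atTop.1 (Nat.cofinite_eq_atTop ▸ ev)
  refine ⟨N, N + 1, eventually_atTop.2 ⟨t0 + 3 + (ht p N).toNat, fun k hk => ?_⟩⟩
  obtain ⟨v, h3, h4⟩ := h.val p N (k := k) (by omega)
  refine ⟨QQ p N k, fun e => ?_, QQ_deg .., fun m => (QQ_le p N (by omega) m).trans ?_, ?_⟩
  · have h5 := QQ_coeff p N k (h2 P.natDegree)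
    have h6 := inn_eq p N (k := k) (by omega) i
    have h7 := h0 (k - 3) (by omega)
    rw [e, coeff_zero] at h5
    rw [Nat.sub_add_cancel (by omega), IsRoot.def, eval_finsetSum] at h7
    simp only [eval_monomial] at h7
    have : (3 : ℝ) ≤ k := by exact_mod_cast (by omega : 3 ≤ k)
    exact mul_ne_zero (pow_ne_zero N (by linarith)) h7 (h6.symm.trans (Int.cast_eq_zero.2 h5.symm))
  · push_cast
    rw [pow_succ']
    gcongr
    omega
  · rw [h4, ← h3.2.tsum_eq, hP]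
    simp [tm]

theorem exists_aux : ∃ p : ℕ → ℕ → ℤ, (∃ i ≤ N, ∃ j ≤ N, p i j ≠ 0) ∧
    ∀ m < N * N + 2 * N, PowerSeries.coeff m (FF p N χ) = 0 := by
  let L : (Fin (N + 1) × Fin (N + 1) → ℤ) →ₗ[ℤ] (Fin (N * N + 2 * N) → ℤ) := LinearMap.pi fun m =>
    (PowerSeries.coeff m).comp (Fintype.linearCombination ℤ fun x : Fin (N + 1) × Fin (N + 1) =>
      PowerSeries.monomial x.1 1 * χ ^ (x.2 : ℕ))
  obtain ⟨q, h1, h2⟩ : ∃ q, L q = 0 ∧ q ≠ 0 := by
    by_contra! e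
    have := LinearMap.finrank_le_finrank_of_injective ((injective_iff_map_eq_zero L).2 e)
    simp at this
    nlinarith
  obtain ⟨x, hx⟩ := Function.ne_iff.1 h2
  refine ⟨fun i j => q (Fin.ofNat _ i, Fin.ofNat _ j), ⟨x.1, x.1.is_le, x.2, x.2.is_le, by
    simpa using hx⟩, fun m hm => Eq.trans ?_ (congrFun h1 ⟨m, hm⟩)⟩
  simp only [L, FF, sum_range, Fintype.linearCombination_apply, Fintype.sum_prod_type,
    Fin.ofNat_val_eq_self, ← smul_mul_assoc, ← map_smul, smul_eq_mul, mul_one, LinearMap.pi_apply,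
    LinearMap.comp_apply]

/-- numbers of bounded degree and polynomial height force the series to be algebraic -/
theorem Hy.alg (h : Hy χ r μ) {D B : ℕ} (hf : ∃ᶠ k in atTop, AlgLe D (k ^ B) (μ k)) :
    IsAlgebraic ℤ[X] χ := by
  obtain ⟨N, hN⟩ : ∃ N, N = 2 * B + 1 + D * (4 * B + 3) := ⟨_, rfl⟩
  obtain ⟨p, ⟨i, hi, j, hj, h0⟩, hp⟩ := exists_aux (χ := χ) N
  by_cases hF : FF p N χ = 0
  · set P : ℤ[X][X] := ∑ j ∈ range (N + 1), monomial j (∑ i ∈ range (N + 1), monomial i (p i j))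
    refine ⟨P, fun e => h0 ?_, ?_⟩
    · simpa [P, coeff_monomial, Nat.lt_succ_of_le hi, Nat.lt_succ_of_le hj] using
        congrArg (fun P : ℤ[X][X] => (P.coeff j).coeff i) e
    · rw [← hF, FF, sum_comm]
      simp [P, aeval_monomial, PowerSeries.algebraMap_apply']
  exfalso
  set F := FF p N χ
  obtain ⟨o, ho, ho'⟩ : ∃ o, PowerSeries.coeff o F ≠ 0 ∧ ∀ m < o, PowerSeries.coeff m F = 0 := by
    have : ∃ o, PowerSeries.coeff o F ≠ 0 := by
      by_contra! e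
      exact hF (PowerSeries.ext e)
    exact ⟨Nat.find this, Nat.find_spec this, fun m hm => not_not.1 (Nat.find_min this hm)⟩
  set G := F + PowerSeries.monomial o (-PowerSeries.coeff o F)
  set C1 := (∑' n, ‖tm G r n‖) / r ^ (o + 1)
  set C0 := (∑' n, ‖tm F r n‖) / r ^ (N * N + 2 * N) * ((N + 1) * ht p N) ^ D
  obtain ⟨k, ⟨R, R0, hD, hH, hR⟩, k3, k4⟩ := (hf.and_eventually ((eventually_ge_atTop 3).and
    (tendsto_natCast_atTop_atTop.eventually_gt_atTop (max C0 C1 + 1 : ℝ)))).exists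
  obtain ⟨h1, h2, -⟩ := h.2 k k3
  obtain ⟨v, h3 : Ev _ _ F _, h4⟩ := h.val p N k3
  have r0 := h.1
  have : (3 : ℝ) ≤ k := by exact_mod_cast k3
  obtain ⟨t, ht'⟩ : ∃ t : ℝ, k = t + 1 := ⟨k - 1, by ring⟩
  have t2 : 2 ≤ t := by linarith
  rw [ht', add_sub_cancel_right] at h1 h4
  have m0 : 0 < μ k := by linarith
  have z0 := inv_pos.2 m0
  have zt : t * (μ k)⁻¹ ≤ 1 := by rwa [← div_eq_mul_inv, div_le_one m0]
  have zc : ∀ C ≤ max C0 C1, C * (μ k)⁻¹ < 1 := fun C hC => by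
    rw [← div_eq_mul_inv, div_lt_one m0]
    linarith
  have v0 : v ≠ 0 := fun e => by
    have h5 := (h3.add (.mono o (-PowerSeries.coeff o F))).small r0 z0.le h2 (M := o + 1)
      fun m hm => by
        rcases Nat.lt_succ_iff_lt_or_eq.1 hm with h | rfl
        · simp [ho' m h, PowerSeries.coeff_monomial, h.ne]
        · simp
    have h6 : (1 : ℝ) ≤ |((-PowerSeries.coeff o F : ℤ) : ℝ)| := by
      exact_mod_cast Int.one_le_abs (neg_ne_zero.2 ho)
    rw [e, zero_add, abs_mul, abs_of_pos (pow_pos z0 o)] at h5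
    have h7 := mul_lt_mul_of_pos_right (zc C1 (le_max_right _ _)) (pow_pos z0 o)
    have h8 : ((μ k)⁻¹ / r) ^ (o + 1) * ∑' n, ‖tm G r n‖ = C1 * (μ k)⁻¹ * (μ k)⁻¹ ^ o := by
      rw [div_pow]; ring
    nlinarith [pow_pos z0 o]
  have kt : (k : ℝ) ≤ t ^ 2 := by nlinarith
  have p0 : (0 : ℝ) ≤ ht p N := by
    exact_mod_cast sum_nonneg fun _ _ => sum_nonneg fun _ _ => abs_nonneg _
  have h5 := liou (H := t ^ (2 * B)) (K := ht p N * t ^ (2 * N)) R0 hR hD (fun i => by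
    have : (|R.coeff i| : ℝ) ≤ k ^ B := by exact_mod_cast hH i
    exact this.trans (by rw [pow_mul]; gcongr)) (QQ_deg p N k) (fun i => by
    have : (|(QQ p N k).coeff i| : ℝ) ≤ ht p N * k ^ N := by exact_mod_cast QQ_le p N (by omega) i
    exact this.trans (by rw [pow_mul]; gcongr)) (by rw [h4]; positivity)
  have h6 := h3.small r0 z0.le h2 hp
  have s0 : 0 ≤ ∑' n, ‖tm F r n‖ := tsum_nonneg fun _ => norm_nonneg _
  refine (zc C0 (le_max_left _ _)).not_ge (h5.trans ?_)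
  rw [h4, abs_mul, abs_of_pos (by positivity)]
  calc _ ≤ (t ^ (2 * B)) ^ N * (μ k ^ N * t ^ N * (((μ k)⁻¹ / r) ^ (N * N + 2 * N) *
        ∑' n, ‖tm F r n‖)) * ((t ^ (2 * B)) ^ N * ((N + 1) * (ht p N * t ^ (2 * N)) *
          (t * t ^ (2 * B)) ^ N)) ^ D := by gcongr
    _ = C0 * (μ k * (μ k)⁻¹) ^ N * (t ^ ((2 * B + 1 + D * (4 * B + 3)) * N) * (μ k)⁻¹ ^ (N * N)) *
        (μ k)⁻¹ ^ N := by simp only [C0, div_pow, mul_pow]; ring
    _ ≤ C0 * 1 * 1 * (μ k)⁻¹ ^ 1 := by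
      rw [mul_inv_cancel₀ m0.ne', one_pow, ← hN, ← mul_pow]
      gcongr ?_ * ?_ * ?_ * ?_
      · exact pow_le_one₀ (by positivity) zt
      · exact pow_le_pow_of_le_one z0.le (by nlinarith) (by omega)
    _ = _ := by ring

end Pool.Agent.Lib.MP_820104_pr
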