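import Pool.Agent.Lib.MP_820104_pr.Free
import Pool.Agent.Lib.MP_820104_pr.Dich

/-! The renewal equation and the connective constant of free powers. -/

noncomputable section

namespace Pool.Agent.Lib.MP_820104_pr

open Finset Filter Topology
open scoped Classical

theorem root_lim {v : ℕ → ℝ} {K : ℝ} (h0 : ∀ n, 0 < v n) (h1 : ∀ n, v n ≤ K)
    (h2 : ∀ θ, 0 < θ → θ < 1 → ∃ δ > 0, ∀ n, δ * θ ^ n ≤ v n) :
    Tendsto (fun n : ℕ => v n ^ ((1 : ℝ) / n)) atTop (𝓝 1) := by
  have hc : ∀ c : ℝ, 0 < c → Tendsto (fun n : ℕ => c ^ ((1 : ℝ) / n)) atTop (𝓝 1) := fun c hc => by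
    simpa [Function.comp_def] using ((Real.continuous_const_rpow hc.ne').tendsto 0).comp
      (tendsto_one_div_atTop_nhds_zero_nat (𝕜 := ℝ))
  refine tendsto_order.2 ⟨fun a ha => ?_, fun a ha => ?_⟩
  · obtain ⟨θ, a1, a2⟩ := exists_between (max_lt ha one_pos)
    have a0 : 0 < θ := (le_max_right _ _).trans_lt a1
    obtain ⟨δ, d0, hδ⟩ := h2 θ a0 a2
    have h3 := (hc δ d0).mul_const θ
    rw [one_mul] at h3
    filter_upwards [h3.eventually_const_lt ((le_max_left _ _).trans_lt a1), eventually_ne_atTop 0]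
      with n h4 h5
    refine h4.trans_le (le_of_eq_of_le ?_ (Real.rpow_le_rpow (by positivity) (hδ n) (by positivity)))
    rw [Real.mul_rpow d0.le (by positivity), one_div, Real.pow_rpow_inv_natCast a0.le h5]
  · filter_upwards [(hc K ((h0 0).trans_le (h1 0))).eventually_lt_const ha] with n h4
    exact (Real.rpow_le_rpow (h0 n).le (h1 n) (by positivity)).trans_lt h4

theorem renewal {u p : ℕ → ℝ} (p0 : ∀ n, 0 ≤ p n) (p1 : 0 < p 0) (hp : HasSum p 1) (u0 : 0 < u 0)
    (hu : ∀ n, u (n + 1) = ∑ q ∈ antidiagonal n, p q.1 * u q.2) :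
    (∀ n, 0 < u n) ∧ (∀ n, u n ≤ u 0) ∧
      ∀ θ, 0 < θ → θ < 1 → ∃ δ > 0, ∀ n, δ * θ ^ n ≤ u n := by
  have e : ∀ n, ∑ q ∈ antidiagonal n, p q.1 = ∑ i ∈ range (n + 1), p i := fun n =>
    Finset.Nat.sum_antidiagonal_eq_sum_range_succ (fun i _ => p i) n
  have h0 : ∀ n, 0 < u n := fun n => by
    induction n using Nat.strong_induction_on with
    | _ n ih =>
      rcases n with _ | n
      · exact u0
      rw [hu]
      refine sum_pos' (fun q hq => mul_nonneg (p0 _) (ih _ ?_).le) ⟨(0, n), by simp, ?_⟩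
      · have := mem_antidiagonal.1 hq
        omega
      · exact mul_pos p1 (ih _ n.lt_succ_self)
  refine ⟨h0, fun n => ?_, fun θ t0 t1 => ?_⟩
  · induction n using Nat.strong_induction_on with
    | _ n ih =>
      rcases n with _ | n
      · exact le_rfl
      rw [hu]
      refine (sum_le_sum fun q hq => mul_le_mul_of_nonneg_left (ih q.2 ?_) (p0 _)).trans ?_
      · have := mem_antidiagonal.1 hq
        omega
      rw [← sum_mul, e]
      exact mul_le_of_le_one_left u0.le (sum_le_hasSum _ (fun i _ => p0 i) hp)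
  obtain ⟨N, hN⟩ := eventually_atTop.1 (hp.tendsto_sum_nat.eventually_const_lt t1)
  obtain ⟨m, -, hm⟩ := (range (N + 1)).exists_min_image u ⟨0, by simp⟩
  refine ⟨u m, h0 m, fun n => ?_⟩
  have um := h0 m
  induction n using Nat.strong_induction_on with
  | _ n ih =>
    rcases le_or_gt n N with h | h
    · exact (mul_le_of_le_one_right um.le (pow_le_one₀ t0.le t1.le)).trans
        (hm n (mem_range.2 (by omega)))
    obtain ⟨n, rfl⟩ : ∃ m, n = m + 1 := ⟨n - 1, by omega⟩
    rw [hu]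
    refine le_trans ?_ (sum_le_sum (f := fun q => p q.1 * (u m * θ ^ n)) fun q hq =>
      mul_le_mul_of_nonneg_left (le_trans ?_ (ih q.2 ?_)) (p0 _))
    · rw [← sum_mul, e, pow_succ, ← mul_assoc, mul_comm]
      exact mul_le_mul_of_nonneg_right (hN _ h.le).le (by positivity)
    · have := mem_antidiagonal.1 hq
      exact mul_le_mul_of_nonneg_left (pow_le_pow_of_le_one t0.le t1.le (by omega)) um.le
    · have := mem_antidiagonal.1 hq
      omega

variable {G : Type} [Group G] {S : Finset G}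

theorem exists_hy (h1 : 1 ∉ S) (hS : S.Nonempty) : ∃ r μ, Hy (sawGF S) r μ ∧
    ∀ k, 3 ≤ k → IsConn (gens k S) (μ k) := by
  have d1 : (1 : ℝ) ≤ #S := by exact_mod_cast hS.card_pos
  set r : ℝ := 1 / (2 * #S) with hr
  have r0 : 0 < r := by positivity
  have tb : ∀ z ∈ Set.Icc 0 r, ∀ n, ‖(saw S n : ℝ) * z ^ n‖ ≤ (1 / 2) ^ n := fun z hz n => by
    have : (saw S n : ℝ) ≤ #S ^ n := by exact_mod_cast saw_le S n
    have z0 := hz.1
    rw [Real.norm_of_nonneg (by positivity), show (1 / 2 : ℝ) = #S * r by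
      rw [hr]; field_simp, mul_pow]
    gcongr
    exact hz.2
  have sm : ∀ z ∈ Set.Icc 0 r, Summable fun n => (saw S n : ℝ) * z ^ n := fun z hz =>
    .of_norm_bounded summable_geometric_two (tb z hz)
  have ct : ContinuousOn (fun z => ∑' n, (saw S n : ℝ) * z ^ n) (Set.Icc 0 r) :=
    continuousOn_tsum (fun n => by fun_prop) summable_geometric_two fun n z hz => tb z hz n
  have c1 : (#S : ℝ) ≤ saw S 1 := by exact_mod_cast saw_one h1
  have lo : ∀ z ∈ Set.Icc 0 r, 1 + #S * z ≤ ∑' n, (saw S n : ℝ) * z ^ n := fun z hz => by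
    have z0 := hz.1
    refine le_trans ?_ ((sm z hz).sum_le_tsum (range 2) fun n _ => by positivity)
    simp only [sum_range_succ, range_zero, sum_empty, saw_zero, Nat.cast_one, pow_zero, mul_one,
      zero_add, pow_one]
    gcongr
  have ex : ∀ k : ℕ, ∃ z : ℝ, 3 ≤ k → z ∈ Set.Icc 0 r ∧ ∑' n, (saw S n : ℝ) * z ^ n = k / (k - 1) :=
    fun k => by
    by_cases hk : 3 ≤ k
    swap
    · exact ⟨0, fun h => absurd h hk⟩
    have : (3 : ℝ) ≤ k := by exact_mod_cast hk
    obtain ⟨z, hz⟩ := intermediate_value_Icc r0.le ct (show (k / (k - 1) : ℝ) ∈ _ from ⟨by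
      rw [tsum_eq_single 0 fun n hn => by simp [hn], saw_zero, le_div_iff₀ (by linarith)]
      simp, le_trans (by
        rw [div_le_iff₀ (by linarith), show (#S : ℝ) * r = 1 / 2 by rw [hr]; field_simp]
        linarith) (lo r ⟨r0.le, le_rfl⟩)⟩)
    exact ⟨z, fun _ => hz⟩
  choose z hz using ex
  have z0 : ∀ k, 3 ≤ k → 0 < z k := fun k hk => (hz k hk).1.1.lt_of_ne fun e => by
    have h2 := (hz k hk).2
    have : (3 : ℝ) ≤ k := by exact_mod_cast hk
    rw [← e, tsum_eq_single 0 fun n hn => by simp [hn], saw_zero, eq_div_iff (by linarith)] at h2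
    simp only [Nat.cast_one, pow_zero, mul_one, one_mul] at h2
    linarith
  refine ⟨r, fun k => (z k)⁻¹, ⟨r0, fun k hk => ⟨?_, by simpa using (hz k hk).1.2, ?_, ?_⟩⟩,
    fun k hk => ?_⟩
  · have : (3 : ℝ) ≤ k := by exact_mod_cast hk
    have h2 := lo _ (hz k hk).1
    rw [(hz k hk).2, le_div_iff₀ (by linarith)] at h2
    change _ ≤ (z k)⁻¹
    rw [← one_div, le_div_iff₀ (z0 k hk)]
    nlinarith [mul_le_mul_of_nonneg_right d1 (mul_pos (z0 k hk) (show (0 : ℝ) < k - 1 by linarith)).le]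
  · simpa [tm, sawGF, abs_of_pos r0] using sm r ⟨r0.le, le_rfl⟩
  · have := (sm _ (hz k hk).1).hasSum
    rw [(hz k hk).2] at this
    rw [inv_inv]
    exact this.congr_fun fun n => by simp [tm, sawGF]
  have k3 : (3 : ℝ) ≤ k := by exact_mod_cast hk
  have k1 : (0 : ℝ) < k - 1 := by linarith
  have zk := z0 k hk
  have e : ∀ n, (FJ k S (n + 1) : ℝ) = (k - 1) * saw (gens k S) (n + 1) := fun n => by
    have : (FJ k S (n + 1) : ℝ) + saw (gens k S) (n + 1) = k * saw (gens k S) (n + 1) := by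
      exact_mod_cast FJ_succ h1 n
    linarith
  have hs := (hasSum_nat_add_iff' 1).2 (sm _ (hz k hk).1).hasSum
  rw [(hz k hk).2] at hs
  obtain ⟨a1, a2, a3⟩ := renewal (u := fun n => FJ k S n * z k ^ n / (k - 1))
    (p := fun n => (k - 1) * (saw S (n + 1) * z k ^ (n + 1))) (fun n => by positivity)
    (by have := d1.trans c1; positivity) ((congrArg (fun v => HasSum (fun n =>
      (k - 1 : ℝ) * (saw S (n + 1) * z k ^ (n + 1))) v) (by
      simp only [sum_range_one, saw_zero, Nat.cast_one, pow_zero, mul_one]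
      field_simp
      ring)).mp (hs.mul_left (k - 1 : ℝ))) (by rw [FJ_zero]; positivity) fun n => by
      rw [e, mul_assoc, mul_div_cancel_left₀ _ k1.ne', saw_succ h1, Nat.cast_sum, sum_mul]
      refine sum_congr rfl fun q hq => ?_
      rw [← mem_antidiagonal.1 hq]
      push_cast
      field_simp
      ring
  have h3 := (root_lim a1 a2 a3).mul_const (z k)⁻¹
  rw [one_mul] at h3
  refine h3.congr' ?_
  filter_upwards [eventually_ne_atTop 0] with n hn
  obtain ⟨n, rfl⟩ := Nat.exists_eq_succ_of_ne_zero hn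
  rw [e, mul_assoc, mul_div_cancel_left₀ _ k1.ne', Real.mul_rpow (by positivity) (by positivity),
    one_div, Real.pow_rpow_inv_natCast zk.le hn, mul_inv_cancel_right₀ zk.ne']

end Pool.Agent.Lib.MP_820104_pr
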