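import Pool.Agent.Lib.MP_820104_pr.TbBook
import Pool.Agent.Lib.MP_820104_pr.HS
import Pool.Agent.Lib.MP_820104_pr.Ren

/-! Consequences of the transcendence of the generating function. -/

noncomputable section

namespace Pool.Agent.Lib.MP_820104_pr.Tb

open Finset Polynomial Filter
open scoped Classical

theorem card_gens {G : Type} [Group G] {S : Finset G} (h1 : 1 ∉ S) (k : ℕ) :
    #(gens k S) = k * #S := by
  rw [gens, card_image₂_iff.2, card_univ, Fintype.card_fin]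
  rintro ⟨j, s⟩ ⟨-, hs⟩ ⟨j', s'⟩ ⟨-, hs'⟩ e
  obtain rfl : j = j' := Option.some.inj ((fi_inc fun h : s = 1 => h1 (h ▸ hs)).symm.trans
    ((congrArg MP_820104_pr.fi e).trans (fi_inc fun h : s' = 1 => h1 (h ▸ hs'))))
  exact congrArg _ (Monoid.CoprodI.of_injective j e)

theorem fin_base : ∃ (G : Type) (_ : Group G) (S : Finset G), 1 ∉ S ∧ S.Nonempty ∧
    sawGF S = sawGF (DD.image ia) ∧ ∀ k, 1 ∉ gens k S ∧ (∀ s ∈ gens k S, s⁻¹ ∈ gens k S) ∧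
      Subgroup.closure (gens k S : Set (FP G k)) = ⊤ ∧ Planar (gens k S) ∧
        #(gens k S) = k * #S := by
  obtain ⟨G, _, S, α, _, _, o, pg, h1, h2, h3, h4, h5, h6⟩ := exists_cayley
  refine ⟨G, inferInstance, S, h1, h4, by simp only [sawGF, h6], fun k =>
    ⟨one_gens h1, inv_gens h2, closure_gens h3, ?_, card_gens h1 k⟩⟩
  have : Countable (Fin k ×ₗ ℕ ×ₗ α) := inferInstanceAs (Countable (Fin k × ℕ × α))
  exact ((h5.rot h2).free h1 fun a => rot_le _ _).planar (one_gens h1) (inv_gens h2)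

theorem fin_two {P : ℕ → Prop} (h : ∀ k l m, k < l → l < m → P k → P l → ¬P m) :
    ∃ E : Finset ℕ, #E ≤ 2 ∧ ∀ k, P k → k ∈ E := by
  refine ⟨{sInf {k | P k}, sInf {k | P k ∧ k ≠ sInf {k | P k}}}, card_le_two, fun k hk => ?_⟩
  by_contra hn
  rw [mem_insert, mem_singleton, not_or] at hn
  have a := Nat.sInf_mem (s := {k | P k}) ⟨k, hk⟩
  have b := Nat.sInf_mem (s := {k | P k ∧ k ≠ sInf {k | P k}}) ⟨k, hk, hn.1⟩
  exact h _ _ k (lt_of_le_of_ne (Nat.sInf_le b.1) b.2.symm)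
    (lt_of_le_of_ne (Nat.sInf_le ⟨hk, hn.1⟩) (Ne.symm hn.2)) a b.1 hk

theorem non_holonomic (h : ¬IsAlgebraic ℤ[X] (sawGF (DD.image ia))) :
    ∃ (G : Type) (_ : Group G) (S : Finset G) (E : Finset ℕ), #E ≤ 2 ∧ ∀ k, 1 ≤ k → k ∉ E →
      1 ∉ gens k S ∧ (∀ s ∈ gens k S, s⁻¹ ∈ gens k S) ∧
      Subgroup.closure (gens k S : Set (FP G k)) = ⊤ ∧ Planar (gens k S) ∧ #(gens k S) = k * #S ∧
      LinearIndependent ℤ[X] fun i : ℕ => (PowerSeries.derivative ℤ)^[i] (sawGF (gens k S)) := by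
  obtain ⟨G, _, S, h1, -, h2, h3⟩ := fin_base
  obtain ⟨E, hE, hk⟩ := fin_two (P := fun k => 1 ≤ k ∧ ¬LinearIndependent ℤ[X] fun i : ℕ =>
      (PowerSeries.derivative ℤ)^[i] (sawGF (gens k S))) fun k l m a b c d e =>
    h (h2 ▸ alg_of_three h1 c.1 a b fun j hj => by
      simp only [mem_insert, mem_singleton] at hj
      rcases hj with rfl | rfl | rfl
      exacts [c.2, d.2, e.2])
  refine ⟨G, inferInstance, S, E, hE, fun k a b => ?_⟩
  obtain ⟨c1, c2, c3, c4, c5⟩ := h3 k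
  exact ⟨c1, c2, c3, c4, c5, not_not.1 fun e => b (hk k ⟨a, e⟩)⟩

theorem big_height (h : ¬IsAlgebraic ℤ[X] (sawGF (DD.image ia))) :
    ∃ (G : Type) (_ : Group G) (S : Finset G) (μ : ℕ → ℝ),
      (∀ k, 3 ≤ k → 1 ∉ gens k S ∧ (∀ s ∈ gens k S, s⁻¹ ∈ gens k S) ∧
        Subgroup.closure (gens k S : Set (FP G k)) = ⊤ ∧ Planar (gens k S) ∧
        #(gens k S) = k * #S ∧ IsConn (gens k S) (μ k)) ∧
      ∀ D B : ℕ, ∀ᶠ k in atTop, ¬AlgLe D (k ^ B) (μ k) := by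
  obtain ⟨G, _, S, h1, h0, h2, h3⟩ := fin_base
  obtain ⟨r, μ, a, b⟩ := exists_hy h1 h0
  refine ⟨G, inferInstance, S, μ, fun k hk => ?_, fun D B =>
    not_frequently.1 fun e => h (h2 ▸ a.alg e)⟩
  obtain ⟨c1, c2, c3, c4, c5⟩ := h3 k
  exact ⟨c1, c2, c3, c4, c5, b k hk⟩

end Pool.Agent.Lib.MP_820104_pr.Tb
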