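import Mathlib

/-! A symmetric rank two perturbation: the parameter is algebraic once the total sum is. -/

noncomputable section

namespace Pool.Agent.Lib.MP_820104_pr

open Finset Polynomial Matrix

/-- differentiate `M Y = d` and pair with `Y` -/
theorem rk_core {K : Type*} [CommRing K] {n : ℕ} {N : Fin n → Fin n → K}
    (hs : ∀ a b, N a b = N b a) {α ε : Fin n → K} {Y : Fin n → K[X]} {d : K[X]}
    (hY : ∀ a, ∑ b, (C (N a b) + X * C (α a * ε b + ε a * α b)) * Y b = d) :
    2 * (∑ a, C (α a) * Y a) * (∑ a, C (ε a) * Y a) + d * derivative (∑ a, Y a) =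
      derivative d * ∑ a, Y a := by
  have h1 : ∀ a, derivative d * Y a = ∑ b, (C (α a) * Y a * (C (ε b) * Y b) +
      C (ε a) * Y a * (C (α b) * Y b) +
      (C (N b a) + X * C (α b * ε a + ε b * α a)) * Y a * derivative (Y b)) := fun a => by
    rw [← hY a, derivative_sum, sum_mul]
    refine sum_congr rfl fun b _ => ?_
    simp only [derivative_mul, derivative_C, derivative_X, hs a b, map_add, map_mul]
    ring
  rw [mul_sum _ _ (derivative d), sum_congr rfl fun a _ => h1 a]
  simp only [sum_add_distrib]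
  rw [← sum_mul_sum, ← sum_mul_sum, sum_comm]
  simp only [← sum_mul, hY]
  rw [← mul_sum, derivative_sum]
  ring

theorem rank_two {A R : Type} [CommRing A] [IsDomain A] [Infinite A] [CommRing R] [IsDomain R]
    [Algebra A R] (hi : Function.Injective (algebraMap A R)) (h2 : (2 : R) ≠ 0) {n : ℕ}
    {N : Matrix (Fin n) (Fin n) R} {G α ε : Fin n → R} {χ D θ : R} (hN : N.det ≠ 0)
    (hs : N.IsSymm) (hG : N *ᵥ G = fun _ => χ) (hD : D ≠ 0)
    (a1 : ∀ a b, IsAlgebraic A (D * N a b - θ * (α a * ε b + ε a * α b)))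
    (a2 : ∀ a, IsAlgebraic A (α a)) (a3 : ∀ a, IsAlgebraic A (ε a)) (a4 : IsAlgebraic A D)
    (a5 : IsAlgebraic A χ) (a6 : IsAlgebraic A (∑ a, G a)) (hp : α ⬝ᵥ G ≠ 0) (hq : ε ⬝ᵥ G ≠ 0) :
    IsAlgebraic A θ := by
  by_contra ht
  have _ := hi
  let K := Subalgebra.algebraicClosure A R
  have inj : Function.Injective (aeval θ : K[X] →ₐ[K] R) :=
    transcendental_iff_injective.1 (Transcendental.subalgebraAlgebraicClosure ht)
  let N0 : Fin n → Fin n → K := fun a b => ⟨_, a1 a b⟩
  let α0 : Fin n → K := fun a => ⟨_, a2 a⟩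
  let ε0 : Fin n → K := fun a => ⟨_, a3 a⟩
  let w : K := ⟨_, a4.mul a5⟩
  let s : K := ⟨_, a6⟩
  let M : Matrix (Fin n) (Fin n) K[X] :=
    Matrix.of fun a b => C (N0 a b) + X * C (α0 a * ε0 b + ε0 a * α0 b)
  have eC : ∀ k : K, aeval θ (C k) = k.1 := fun k => aeval_C _ _
  have hM : ∀ a b, aeval θ (M a b) = D * N a b := fun a b => by
    simp only [M, Matrix.of_apply, map_add, map_mul, aeval_X, eC, N0, α0, ε0]
    ring
  let Y : Fin n → K[X] := M.adjugate *ᵥ fun _ => 1
  have hY : ∀ a, ∑ b, M a b * Y b = M.det := fun a => by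
    have : M *ᵥ Y = M.det • fun _ => 1 := by
      simp only [Y, mulVec_mulVec, mul_adjugate, smul_mulVec, one_mulVec]
    simpa [mulVec, dotProduct] using congrFun this a
  have hd : aeval θ M.det ≠ 0 := by
    have : (aeval θ : K[X] →ₐ[K] R).mapMatrix M = D • N := by
      ext a b
      simpa using hM a b
    rw [AlgHom.map_det, this, det_smul]
    exact mul_ne_zero (pow_ne_zero _ hD) hN
  have hYG : ∀ a, D * χ * aeval θ (Y a) = aeval θ M.det * G a := fun a => by
    have h0 : N *ᵥ (fun b => D * χ * aeval θ (Y b) - aeval θ M.det * G b) = 0 := by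
      funext b
      have e1 := congrArg (aeval θ) (hY b)
      have e2 := congrFun hG b
      simp only [map_sum, map_mul, hM] at e1
      simp only [mulVec, dotProduct] at e2 ⊢
      have : ∀ c, N b c * (D * χ * aeval θ (Y c) - aeval θ M.det * G c) =
          χ * (D * N b c * aeval θ (Y c)) - aeval θ M.det * (N b c * G c) := fun c => by ring
      simp only [this, sum_sub_distrib, ← mul_sum, e1, e2, Pi.zero_apply]
      ring
    exact sub_eq_zero.1 (congrFun (eq_zero_of_mulVec_eq_zero hN h0) a)
  have hS : C w * ∑ a, Y a = M.det * C s := inj (by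
    simp only [map_mul, map_sum, eC, w, s, mul_sum, hYG])
  have hS' := congrArg derivative hS
  simp only [derivative_mul, derivative_C, zero_mul, zero_add, mul_zero, add_zero] at hS'
  have hc := rk_core (N := N0) (α := α0) (ε := ε0) (fun a b => Subtype.ext (by
    simp only [N0, hs.apply a b]
    ring)) hY
  have hz : 2 * (∑ a, C (α0 a) * (C w * Y a)) * ∑ a, C (ε0 a) * (C w * Y a) = 0 := by
    simp only [mul_left_comm _ (C w), ← mul_sum]
    linear_combination C w ^ 2 * hc - C w * M.det * hS' + C w * derivative M.det * hS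
  have := congrArg (aeval θ) hz
  simp only [map_mul, map_sum, eC, w, α0, ε0, hYG, map_zero, mul_left_comm _ (aeval θ M.det),
    ← mul_sum, map_ofNat] at this
  exact mul_ne_zero (mul_ne_zero hd (mul_ne_zero h2 hp)) (mul_ne_zero hd hq) (by
    rw [← this, dotProduct, dotProduct]
    ring)

end Pool.Agent.Lib.MP_820104_pr
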