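import Mathlib

/-! A one sided theta series in characteristic three is not algebraic over the polynomials. -/

noncomputable section

namespace Pool.Agent.Lib.MP_820104_pr

open Finset Polynomial

/-- powers of an algebraic element are linearly dependent -/
theorem th_dep {A R : Type*} [CommRing A] [IsDomain A] [CommRing R] [Algebra A R] {θ : R}
    (h : IsAlgebraic A θ) (e : ℕ → ℕ) :
    ∃ (s : Finset ℕ) (g : ℕ → A), ∑ i ∈ s, g i • θ ^ e i = 0 ∧ ∃ i ∈ s, g i ≠ 0 := by
  obtain ⟨c, hc, hi⟩ := h.exists_integral_multiple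
  have := Algebra.finite_adjoin_simple_of_isIntegral hi
  have hd := Module.Finite.not_linearIndependent_of_infinite (R := A)
    (fun i : ℕ => (⟨c • θ, Algebra.subset_adjoin rfl⟩ : Algebra.adjoin A {c • θ}) ^ e i)
  obtain ⟨s, g, h0, i, hi, hg⟩ := not_linearIndependent_iff.1 hd
  refine ⟨s, fun i => g i * c ^ e i, ?_, i, hi, mul_ne_zero hg (pow_ne_zero _ hc)⟩
  have := congrArg Subtype.val h0
  simpa [mul_smul, _root_.smul_pow] using this

/-- the same with coefficients that are polynomials in a nonconstant `t` -/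
theorem th_rel {K R : Type*} [Field K] [CommRing R] [Algebra K[X] R] {t : K[X]}
    (ht : t.natDegree ≠ 0) {θ : R} (h : IsAlgebraic K[X] θ) (e : ℕ → ℕ) :
    ∃ (s : Finset ℕ) (b : ℕ → K[X]),
      ∑ i ∈ s, algebraMap K[X] R (aeval t (b i)) * θ ^ e i = 0 ∧ ∃ i ∈ s, b i ≠ 0 := by
  set A := Algebra.adjoin K {t} with hA
  have hX : IsAlgebraic A (X : K[X]) := by
    refine ⟨t.map (algebraMap K A) - C ⟨t, Algebra.subset_adjoin rfl⟩, fun h0 => ?_, ?_⟩
    · have := congrArg natDegree h0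
      rw [natDegree_sub_C, natDegree_map_eq_of_injective (algebraMap K A).injective] at this
      exact ht (by simpa using this)
    · simp [aeval_map_algebraMap, Subalgebra.algebraMap_eq]
  have hal : Algebra.IsAlgebraic A K[X] := ⟨fun p => by
    induction p using Polynomial.induction_on' with
    | add p q hp hq => exact hp.add hq
    | monomial n a =>
      rw [← C_mul_X_pow_eq_monomial]
      exact (isAlgebraic_algebraMap (algebraMap K A a)).mul (hX.pow n)⟩
  obtain ⟨s, g, h0, i, hi, hg⟩ := th_dep (h.restrictScalars A) e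
  choose b hb using fun i => Algebra.adjoin_mem_exists_aeval K t (g i).2
  refine ⟨s, b, ?_, i, hi, fun h1 => hg (Subtype.ext ?_)⟩
  · rw [← h0]
    refine sum_congr rfl fun j _ => ?_
    rw [hb, ← Algebra.smul_def]
    rfl
  · rw [← hb, h1]
    simp

/-- finite stages of the recursion -/
def thP {R : Type*} [CommRing R] (u : R) : ℕ → ℕ → R
  | 0, _ => 0
  | M + 1, n => 1 - u ^ (n + 1) * thP u M (n + 1)

theorem thP_step {R : Type*} [CommRing R] {u x : R} (h : x ∣ u) (M : ℕ) :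
    ∀ n, x ^ M ∣ thP u (M + 1) n - thP u M n := by
  induction M with
  | zero => simp
  | succ M ih =>
    intro n
    have e : thP u (M + 1 + 1) n - thP u (M + 1) n =
        -(u ^ (n + 1) * (thP u (M + 1) (n + 1) - thP u M (n + 1))) := by
      rw [thP.eq_2 u n (M + 1), thP.eq_2 u n M]
      ring
    rw [e, pow_succ', dvd_neg]
    exact mul_dvd_mul (h.trans (dvd_pow_self u (by omega))) (ih _)

theorem thP_le {R : Type*} [CommRing R] {u x : R} (h : x ∣ u) (n : ℕ) {k M : ℕ} (hk : k ≤ M) :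
    x ^ k ∣ thP u M n - thP u k n := by
  induction M, hk using Nat.le_induction with
  | base => simp
  | succ M hk ih =>
    have := dvd_add ((pow_dvd_pow x hk).trans (thP_step h M n)) ih
    simpa using this

theorem th_exists {K : Type*} [CommRing K] {u : PowerSeries K} (h : PowerSeries.X ∣ u) :
    ∃ θ : ℕ → PowerSeries K, ∀ n, θ n = 1 - u ^ (n + 1) * θ (n + 1) := by
  let θ : ℕ → PowerSeries K := fun n =>
    PowerSeries.mk fun k => PowerSeries.coeff k (thP u (k + 1) n)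
  have hθ : ∀ k n, PowerSeries.X ^ k ∣ θ n - thP u k n := fun k n => by
    refine PowerSeries.X_pow_dvd_iff.2 fun j hj => ?_
    have := PowerSeries.X_pow_dvd_iff.1 (thP_le h n (show j + 1 ≤ k from hj)) j (by omega)
    rw [map_sub, sub_eq_zero] at this ⊢
    rw [this]
    exact PowerSeries.coeff_mk _ _
  refine ⟨θ, fun n => PowerSeries.ext fun k => ?_⟩
  have h1 := dvd_add ((pow_dvd_pow _ (Nat.le_succ _)).trans (hθ (k + 1 + 1) n))
    ((hθ (k + 1) (n + 1)).mul_left (u ^ (n + 1)))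
  have e : θ n - thP u (k + 1 + 1) n + u ^ (n + 1) * (θ (n + 1) - thP u (k + 1) (n + 1)) =
      θ n - (1 - u ^ (n + 1) * θ (n + 1)) := by
    rw [thP.eq_2 u n (k + 1)]
    ring
  have := PowerSeries.X_pow_dvd_iff.1 (e ▸ h1) k (by omega)
  rwa [map_sub, sub_eq_zero] at this

/-- the exponents `m (m + 5) / 2` -/
def thE : ℕ → ℕ
  | 0 => 0
  | m + 1 => thE m + (m + 2 + 1)

theorem thE_sq (m : ℕ) : 8 * thE m + 25 = (2 * m + 5) ^ 2 := by
  induction m with
  | zero => simp [thE]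
  | succ m ih => rw [thE]; linarith

theorem le_thE (m : ℕ) : m ≤ thE m := by
  induction m with
  | zero => simp
  | succ m ih => rw [thE]; omega

theorem th_trunc {R : Type*} [CommRing R] {u : R} {θ : ℕ → R}
    (h : ∀ n, θ n = 1 - u ^ (n + 1) * θ (n + 1)) (M : ℕ) :
    θ 2 = ∑ m ∈ range M, (-1) ^ m * u ^ thE m + (-1) ^ M * u ^ thE M * θ (M + 2) := by
  induction M with
  | zero => simp [thE]
  | succ M ih =>
    rw [sum_range_succ, ih, h (M + 2), thE]
    ring

theorem th_lift {K : Type*} [Field K] {u : PowerSeries K} (h : PowerSeries.X ∣ u) (h0 : u ≠ 0)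
    (N : ℕ) : ∀ p : K[X], u ^ N ∣ aeval u p → X ^ N ∣ p := by
  induction N with
  | zero => simp
  | succ N ih =>
    intro p hp
    have e := p.X_mul_divX_add
    have e1 : aeval u p = u * aeval u p.divX + PowerSeries.C (p.coeff 0) := by
      conv_lhs => rw [← e]
      rw [map_add, map_mul, aeval_X, aeval_C]
      rfl
    have h1 : u ∣ aeval u p := (dvd_pow_self u (by omega)).trans hp
    rw [e1, dvd_add_right (dvd_mul_right _ _)] at h1
    have h2 : p.coeff 0 = 0 := by simpa using PowerSeries.X_dvd_iff.1 (h.trans h1)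
    rw [e1, h2, map_zero, add_zero, pow_succ', mul_dvd_mul_iff_left h0] at hp
    rw [← e, h2, map_zero, add_zero, pow_succ']
    exact mul_dvd_mul_left _ (ih _ hp)

theorem th_sq {x y C a b : ℕ} (hx : C < x) (ha : a ≤ C) (hb : b ≤ C)
    (h : y ^ 2 + a = x ^ 2 + b) : y = x := by
  rcases lt_trichotomy y x with h1 | h1 | h1
  · nlinarith
  · exact h1
  · nlinarith

theorem th_arith {i0 i I j j0 D c m : ℕ} (h0 : i0 ≤ i) (hi : i ≤ I) (hj : j ≤ D) (hj0 : j0 ≤ D)
    (hc : 8 * D + 25 * 3 ^ (2 * I) ≤ c)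
    (h : thE m * 3 ^ (2 * i) + j = thE (3 * c) * 3 ^ (2 * i0) + j0) : i = i0 ∧ m = 3 * c := by
  have p1 : 3 ^ (2 * i) ≤ 3 ^ (2 * I) := Nat.pow_le_pow_right (by omega) (by omega)
  have p2 : 3 ^ (2 * i0) ≤ 3 ^ (2 * I) := Nat.pow_le_pow_right (by omega) (by omega)
  have q : ∀ k n : ℕ, (3 ^ k * (2 * n + 5)) ^ 2 = 8 * (thE n * 3 ^ (2 * k)) + 25 * 3 ^ (2 * k) :=
    fun k n => by rw [mul_pow, ← thE_sq, ← pow_mul, mul_comm k 2]; ring
  have hx : c < 3 ^ i0 * (2 * (3 * c) + 5) :=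
    lt_of_lt_of_le (by omega) (Nat.le_mul_of_pos_left _ (by positivity))
  have := th_sq (y := 3 ^ i * (2 * m + 5)) (a := 8 * j + 25 * 3 ^ (2 * i0))
    (b := 8 * j0 + 25 * 3 ^ (2 * i)) hx (by omega) (by omega) (by rw [q, q]; omega)
  obtain ⟨k, rfl⟩ := Nat.exists_eq_add_of_le h0
  rw [pow_add, mul_assoc, Nat.mul_right_inj (by positivity)] at this
  cases k with
  | zero => omega
  | succ k =>
    rw [pow_succ', mul_assoc] at this
    omega

theorem th_coeff {K : Type*} [Field K] [CharP K 3] {s : Finset ℕ} {b : ℕ → K[X]}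
    (hb : ∃ i ∈ s, b i ≠ 0) : ∃ M, ¬X ^ thE M ∣
      ∑ i ∈ s, b i * (∑ m ∈ range M, (-1) ^ m * X ^ thE m) ^ 3 ^ (2 * i) := by
  classical
  obtain ⟨hi0, hb0⟩ := Nat.find_spec hb
  set i0 := Nat.find hb with hi
  set c := 8 * (s.sup fun i => (b i).natDegree) + 25 * 3 ^ (2 * s.sup id) with hc
  set N := thE (3 * c) * 3 ^ (2 * i0) + (b i0).natDegree with hN
  refine ⟨N + 1, fun h => ?_⟩
  have h1 := X_pow_dvd_iff.1 h N (le_thE (N + 1))
  have key : ∀ i ∈ s, ∀ m, ¬(i = i0 ∧ m = 3 * c) →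
      (b i * ((-1) ^ m * X ^ thE m) ^ 3 ^ (2 * i)).coeff N = 0 := fun i his m hne => by
    by_contra h2
    have e : b i * ((-1) ^ m * X ^ thE m) ^ 3 ^ (2 * i) =
        C (((-1) ^ m) ^ 3 ^ (2 * i)) * b i * X ^ (thE m * 3 ^ (2 * i)) := by
      simp only [map_pow, map_neg, map_one, mul_pow, pow_mul]
      ring
    rw [e, coeff_mul_X_pow'] at h2
    split_ifs at h2 with h3
    · rw [coeff_C_mul] at h2
      have h4 := right_ne_zero_of_mul h2
      have h5 : b i ≠ 0 := fun h => h4 (by simp [h])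
      exact hne (th_arith (Nat.find_min' hb ⟨his, h5⟩) (le_sup (f := id) his)
        ((le_natDegree_of_ne_zero h4).trans (le_sup (f := fun i => (b i).natDegree) his))
        (le_sup (f := fun i => (b i).natDegree) hi0) hc.ge (by omega))
    · exact h2 rfl
  have hm : 3 * c ∈ range (N + 1) := by
    have := le_thE (3 * c)
    have := Nat.le_mul_of_pos_right (thE (3 * c)) (show 0 < 3 ^ (2 * i0) by positivity)
    rw [mem_range]
    omega
  simp only [sum_pow_char_pow, mul_sum, finsetSum_coeff] at h1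
  rw [sum_eq_single_of_mem i0 hi0 fun i his hne => sum_eq_zero fun m _ =>
      key i his m fun h => hne h.1,
    sum_eq_single_of_mem _ hm fun m _ hne => key i0 hi0 m fun h => hne h.2] at h1
  have e : b i0 * ((-1) ^ (3 * c) * X ^ thE (3 * c)) ^ 3 ^ (2 * i0) =
      C (((-1) ^ (3 * c)) ^ 3 ^ (2 * i0)) * b i0 * X ^ (thE (3 * c) * 3 ^ (2 * i0)) := by
    simp only [map_pow, map_neg, map_one, mul_pow, pow_mul]
    ring
  rw [e, hN, add_comm, coeff_mul_X_pow, coeff_C_mul] at h1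
  exact mul_ne_zero (by simp) (leadingCoeff_ne_zero.2 hb0) h1

theorem th_main {K : Type*} [Field K] [CharP K 3] (t : K[X]) (h0 : t.coeff 0 = 0) (h : t ≠ 0) :
    ∃ θ : ℕ → PowerSeries K,
      (∀ n, θ n = 1 - (t : PowerSeries K) ^ (n + 1) * θ (n + 1)) ∧ ¬IsAlgebraic K[X] (θ 2) := by
  have hX : PowerSeries.X ∣ (t : PowerSeries K) := PowerSeries.X_dvd_iff.2 (by simpa using h0)
  have hu : (t : PowerSeries K) ≠ 0 := by simpa using h
  obtain ⟨θ, hθ⟩ := th_exists hX
  refine ⟨θ, hθ, fun ha => ?_⟩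
  have ht : t.natDegree ≠ 0 := fun h1 => h (by rw [eq_C_of_natDegree_eq_zero h1, h0, map_zero])
  obtain ⟨s, b, hr, hb⟩ := th_rel ht ha fun i => 3 ^ (2 * i)
  obtain ⟨M, hM⟩ := th_coeff hb
  refine hM (th_lift hX hu _ _ ?_)
  have e : ∀ p : K[X], algebraMap K[X] (PowerSeries K) (aeval t p) =
      aeval (t : PowerSeries K) p := fun p =>
    (aeval_algHom_apply (coeToPowerSeries.algHom K) t p).symm.trans (by simp)
  have d : (t : PowerSeries K) ^ thE M ∣
      aeval (t : PowerSeries K) (∑ m ∈ range M, (-1) ^ m * X ^ thE m : K[X]) - θ 2 := by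
    rw [th_trunc hθ M]
    simp only [map_sum, map_mul, map_pow, map_neg, map_one, aeval_X, sub_add_cancel_left, dvd_neg]
    exact (dvd_mul_left _ _).mul_right _
  rw [← sub_zero (aeval _ _), ← hr, map_sum, ← sum_sub_distrib]
  refine dvd_sum fun i _ => ?_
  rw [e, map_mul, map_pow, ← mul_sub]
  exact (d.trans (sub_dvd_pow_sub_pow _ _ _)).mul_left _

theorem theta_tr (t : (ZMod 3)[X]) (h0 : t.coeff 0 = 0) (h : t ≠ 0) :
    ∃ θ : ℕ → PowerSeries (ZMod 3),
      (∀ n, θ n = 1 - (t : PowerSeries (ZMod 3)) ^ (n + 1) * θ (n + 1)) ∧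
        ¬IsAlgebraic (ZMod 3)[X] (θ 2) :=
  th_main t h0 h

end Pool.Agent.Lib.MP_820104_pr
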