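import Pool.Agent.Lib.MP_820104_pr.SumS
import Pool.Agent.Lib.MP_820104_pr.Theta
import Pool.Agent.Lib.MP_820104_pr.Rank2
import Pool.Agent.Lib.MP_820104_pr.FinA

/-! The generating function of the self-avoiding walks is not algebraic. -/

noncomputable section

namespace Pool.Agent.Lib.MP_820104_pr.Tb

open Finset Polynomial Matrix
open scoped Classical

theorem alg_mod {f : PowerSeries ℤ} (h : IsAlgebraic ℤ[X] f) :
    IsAlgebraic (ZMod 3)[X] (PowerSeries.map (Int.castRingHom (ZMod 3)) f) := by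
  obtain ⟨P, P0, hP⟩ := h
  have inj : Function.Injective (algebraMap ℤ[X] (PowerSeries ℤ)) := fun p q e =>
    Polynomial.coe_injective ℤ (by simpa [PowerSeries.algebraMap_apply'] using e)
  refine ⟨P.primPart.map (mapRingHom (Int.castRingHom (ZMod 3))), fun e => ?_, ?_⟩
  · have := P.isPrimitive_primPart (C 3) ((C_dvd_iff_dvd_coeff _ _).2 fun i =>
      (C_dvd_iff_dvd_coeff _ _).2 fun j => (ZMod.intCast_zmod_eq_zero_iff_dvd _ 3).1 (by
        simpa using congrArg (fun Q : (ZMod 3)[X][X] => (Q.coeff i).coeff j) e))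
    exact absurd (Int.isUnit_iff.1 (isUnit_C.1 this)) (by decide)
  · rw [← map_aeval_eq_aeval_map (ψ := PowerSeries.map (Int.castRingHom (ZMod 3)))
      (RingHom.ext fun p => by ext n; simp [PowerSeries.algebraMap_apply']),
      show aeval f P.primPart = 0 from eval₂_primPart_eq_zero inj P0 hP, map_zero]

/-- the generating function modulo three -/
def chi : PS := PowerSeries.mk fun n => (saw (DD.image ia) n : ZMod 3)

/-- the walks that leave the block -/
def Gv (b : ℕ) : PS := PowerSeries.mk fun n => (#(GW DD b n) : ZMod 3)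

theorem tg_lt : ∀ {u : List (Ar Kl)} {a : ℕ}, (∀ d ∈ u, d ∈ DD) → a < 108 → tg a u < 108
  | [], _, _, h => h
  | d :: _, _, h, _ => tg_lt (a := d.2.2) (fun e he => h e (List.mem_cons_of_mem _ he))
      (DD_lt _ (DD_inv d (h d List.mem_cons_self)))

theorem Wk_Gv {a : ℕ} (ha : a < 108) : ∑ b ∈ range 108, Wk 1 a b * Gv b = chi := by
  ext n
  simp only [map_sum, PowerSeries.coeff_mul, Wk, Gv, chi, PowerSeries.coeff_mk, ren1 DD_idn a n,
    Nat.cast_sum, sum_mul, Pi.one_apply, ite_mul, one_mul, zero_mul]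
  rw [sum_comm]
  refine sum_congr rfl fun p _ => ?_
  rw [sum_comm]
  refine sum_congr rfl fun u hu => ?_
  rw [sum_ite_eq, if_pos (mem_range.2 (tg_lt (mem_Ls.1 (mem_filter.1 hu).1).2 ha))]

theorem sum_Gv : ∑ b ∈ range 108, Gv b = 107 * chi + 1 := by
  have : ∑ b ∈ range 108, Gv b + chi = (108 : ℕ) • chi + 1 := by
    ext n
    have := congrArg (Nat.cast : ℕ → ZMod 3) (ren2 DD_idn DD_lt n)
    simp only [map_add, map_sum, map_nsmul, Gv, chi, PowerSeries.coeff_mk, PowerSeries.coeff_one]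
    simpa only [nsmul_eq_mul, Nat.cast_add, Nat.cast_sum, Nat.cast_mul, Nat.cast_ite, Nat.cast_one,
      Nat.cast_zero] using this
  rw [nsmul_eq_mul, Nat.cast_ofNat] at this
  linear_combination this

theorem chi_zero : PowerSeries.constantCoeff chi = 1 := by simp [chi, saw_zero]

theorem Wk_zero (a b : ℕ) : PowerSeries.constantCoeff (Wk 1 a b) = if a = b then 1 else 0 := by
  simp [Wk, AW, Ls, filter_singleton, Cmp, NT_nil, tg, apply_ite]

theorem Wk_symm (a b : ℕ) : Wk 1 a b = Wk 1 b a :=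
  congrArg PowerSeries.mk (funext fun n => AW_symm DD_inv (1 : Kl → ZMod 3) a b n)

theorem det_unit {n : ℕ} {N : Matrix (Fin n) (Fin n) PS}
    (h : ∀ a b, PowerSeries.constantCoeff (N a b) = if a = b then 1 else 0) : IsUnit N.det := by
  rw [PowerSeries.isUnit_iff_constantCoeff, RingHom.map_det,
    show (PowerSeries.constantCoeff (R := ZMod 3)).mapMatrix N = 1 from
      Matrix.ext fun a b => (h a b).trans (one_apply ..).symm, det_one]
  exact isUnit_one

theorem dvd_of_mulVec {n : ℕ} {N : Matrix (Fin n) (Fin n) PS} (h : IsUnit N.det) {q : PS}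
    {w : Fin n → PS} (hw : ∀ a, q ∣ (N *ᵥ w) a) (a : Fin n) : q ∣ w a := by
  have e : (N.adjugate *ᵥ (N *ᵥ w)) a = N.det * w a := by
    rw [mulVec_mulVec, adjugate_mul, smul_mulVec, one_mulVec]; rfl
  have : q ∣ ∑ c, N.adjugate a c * (N *ᵥ w) c := dvd_sum fun c _ => (hw c).mul_left _
  exact h.dvd_mul_left.1 (this.trans (dvd_of_eq e))

/-- the matrix of the walks in the block -/
def NM : Matrix (Fin 108) (Fin 108) PS := of fun a b => Wk 1 a b

theorem NM_unit : IsUnit NM.det :=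
  det_unit fun a b => (Wk_zero a b).trans (if_congr Fin.val_inj rfl rfl)

theorem NM_mulVec (w : ℕ → PS) (a : Fin 108) :
    (NM *ᵥ fun b => w b) a = ∑ b ∈ range 108, Wk 1 a b * w b :=
  Fin.sum_univ_eq_sum_range (fun b => Wk 1 a b * w b) 108

theorem Gv_approx (h : NNy) : ∃ K : ℕ → PS, ∀ b < 108, Gv b = chi * yv xx b + xx ^ 4 * K b := by
  have : ∀ b, ∃ k, b < 108 → Gv b = chi * yv xx b + xx ^ 4 * k := fun b => by
    by_cases hb : b < 108
    · obtain ⟨k, hk⟩ := dvd_of_mulVec NM_unit (q := xx ^ 4)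
        (w := fun b => (fun b : ℕ => Gv b - chi * yv xx b) b) (fun a => by
          rw [NM_mulVec fun b : ℕ => Gv b - chi * yv xx b]
          simp only [mul_sub, sum_sub_distrib, Wk_Gv a.2, mul_left_comm _ chi, ← mul_sum]
          convert ((h a a.2).mul_left chi).neg_right using 1
          ring) ⟨b, hb⟩
      exact ⟨k, fun _ => sub_eq_iff_eq_add'.1 hk⟩
    · exact ⟨0, fun h => (hb h).elim⟩
  choose K hK using this
  exact ⟨K, hK⟩

theorem En_c (K : ℕ → PS) (v : ℕ) (S : Finset ℕ) :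
    En xx (fun b _ => K b) v S = ∑ b ∈ range 108, A xx v b one S * K b :=
  sum_congr rfl fun b _ => by rw [← A_mul]; simp only [one_mul]

theorem Z_c (K : ℕ → PS) (u v : ℕ) : ∑ a ∈ range 108, Z xx [(a, v), (u, 100)] ∅ * K a =
    A xx u 100 (En xx (fun b _ => K b) v) ∅ := by
  rw [funext (En_c K v), A_sum]
  refine sum_congr rfl fun a _ => ?_
  rw [A_mul, Z_perm (List.Perm.swap ..)]
  exact congrArg (fun F => A xx u 100 F ∅ * K a) (funext fun S => A_rev)

theorem wp_eq : wp = xx ^ 3 * (1 + 2 * xx ^ 2) := by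
  simp only [wp, map_add, map_mul, map_pow, map_ofNat, ph_X]; ring

theorem wb_eq : wb = xx ^ 9 * (1 + 2 * xx ^ 2 + 2 * xx ^ 6 + xx ^ 8) := by
  simp only [wb, map_add, map_mul, map_pow, map_ofNat, ph_X]; ring

theorem ne_of_cc {c : PS} (h : PowerSeries.constantCoeff c = 1) (r : PS) : c + xx * r ≠ 0 :=
  fun e => by simpa [h] using congrArg PowerSeries.constantCoeff e

theorem xx_ne (k : ℕ) : xx ^ k ≠ 0 := pow_ne_zero _ PowerSeries.X_ne_zero

theorem tt_ne : tt ≠ 0 := by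
  rw [tt, wp_eq, wb_eq]
  refine mul_ne_zero (mul_ne_zero (xx_ne _) (mul_ne_zero (xx_ne _) ?_)) (mul_ne_zero (xx_ne _) ?_)
  · convert ne_of_cc (map_one _) (2 * xx) using 1; ring
  · convert ne_of_cc (map_one _) (2 * xx + 2 * xx ^ 5 + xx ^ 7) using 1; ring

theorem xx_tt : xx ∣ tt := ⟨xx * wp * wb, by rw [tt]; ring⟩

/-- the constant part of a row -/
def uu (b : ℕ) : PS :=
  (1 - tt) * A xx 104 b one ∅ + tt * A xx 101 b one ∅ + xx * wp * A xx 0 b one {106}

/-- the geometric part of a row -/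
def vv (b : ℕ) : PS :=
  -tt * A xx 101 b one ∅ - xx * wp * A xx 0 b one {106} + (1 - tt) * (xx * wp) * A xx 0 b one ∅

/-- the first vector -/
def aa (a : ℕ) : PS := al 2 a - tt ^ 2 * al 1 a + tt ^ 3 * al 0 a

/-- the second vector -/
def ee (b : ℕ) : PS := tt * uu b - vv b

theorem row_eq (n b : ℕ) : (1 - tt) * row n b = uu b + tt ^ n * vv b := by
  have h : ∀ n, (1 - tt) * ∑ r ∈ range (n + 1), tt ^ r *
      (A xx (if r = 0 then 104 else 101) b one ∅ + xx * wp * A xx 0 b one {106}) =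
      uu b - tt ^ (n + 1) * (A xx 101 b one ∅ + xx * wp * A xx 0 b one {106}) := fun n => by
    induction n with
    | zero => rw [sum_range_one, if_pos rfl, uu]; ring
    | succ n ih => rw [sum_range_succ, mul_add, ih, if_neg n.succ_ne_zero]; ring
  have h1 := h n
  rw [sum_range_succ] at h1
  rw [row, sum_range_succ, if_neg (lt_irrefl n),
    sum_congr rfl fun r hr => by rw [if_pos (mem_range.1 hr)], vv]
  linear_combination h1

theorem psi_eq {Ψ : ℕ → ℕ → PS} {θ : ℕ → PS}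
    (h : ∀ n b, Ψ n b = row n b - tt ^ (n + 1) * Ψ (n + 1) b)
    (h' : ∀ n, θ n = 1 - tt ^ (n + 1) * θ (n + 1)) (n b : ℕ) :
    tt * (1 - tt) * Ψ n b = ee b * θ n + vv b := by
  refine eq_of_dvd fun K => ?_
  induction K generalizing n with
  | zero => simp
  | succ K ih =>
    have := (mul_dvd_mul (xx_tt.trans (dvd_pow_self tt n.succ_ne_zero)) (ih (n + 1))).neg_right
    rw [← pow_succ', n.succ_eq_add_one] at this
    convert this using 1
    rw [h n b, h' n, ee]
    linear_combination tt * row_eq n b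

theorem uu_po (b : ℕ) : uu b ∈ Po := add_mem (add_mem (mul_mem (sub_mem (one_mem _) tt_po)
  (A_po _ _ _)) (mul_mem tt_po (A_po _ _ _))) (mul_mem (mul_mem xx_po wp_po) (A_po _ _ _))

theorem vv_po (b : ℕ) : vv b ∈ Po := add_mem (sub_mem (mul_mem (neg_mem tt_po) (A_po _ _ _))
  (mul_mem (mul_mem xx_po wp_po) (A_po _ _ _)))
  (mul_mem (mul_mem (sub_mem (one_mem _) tt_po) (mul_mem xx_po wp_po)) (A_po _ _ _))

theorem ee_po (b : ℕ) : ee b ∈ Po := sub_mem (mul_mem tt_po (uu_po b)) (vv_po b)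

theorem al_po (n a : ℕ) : al n a ∈ Po := by
  have h := mul_mem xx_po tt_po
  unfold al
  split_ifs
  · exact mul_mem xx_po (A_po _ _ _)
  · exact mul_mem (neg_mem h) (add_mem (A_po _ _ _) (mul_mem xx_po (add_mem (Z_po _ _) (Z_po _ _))))
  · exact mul_mem (pow_mem h _) (add_mem (Z_po _ _) (Z_po _ _))

theorem aa_po (a : ℕ) : aa a ∈ Po := add_mem (sub_mem (al_po _ _)
  (mul_mem (pow_mem tt_po _) (al_po _ _))) (mul_mem (pow_mem tt_po _) (al_po _ _))

theorem alg_po {f : PS} (h : f ∈ Po) : IsAlgebraic (ZMod 3)[X] f := by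
  obtain ⟨p, rfl⟩ := h
  exact isAlgebraic_algebraMap p

theorem ee_ne (h : NNy) : ∑ b ∈ range 108, ee b * Gv b ≠ 0 := by
  obtain ⟨K, hK⟩ := Gv_approx h
  obtain ⟨r1, h1⟩ := e1 K
  obtain ⟨r2, h2⟩ := e2
  rw [En_c, En_c] at h1 h2
  have e : ∀ b ∈ range 108, ee b * Gv b = -(xx * wp) * (chi * (A xx 0 b one ∅ * yv xx b -
      A xx 0 b one {106} * yv xx b) + xx ^ 4 * (A xx 0 b one ∅ * K b - A xx 0 b one {106} * K b)) +
      tt * ((uu b + A xx 101 b one ∅ + xx * wp * A xx 0 b one ∅) * Gv b) := fun b hb => by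
    rw [ee, vv, hK b (mem_range.1 hb)]; ring
  rw [sum_congr rfl e]
  simp only [sum_add_distrib, ← mul_sum, sum_sub_distrib]
  generalize ∑ b ∈ range 108, (uu b + A xx 101 b one ∅ + xx * wp * A xx 0 b one ∅) * Gv b = r3
  rw [h1, sub_eq_iff_eq_add.1 h2]
  have := mul_ne_zero (mul_ne_zero (xx_ne 9) (left_ne_zero_of_mul
    (tt_ne : xx ^ 2 * wp * wb ≠ 0))) (ne_of_cc chi_zero (chi * r2 + r1 -
      xx * (1 + 2 * xx ^ 2 + 2 * xx ^ 6 + xx ^ 8) * r3))
  refine fun e => this ?_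
  rw [tt, wb_eq] at e
  linear_combination (-xx ^ 2) * e

theorem aa_ne (h : NNy) : ∑ a ∈ range 108, aa a * Gv a ≠ 0 := by
  obtain ⟨K, hK⟩ := Gv_approx h
  obtain ⟨r1, h1⟩ := a1 (v := 0) rfl (En xx (fun b _ => K b) 107)
  obtain ⟨r2, h2⟩ := a1 (v := 107) rfl (En xx (fun b _ => K b) 0)
  obtain ⟨r3, h3⟩ := a2
  rw [← Z_c] at h1 h2
  rw [← Z_c, ← Z_c] at h3
  have e : ∀ a ∈ range 108, aa a * Gv a = (xx * tt) ^ 2 * (chi *
      (Z xx [(a, 107), (0, 100)] ∅ * yv xx a + Z xx [(a, 0), (107, 100)] ∅ * yv xx a) +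
      xx ^ 4 * (Z xx [(a, 107), (0, 100)] ∅ * K a + Z xx [(a, 0), (107, 100)] ∅ * K a) +
      xx * wp * wb * ((A xx a 100 one ∅ + xx * (Z xx [(a, 107), (0, 92)] ∅ +
        Z xx [(a, 0), (107, 92)] ∅) + A xx a 92 one ∅) * Gv a)) := fun a ha => by
    rw [aa, al, al, al, if_neg (by norm_num), if_neg (by norm_num), if_neg (by norm_num),
      if_pos rfl, if_pos rfl, hK a (mem_range.1 ha), tt]
    ring
  rw [sum_congr rfl e]
  simp only [sum_add_distrib, ← mul_sum]
  generalize ∑ a ∈ range 108, (A xx a 100 one ∅ + xx * (Z xx [(a, 107), (0, 92)] ∅ +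
    Z xx [(a, 0), (107, 92)] ∅) + A xx a 92 one ∅) * Gv a = r4
  rw [h1, h2, sub_eq_iff_eq_add.1 h3]
  refine mul_ne_zero (pow_ne_zero _ (mul_ne_zero PowerSeries.X_ne_zero tt_ne)) ?_
  convert mul_ne_zero (xx_ne 9) (ne_of_cc chi_zero (chi * r3 + r1 + r2 +
    wp * (1 + 2 * xx ^ 2 + 2 * xx ^ 6 + xx ^ 8) * r4)) using 1
  rw [wb_eq]
  ring

theorem not_alg (h1 : Dyn) (h2 : NNy) : ¬IsAlgebraic ℤ[X] (sawGF (DD.image ia)) := fun h => by
  have hc : IsAlgebraic (ZMod 3)[X] chi := by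
    convert alg_mod h using 1
    ext n
    simp [chi, sawGF]
  obtain ⟨Ψ, hΨ, hW⟩ := h1
  have ec : ∀ p : (ZMod 3)[X], algebraMap (ZMod 3)[X] PS p = p := fun p => by
    simp [PowerSeries.algebraMap_apply']
  obtain ⟨t, ht⟩ := tt_po
  rw [ec] at ht
  obtain ⟨θ, hθ, hn⟩ := theta_tr t
    (by simpa [← ht] using PowerSeries.X_dvd_iff.1 xx_tt) fun e => tt_ne (by rw [← ht, e]; simp)
  rw [ht] at hθ
  have hD := mul_mem tt_po (sub_mem (one_mem _) tt_po)
  refine hn (rank_two (N := NM) (G := fun b => Gv b) (α := fun a => aa a) (ε := fun a => ee a)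
    (χ := chi) (D := tt * (1 - tt))
    (fun p q e => Polynomial.coe_injective _ (by rwa [ec, ec] at e)) ?_ NM_unit.ne_zero
    (Matrix.ext fun a b => Wk_symm b a) (funext fun a => (NM_mulVec Gv a).trans (Wk_Gv a.2)) ?_
    (fun a b => alg_po ?_) (fun a => alg_po (aa_po a)) (fun a => alg_po (ee_po a)) (alg_po hD) hc ?_
    ((Fin.sum_univ_eq_sum_range (fun a => aa a * Gv a) 108).trans_ne (aa_ne h2))
    ((Fin.sum_univ_eq_sum_range (fun a => ee a * Gv a) 108).trans_ne (ee_ne h2)))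
  · exact fun e => one_ne_zero (by linear_combination three - e : (1 : PS) = 0)
  · refine mul_ne_zero tt_ne ?_
    convert ne_of_cc (map_one _) (-(xx * wp * wb)) using 1
    rw [tt]; ring
  · have k : ∀ a b, al 0 a * (ee b * (1 - tt) + vv b) + al 1 a * (ee b + vv b) + al 2 a * vv b ∈
        Po := fun a b => add_mem (add_mem (mul_mem (al_po _ _) (add_mem (mul_mem (ee_po _)
          (sub_mem (one_mem _) tt_po)) (vv_po _))) (mul_mem (al_po _ _)
            (add_mem (ee_po _) (vv_po _)))) (mul_mem (al_po _ _) (vv_po _))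
    convert add_mem (mul_mem hD (hW a a.2 b b.2)) (add_mem (k a b) (k b a)) using 1
    have p := psi_eq hΨ hθ
    have t1 := hθ 1
    have t0 := hθ 0
    simp only [sum_range_succ, sum_range_zero, NM, of_apply, aa]
    linear_combination al 0 a * p 0 b + al 1 a * p 1 b + al 2 a * p 2 b + al 0 b * p 0 a +
      al 1 b * p 1 a + al 2 b * p 2 a + (al 0 a * ee b + al 0 b * ee a) * (t0 - tt * t1) +
      (al 1 a * ee b + al 1 b * ee a) * t1
  · rw [Fin.sum_univ_eq_sum_range Gv 108, sum_Gv]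
    exact ((alg_po (ofNat_mem _ 107)).mul hc).add isAlgebraic_one

end Pool.Agent.Lib.MP_820104_pr.Tb
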