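import Pool.Agent.Lib.MP_820104_pr.Sk0

/-! The expansion of the walks in skeletons. -/

noncomputable section

namespace Pool.Agent.Lib.MP_820104_pr.Tb

open Finset Polynomial
open scoped Classical

theorem nn_y : NNy := by
  intro a ha
  have h : SkRec (fun w => yv xx w.2) fun U v => ∑ b ∈ range 108,
      skF (fun w => if w.2 = b then (1 : Kl → ZMod 3) w.1 else 0) U v * yv xx b := by
    intro U v hv
    simp only [fun b => skF_rec (fun w => if w.2 = b then (1 : Kl → ZMod 3) w.1 else 0) U v hv]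
    split_ifs
    · simp
    simp only [add_mul, sum_add_distrib, ← List.sum_toFinset _ (ar_ok _ hv).1, mul_assoc, sum_mul,
      ← mul_sum]
    rw [sum_comm]
    simp [apply_ite, ite_mul, hv]
  have h1 := skG_dvd h 4 [] (fun _ => ∅) (1, a) ha (by simp)
  have h2 : ∀ a < 108, (Nat.ble (skG 1 (yv 1) 4 [] (1, a) + 1) (2 ^ 32) && Nat.ble (1 + 1) (2 ^ 32) &&
      ck 4 (skG (2 ^ 32) (yv (2 ^ 32)) 4 [] (1, a)) 1) = true := by decide +kernel
  have h3 := Nl.dvd (F := fun R _ x => skG x (yv x) 4 [] (1, a)) (G := fun R _ _ => 1)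
    (fun _ _ _ _ φ x => by rw [skG_map, funext (yv_map φ x)]) (fun _ _ _ _ φ _ => map_one φ)
    (h2 a ha)
  simpa only [Wk_eq_skF, sub_add_sub_cancel] using dvd_add h1 h3

theorem skA_dvd {c : PS} {v b : ℕ} {K K' : Finset ℕ → PS} {S : Finset ℕ}
    (h : ∀ S, c ∣ K S - K' S) : c ∣ A xx v b K S - A xx v b K' S := by
  rw [A, A, ← sum_sub_distrib]
  refine dvd_sum fun l _ => ?_
  split_ifs
  · rw [← mul_sub]
    exact (h _).mul_left _
  · simp

theorem skRec_En {ψ : Kl × ℕ → PS} {F : (Kl → Finset ℕ) → Kl × ℕ → PS} (h : SkRec ψ F)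
    (U : Kl → Finset ℕ) (g : Kl) : ∀ f i S, i < 108 → xx ^ f ∣ F (Function.update U g S) (g, i) -
      En xx (fun b S => ψ (g, b) +
        xx * ((lk b).map fun p => F (Function.update U g S) (g * p.1, p.2)).sum) i S
  | 0, _, _, _ => by simp
  | f + 1, i, S, hi => by
    rw [h _ _ hi, En_step hi]
    simp only [skIns, Function.update_self, Function.update_idem]
    split_ifs
    · simp
    rw [ar, List.map_append, List.sum_append, List.map_map, mul_add, add_comm (xx * _) (xx * _),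
      ← add_assoc, add_sub_add_left_eq_sub, ← mul_sub, pow_succ']
    refine mul_dvd_mul_left _ (skDvd_list fun w hw => ?_)
    simpa only [Function.comp_def, mul_one] using
      skRec_En h U g f w (insert i S) ((nb_ok i hi).2 w hw).1

/-- the weight of a skeleton in a visited block -/
def skZ (U : Kl → Finset ℕ) (σ : List Ps) : PS :=
  ∏ g ∈ (σ.map (·.1)).toFinset, Z xx (cell g σ) (U g)

theorem skCell_nil {g : Kl} {σ : List Ps} (h : g ∉ (σ.map (·.1)).toFinset) : cell g σ = [] := by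
  rw [cell, List.filter_eq_nil_iff.2 fun p hp e => h ?_, List.map_nil]
  exact List.mem_toFinset.2 (List.mem_map.2 ⟨p, hp, of_decide_eq_true e⟩)

theorem skZ_cons (U : Kl → Finset ℕ) (g : Kl) (i b : ℕ) (σ : List Ps) : skZ U ((g, i, b) :: σ) =
    A xx i b (fun S => skZ (Function.update U g S) σ) (U g) := by
  have e : ∀ S, skZ (Function.update U g S) σ = Z xx (cell g σ) S *
      ∏ h ∈ ((σ.map (·.1)).toFinset).erase g, Z xx (cell h σ) (U h) := fun S => by
    rw [← prod_congr rfl fun h hh => congrArg (Z xx (cell h σ))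
      (Function.update_of_ne (f := U) (ne_of_mem_erase hh) S), skZ]
    by_cases hg : g ∈ (σ.map (·.1)).toFinset
    · rw [← mul_prod_erase _ _ hg, Function.update_self]
    · rw [erase_eq_of_notMem hg, skCell_nil hg, Z, one_mul]
  rw [funext e, A_mul, skZ, List.map_cons, List.toFinset_cons,
    ← mul_prod_erase _ _ (mem_insert_self _ _), erase_insert_eq_erase]
  refine congrArg₂ _ (by simp [cell, Z]) (prod_congr rfl fun h hh => ?_)
  simp [cell, (ne_of_mem_erase hh).symm]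

theorem skLk : ∀ b, (lk b).Nodup ∧ ∀ p ∈ lk b, p.2 < 108 ∧ (∀ q ∈ lk b, p = q) ∧
    ∀ q ∈ lk p.2, p.1 * q.1 = 1 ∧ q.2 = b := by
  intro b
  by_cases h : b < 108
  · revert b
    decide +kernel
  have : lk b = [] := by
    unfold lk
    repeat rw [if_neg (by omega)]
  simp [this]

theorem skEn_cons {k : ℕ} {v : Kl × ℕ} {σ : List Ps} (h : σ ∈ Sk k v) (p : Ps) :
    en (p :: σ) = en σ := by
  rcases k with _ | k
  · obtain ⟨_, _, rfl⟩ := mem_Sk_zero.1 h
    rfl
  · obtain ⟨_, _, _, _, _, _, rfl⟩ := mem_Sk_succ.1 h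
    rfl

/-- the skeletons with `k` links -/
def skT (ψ : Kl × ℕ → PS) (k : ℕ) (U : Kl → Finset ℕ) (v : Kl × ℕ) : PS :=
  ∑ σ ∈ Sk k v, skZ U σ * ψ (en σ)

theorem skT_zero (ψ : Kl × ℕ → PS) (U : Kl → Finset ℕ) (v : Kl × ℕ) :
    skT ψ 0 U v = ∑ b ∈ range 108, A xx v.2 b (fun _ => ψ (v.1, b)) (U v.1) := by
  rw [skT, Sk, sum_image fun b _ c _ e => by simpa using e]
  refine sum_congr rfl fun b _ => ?_
  rw [skZ_cons, ← A_mul]
  simp [skZ, en]

theorem skT_succ (ψ : Kl × ℕ → PS) (k : ℕ) (U : Kl → Finset ℕ) (v : Kl × ℕ) :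
    skT ψ (k + 1) U v = ∑ b ∈ range 108, A xx v.2 b (fun S => ∑ p ∈ (lk b).toFinset,
      skT ψ k (Function.update U v.1 S) (v.1 * p.1, p.2)) (U v.1) := by
  rw [skT, Sk, sum_biUnion]
  · refine sum_congr rfl fun b _ => ?_
    rw [sum_biUnion, A_sum]
    · refine sum_congr rfl fun p _ => ?_
      rw [sum_image fun _ _ _ _ e => (List.cons.inj e).2]
      simp only [skT]
      rw [A_sum]
      exact sum_congr rfl fun σ h => by rw [skZ_cons, A_mul, skEn_cons h]
    · exact fun p hp q hq e => (e (((skLk b).2 p (by simpa using hp)).2.1 q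
        (by simpa using hq))).elim
  · refine fun b _ c _ e => disjoint_left.2 fun σ h h' => e ?_
    simp only [mem_biUnion, mem_image] at h h'
    obtain ⟨_, _, _, _, rfl⟩ := h
    obtain ⟨_, _, _, _, e⟩ := h'
    simpa using (List.cons.inj e).1.symm

theorem skRec_T {ψ : Kl × ℕ → PS} {F : (Kl → Finset ℕ) → Kl × ℕ → PS} (h : SkRec ψ F) :
    ∀ K U v, v.2 < 108 → xx ^ K ∣ F U v - ∑ k ∈ range K, xx ^ k * skT ψ k U v
  | 0, _, _, _ => by simp
  | K + 1, U, v, hv => by
    have h1 := skRec_En h U v.1 (K + 1) v.2 (U v.1) hv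
    rw [Function.update_eq_self] at h1
    have e : ∑ k ∈ range (K + 1), xx ^ k * skT ψ k U v = En xx (fun b S => ψ (v.1, b) +
        xx * ((lk b).map fun p => ∑ k ∈ range K, xx ^ k *
          skT ψ k (Function.update U v.1 S) (v.1 * p.1, p.2)).sum) v.2 (U v.1) := by
      rw [sum_range_succ', En, pow_zero, one_mul, skT_zero]
      simp only [skT_succ, A_add, sum_add_distrib, mul_sum]
      rw [add_comm, sum_comm]
      refine congrArg _ (sum_congr rfl fun b _ => ?_)
      simp only [mul_comm (xx ^ (_ + 1)), ← A_mul, ← A_sum]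
      refine congrArg (A xx _ _ · _) (funext fun S => ?_)
      rw [← List.sum_toFinset _ (skLk b).1, sum_comm, mul_sum]
      exact sum_congr rfl fun k _ => by rw [← mul_sum]; ring
    rw [e, ← sub_add_sub_cancel]
    refine dvd_add h1 ?_
    rw [En, En, ← sum_sub_distrib]
    refine dvd_sum fun b _ => skA_dvd fun S => ?_
    rw [add_sub_add_left_eq_sub, ← mul_sub, pow_succ']
    exact mul_dvd_mul_left _ (skDvd_list fun p hp => skRec_T h K _ _ ((skLk b).2 p hp).1)

theorem sk_main : SkMain := by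
  intro φ a b K ha
  have := skRec_T (skF_rec fun w => if w.2 = b then φ w.1 else 0) K (fun _ => ∅) (1, a) ha
  rw [Wk_eq_skF]
  convert this using 4 with k
  refine sum_congr rfl fun σ _ => ?_
  split_ifs with e
  · simp only [if_pos e]
    exact mul_comm _ (Wt σ)
  · simp only [if_neg e, map_zero, mul_zero]

/-- two passes have no common end -/
def SkD (p q : ℕ × ℕ) : Prop := p.1 ≠ q.1 ∧ p.1 ≠ q.2 ∧ p.2 ≠ q.1 ∧ p.2 ≠ q.2

theorem skZ_pair : ∀ {τ : List (ℕ × ℕ)} {S : Finset ℕ}, Z xx τ S ≠ 0 → τ.Pairwise SkD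
  | [], _, _ => List.Pairwise.nil
  | p :: τ, S, h => by
    obtain ⟨l, hl, h⟩ : ∃ l ∈ Pth p.1 p.2, Z xx τ (S ∪ l.toFinset) ≠ 0 := by
      by_contra hn
      exact h (A_zero fun l hl _ => by_contra fun e => hn ⟨l, hl, e⟩)
    have h1 := mem_union_right S (List.mem_toFinset.2 (hd_mem hl).1)
    have h2 := mem_union_right S (List.mem_toFinset.2 (hd_mem hl).2)
    exact List.pairwise_cons.2 ⟨fun q hq => ⟨fun e => h (Z_mem hq (Or.inl (e ▸ h1))),
      fun e => h (Z_mem hq (Or.inr (e ▸ h1))), fun e => h (Z_mem hq (Or.inl (e ▸ h2))),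
      fun e => h (Z_mem hq (Or.inr (e ▸ h2)))⟩, skZ_pair h⟩

theorem skWt_pair {σ : List Ps} (h : Wt σ ≠ 0) :
    σ.Pairwise fun p q => p.1 = q.1 → SkD p.2 q.2 := by
  refine List.pairwise_iff_forall_sublist.2 fun {p q} hs e => ?_
  have h1 := skZ_pair (prod_ne_zero_iff.1 h p.1
    (List.mem_toFinset.2 (List.mem_map_of_mem (hs.subset (by simp)))))
  refine List.pairwise_iff_forall_sublist.1 h1 ?_
  simpa [cell, e] using (hs.filter (·.1 = q.1)).map (·.2)

/-- consecutive passes are joined by a link -/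
def SkL (p q : Ps) : Prop := ∃ e ∈ lk p.2.2, q.1 = p.1 * e.1 ∧ q.2.1 = e.2

theorem skChain : ∀ {k : ℕ} {v : Kl × ℕ} {σ : List Ps}, σ ∈ Sk k v →
    σ.IsChain SkL ∧ ∀ p ∈ σ.head?, p.1 = v.1 ∧ p.2.1 = v.2
  | 0, _, _, h => by
    obtain ⟨_, _, rfl⟩ := mem_Sk_zero.1 h
    simp
  | k + 1, v, _, h => by
    obtain ⟨b, _, p, hp, τ, hτ, rfl⟩ := mem_Sk_succ.1 h
    exact ⟨(skChain hτ).1.cons fun q hq => ⟨p, hp, (skChain hτ).2 q hq⟩, by simp⟩

theorem skInner {l : Ps} : ∀ {mid : List Ps} {h : Ps}, (h :: (mid ++ [l])).IsChain SkL →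
    (h :: (mid ++ [l])).Pairwise (fun p q => p.1 = q.1 → SkD p.2 q.2) → ∀ q ∈ mid, q.2.1 ≠ q.2.2
  | [], _, _, _ => by simp
  | q :: mid, h, hc, hp => by
    rw [List.cons_append, List.isChain_cons_cons] at hc
    rw [List.cons_append, List.pairwise_cons] at hp
    refine List.forall_mem_cons.2 ⟨fun e => ?_, skInner hc.2 hp.2⟩
    obtain ⟨r, t, hr⟩ := List.exists_cons_of_ne_nil (l := mid ++ [l]) (by simp)
    rw [hr, List.isChain_cons_cons] at hc
    obtain ⟨⟨a, ha, a1, a2⟩, ⟨c, hc, c1, c2⟩, -⟩ := hc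
    have := ((skLk _).2 a ha).2.2 c (by rwa [← a2, e])
    exact (hp.1 r (by simp [hr]) (by rw [c1, a1, mul_assoc, this.1, mul_one])).2.2.1
      (this.2.symm.trans c2.symm)

theorem sk_nodup : SkNodup := by
  intro k v h l mid hσ hw
  have hp := skWt_pair hw
  have hi := skInner (skChain hσ).1 hp
  rw [List.pairwise_cons, List.pairwise_append] at hp
  obtain ⟨h1, h2, -, h3⟩ := hp
  have me : ∀ w ∈ ends mid, ∃ q ∈ mid, w = (q.1, q.2.1) ∨ w = (q.1, q.2.2) := fun w hw => by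
    simpa only [ends, List.mem_flatMap, List.mem_cons, List.not_mem_nil, or_false] using hw
  refine List.nodup_cons.2 ⟨fun hm => ?_, List.nodup_append.2 ⟨?_, List.nodup_singleton _,
    fun w hw w' hw' e => ?_⟩⟩
  · rcases List.mem_append.1 hm with hm | hm
    · obtain ⟨q, hq, e | e⟩ := me _ hm <;> obtain ⟨e1, e2⟩ := Prod.mk.inj e
      exacts [(h1 q (by simp [hq]) e1).2.2.1 e2, (h1 q (by simp [hq]) e1).2.2.2 e2]
    · obtain ⟨e1, e2⟩ := Prod.mk.inj (List.mem_singleton.1 hm)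
      exact (h1 l (by simp) e1).2.2.1 e2
  · refine List.nodup_flatMap.2 ⟨fun q hq => by simp [hi q hq], h2.imp fun {p q} hpq => ?_⟩
    by_cases e : p.1 = q.1
    · simp [Function.onFun, (hpq e).1.symm, (hpq e).2.1.symm, (hpq e).2.2.1.symm,
        (hpq e).2.2.2.symm]
    · simp [Function.onFun, Ne.symm e]
  · obtain rfl := List.mem_singleton.1 hw'
    obtain ⟨q, hq, e' | e'⟩ := me _ hw <;> obtain ⟨e1, e2⟩ := Prod.mk.inj (e'.symm.trans e)
    exacts [(h3 q hq l (by simp) e1).1 e2, (h3 q hq l (by simp) e1).2.2.1 e2]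

end Pool.Agent.Lib.MP_820104_pr.Tb
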