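import Pool.Agent.Lib.MP_820104_pr.SumA

/-! The final formula for the walks in the block. -/

noncomputable section

namespace Pool.Agent.Lib.MP_820104_pr.Tb

open Finset Polynomial

theorem sm_nil {σ : List Ps} {j k : ℤ} (h : ∀ g ∈ σ.map (·.1), g.1 ≠ j ∨ g.2 ≠ k) :
    cell (j, k) σ = [] := cell_nil fun hg => by
  have := h _ hg
  simp at this

theorem sm_ini_map (l : Fin 3) (d : Bool) (a : ℕ) :
    (ini l d a).map (·.1) = (ini l d 0).map (·.1) := by
  fin_cases l <;> cases d <;> rfl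

theorem sm_ini_row (l : Fin 3) (d : Bool) : ∀ g ∈ (ini l d 0).map (·.1),
    g.1 ≤ 1 ∧ (g.1 = 1 → -(st0 l d).s - (st0 l d).n ≤ g.2) := by
  revert l d; decide

theorem sm_inv0 (l : Fin 3) (d : Bool) (a : ℕ) : SmInv (ini l d a) (st0 l d) := by
  have h := sm_ini_row l d
  rw [← sm_ini_map l d a] at h
  have ej : (st0 l d).j = 2 := rfl
  refine ⟨le_rfl, Nat.zero_le _, fun k h1 h2 => ?_, fun k h1 => sm_nil fun g hg => ?_,
    fun k h1 h2 => ?_, fun k _ => sm_nil fun g hg => ?_, fun j k h1 => sm_nil fun g hg => ?_⟩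
  · have h3 : (k = 0 ∧ d = true) ∨ (k = -1 ∧ l ≠ 0) := by
      fin_cases l <;> cases d <;> simp [st0] at h1 h2 ⊢ <;> omega
    rcases h3 with ⟨rfl, rfl⟩ | ⟨rfl, h3⟩
    · fin_cases l <;> exact ⟨101, Or.inl rfl, Or.inl rfl⟩
    · fin_cases l
      · exact absurd rfl h3
      · cases d <;> exact ⟨104, Or.inr rfl, Or.inl rfl⟩
      · cases d <;> exact ⟨104, Or.inr rfl, Or.inr rfl⟩
  · have := h g hg; omega
  · simp only [st0, cond_false] at h1 h2; omega
  · have := h g hg; omega
  · have := h g hg; omega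

theorem sm_cons2 {k : ℕ} {g g' : Kl} {a b a' b' : ℕ} {τ : List Ps} (hb : b < 108)
    (h : (lk b).map (fun p => (g * p.1, p.2)) = [(g', a')])
    (hτ : (g', a', b') :: τ ∈ Sk k (g', a')) :
    (g, a, b) :: (g', a', b') :: τ ∈ Sk (k + 1) (g, a) := by
  obtain ⟨p, hp, e⟩ := List.mem_map.1 (h ▸ List.mem_singleton_self (g', a'))
  exact sm_cons hb ⟨p, hp, (Prod.mk.inj e).1, (Prod.mk.inj e).2⟩ hτ

theorem sm_ini_mem (l : Fin 3) (d : Bool) (a : ℕ) {m : ℕ} {τ : List Ps}
    (h : τ ∈ Sk m ((st0 l d).ent.1, (st0 l d).ent.2)) :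
    ini l d a ++ τ ∈ Sk (m + (ini l d a).length) (1, a) := by
  fin_cases l <;> cases d
  · exact sm_cons (by decide) (by decide) h
  · exact sm_cons2 (by decide) rfl <| sm_cons2 (by decide) rfl <|
      sm_cons (by decide) (by decide) h
  · exact sm_cons2 (by decide) rfl <| sm_cons2 (by decide) rfl <|
      sm_cons2 (by decide) rfl <| sm_cons (by decide) (by decide) h
  · exact sm_cons2 (by decide) rfl <| sm_cons2 (by decide) rfl <|
      sm_cons2 (by decide) rfl <| sm_cons2 (by decide) rfl <|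
      sm_cons2 (by decide) rfl <| sm_cons (by decide) (by decide) h
  · exact sm_cons2 (by decide) rfl <| sm_cons2 (by decide) rfl <|
      sm_cons2 (by decide) rfl <| sm_cons (by decide) (by decide) h
  · exact sm_cons2 (by decide) rfl <| sm_cons2 (by decide) rfl <|
      sm_cons2 (by decide) rfl <| sm_cons2 (by decide) rfl <|
      sm_cons2 (by decide) rfl <| sm_cons (by decide) (by decide) h

/-- the initial part read off a skeleton -/
def smDec (σ : List Ps) : Fin 3 × Bool :=
  if (σ.map (·.2.2)).getD 0 0 = 92 then (0, false)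
  else if (σ.map (·.2.2)).getD 0 0 = 100 then (0, true)
  else (if (σ.map (·.2.2)).getD 0 0 = 107 then 1 else 2, decide ((σ.map (·.2.2)).getD 3 0 = 100))

theorem sm_dec (l : Fin 3) (d : Bool) (a : ℕ) (τ : List Ps) : smDec (ini l d a ++ τ) = (l, d) := by
  fin_cases l <;> cases d <;> rfl

theorem sm_up_sum (h3 : FarClass) (a : ℕ) {b : ℕ} (hb : b < 108) (k : ℕ) :
    ∑ σ ∈ Sk k (1, a), (if (en σ).2 = b then PowerSeries.C (smUp (en σ).1) * Wt σ else 0) =
      ∑ x : Fin 3 × Bool, if (ini x.1 x.2 a).length ≤ k then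
        Wt (ini x.1 x.2 a) * Wm b (k - (ini x.1 x.2 a).length) (st0 x.1 x.2) else 0 := by
  rw [← sum_filter (fun x : Fin 3 × Bool => (ini x.1 x.2 a).length ≤ k)]
  refine (sum_of_injOn
    (fun x => ini x.1 x.2 a ++ fw (k - (ini x.1 x.2 a).length) (st0 x.1 x.2) b)
    (fun x _ y _ e => ?_) (fun x hx => ?_) (fun σ hσ hn => ?_) fun x _ => ?_).symm
  · have := congrArg smDec e
    simp only [sm_dec] at this
    exact this
  · have := sm_ini_mem x.1 x.2 a (sm_fw_mem hb (k - (ini x.1 x.2 a).length) (st0 x.1 x.2))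
    rwa [Nat.sub_add_cancel (mem_filter.1 hx).2] at this
  · by_contra h0
    have e1 : (en σ).2 = b := by by_contra e; exact h0 (if_neg e)
    rw [if_pos e1] at h0
    have e2 : 2 ≤ (en σ).1.1 := by
      by_contra e
      exact h0 (by rw [smUp, if_neg e, map_zero, zero_mul])
    obtain ⟨l, d, m, e⟩ := h3 k a σ hσ (right_ne_zero_of_mul h0) e2
    have e3 := sm_len hσ
    rw [e1] at e
    rw [e, List.length_append, sm_fw_len] at e3
    refine hn ⟨(l, d), mem_filter.2 ⟨mem_univ _, by simp only; omega⟩, ?_⟩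
    simp only
    rw [e, show k - (ini l d a).length = m by omega]
  · have := sm_fw b (k - (ini x.1 x.2 a).length) _ _ (sm_inv0 x.1 x.2 a)
    rw [if_pos this.1, this.2]

/-- the indicator of the rows near the start -/
def smNear (g : Kl) : ZMod 3 := if |g.1| ≤ 1 then 1 else 0

theorem sm_near (h1 : SkMain) (h2 : NearBd) {a : ℕ} (ha : a < 108) (b : ℕ) :
    Wk smNear a b ∈ Po := by
  obtain ⟨K0, h2⟩ := h2
  have e : Wk smNear a b = ∑ k ∈ range K0, xx ^ k * ∑ σ ∈ Sk k (1, a),
      if (en σ).2 = b then PowerSeries.C (smNear (en σ).1) * Wt σ else 0 := eq_of_dvd fun K => by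
    have h := h1 smNear a b (K0 + K) ha
    rw [← sum_subset (range_subset_range.2 (Nat.le_add_right K0 K)) fun k _ hk => ?_] at h
    · exact (pow_dvd_pow _ (Nat.le_add_left K K0)).trans h
    · refine mul_eq_zero_of_right _ (sum_eq_zero fun σ hσ => ?_)
      split_ifs
      · by_cases e1 : |(en σ).1.1| ≤ 1
        · by_cases e2 : Wt σ = 0
          · rw [e2, mul_zero]
          · exact absurd (mem_range.2 (h2 k a σ hσ e2 e1)) hk
        · rw [smNear, if_neg e1, map_zero, zero_mul]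
      · rfl
  rw [e]
  refine sum_mem fun k _ => mul_mem (pow_mem xx_po _) (sum_mem fun σ _ => ?_)
  split_ifs
  · exact mul_mem (C_po _) (Wt_po _)
  · exact zero_mem _

theorem sm_split (a b : ℕ) : Wk 1 a b = Wk smNear a b + Wk smUp a b + Wk smUp b a := by
  ext n
  simp only [Wk, map_add, PowerSeries.coeff_mk]
  rw [AW_symm DD_inv smUp b a, ← sum_add_distrib, ← sum_add_distrib]
  refine sum_congr rfl fun u _ => ?_
  split_ifs
  · generalize lp u = g
    change (1 : ZMod 3) = (if |g.1| ≤ 1 then 1 else 0) + (if 2 ≤ g.1 then 1 else 0) +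
      if 2 ≤ -g.1 then 1 else 0
    simp only [abs_le]
    split_ifs <;> first | rfl | omega
  · rfl

theorem dyn_of (h1 : SkMain) (h2 : NearBd) (h3 : FarClass) : Dyn := by
  obtain ⟨Ψ, p1, p2⟩ := ser_main
  have up : ∀ a < 108, ∀ b < 108, Wk smUp a b - ∑ n ∈ range 3, al n a * Ψ n b ∈ Po :=
    fun a ha b hb => up_of p2 fun K => by
      have := h1 smUp a b K ha
      simp only [sm_up_sum h3 a hb] at this
      exact this
  refine ⟨Ψ, p1, fun a ha b hb => ?_⟩
  have := add_mem (add_mem (sm_near h1 h2 ha b) (up a ha b hb)) (up b hb a ha)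
  rw [sm_split, sum_add_distrib]
  refine (congrArg (· ∈ Po) ?_).mp this
  ring

end Pool.Agent.Lib.MP_820104_pr.Tb
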