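import Pool.Agent.Lib.MP_820104_pr.Dyn
import Pool.Agent.Lib.MP_820104_pr.Sk
import Pool.Agent.Lib.MP_820104_pr.Sum
import Pool.Agent.Lib.MP_820104_pr.Fin

/-! The self-avoiding walk series of the tree of blocks is not algebraic. -/

namespace Pool.Agent.Lib.MP_820104_pr.Tb

open Polynomial
open scoped Classical

theorem tree_not_alg : ¬IsAlgebraic ℤ[X] (sawGF (DD.image ia)) :=
  not_alg (dyn_of sk_main (near_bd sk_nodup) (far_class sk_nodup)) nn_y

end Pool.Agent.Lib.MP_820104_pr.Tb
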