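import Pool.Agent.Lib.MP_820104_pr.Loc

/-! Computing the weights of patterns. -/

namespace Pool.Agent.Lib.MP_820104_pr.Tb

open Finset Polynomial

/-- `t` is the list of inner vertices of a thread from `p` to `w` -/
def thr : ℕ → List ℕ → ℕ → Bool
  | _, [], _ => true
  | p, m :: t, w => decide (m < 108) && (nb m == [p, t.headD w] || nb m == [t.headD w, p]) &&
      thr m t w

theorem cw_ok : ∀ v ∈ cores, v < 108 ∧
    nb v = ((cw v).flatMap fun p => p.2.map fun t => t.headD p.1) ∧ ∀ p ∈ cw v, p.1 ∈ cores ∧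
      ∀ t ∈ p.2, thr v t p.1 ∧ t.Nodup ∧ ∀ m ∈ t, m ∉ cores ∧
        (own m = (v, p.1) ∨ own m = (p.1, v)) := by decide +kernel

section
variable {R : Type} [CommSemiring R] {x : R} {b w : ℕ} {K : Finset ℕ → R}

theorem A_thr : ∀ {t : List ℕ} {p : ℕ} {S : Finset ℕ}, thr p t w → p ∈ S → b ∉ t → t.Nodup →
    A x (t.headD w) b K S =
      if Disjoint t.toFinset S then x ^ t.length * A x w b K (S ∪ t.toFinset) else 0
  | [], _, _, _, _, _, _ => by simp
  | m :: t, p, S, h, hp, hb, hn => by
    simp only [thr, Bool.and_eq_true, decide_eq_true_eq, Bool.or_eq_true, beq_iff_eq] at h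
    rw [List.nodup_cons] at hn
    rw [List.mem_cons, not_or] at hb
    by_cases hm : m ∈ S
    · rw [List.headD_cons, A_mem (Or.inl hm), if_neg (by simp [hm])]
    have h0 : A x p b K (insert m S) = 0 := A_mem (Or.inl (mem_insert_of_mem hp))
    have h1 := A_thr (S := insert m S) h.2 (mem_insert_self _ _) hb.2 hn.2
    rw [List.headD_cons, A_step h.1.1 hm, if_neg (Ne.symm hb.1)]
    rcases h.1.2 with e | e <;> simp [e, h0, h1, hm, hn.1, pow_succ', mul_assoc, -List.headD_eq_head?_getD]

end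

/-- the weight of a bundle of threads -/
def wt (x : ℕ) (ts : List (List ℕ)) : ℕ := (ts.map fun t => x ^ (t.length + 1)).sum

/-- depth first search on the branch vertices, with a table `W` of weighted neighbours -/
noncomputable def Qn (W : ℕ → List (ℕ × ℕ)) (b : ℕ) (K : ℕ → ℕ) (f : ℕ) : ℕ → ℕ → ℕ :=
  Nat.rec (fun _ _ => 0) (fun _ ih vis v =>
    bif Nat.beq (Nat.land (Nat.shiftRight vis v) 1) 1 then 0 else
      bif Nat.beq v b then K (Nat.lor vis (Nat.pow 2 v)) else
        List.rec 0 (fun p _ r => Nat.add (Nat.mul p.2 (ih (Nat.lor vis (Nat.pow 2 v)) p.1)) r)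
          (W v)) f

theorem Qn_succ (W : ℕ → List (ℕ × ℕ)) (b : ℕ) (K : ℕ → ℕ) (f vis v : ℕ) :
    Qn W b K (f + 1) vis v = bif vis.testBit v then 0 else bif Nat.beq v b then
      K (vis ||| 2 ^ v) else ((W v).map fun p => p.2 * Qn W b K f (vis ||| 2 ^ v) p.1).sum := by
  have e : Nat.beq (Nat.land (Nat.shiftRight vis v) 1) 1 = vis.testBit v := by
    rw [Nat.testBit, Nat.one_and_eq_mod_two, Nat.land_eq, Nat.and_one_is_mod, Nat.shiftRight_eq]
    rcases Nat.mod_two_eq_zero_or_one (vis >>> v) with h | h <;> rw [h] <;> rfl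
  rw [← e]
  refine congrArg (cond _ 0) (congrArg (cond _ _) ?_)
  induction W v with
  | nil => rfl
  | cons p l ih => exact congrArg (_ + ·) ih

/-- the visited set `S` is represented by the bits of `vis` -/
def Inv (S : Finset ℕ) (vis : ℕ) (T : Finset ℕ) : Prop := (∀ c ∈ cores, c ∈ S ↔ vis.testBit c) ∧
  ∀ m ∈ S, m ∉ cores → (own m).1 ∈ T ∧ (own m).2 ∈ T

theorem bit_ins {S : Finset ℕ} {vis v c : ℕ} (h : c ∈ S ↔ vis.testBit c) :
    c ∈ insert v S ↔ (vis ||| 2 ^ v).testBit c := by
  rw [mem_insert, h, Nat.testBit_or, Nat.testBit_two_pow, Bool.or_eq_true, decide_eq_true_eq,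
    or_comm, eq_comm (a := v)]

theorem A_eq_Qn {x b : ℕ} {W : ℕ → List (ℕ × ℕ)} {K : Finset ℕ → ℕ} {K' : ℕ → ℕ}
    (hW : ∀ v ∈ cores, W v = (cw v).map fun p => (p.1, wt x p.2)) (hb : b ∈ cores)
    (hK : ∀ S vis, Inv S vis S → K S = K' vis) : ∀ (f vis v : ℕ) (S : Finset ℕ), v ∈ cores →
      Inv S vis (insert v S) → #(cores.toFinset \ S) < f → A x v b K S = Qn W b K' f vis v
  | 0, _, _, _, _, _, h => absurd h (Nat.not_lt_zero _)
  | f + 1, vis, v, S, hv, hI, hf => by
    obtain ⟨h1, h2, h3⟩ := cw_ok v hv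
    rw [Qn_succ, hW v hv, List.map_map]
    by_cases hm : v ∈ S
    · rw [A_mem (Or.inl hm), (hI.1 v hv).1 hm, cond_true]
    rw [Bool.eq_false_iff.2 (mt (hI.1 v hv).2 hm), cond_false, A_step h1 hm]
    have hI' : Inv (insert v S) (vis ||| 2 ^ v) (insert v S) := ⟨fun c hc => bit_ins (hI.1 c hc),
      fun m h h' => hI.2 m ((mem_insert.1 h).resolve_left fun e => h' (e ▸ hv)) h'⟩
    by_cases e : v = b
    · subst e
      rw [if_pos rfl, Nat.beq_refl, cond_true, hK _ _ hI', List.sum_eq_zero, mul_zero, add_zero]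
      exact List.forall_mem_map.2 fun w _ => A_mem (Or.inr (mem_insert_self _ _))
    rw [if_neg e, Bool.eq_false_iff.2 (mt Nat.eq_of_beq_eq_true e), cond_false, zero_add, h2,
      List.map_flatMap, List.flatMap_def, List.sum_flatten, List.map_map, ← List.sum_map_mul_left]
    refine congrArg _ (List.map_congr_left fun p hp => ?_)
    obtain ⟨h4, h5⟩ := h3 p hp
    rw [Function.comp, Function.comp, wt, List.map_map, ← List.sum_map_mul_left,
      ← List.sum_map_mul_right]
    refine congrArg _ (List.map_congr_left fun t ht => ?_)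
    obtain ⟨h6, h7, h8⟩ := h5 t ht
    rw [Function.comp, A_thr h6 (mem_insert_self _ _) (fun h => (h8 b h).1 hb) h7]
    by_cases hw : p.1 ∈ insert v S
    · rw [A_mem (Or.inl (mem_union_left _ hw))]
      cases f
      · simp [Qn]
      · simp [Qn_succ, -Nat.testBit_or, (hI'.1 _ h4).1 hw]
    rw [if_pos, A_eq_Qn hW hb hK f (vis ||| 2 ^ v) p.1 _ h4, pow_succ', mul_assoc]
    · refine ⟨fun c hc => ?_, fun m hm hc => ?_⟩
      · rw [← hI'.1 c hc, mem_union, List.mem_toFinset]
        exact or_iff_left fun h => (h8 c h).1 hc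
      · rcases mem_union.1 hm with h | h
        · exact (hI'.2 m h hc).imp (fun h => by simp only [mem_insert, mem_union] at *; tauto)
            fun h => by simp only [mem_insert, mem_union] at *; tauto
        · rcases (h8 m (List.mem_toFinset.1 h)).2 with e | e <;> simp [e]
    · refine (card_lt_card ⟨sdiff_subset_sdiff subset_rfl fun i hi => by simp [hi],
        fun h => ?_⟩).trans_le (Nat.lt_succ_iff.1 hf)
      simpa using h (mem_sdiff.2 ⟨List.mem_toFinset.2 hv, hm⟩)
    · refine disjoint_left.2 fun m h h' => hw ?_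
      obtain ⟨a1, a2⟩ := h8 m (List.mem_toFinset.1 h)
      have := hI'.2 m h' a1
      rcases a2 with e | e <;> rw [e] at this
      exacts [this.2, this.1]

/-- the computed weight of a pattern -/
noncomputable def Zn (W : ℕ → List (ℕ × ℕ)) : List (ℕ × ℕ) → ℕ → ℕ
  | [], _ => 1
  | p :: τ, vis => Qn W p.2 (Zn W τ) 18 vis p.1

theorem Z_eq_Zn {x : ℕ} {W : ℕ → List (ℕ × ℕ)}
    (hW : ∀ v ∈ cores, W v = (cw v).map fun p => (p.1, wt x p.2)) : ∀ {τ : List (ℕ × ℕ)}, (∀ p ∈ τ, p.1 ∈ cores ∧ p.2 ∈ cores) →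
    ∀ S vis, Inv S vis S → Z x τ S = Zn W τ vis
  | [], _, _, _, _ => rfl
  | p :: τ, h, S, vis, hI => A_eq_Qn hW (h p (by simp)).2
    (Z_eq_Zn hW fun q hq => h q (by simp [hq])) _ _ _ _ (h p (by simp)).1 ⟨hI.1, fun m a b => (hI.2 m a b).imp mem_insert_of_mem mem_insert_of_mem⟩
    ((card_le_card sdiff_subset).trans_lt (by decide))

theorem digit {B : ℕ} : ∀ (i : ℕ) {p : ℕ[X]}, p.eval 1 < B → p.coeff i = p.eval B / B ^ i % B := by
  have key : ∀ (p : ℕ[X]) (y : ℕ), p.eval y = p.coeff 0 + y * p.divX.eval y := fun p y => by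
    conv_lhs => rw [← p.X_mul_divX_add, eval_add, eval_mul, eval_X, eval_C, add_comm]
  intro i
  induction i with
  | zero =>
    intro p h
    rw [key] at h ⊢
    rw [pow_zero, Nat.div_one, Nat.add_mul_mod_self_left, Nat.mod_eq_of_lt (by omega)]
  | succ i ih =>
    intro p h
    rw [key] at h ⊢
    rw [pow_succ', ← Nat.div_div_eq_div_mul, Nat.add_mul_div_left _ _ (by omega),
      Nat.div_eq_of_lt (a := p.coeff 0) (by omega), zero_add, ← ih (by omega), coeff_divX]

/-- power series over the field with three elements -/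
abbrev PS : Type := PowerSeries (ZMod 3)

/-- reduction of a polynomial with natural coefficients -/
noncomputable def ph : ℕ[X] →+* PS :=
  Polynomial.coeToPowerSeries.ringHom.comp (mapRingHom (Nat.castRingHom _))

theorem ph_X : ph X = PowerSeries.X := by simp [ph]

/-- the first `M` digits in base `2 ^ 32` agree modulo three -/
def ck (M n m : ℕ) : Bool :=
  (List.range M).all fun i => Nat.beq (n / (2 ^ 32) ^ i % 2 ^ 32 % 3) (m / (2 ^ 32) ^ i % 2 ^ 32 % 3)

theorem ph_dvd {p q : ℕ[X]} {M : ℕ} (hp : p.eval 1 < 2 ^ 32) (hq : q.eval 1 < 2 ^ 32)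
    (h : ck M (p.eval (2 ^ 32)) (q.eval (2 ^ 32))) : PowerSeries.X ^ M ∣ ph p - ph q := by
  refine PowerSeries.X_pow_dvd_iff.2 fun i hi => ?_
  have := Nat.eq_of_beq_eq_true (List.all_eq_true.1 h i (List.mem_range.2 hi))
  rw [← digit i hp, ← digit i hq] at this
  simpa [ph, sub_eq_zero] using (ZMod.natCast_eq_natCast_iff' _ _ 3).2 this

theorem ph_eq {p q : ℕ[X]} (hp : p.eval 1 < 2 ^ 32) (hq : q.eval 1 < 2 ^ 32)
    (hp' : p.eval (2 ^ 32) < (2 ^ 32) ^ 110) (hq' : q.eval (2 ^ 32) < (2 ^ 32) ^ 110)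
    (h : ck 110 (p.eval (2 ^ 32)) (q.eval (2 ^ 32))) : ph p = ph q := by
  ext i
  by_cases hi : i < 110
  · simpa [sub_eq_zero] using PowerSeries.X_pow_dvd_iff.1 (ph_dvd hp hq h) i hi
  have : ∀ p : ℕ[X], p.eval 1 < 2 ^ 32 → p.eval (2 ^ 32) < (2 ^ 32) ^ 110 → p.coeff i = 0 :=
    fun p h h' => by
    rw [digit i h, Nat.div_eq_of_lt (h'.trans_le (Nat.pow_le_pow_right (by norm_num) (by omega))),
      Nat.zero_mod]
  simp [ph, this p hp hp', this q hq hq']

/-- the weighted neighbours at the value one -/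
def W1 (i : ℕ) : List (ℕ × ℕ) :=
  bif Nat.ble 91 i then
  (bif Nat.ble 101 i then
   (bif Nat.ble 105 i then
    (bif Nat.ble 106 i then
     (bif Nat.ble 107 i then
      ([(106, 1)])
      else ([(107, 1), (54, 2), (57, 2), (62, 2), (105, 1)]))
     else ([(104, 1), (101, 1), (106, 1)]))
    else (bif Nat.ble 104 i then
     ([(105, 1), (101, 2)])
     else ([(105, 1), (104, 2)])))
   else (bif Nat.ble 95 i then
    (bif Nat.ble 100 i then
     ([(95, 3)])
     else ([(88, 1), (91, 2), (100, 3)]))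
    else (bif Nat.ble 92 i then
     ([(50, 1), (91, 1)])
     else ([(92, 1), (50, 2), (88, 1), (95, 2)]))))
  else (bif Nat.ble 54 i then
   (bif Nat.ble 62 i then
    (bif Nat.ble 88 i then
     ([(62, 1), (53, 5), (91, 1), (95, 1)])
     else ([(106, 2), (57, 1), (88, 1)]))
    else (bif Nat.ble 57 i then
     ([(106, 2), (54, 1), (62, 1)])
     else ([(106, 2), (53, 1), (57, 1)])))
   else (bif Nat.ble 50 i then
    (bif Nat.ble 53 i then
     ([(54, 1), (88, 5), (0, 1), (1, 2)])
     else ([(1, 6), (92, 1), (91, 2)]))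
    else (bif Nat.ble 1 i then
     ([(0, 1), (53, 2), (50, 6)])
     else ([(53, 1), (1, 1)]))))

/-- the weighted neighbours at the value `2 ^ 32` -/
def WB (i : ℕ) : List (ℕ × ℕ) :=
  bif Nat.ble 91 i then
  (bif Nat.ble 101 i then
   (bif Nat.ble 105 i then
    (bif Nat.ble 106 i then
     (bif Nat.ble 107 i then
      ([(106, 4294967296)])
      else ([(107, 4294967296), (54, 36893488147419103232), (57, 79228162514264337597838917632), (62, 36893488147419103232), (105, 4294967296)]))
     else ([(104, 4294967296), (101, 4294967296), (106, 4294967296)]))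
    else (bif Nat.ble 104 i then
     ([(105, 4294967296), (101, 36893488147419103232)])
     else ([(105, 4294967296), (104, 36893488147419103232)])))
   else (bif Nat.ble 95 i then
    (bif Nat.ble 100 i then
     ([(95, 158456325028528675191382867968)])
     else ([(88, 4294967296), (91, 36893488147419103232), (100, 158456325028528675191382867968)]))
    else (bif Nat.ble 92 i then
     ([(50, 4294967296), (91, 4294967296)])
     else ([(92, 4294967296), (50, 36893488147419103232), (88, 4294967296), (95, 36893488147419103232)]))))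
  else (bif Nat.ble 54 i then
   (bif Nat.ble 62 i then
    (bif Nat.ble 88 i then
     ([(62, 4294967296), (53, 231584178474632390853419071752762496471056323488330671421944272675153830215680), (91, 4294967296), (95, 4294967296)])
     else ([(106, 36893488147419103232), (57, 4294967296), (88, 4294967296)]))
    else (bif Nat.ble 57 i then
     ([(106, 79228162514264337597838917632), (54, 4294967296), (62, 4294967296)])
     else ([(106, 36893488147419103232), (53, 4294967296), (57, 4294967296)])))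
   else (bif Nat.ble 50 i then
    (bif Nat.ble 53 i then
     ([(54, 4294967296), (88, 231584178474632390853419071752762496471056323488330671421944272675153830215680), (0, 4294967296), (1, 36893488147419103232)])
     else ([(1, 18347988927920572093881213635236268810737204302974191949690957046864117704936080707191548563868279464001536), (92, 4294967296), (91, 36893488147419103232)]))
    else (bif Nat.ble 1 i then
     ([(0, 4294967296), (53, 36893488147419103232), (50, 18347988927920572093881213635236268810737204302974191949690957046864117704936080707191548563868279464001536)])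
     else ([(53, 4294967296), (1, 4294967296)]))))

theorem W1_ok : ∀ v ∈ cores, W1 v = (cw v).map fun p => (p.1, wt 1 p.2) := by decide +kernel

theorem WB_ok : ∀ v ∈ cores, WB v = (cw v).map fun p => (p.1, wt (2 ^ 32) p.2) := by
  decide +kernel

/-- the test that a pattern has the weight with value `m` -/
noncomputable def tst (τ : List (ℕ × ℕ)) (m : ℕ) : Bool :=
  τ.all (fun p => decide (p.1 ∈ cores ∧ p.2 ∈ cores)) && Nat.ble (Zn W1 τ 0 + 1) (2 ^ 32) &&
    (fun n => Nat.ble (n + 1) ((2 ^ 32) ^ 110) && Nat.ble (m + 1) ((2 ^ 32) ^ 110) && ck 110 n m)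
      (Zn WB τ 0)

theorem Z_of_tst {τ : List (ℕ × ℕ)} {q : ℕ[X]} (hq : q.eval 1 < 2 ^ 32)
    (h : tst τ (q.eval (2 ^ 32))) : Z PowerSeries.X τ ∅ = ph q := by
  simp only [tst, Bool.and_eq_true, List.all_eq_true, decide_eq_true_eq, Nat.ble_eq] at h
  have e : ∀ {y W}, (∀ v ∈ cores, W v = (cw v).map fun p => (p.1, wt y p.2)) →
      (Z X τ ∅ : ℕ[X]).eval y = Zn W τ 0 := fun {y W} hW =>
    (Z_map (evalRingHom y) τ ∅).trans (by
      rw [coe_evalRingHom, eval_X]; exact Z_eq_Zn hW h.1.1 _ _ ⟨by simp, by simp⟩)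
  rw [← ph_X, ← Z_map]
  exact ph_eq (e W1_ok ▸ h.1.2) hq (e WB_ok ▸ h.2.1.1) h.2.1.2 (e WB_ok ▸ h.2.2)

section
variable {R : Type} [CommSemiring R] (x : R)

/-- choose a path from `v` with any end -/
noncomputable def En (K : ℕ → Finset ℕ → R) (v : ℕ) (S : Finset ℕ) : R :=
  ∑ b ∈ range 108, A x v b (K b) S

/-- truncated depth first search -/
def Tr (K : ℕ → ℕ → ℕ → R) : ℕ → ℕ → ℕ → R
  | 0, _, _ => 0
  | f + 1, vis, v => bif vis.testBit v then 0 else K (f + 1) v (vis ||| 2 ^ v) +
      x * ((nb v).map (Tr K f (vis ||| 2 ^ v))).sum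

variable {x}

theorem En_step {K : ℕ → Finset ℕ → R} {v : ℕ} {S : Finset ℕ} (hv : v < 108) : En x K v S =
    if v ∈ S then 0 else K v (insert v S) + x * ((nb v).map fun w => En x K w (insert v S)).sum := by
  split_ifs with h
  · exact sum_eq_zero fun _ _ => A_mem (Or.inl h)
  simp only [En, A_step hv h, sum_add_distrib, sum_ite_eq, mem_range, hv, if_true, ← mul_sum,
    ← List.sum_toFinset _ (nb_ok v hv).1]
  rw [sum_comm]

theorem En_one {K : Finset ℕ → R} {v b : ℕ} {S : Finset ℕ} (hb : b < 108) :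
    A x v b K S = En x (fun c S => if c = b then K S else 0) v S := by
  rw [En, sum_eq_single b (fun c _ h => A_zero fun _ _ _ => if_neg h) fun h =>
    absurd (mem_range.2 hb) h]
  simp

theorem Tr_map {R' : Type} [CommSemiring R'] (φ : R →+* R') {K : ℕ → ℕ → ℕ → R}
    {K' : ℕ → ℕ → ℕ → R'} (h : ∀ f b vis, φ (K f b vis) = K' f b vis) :
    ∀ f vis v, φ (Tr x K f vis v) = Tr (φ x) K' f vis v
  | 0, _, _ => map_zero φ
  | f + 1, vis, v => by
    rw [Tr, Tr]
    cases vis.testBit v
    · simp [h, map_list_sum, Function.comp_def, ← funext (Tr_map φ h f _)]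
    · exact map_zero φ

end

theorem En_Tr {R : Type} [CommRing R] {x : R} {K : ℕ → Finset ℕ → R} {K' : ℕ → ℕ → ℕ → R}
    (h : ∀ f b S vis, (∀ i, i ∈ S ↔ vis.testBit i) → x ^ f ∣ K b S - K' f b vis) :
    ∀ f vis v S, v < 108 → (∀ i, i ∈ S ↔ vis.testBit i) → x ^ f ∣ En x K v S - Tr x K' f vis v
  | 0, _, _, _, _, _ => by simp
  | f + 1, vis, v, S, hv, hS => by
    rw [En_step hv, Tr]
    split_ifs with hm
    · simp [(hS v).1 hm]
    rw [Bool.eq_false_iff.2 (mt (hS v).2 hm), cond_false, add_sub_add_comm, ← mul_sub,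
      ← List.sum_toFinset _ (nb_ok v hv).1, ← List.sum_toFinset _ (nb_ok v hv).1, ← sum_sub_distrib]
    refine dvd_add (h _ _ _ _ fun i => bit_ins (hS i)) (pow_succ' x f ▸ mul_dvd_mul_left _
      (dvd_sum fun w hw => En_Tr h f _ w _ ?_ fun i => bit_ins (hS i)))
    exact ((nb_ok v hv).2 w (List.mem_toFinset.1 hw)).1

end Pool.Agent.Lib.MP_820104_pr.Tb
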