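import Pool.Agent.Lib.MP_820104_pr.TbRen

/-! The block: a periodic planar graph with 108 vertices in each cell. Ports: `c = 0`, `e = 92`,
`D = 100`, `d = 101`, `f = 104`, `a = 107`; the vertex `z` is `106`. -/

namespace Pool.Agent.Lib.MP_820104_pr.Tb

open Finset

/-- the Klein bottle group -/
def Kl : Type := ℤ × ℤ

instance : DecidableEq Kl := inferInstanceAs (DecidableEq (ℤ × ℤ))

instance : Mul Kl := ⟨fun g h => (g.1 + h.1, (if h.1 % 2 = 0 then g.2 else -g.2) + h.2)⟩

instance : One Kl := ⟨(0, 0)⟩

instance : Inv Kl := ⟨fun g => (-g.1, if g.1 % 2 = 0 then -g.2 else g.2)⟩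

theorem Kl.mul_def (g h : Kl) :
    g * h = (g.1 + h.1, (if h.1 % 2 = 0 then g.2 else -g.2) + h.2) := rfl

theorem Kl.one_def : (1 : Kl) = (0, 0) := rfl

theorem Kl.inv_def (g : Kl) : g⁻¹ = (-g.1, if g.1 % 2 = 0 then -g.2 else g.2) := rfl

instance : Group Kl := Group.ofLeftAxioms
  (fun a b c => Prod.ext (add_assoc a.1 b.1 c.1) (by simp only [Kl.mul_def]; split_ifs <;> omega))
  (fun a => Prod.ext (zero_add a.1) (by simp only [Kl.mul_def, Kl.one_def]; split_ifs <;> omega))
  (fun a => Prod.ext (neg_add_cancel a.1)
    (by simp only [Kl.mul_def, Kl.one_def, Kl.inv_def]; split_ifs <;> omega))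

/-- the neighbours inside a cell -/
def nb (i : ℕ) : List ℕ :=
  bif Nat.ble 54 i then
  (bif Nat.ble 81 i then
   (bif Nat.ble 94 i then
    (bif Nat.ble 101 i then
     (bif Nat.ble 104 i then
      (bif Nat.ble 106 i then
       (bif Nat.ble 107 i then
        (bif Nat.beq i 107 then [106] else [])
        else (bif Nat.beq i 106 then [107, 55, 56, 57, 59, 60, 61, 105] else []))
       else (bif Nat.ble 105 i then
        (bif Nat.beq i 105 then [104, 101, 106] else [])
        else (bif Nat.beq i 104 then [105, 102, 103] else [])))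
      else (bif Nat.ble 102 i then
       (bif Nat.ble 103 i then
        (bif Nat.beq i 103 then [104, 101] else [])
        else (bif Nat.beq i 102 then [104, 101] else []))
       else (bif Nat.beq i 101 then [105, 102, 103] else [])))
     else (bif Nat.ble 97 i then
      (bif Nat.ble 99 i then
       (bif Nat.ble 100 i then
        (bif Nat.beq i 100 then [95, 97, 99] else [])
        else (bif Nat.beq i 99 then [98, 100] else []))
       else (bif Nat.ble 98 i then
        (bif Nat.beq i 98 then [95, 99] else [])
        else (bif Nat.beq i 97 then [96, 100] else [])))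
      else (bif Nat.ble 95 i then
       (bif Nat.ble 96 i then
        (bif Nat.beq i 96 then [95, 97] else [])
        else (bif Nat.beq i 95 then [88, 93, 94, 100, 96, 98] else []))
       else (bif Nat.beq i 94 then [91, 95] else []))))
    else (bif Nat.ble 87 i then
     (bif Nat.ble 90 i then
      (bif Nat.ble 92 i then
       (bif Nat.ble 93 i then
        (bif Nat.beq i 93 then [91, 95] else [])
        else (bif Nat.beq i 92 then [50, 91] else []))
       else (bif Nat.ble 91 i then
        (bif Nat.beq i 91 then [92, 89, 90, 88, 93, 94] else [])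
        else (bif Nat.beq i 90 then [50, 91] else [])))
      else (bif Nat.ble 88 i then
       (bif Nat.ble 89 i then
        (bif Nat.beq i 89 then [50, 91] else [])
        else (bif Nat.beq i 88 then [62, 65, 68, 73, 80, 87, 91, 95] else []))
       else (bif Nat.beq i 87 then [86, 88] else [])))
     else (bif Nat.ble 84 i then
      (bif Nat.ble 85 i then
       (bif Nat.ble 86 i then
        (bif Nat.beq i 86 then [85, 87] else [])
        else (bif Nat.beq i 85 then [84, 86] else []))
       else (bif Nat.beq i 84 then [83, 85] else []))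
      else (bif Nat.ble 82 i then
       (bif Nat.ble 83 i then
        (bif Nat.beq i 83 then [82, 84] else [])
        else (bif Nat.beq i 82 then [81, 83] else []))
       else (bif Nat.beq i 81 then [53, 82] else [])))))
   else (bif Nat.ble 67 i then
    (bif Nat.ble 74 i then
     (bif Nat.ble 77 i then
      (bif Nat.ble 79 i then
       (bif Nat.ble 80 i then
        (bif Nat.beq i 80 then [79, 88] else [])
        else (bif Nat.beq i 79 then [78, 80] else []))
       else (bif Nat.ble 78 i then
        (bif Nat.beq i 78 then [77, 79] else [])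
        else (bif Nat.beq i 77 then [76, 78] else [])))
      else (bif Nat.ble 75 i then
       (bif Nat.ble 76 i then
        (bif Nat.beq i 76 then [75, 77] else [])
        else (bif Nat.beq i 75 then [74, 76] else []))
       else (bif Nat.beq i 74 then [53, 75] else [])))
     else (bif Nat.ble 70 i then
      (bif Nat.ble 72 i then
       (bif Nat.ble 73 i then
        (bif Nat.beq i 73 then [72, 88] else [])
        else (bif Nat.beq i 72 then [71, 73] else []))
       else (bif Nat.ble 71 i then
        (bif Nat.beq i 71 then [70, 72] else [])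
        else (bif Nat.beq i 70 then [69, 71] else [])))
      else (bif Nat.ble 68 i then
       (bif Nat.ble 69 i then
        (bif Nat.beq i 69 then [53, 70] else [])
        else (bif Nat.beq i 68 then [67, 88] else []))
       else (bif Nat.beq i 67 then [66, 68] else []))))
    else (bif Nat.ble 60 i then
     (bif Nat.ble 63 i then
      (bif Nat.ble 65 i then
       (bif Nat.ble 66 i then
        (bif Nat.beq i 66 then [53, 67] else [])
        else (bif Nat.beq i 65 then [64, 88] else []))
       else (bif Nat.ble 64 i then
        (bif Nat.beq i 64 then [63, 65] else [])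
        else (bif Nat.beq i 63 then [53, 64] else [])))
      else (bif Nat.ble 61 i then
       (bif Nat.ble 62 i then
        (bif Nat.beq i 62 then [60, 61, 57, 88] else [])
        else (bif Nat.beq i 61 then [106, 62] else []))
       else (bif Nat.beq i 60 then [106, 62] else [])))
     else (bif Nat.ble 57 i then
      (bif Nat.ble 58 i then
       (bif Nat.ble 59 i then
        (bif Nat.beq i 59 then [106, 58] else [])
        else (bif Nat.beq i 58 then [59, 57] else []))
       else (bif Nat.beq i 57 then [106, 58, 54, 62] else []))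
      else (bif Nat.ble 55 i then
       (bif Nat.ble 56 i then
        (bif Nat.beq i 56 then [106, 54] else [])
        else (bif Nat.beq i 55 then [106, 54] else []))
       else (bif Nat.beq i 54 then [55, 56, 53, 57] else []))))))
  else (bif Nat.ble 27 i then
   (bif Nat.ble 40 i then
    (bif Nat.ble 47 i then
     (bif Nat.ble 50 i then
      (bif Nat.ble 52 i then
       (bif Nat.ble 53 i then
        (bif Nat.beq i 53 then [54, 63, 66, 69, 74, 81, 0, 51, 52] else [])
        else (bif Nat.beq i 52 then [53, 1] else []))
       else (bif Nat.ble 51 i then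
        (bif Nat.beq i 51 then [53, 1] else [])
        else (bif Nat.beq i 50 then [7, 13, 21, 29, 39, 49, 92, 89, 90] else [])))
      else (bif Nat.ble 48 i then
       (bif Nat.ble 49 i then
        (bif Nat.beq i 49 then [48, 50] else [])
        else (bif Nat.beq i 48 then [47, 49] else []))
       else (bif Nat.beq i 47 then [46, 48] else [])))
     else (bif Nat.ble 43 i then
      (bif Nat.ble 45 i then
       (bif Nat.ble 46 i then
        (bif Nat.beq i 46 then [45, 47] else [])
        else (bif Nat.beq i 45 then [44, 46] else []))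
       else (bif Nat.ble 44 i then
        (bif Nat.beq i 44 then [43, 45] else [])
        else (bif Nat.beq i 43 then [42, 44] else [])))
      else (bif Nat.ble 41 i then
       (bif Nat.ble 42 i then
        (bif Nat.beq i 42 then [41, 43] else [])
        else (bif Nat.beq i 41 then [40, 42] else []))
       else (bif Nat.beq i 40 then [1, 41] else []))))
    else (bif Nat.ble 33 i then
     (bif Nat.ble 36 i then
      (bif Nat.ble 38 i then
       (bif Nat.ble 39 i then
        (bif Nat.beq i 39 then [38, 50] else [])
        else (bif Nat.beq i 38 then [37, 39] else []))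
       else (bif Nat.ble 37 i then
        (bif Nat.beq i 37 then [36, 38] else [])
        else (bif Nat.beq i 36 then [35, 37] else [])))
      else (bif Nat.ble 34 i then
       (bif Nat.ble 35 i then
        (bif Nat.beq i 35 then [34, 36] else [])
        else (bif Nat.beq i 34 then [33, 35] else []))
       else (bif Nat.beq i 33 then [32, 34] else [])))
     else (bif Nat.ble 30 i then
      (bif Nat.ble 31 i then
       (bif Nat.ble 32 i then
        (bif Nat.beq i 32 then [31, 33] else [])
        else (bif Nat.beq i 31 then [30, 32] else []))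
       else (bif Nat.beq i 30 then [1, 31] else []))
      else (bif Nat.ble 28 i then
       (bif Nat.ble 29 i then
        (bif Nat.beq i 29 then [28, 50] else [])
        else (bif Nat.beq i 28 then [27, 29] else []))
       else (bif Nat.beq i 27 then [26, 28] else [])))))
   else (bif Nat.ble 13 i then
    (bif Nat.ble 20 i then
     (bif Nat.ble 23 i then
      (bif Nat.ble 25 i then
       (bif Nat.ble 26 i then
        (bif Nat.beq i 26 then [25, 27] else [])
        else (bif Nat.beq i 25 then [24, 26] else []))
       else (bif Nat.ble 24 i then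
        (bif Nat.beq i 24 then [23, 25] else [])
        else (bif Nat.beq i 23 then [22, 24] else [])))
      else (bif Nat.ble 21 i then
       (bif Nat.ble 22 i then
        (bif Nat.beq i 22 then [1, 23] else [])
        else (bif Nat.beq i 21 then [20, 50] else []))
       else (bif Nat.beq i 20 then [19, 21] else [])))
     else (bif Nat.ble 16 i then
      (bif Nat.ble 18 i then
       (bif Nat.ble 19 i then
        (bif Nat.beq i 19 then [18, 20] else [])
        else (bif Nat.beq i 18 then [17, 19] else []))
       else (bif Nat.ble 17 i then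
        (bif Nat.beq i 17 then [16, 18] else [])
        else (bif Nat.beq i 16 then [15, 17] else [])))
      else (bif Nat.ble 14 i then
       (bif Nat.ble 15 i then
        (bif Nat.beq i 15 then [14, 16] else [])
        else (bif Nat.beq i 14 then [1, 15] else []))
       else (bif Nat.beq i 13 then [12, 50] else []))))
    else (bif Nat.ble 6 i then
     (bif Nat.ble 9 i then
      (bif Nat.ble 11 i then
       (bif Nat.ble 12 i then
        (bif Nat.beq i 12 then [11, 13] else [])
        else (bif Nat.beq i 11 then [10, 12] else []))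
       else (bif Nat.ble 10 i then
        (bif Nat.beq i 10 then [9, 11] else [])
        else (bif Nat.beq i 9 then [8, 10] else [])))
      else (bif Nat.ble 7 i then
       (bif Nat.ble 8 i then
        (bif Nat.beq i 8 then [1, 9] else [])
        else (bif Nat.beq i 7 then [6, 50] else []))
       else (bif Nat.beq i 6 then [5, 7] else [])))
     else (bif Nat.ble 3 i then
      (bif Nat.ble 4 i then
       (bif Nat.ble 5 i then
        (bif Nat.beq i 5 then [4, 6] else [])
        else (bif Nat.beq i 4 then [3, 5] else []))
       else (bif Nat.beq i 3 then [2, 4] else []))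
      else (bif Nat.ble 1 i then
       (bif Nat.ble 2 i then
        (bif Nat.beq i 2 then [1, 3] else [])
        else (bif Nat.beq i 1 then [0, 51, 52, 2, 8, 14, 22, 30, 40] else []))
       else (bif Nat.beq i 0 then [53, 1] else []))))))

/-- the threads at a branch vertex -/
def cw (i : ℕ) : List (ℕ × List (List ℕ)) :=
  bif Nat.ble 91 i then
  (bif Nat.ble 101 i then
   (bif Nat.ble 105 i then
    (bif Nat.ble 106 i then
     (bif Nat.ble 107 i then
      (bif Nat.beq i 107 then [(106, [[]])] else [])
      else (bif Nat.beq i 106 then [(107, [[]]), (54, [[55], [56]]), (57, [[], [59, 58]]), (62, [[60], [61]]), (105, [[]])] else []))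
     else (bif Nat.beq i 105 then [(104, [[]]), (101, [[]]), (106, [[]])] else []))
    else (bif Nat.ble 104 i then
     (bif Nat.beq i 104 then [(105, [[]]), (101, [[102], [103]])] else [])
     else (bif Nat.beq i 101 then [(105, [[]]), (104, [[102], [103]])] else [])))
   else (bif Nat.ble 95 i then
    (bif Nat.ble 100 i then
     (bif Nat.beq i 100 then [(95, [[], [97, 96], [99, 98]])] else [])
     else (bif Nat.beq i 95 then [(88, [[]]), (91, [[93], [94]]), (100, [[], [96, 97], [98, 99]])] else []))
    else (bif Nat.ble 92 i then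
     (bif Nat.beq i 92 then [(50, [[]]), (91, [[]])] else [])
     else (bif Nat.beq i 91 then [(92, [[]]), (50, [[89], [90]]), (88, [[]]), (95, [[93], [94]])] else []))))
  else (bif Nat.ble 54 i then
   (bif Nat.ble 62 i then
    (bif Nat.ble 88 i then
     (bif Nat.beq i 88 then [(62, [[]]), (53, [[65, 64, 63], [68, 67, 66], [73, 72, 71, 70, 69], [80, 79, 78, 77, 76, 75, 74], [87, 86, 85, 84, 83, 82, 81]]), (91, [[]]), (95, [[]])] else [])
     else (bif Nat.beq i 62 then [(106, [[60], [61]]), (57, [[]]), (88, [[]])] else []))
    else (bif Nat.ble 57 i then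
     (bif Nat.beq i 57 then [(106, [[], [58, 59]]), (54, [[]]), (62, [[]])] else [])
     else (bif Nat.beq i 54 then [(106, [[55], [56]]), (53, [[]]), (57, [[]])] else [])))
   else (bif Nat.ble 50 i then
    (bif Nat.ble 53 i then
     (bif Nat.beq i 53 then [(54, [[]]), (88, [[63, 64, 65], [66, 67, 68], [69, 70, 71, 72, 73], [74, 75, 76, 77, 78, 79, 80], [81, 82, 83, 84, 85, 86, 87]]), (0, [[]]), (1, [[51], [52]])] else [])
     else (bif Nat.beq i 50 then [(1, [[7, 6, 5, 4, 3, 2], [13, 12, 11, 10, 9, 8], [21, 20, 19, 18, 17, 16, 15, 14], [29, 28, 27, 26, 25, 24, 23, 22], [39, 38, 37, 36, 35, 34, 33, 32, 31, 30], [49, 48, 47, 46, 45, 44, 43, 42, 41, 40]]), (92, [[]]), (91, [[89], [90]])] else []))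
    else (bif Nat.ble 1 i then
     (bif Nat.beq i 1 then [(0, [[]]), (53, [[51], [52]]), (50, [[2, 3, 4, 5, 6, 7], [8, 9, 10, 11, 12, 13], [14, 15, 16, 17, 18, 19, 20, 21], [22, 23, 24, 25, 26, 27, 28, 29], [30, 31, 32, 33, 34, 35, 36, 37, 38, 39], [40, 41, 42, 43, 44, 45, 46, 47, 48, 49]])] else [])
     else (bif Nat.beq i 0 then [(53, [[]]), (1, [[]])] else []))))

/-- the branch vertices -/
def cores : List ℕ := [0, 1, 50, 53, 54, 57, 62, 88, 91, 92, 95, 100, 101, 104, 105, 106, 107]

/-- the ends of the thread through an inner vertex -/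
def own (i : ℕ) : ℕ × ℕ :=
  bif Nat.ble 47 i then
  (bif Nat.ble 75 i then
   (bif Nat.ble 86 i then
    (bif Nat.ble 96 i then
     (bif Nat.ble 99 i then
      (bif Nat.ble 102 i then
       (bif Nat.ble 103 i then
        (bif Nat.beq i 103 then (104, 101) else (0, 0))
        else (bif Nat.beq i 102 then (104, 101) else (0, 0)))
       else (bif Nat.beq i 99 then (95, 100) else (0, 0)))
      else (bif Nat.ble 97 i then
       (bif Nat.ble 98 i then
        (bif Nat.beq i 98 then (95, 100) else (0, 0))
        else (bif Nat.beq i 97 then (95, 100) else (0, 0)))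
       else (bif Nat.beq i 96 then (95, 100) else (0, 0))))
     else (bif Nat.ble 90 i then
      (bif Nat.ble 93 i then
       (bif Nat.ble 94 i then
        (bif Nat.beq i 94 then (91, 95) else (0, 0))
        else (bif Nat.beq i 93 then (91, 95) else (0, 0)))
       else (bif Nat.beq i 90 then (50, 91) else (0, 0)))
      else (bif Nat.ble 87 i then
       (bif Nat.ble 89 i then
        (bif Nat.beq i 89 then (50, 91) else (0, 0))
        else (bif Nat.beq i 87 then (53, 88) else (0, 0)))
       else (bif Nat.beq i 86 then (53, 88) else (0, 0)))))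
    else (bif Nat.ble 80 i then
     (bif Nat.ble 83 i then
      (bif Nat.ble 84 i then
       (bif Nat.ble 85 i then
        (bif Nat.beq i 85 then (53, 88) else (0, 0))
        else (bif Nat.beq i 84 then (53, 88) else (0, 0)))
       else (bif Nat.beq i 83 then (53, 88) else (0, 0)))
      else (bif Nat.ble 81 i then
       (bif Nat.ble 82 i then
        (bif Nat.beq i 82 then (53, 88) else (0, 0))
        else (bif Nat.beq i 81 then (53, 88) else (0, 0)))
       else (bif Nat.beq i 80 then (53, 88) else (0, 0))))
     else (bif Nat.ble 77 i then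
      (bif Nat.ble 78 i then
       (bif Nat.ble 79 i then
        (bif Nat.beq i 79 then (53, 88) else (0, 0))
        else (bif Nat.beq i 78 then (53, 88) else (0, 0)))
       else (bif Nat.beq i 77 then (53, 88) else (0, 0)))
      else (bif Nat.ble 76 i then
       (bif Nat.beq i 76 then (53, 88) else (0, 0))
       else (bif Nat.beq i 75 then (53, 88) else (0, 0))))))
   else (bif Nat.ble 63 i then
    (bif Nat.ble 69 i then
     (bif Nat.ble 72 i then
      (bif Nat.ble 73 i then
       (bif Nat.ble 74 i then
        (bif Nat.beq i 74 then (53, 88) else (0, 0))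
        else (bif Nat.beq i 73 then (53, 88) else (0, 0)))
       else (bif Nat.beq i 72 then (53, 88) else (0, 0)))
      else (bif Nat.ble 70 i then
       (bif Nat.ble 71 i then
        (bif Nat.beq i 71 then (53, 88) else (0, 0))
        else (bif Nat.beq i 70 then (53, 88) else (0, 0)))
       else (bif Nat.beq i 69 then (53, 88) else (0, 0))))
     else (bif Nat.ble 66 i then
      (bif Nat.ble 67 i then
       (bif Nat.ble 68 i then
        (bif Nat.beq i 68 then (53, 88) else (0, 0))
        else (bif Nat.beq i 67 then (53, 88) else (0, 0)))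
       else (bif Nat.beq i 66 then (53, 88) else (0, 0)))
      else (bif Nat.ble 64 i then
       (bif Nat.ble 65 i then
        (bif Nat.beq i 65 then (53, 88) else (0, 0))
        else (bif Nat.beq i 64 then (53, 88) else (0, 0)))
       else (bif Nat.beq i 63 then (53, 88) else (0, 0)))))
    else (bif Nat.ble 55 i then
     (bif Nat.ble 59 i then
      (bif Nat.ble 60 i then
       (bif Nat.ble 61 i then
        (bif Nat.beq i 61 then (106, 62) else (0, 0))
        else (bif Nat.beq i 60 then (106, 62) else (0, 0)))
       else (bif Nat.beq i 59 then (106, 57) else (0, 0)))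
      else (bif Nat.ble 56 i then
       (bif Nat.ble 58 i then
        (bif Nat.beq i 58 then (106, 57) else (0, 0))
        else (bif Nat.beq i 56 then (106, 54) else (0, 0)))
       else (bif Nat.beq i 55 then (106, 54) else (0, 0))))
     else (bif Nat.ble 49 i then
      (bif Nat.ble 51 i then
       (bif Nat.ble 52 i then
        (bif Nat.beq i 52 then (53, 1) else (0, 0))
        else (bif Nat.beq i 51 then (53, 1) else (0, 0)))
       else (bif Nat.beq i 49 then (1, 50) else (0, 0)))
      else (bif Nat.ble 48 i then
       (bif Nat.beq i 48 then (1, 50) else (0, 0))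
       else (bif Nat.beq i 47 then (1, 50) else (0, 0)))))))
  else (bif Nat.ble 24 i then
   (bif Nat.ble 35 i then
    (bif Nat.ble 41 i then
     (bif Nat.ble 44 i then
      (bif Nat.ble 45 i then
       (bif Nat.ble 46 i then
        (bif Nat.beq i 46 then (1, 50) else (0, 0))
        else (bif Nat.beq i 45 then (1, 50) else (0, 0)))
       else (bif Nat.beq i 44 then (1, 50) else (0, 0)))
      else (bif Nat.ble 42 i then
       (bif Nat.ble 43 i then
        (bif Nat.beq i 43 then (1, 50) else (0, 0))
        else (bif Nat.beq i 42 then (1, 50) else (0, 0)))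
       else (bif Nat.beq i 41 then (1, 50) else (0, 0))))
     else (bif Nat.ble 38 i then
      (bif Nat.ble 39 i then
       (bif Nat.ble 40 i then
        (bif Nat.beq i 40 then (1, 50) else (0, 0))
        else (bif Nat.beq i 39 then (1, 50) else (0, 0)))
       else (bif Nat.beq i 38 then (1, 50) else (0, 0)))
      else (bif Nat.ble 36 i then
       (bif Nat.ble 37 i then
        (bif Nat.beq i 37 then (1, 50) else (0, 0))
        else (bif Nat.beq i 36 then (1, 50) else (0, 0)))
       else (bif Nat.beq i 35 then (1, 50) else (0, 0)))))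
    else (bif Nat.ble 29 i then
     (bif Nat.ble 32 i then
      (bif Nat.ble 33 i then
       (bif Nat.ble 34 i then
        (bif Nat.beq i 34 then (1, 50) else (0, 0))
        else (bif Nat.beq i 33 then (1, 50) else (0, 0)))
       else (bif Nat.beq i 32 then (1, 50) else (0, 0)))
      else (bif Nat.ble 30 i then
       (bif Nat.ble 31 i then
        (bif Nat.beq i 31 then (1, 50) else (0, 0))
        else (bif Nat.beq i 30 then (1, 50) else (0, 0)))
       else (bif Nat.beq i 29 then (1, 50) else (0, 0))))
     else (bif Nat.ble 26 i then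
      (bif Nat.ble 27 i then
       (bif Nat.ble 28 i then
        (bif Nat.beq i 28 then (1, 50) else (0, 0))
        else (bif Nat.beq i 27 then (1, 50) else (0, 0)))
       else (bif Nat.beq i 26 then (1, 50) else (0, 0)))
      else (bif Nat.ble 25 i then
       (bif Nat.beq i 25 then (1, 50) else (0, 0))
       else (bif Nat.beq i 24 then (1, 50) else (0, 0))))))
   else (bif Nat.ble 13 i then
    (bif Nat.ble 18 i then
     (bif Nat.ble 21 i then
      (bif Nat.ble 22 i then
       (bif Nat.ble 23 i then
        (bif Nat.beq i 23 then (1, 50) else (0, 0))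
        else (bif Nat.beq i 22 then (1, 50) else (0, 0)))
       else (bif Nat.beq i 21 then (1, 50) else (0, 0)))
      else (bif Nat.ble 19 i then
       (bif Nat.ble 20 i then
        (bif Nat.beq i 20 then (1, 50) else (0, 0))
        else (bif Nat.beq i 19 then (1, 50) else (0, 0)))
       else (bif Nat.beq i 18 then (1, 50) else (0, 0))))
     else (bif Nat.ble 15 i then
      (bif Nat.ble 16 i then
       (bif Nat.ble 17 i then
        (bif Nat.beq i 17 then (1, 50) else (0, 0))
        else (bif Nat.beq i 16 then (1, 50) else (0, 0)))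
       else (bif Nat.beq i 15 then (1, 50) else (0, 0)))
      else (bif Nat.ble 14 i then
       (bif Nat.beq i 14 then (1, 50) else (0, 0))
       else (bif Nat.beq i 13 then (1, 50) else (0, 0)))))
    else (bif Nat.ble 7 i then
     (bif Nat.ble 10 i then
      (bif Nat.ble 11 i then
       (bif Nat.ble 12 i then
        (bif Nat.beq i 12 then (1, 50) else (0, 0))
        else (bif Nat.beq i 11 then (1, 50) else (0, 0)))
       else (bif Nat.beq i 10 then (1, 50) else (0, 0)))
      else (bif Nat.ble 8 i then
       (bif Nat.ble 9 i then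
        (bif Nat.beq i 9 then (1, 50) else (0, 0))
        else (bif Nat.beq i 8 then (1, 50) else (0, 0)))
       else (bif Nat.beq i 7 then (1, 50) else (0, 0))))
     else (bif Nat.ble 4 i then
      (bif Nat.ble 5 i then
       (bif Nat.ble 6 i then
        (bif Nat.beq i 6 then (1, 50) else (0, 0))
        else (bif Nat.beq i 5 then (1, 50) else (0, 0)))
       else (bif Nat.beq i 4 then (1, 50) else (0, 0)))
      else (bif Nat.ble 3 i then
       (bif Nat.beq i 3 then (1, 50) else (0, 0))
       else (bif Nat.beq i 2 then (1, 50) else (0, 0)))))))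

/-- the arcs on the lower side of a row -/
def low : List (ℕ × ℕ) :=
  [(0, 53), (1, 51), (1, 52), (7, 50), (13, 50), (21, 50), (29, 50), (39, 50), (62, 88), (65, 88), (68, 88), (73, 88), (80, 88), (88, 91), (88, 95), (89, 91), (91, 93), (91, 94), (95, 98), (102, 104)]

/-- a table of four coefficients for each vertex -/
def yt (i : ℕ) : ℕ × ℕ × ℕ :=
  bif Nat.ble 54 i then
  (bif Nat.ble 81 i then
   (bif Nat.ble 94 i then
    (bif Nat.ble 101 i then
     (bif Nat.ble 104 i then
      (bif Nat.ble 106 i then
       (bif Nat.ble 107 i then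
        (bif Nat.beq i 107 then (1, 2, 1) else (0, 0, 0))
        else (bif Nat.beq i 106 then (1, 2, 1) else (0, 0, 0)))
       else (bif Nat.ble 105 i then
        (bif Nat.beq i 105 then (0, 0, 0) else (0, 0, 0))
        else (bif Nat.beq i 104 then (2, 1, 2) else (0, 0, 0))))
      else (bif Nat.ble 102 i then
       (bif Nat.ble 103 i then
        (bif Nat.beq i 103 then (1, 2, 1) else (0, 0, 0))
        else (bif Nat.beq i 102 then (1, 2, 1) else (0, 0, 0)))
       else (bif Nat.beq i 101 then (2, 1, 2) else (0, 0, 0))))
     else (bif Nat.ble 97 i then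
      (bif Nat.ble 99 i then
       (bif Nat.ble 100 i then
        (bif Nat.beq i 100 then (2, 1, 2) else (0, 0, 0))
        else (bif Nat.beq i 99 then (1, 2, 1) else (0, 0, 0)))
       else (bif Nat.ble 98 i then
        (bif Nat.beq i 98 then (1, 2, 1) else (0, 0, 0))
        else (bif Nat.beq i 97 then (1, 2, 1) else (0, 0, 0))))
      else (bif Nat.ble 95 i then
       (bif Nat.ble 96 i then
        (bif Nat.beq i 96 then (1, 2, 1) else (0, 0, 0))
        else (bif Nat.beq i 95 then (0, 0, 0) else (0, 0, 0)))
       else (bif Nat.beq i 94 then (1, 2, 1) else (0, 0, 0)))))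
    else (bif Nat.ble 87 i then
     (bif Nat.ble 90 i then
      (bif Nat.ble 92 i then
       (bif Nat.ble 93 i then
        (bif Nat.beq i 93 then (1, 2, 1) else (0, 0, 0))
        else (bif Nat.beq i 92 then (0, 0, 0) else (0, 0, 0)))
       else (bif Nat.ble 91 i then
        (bif Nat.beq i 91 then (0, 0, 0) else (0, 0, 0))
        else (bif Nat.beq i 90 then (1, 2, 1) else (0, 0, 0))))
      else (bif Nat.ble 88 i then
       (bif Nat.ble 89 i then
        (bif Nat.beq i 89 then (1, 2, 1) else (0, 0, 0))
        else (bif Nat.beq i 88 then (1, 2, 1) else (0, 0, 0)))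
       else (bif Nat.beq i 87 then (1, 2, 1) else (0, 0, 0))))
     else (bif Nat.ble 84 i then
      (bif Nat.ble 85 i then
       (bif Nat.ble 86 i then
        (bif Nat.beq i 86 then (1, 2, 1) else (0, 0, 0))
        else (bif Nat.beq i 85 then (1, 2, 1) else (0, 0, 0)))
       else (bif Nat.beq i 84 then (1, 2, 1) else (0, 0, 0)))
      else (bif Nat.ble 82 i then
       (bif Nat.ble 83 i then
        (bif Nat.beq i 83 then (1, 2, 1) else (0, 0, 0))
        else (bif Nat.beq i 82 then (1, 2, 1) else (0, 0, 0)))
       else (bif Nat.beq i 81 then (1, 2, 1) else (0, 0, 0))))))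
   else (bif Nat.ble 67 i then
    (bif Nat.ble 74 i then
     (bif Nat.ble 77 i then
      (bif Nat.ble 79 i then
       (bif Nat.ble 80 i then
        (bif Nat.beq i 80 then (1, 2, 1) else (0, 0, 0))
        else (bif Nat.beq i 79 then (1, 2, 1) else (0, 0, 0)))
       else (bif Nat.ble 78 i then
        (bif Nat.beq i 78 then (1, 2, 1) else (0, 0, 0))
        else (bif Nat.beq i 77 then (1, 2, 1) else (0, 0, 0))))
      else (bif Nat.ble 75 i then
       (bif Nat.ble 76 i then
        (bif Nat.beq i 76 then (1, 2, 1) else (0, 0, 0))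
        else (bif Nat.beq i 75 then (1, 2, 1) else (0, 0, 0)))
       else (bif Nat.beq i 74 then (1, 2, 1) else (0, 0, 0))))
     else (bif Nat.ble 70 i then
      (bif Nat.ble 72 i then
       (bif Nat.ble 73 i then
        (bif Nat.beq i 73 then (1, 2, 1) else (0, 0, 0))
        else (bif Nat.beq i 72 then (1, 2, 1) else (0, 0, 0)))
       else (bif Nat.ble 71 i then
        (bif Nat.beq i 71 then (1, 2, 1) else (0, 0, 0))
        else (bif Nat.beq i 70 then (1, 2, 1) else (0, 0, 0))))
      else (bif Nat.ble 68 i then
       (bif Nat.ble 69 i then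
        (bif Nat.beq i 69 then (1, 2, 1) else (0, 0, 0))
        else (bif Nat.beq i 68 then (1, 2, 1) else (0, 0, 0)))
       else (bif Nat.beq i 67 then (1, 2, 1) else (0, 0, 0)))))
    else (bif Nat.ble 60 i then
     (bif Nat.ble 63 i then
      (bif Nat.ble 65 i then
       (bif Nat.ble 66 i then
        (bif Nat.beq i 66 then (1, 2, 1) else (0, 0, 0))
        else (bif Nat.beq i 65 then (1, 2, 1) else (0, 0, 0)))
       else (bif Nat.ble 64 i then
        (bif Nat.beq i 64 then (1, 2, 1) else (0, 0, 0))
        else (bif Nat.beq i 63 then (1, 2, 1) else (0, 0, 0))))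
      else (bif Nat.ble 61 i then
       (bif Nat.ble 62 i then
        (bif Nat.beq i 62 then (2, 1, 2) else (0, 0, 0))
        else (bif Nat.beq i 61 then (1, 2, 1) else (0, 0, 0)))
       else (bif Nat.beq i 60 then (1, 2, 1) else (0, 0, 0))))
     else (bif Nat.ble 57 i then
      (bif Nat.ble 58 i then
       (bif Nat.ble 59 i then
        (bif Nat.beq i 59 then (1, 2, 1) else (0, 0, 0))
        else (bif Nat.beq i 58 then (1, 2, 1) else (0, 0, 0)))
       else (bif Nat.beq i 57 then (2, 1, 2) else (0, 0, 0)))
      else (bif Nat.ble 55 i then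
       (bif Nat.ble 56 i then
        (bif Nat.beq i 56 then (1, 2, 1) else (0, 0, 0))
        else (bif Nat.beq i 55 then (1, 2, 1) else (0, 0, 0)))
       else (bif Nat.beq i 54 then (2, 1, 2) else (0, 0, 0)))))))
  else (bif Nat.ble 27 i then
   (bif Nat.ble 40 i then
    (bif Nat.ble 47 i then
     (bif Nat.ble 50 i then
      (bif Nat.ble 52 i then
       (bif Nat.ble 53 i then
        (bif Nat.beq i 53 then (0, 0, 0) else (0, 0, 0))
        else (bif Nat.beq i 52 then (1, 2, 1) else (0, 0, 0)))
       else (bif Nat.ble 51 i then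
        (bif Nat.beq i 51 then (1, 2, 1) else (0, 0, 0))
        else (bif Nat.beq i 50 then (0, 0, 0) else (0, 0, 0))))
      else (bif Nat.ble 48 i then
       (bif Nat.ble 49 i then
        (bif Nat.beq i 49 then (1, 2, 1) else (0, 0, 0))
        else (bif Nat.beq i 48 then (1, 2, 1) else (0, 0, 0)))
       else (bif Nat.beq i 47 then (1, 2, 1) else (0, 0, 0))))
     else (bif Nat.ble 43 i then
      (bif Nat.ble 45 i then
       (bif Nat.ble 46 i then
        (bif Nat.beq i 46 then (1, 2, 1) else (0, 0, 0))
        else (bif Nat.beq i 45 then (1, 2, 1) else (0, 0, 0)))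
       else (bif Nat.ble 44 i then
        (bif Nat.beq i 44 then (1, 2, 1) else (0, 0, 0))
        else (bif Nat.beq i 43 then (1, 2, 1) else (0, 0, 0))))
      else (bif Nat.ble 41 i then
       (bif Nat.ble 42 i then
        (bif Nat.beq i 42 then (1, 2, 1) else (0, 0, 0))
        else (bif Nat.beq i 41 then (1, 2, 1) else (0, 0, 0)))
       else (bif Nat.beq i 40 then (1, 2, 1) else (0, 0, 0)))))
    else (bif Nat.ble 33 i then
     (bif Nat.ble 36 i then
      (bif Nat.ble 38 i then
       (bif Nat.ble 39 i then
        (bif Nat.beq i 39 then (1, 2, 1) else (0, 0, 0))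
        else (bif Nat.beq i 38 then (1, 2, 1) else (0, 0, 0)))
       else (bif Nat.ble 37 i then
        (bif Nat.beq i 37 then (1, 2, 1) else (0, 0, 0))
        else (bif Nat.beq i 36 then (1, 2, 1) else (0, 0, 0))))
      else (bif Nat.ble 34 i then
       (bif Nat.ble 35 i then
        (bif Nat.beq i 35 then (1, 2, 1) else (0, 0, 0))
        else (bif Nat.beq i 34 then (1, 2, 1) else (0, 0, 0)))
       else (bif Nat.beq i 33 then (1, 2, 1) else (0, 0, 0))))
     else (bif Nat.ble 30 i then
      (bif Nat.ble 31 i then
       (bif Nat.ble 32 i then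
        (bif Nat.beq i 32 then (1, 2, 1) else (0, 0, 0))
        else (bif Nat.beq i 31 then (1, 2, 1) else (0, 0, 0)))
       else (bif Nat.beq i 30 then (1, 2, 1) else (0, 0, 0)))
      else (bif Nat.ble 28 i then
       (bif Nat.ble 29 i then
        (bif Nat.beq i 29 then (1, 2, 1) else (0, 0, 0))
        else (bif Nat.beq i 28 then (1, 2, 1) else (0, 0, 0)))
       else (bif Nat.beq i 27 then (1, 2, 1) else (0, 0, 0))))))
   else (bif Nat.ble 13 i then
    (bif Nat.ble 20 i then
     (bif Nat.ble 23 i then
      (bif Nat.ble 25 i then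
       (bif Nat.ble 26 i then
        (bif Nat.beq i 26 then (1, 2, 1) else (0, 0, 0))
        else (bif Nat.beq i 25 then (1, 2, 1) else (0, 0, 0)))
       else (bif Nat.ble 24 i then
        (bif Nat.beq i 24 then (1, 2, 1) else (0, 0, 0))
        else (bif Nat.beq i 23 then (1, 2, 1) else (0, 0, 0))))
      else (bif Nat.ble 21 i then
       (bif Nat.ble 22 i then
        (bif Nat.beq i 22 then (1, 2, 1) else (0, 0, 0))
        else (bif Nat.beq i 21 then (1, 2, 1) else (0, 0, 0)))
       else (bif Nat.beq i 20 then (1, 2, 1) else (0, 0, 0))))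
     else (bif Nat.ble 16 i then
      (bif Nat.ble 18 i then
       (bif Nat.ble 19 i then
        (bif Nat.beq i 19 then (1, 2, 1) else (0, 0, 0))
        else (bif Nat.beq i 18 then (1, 2, 1) else (0, 0, 0)))
       else (bif Nat.ble 17 i then
        (bif Nat.beq i 17 then (1, 2, 1) else (0, 0, 0))
        else (bif Nat.beq i 16 then (1, 2, 1) else (0, 0, 0))))
      else (bif Nat.ble 14 i then
       (bif Nat.ble 15 i then
        (bif Nat.beq i 15 then (1, 2, 1) else (0, 0, 0))
        else (bif Nat.beq i 14 then (1, 2, 1) else (0, 0, 0)))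
       else (bif Nat.beq i 13 then (1, 2, 1) else (0, 0, 0)))))
    else (bif Nat.ble 6 i then
     (bif Nat.ble 9 i then
      (bif Nat.ble 11 i then
       (bif Nat.ble 12 i then
        (bif Nat.beq i 12 then (1, 2, 1) else (0, 0, 0))
        else (bif Nat.beq i 11 then (1, 2, 1) else (0, 0, 0)))
       else (bif Nat.ble 10 i then
        (bif Nat.beq i 10 then (1, 2, 1) else (0, 0, 0))
        else (bif Nat.beq i 9 then (1, 2, 1) else (0, 0, 0))))
      else (bif Nat.ble 7 i then
       (bif Nat.ble 8 i then
        (bif Nat.beq i 8 then (1, 2, 1) else (0, 0, 0))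
        else (bif Nat.beq i 7 then (1, 2, 1) else (0, 0, 0)))
       else (bif Nat.beq i 6 then (1, 2, 1) else (0, 0, 0))))
     else (bif Nat.ble 3 i then
      (bif Nat.ble 4 i then
       (bif Nat.ble 5 i then
        (bif Nat.beq i 5 then (1, 2, 1) else (0, 0, 0))
        else (bif Nat.beq i 4 then (1, 2, 1) else (0, 0, 0)))
       else (bif Nat.beq i 3 then (1, 2, 1) else (0, 0, 0)))
      else (bif Nat.ble 1 i then
       (bif Nat.ble 2 i then
        (bif Nat.beq i 2 then (1, 2, 1) else (0, 0, 0))
        else (bif Nat.beq i 1 then (0, 0, 0) else (0, 0, 0)))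
       else (bif Nat.beq i 0 then (0, 0, 0) else (0, 0, 0)))))))

/-- the links between cells -/
def lk (i : ℕ) : List (Kl × ℕ) :=
  if i = 107 then [((-1, -1), 0)] else if i = 0 then [((1, -1), 107)]
  else if i = 100 then [((1, 0), 101)] else if i = 101 then [((-1, 0), 100)]
  else if i = 92 then [((2, 0), 104)] else if i = 104 then [((-2, 0), 92)] else []

/-- all arrows from a vertex of type `i` -/
def ar (i : ℕ) : List (Kl × ℕ) := (nb i).map (fun w => (1, w)) ++ lk i

/-- the edges of the block up to translation -/
@[irreducible] def DD : Finset (Ar Kl) :=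
  (range 108).biUnion fun i => ((ar i).map fun p => (i, p)).toFinset

theorem mem_DD {d : Ar Kl} : d ∈ DD ↔ d.1 < 108 ∧ d.2 ∈ ar d.1 := by
  have : ∀ N, d ∈ ((range N).biUnion fun i => ((ar i).map fun p => (i, p)).toFinset) ↔
      d.1 < N ∧ d.2 ∈ ar d.1 := fun N => by
    simp only [mem_biUnion, mem_range, List.mem_toFinset, List.mem_map]
    exact ⟨fun ⟨i, h, p, hp, e⟩ => e ▸ ⟨h, hp⟩, fun h => ⟨_, h.1, _, h.2, rfl⟩⟩
  unfold DD
  exact this 108

theorem ar_ok : ∀ i < 108, (ar i).Nodup ∧ ∀ p ∈ ar i, p.2 < 108 ∧ (p.1⁻¹, i) ∈ ar p.2 ∧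
    ¬(p.1 = 1 ∧ i = p.2) := by decide +kernel

theorem DD_idn : ∀ d ∈ DD, ¬Idn d := fun _ h =>
  ((ar_ok _ (mem_DD.1 h).1).2 _ (mem_DD.1 h).2).2.2

theorem DD_inv : ∀ d ∈ DD, (d.2.2, d.2.1⁻¹, d.1) ∈ DD := fun _ h =>
  have := (ar_ok _ (mem_DD.1 h).1).2 _ (mem_DD.1 h).2
  mem_DD.2 ⟨this.1, this.2.1⟩

theorem DD_lt : ∀ d ∈ DD, d.1 < 108 := fun _ h => (mem_DD.1 h).1

end Pool.Agent.Lib.MP_820104_pr.Tb
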