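import Pool.Agent.Lib.MP_820104_pr.Core

/-! The patterns of passes through one cell that survive modulo three. -/

namespace Pool.Agent.Lib.MP_820104_pr.Tb

open Finset Polynomial

/-- the ports -/
def pts : List ℕ := [0, 92, 100, 101, 104, 107]

/-- sorted matchings -/
def mts : ℕ → List ℕ → List (List (ℕ × ℕ))
  | 0, _ => [[]]
  | n + 1, l => [] :: l.flatMap fun a => (l.filter (a < ·)).flatMap fun b =>
      (mts n (l.filter fun c => a < c ∧ c ≠ b)).map fun τ => (a, b) :: τ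

/-- ordered and oriented matchings -/
def ops : ℕ → List ℕ → List (List (ℕ × ℕ))
  | 0, _ => [[]]
  | n + 1, l => [] :: l.flatMap fun a => (l.filter (a ≠ ·)).flatMap fun b =>
      (ops n (l.filter fun c => a ≠ c ∧ b ≠ c)).map fun τ => (a, b) :: τ

/-- the surviving patterns -/
def good : List (List (ℕ × ℕ)) :=
  [[], [(0, 92)], [(101, 107)], [(104, 107)], [(0, 100), (101, 107)], [(0, 100), (104, 107)]]

/-- the smaller end first -/
def nrm (p : ℕ × ℕ) : ℕ × ℕ := if p.1 ≤ p.2 then p else p.swap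

/-- the ends of the passes -/
def fl (τ : List (ℕ × ℕ)) : List ℕ := τ.flatMap fun p => [p.1, p.2]

theorem mts_ok : ∀ τ ∈ mts 3 pts, τ ∈ good ∨ tst τ 0 := by decide +kernel

theorem ops_ok : ∀ τ ∈ ops 3 pts,
    (τ.map nrm).insertionSort (fun p q => p.1 ≤ q.1) ∈ mts 3 pts := by decide +kernel

theorem mem_ops : ∀ {n : ℕ} {τ : List (ℕ × ℕ)} {l : List ℕ}, τ.length ≤ n → (fl τ).Nodup →
    (∀ i ∈ fl τ, i ∈ l) → τ ∈ ops n l
  | 0, [], _, _, _, _ => by simp [ops]
  | _ + 1, [], _, _, _, _ => by simp [ops]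
  | 0, _ :: _, _, h, _, _ => by simp at h
  | n + 1, (a, b) :: τ, l, h, h1, h2 => by
    have e : fl ((a, b) :: τ) = a :: b :: fl τ := rfl
    simp only [e, List.nodup_cons, List.mem_cons, not_or, forall_eq_or_imp] at h1 h2
    simp only [ops, List.mem_cons, List.mem_flatMap, List.mem_filter, List.mem_map,
      decide_eq_true_eq]
    refine Or.inr ⟨a, h2.1, b, ⟨h2.2.1, h1.1.1⟩, τ, mem_ops (by simpa using h) h1.2.2 fun i hi =>
      List.mem_filter.2 ⟨h2.2.2 i hi, decide_eq_true ⟨?_, ?_⟩⟩, rfl⟩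
    · exact fun e => h1.1.2 (e ▸ hi)
    · exact fun e => h1.2.1 (e ▸ hi)

theorem Z_nrm {R : Type} [CommSemiring R] {x : R} : ∀ τ : List (ℕ × ℕ), Z x (τ.map nrm) = Z x τ
  | [] => rfl
  | p :: τ => by
    rw [List.map_cons, Z, Z, Z_nrm τ, nrm]
    split_ifs
    exacts [rfl, funext fun _ => A_rev]

theorem Z_zero {τ : List (ℕ × ℕ)} (h : tst τ 0) : Z (PowerSeries.X : PS) τ ∅ = 0 :=
  (Z_of_tst (q := 0) (by simp) (by simpa using h)).trans (map_zero _)

theorem pat {τ : List (ℕ × ℕ)} (h1 : (fl τ).Nodup) (h2 : ∀ i ∈ fl τ, i ∈ pts)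
    (h : Z (PowerSeries.X : PS) τ ∅ ≠ 0) : ∃ γ ∈ good, (τ.map nrm).Perm γ := by
  have hl : (fl τ).length = τ.length * 2 := by simp [fl, List.length_flatMap]
  have := (List.subperm_of_subset h1 h2).length_le
  have hp := List.perm_insertionSort (fun p q : ℕ × ℕ => p.1 ≤ q.1) (τ.map nrm)
  refine ⟨_, (mts_ok _ (ops_ok τ (mem_ops (by simp [pts] at this; omega) h1 h2))).resolve_right
    fun e => h ?_, hp.symm⟩
  rw [← Z_nrm, ← Z_perm hp, Z_zero e]

end Pool.Agent.Lib.MP_820104_pr.Tb
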