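import Mathlib

/-! The set of used ports of a surviving skeleton: static rules. -/

namespace Pool.Agent.Lib.MP_820104_pr.Tb

/-- the rules for the used ports of a cell without an end of the walk -/
def Rules (u : ℕ → Prop) : Prop := (u 107 ↔ u 101 ∨ u 104) ∧ (u 0 ↔ u 92 ∨ u 100) ∧
  (u 100 → u 107) ∧ (u 92 → ¬u 107)

/-- the used ports `U j k i` of a walk from the cell `(0, 0)` to the cell `(J, K)` -/
structure Cf (U : ℤ → ℤ → ℕ → Prop) (J K : ℤ) : Prop where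
  bd : ∃ M, ∀ j k i, U j k i → -M ≤ j ∧ j ≤ M ∧ k ≤ M
  la : ∀ {j k}, U j k 107 → U (j - 1) (-k - 1) 0
  lc : ∀ {j k}, U j k 0 → U (j + 1) (-k - 1) 107
  lD : ∀ {j k}, U j k 100 → U (j + 1) (-k) 101
  ld : ∀ {j k}, U j k 101 → U (j - 1) (-k) 100
  le : ∀ {j k}, U j k 92 → U (j + 2) k 104
  lf : ∀ {j k}, U j k 104 → U (j - 2) k 92
  nd : ∀ j k, ¬(j = 0 ∧ k = 0) → ¬(j = J ∧ k = K) → Rules (U j k)

theorem lex_ind {M : ℤ} {P : ℤ → ℤ → Prop} (h : ∀ j k, (∀ j' k', j' ≤ M → k' ≤ M →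
    (j < j' ∨ j = j' ∧ k < k') → P j' k') → P j k) (j k : ℤ) : P j k :=
  h j k fun j' k' _ _ _ => lex_ind h j' k'
termination_by ((M - j).toNat, (M - k).toNat)
decreasing_by
  rename_i a b c
  rcases c with c | ⟨rfl, c⟩
  · exact .left _ _ (by omega)
  · exact .right _ (by omega)

variable {U : ℤ → ℤ → ℕ → Prop} {J K j k : ℤ} (H : Cf U J K)
include H

theorem Cf.cg {j' k' : ℤ} {i : ℕ} (h : U j k i) (e : j = j' ∧ k = k') : U j' k' i :=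
  (fun _ => e.1 ▸ e.2 ▸ h) H

theorem Cf.down (h : U j k 107) : (j = 0 ∧ k = 0 ∨ j = J ∧ k = K) ∨
    (j - 1 = 0 ∧ -k = 0 ∨ j - 1 = J ∧ -k = K) ∨ (j - 2 = 0 ∧ k = 0 ∨ j - 2 = J ∧ k = K) ∨
      U (j - 1) (-k) 107 ∨ U (j - 1) (-k - 1) 107 := by
  by_contra hn
  simp only [not_or] at hn
  obtain ⟨a, b, c, d, e⟩ := hn
  rcases (H.nd _ _ a.1 a.2).1.1 h with h | h
  · exact d ((H.nd _ _ b.1 b.2).2.2.1 (H.ld h))
  · exact e (H.cg (H.lc ((H.nd _ _ c.1 c.2).2.1.2 (Or.inl (H.lf h)))) (by omega))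

theorem Cf.low (h : U j k 107) : 0 ≤ j ∨ J ≤ j := by
  obtain ⟨M, hM⟩ := H.bd
  have : ∀ (n : ℕ) j k, j + M < n → U j k 107 → 0 ≤ j ∨ J ≤ j := fun n => by
    induction n with
    | zero => exact fun j k a b => by have := hM _ _ _ b; omega
    | succ n ih =>
      intro j k a b
      rcases H.down b with c | c | c | c | c
      iterate 3 omega
      all_goals have := ih _ _ (by omega) c; omega
  exact this (j + M + 1).toNat j k (by omega) h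

theorem Cf.top : ∀ j k, U j k 107 → ∃ j' k', (j' = 0 ∧ k' = 0 ∨ j' = J ∧ k' = K) ∧
    (U j' k' 0 ∧ (j ≤ j' ∨ j = j' + 1 ∧ k ≤ -k' - 1) ∨
      (U j' k' 101 ∨ U j' k' 104) ∧ (j < j' ∨ j = j' ∧ k < k')) := by
  obtain ⟨M, hM⟩ := H.bd
  refine lex_ind (M := M) fun j k ih h => ?_
  have key : ∀ j' k', (j < j' ∨ j = j' ∧ k < k') → U j' k' 101 ∨ U j' k' 104 → ∃ j' k',
      (j' = 0 ∧ k' = 0 ∨ j' = J ∧ k' = K) ∧ (U j' k' 0 ∧ (j ≤ j' ∨ j = j' + 1 ∧ k ≤ -k' - 1) ∨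
        (U j' k' 101 ∨ U j' k' 104) ∧ (j < j' ∨ j = j' ∧ k < k')) := fun j' k' a b => by
    by_cases e : j' = 0 ∧ k' = 0 ∨ j' = J ∧ k' = K
    · exact ⟨j', k', e, Or.inr ⟨b, a⟩⟩
    have c := (H.nd _ _ (mt Or.inl e) (mt Or.inr e)).1.2 b
    obtain ⟨p, q, d, f⟩ := ih j' k' (hM _ _ _ c).2.1 (hM _ _ _ c).2.2 a c
    exact ⟨p, q, d, f.imp (And.imp_right fun _ => by omega) (And.imp_right fun _ => by omega)⟩
  by_cases e : j - 1 = 0 ∧ -k - 1 = 0 ∨ j - 1 = J ∧ -k - 1 = K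
  · exact ⟨_, _, e, Or.inl ⟨H.la h, by omega⟩⟩
  rcases (H.nd _ _ (mt Or.inl e) (mt Or.inr e)).2.1.1 (H.la h) with c | c
  · exact key _ _ (by omega) (Or.inr (H.le c))
  · exact key _ _ (by omega) (Or.inl (H.lD c))

theorem Cf.near (hJ : |J| ≤ 1) {i : ℕ} (hi : i ∈ [0, 92, 100, 101, 104, 107]) (h : U j k i) :
    (-2 ≤ j ∧ j ≤ 2) ∧ (-5 ≤ k ∧ k ≤ 5 ∨ K - 5 ≤ k ∧ k ≤ K + 5 ∨ -K - 5 ≤ k ∧ k ≤ -K + 5) := by
  rw [abs_le] at hJ
  have a : ∀ (n : ℕ) (j k : ℤ), j + 2 ≤ n → U j k 107 →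
      -n ≤ k ∧ k ≤ n ∨ K - n ≤ k ∧ k ≤ K + n ∨ -K - n ≤ k ∧ k ≤ -K + n := fun n => by
    induction n with
    | zero => exact fun j k a b => by have := H.low b; omega
    | succ n ih =>
      intro j k a b
      rcases H.down b with c | c | c | c | c
      iterate 3 omega
      all_goals have := ih _ _ (by omega) c; omega
  have b : ∀ j k, U j k 107 → (-1 ≤ j ∧ j ≤ 2) ∧
      (-4 ≤ k ∧ k ≤ 4 ∨ K - 4 ≤ k ∧ k ≤ K + 4 ∨ -K - 4 ≤ k ∧ k ≤ -K + 4) := fun j k h => by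
    obtain ⟨p, q, d, f⟩ := H.top _ _ h
    have := H.low h
    have e : j ≤ 2 := by omega
    exact ⟨by omega, a 4 j k (by omega) h⟩
  by_cases e : j = 0 ∧ k = 0 ∨ j = J ∧ k = K
  · omega
  have r := H.nd _ _ (mt Or.inl e) (mt Or.inr e)
  have : U j k 107 ∨ U j k 0 := by
    simp only [List.mem_cons, List.not_mem_nil, or_false] at hi
    rcases hi with rfl | rfl | rfl | rfl | rfl | rfl
    exacts [.inr h, .inr (r.2.1.2 (.inl h)), .inr (r.2.1.2 (.inr h)), .inl (r.1.2 (.inl h)),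
      .inl (r.1.2 (.inr h)), .inl h]
  rcases this with c | c
  · have := b _ _ c; omega
  · have := b _ _ (H.lc c); omega

variable (hJ : 2 ≤ J)
include hJ

theorem Cf.yD : ¬U J K 100 := fun h => by
  obtain ⟨p, q, d, f⟩ := H.top _ _ ((H.nd _ _ (by omega) (by omega)).1.2 (.inl (H.lD h)))
  omega

theorem Cf.ye : ¬U J K 92 := fun h => by
  obtain ⟨p, q, d, f⟩ := H.top _ _ ((H.nd _ _ (by omega) (by omega)).1.2 (.inr (H.le h)))
  omega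

theorem Cf.ya (h : U J K 107) : U J K 0 := by
  obtain ⟨p, q, d, f | f⟩ := H.top _ _ h
  · exact H.cg f.1 (by omega)
  · omega

theorem Cf.neg (hj : j < 0) : ¬U j k 107 := fun h => by have := H.low h; omega

theorem Cf.r0 (h : U 0 k 107) : k = 0 := by
  rcases H.down h with c | c | c | c | c
  iterate 3 omega
  all_goals exact (H.neg hJ (by omega) c).elim

theorem Cf.xd : ¬U 0 0 101 := fun h =>
  H.neg hJ (by omega) ((H.nd _ _ (by omega) (by omega)).2.2.1 (H.ld h))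

theorem Cf.xf : ¬U 0 0 104 := fun h =>
  H.neg hJ (by omega) (H.lc ((H.nd _ _ (by omega) (by omega)).2.1.2 (.inl (H.lf h))))

theorem Cf.r1 : U 1 k 107 ↔ k = 0 ∧ U 0 0 100 ∨ k = -1 ∧ U 0 0 107 := by
  have r := H.nd 1 k (by omega) (by omega)
  refine ⟨fun h => (r.1.1 h).imp (fun c => ?_) fun c => ?_, ?_⟩
  · by_cases e : k = 0
    · exact ⟨e, H.cg (H.ld c) (by omega)⟩
    · have := H.r0 hJ ((H.nd _ _ (by omega) (by omega)).2.2.1 (H.ld c))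
      omega
  · have d := H.lc ((H.nd _ _ (by omega) (by omega)).2.1.2 (.inl (H.lf c)))
    have := H.r0 hJ d
    exact ⟨by omega, H.cg d (by omega)⟩
  · rintro (⟨rfl, c⟩ | ⟨rfl, c⟩)
    · exact r.1.2 (.inl (H.lD c))
    · have s := H.nd (-1) (-1) (by omega) (by omega)
      exact r.1.2 (.inr (H.le ((s.2.1.1 (H.la c)).resolve_right fun d =>
        H.neg hJ (by omega) (s.2.2.1 d))))

theorem Cf.xc : U 0 0 0 ↔ U 0 0 107 :=
  ⟨fun h => (((H.r1 hJ).1 (H.lc h)).resolve_left (by omega)).2,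
    fun h => H.la ((H.r1 hJ).2 (.inr ⟨rfl, h⟩))⟩

theorem Cf.f2 (h : U 2 k 104) : k = 0 ∧ U 0 0 92 ∨ k = -1 ∧ U 0 0 100 := by
  by_cases e : k = 0
  · exact .inl ⟨e, H.cg (H.lf h) (by omega)⟩
  rcases (H.r1 hJ).1 (H.lc ((H.nd _ _ (by omega) (by omega)).2.1.2 (.inl (H.lf h)))) with c | c
  · exact .inr ⟨by omega, c.2⟩
  · omega

theorem Cf.dD (hj : 2 ≤ j) (h : U j k 101) : U (j - 1) (-k) 107 :=
  (H.nd _ _ (by omega) fun e => H.yD hJ (H.cg (H.ld h) e)).2.2.1 (H.ld h)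

theorem Cf.fe (hj : 2 ≤ j) (h : U (j + 1) k 104) : U j (-k - 1) 107 ∧ ¬U (j - 1) k 107 := by
  have a : U (j - 1) k 92 := H.cg (H.lf h) (by omega)
  have r := H.nd (j - 1) k (by omega) fun e => H.ye hJ (H.cg a e)
  exact ⟨H.cg (H.lc (r.2.1.2 (.inl a))) (by omega), r.2.2.2 a⟩

end Pool.Agent.Lib.MP_820104_pr.Tb
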