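import Pool.Agent.Lib.MP_820104_pr.Ifc
import Pool.Agent.Lib.MP_820104_pr.Pat
import Pool.Agent.Lib.MP_820104_pr.Stat

/-! Skeletons with nonzero weight: short ones and ideal ones. -/

noncomputable section

namespace Pool.Agent.Lib.MP_820104_pr.Tb

open Finset

/-- a cell -/
def kl (j k : ℤ) : Kl := (j, k)

theorem kl_inj {j k j' k' : ℤ} : kl j k = kl j' k' ↔ j = j' ∧ k = k' := Prod.ext_iff

theorem lk_ok {i : ℕ} {r : Kl × ℕ} (h : r ∈ lk i) : (r.1⁻¹, i) ∈ lk r.2 ∧ i ∈ pts := by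
  unfold lk at h
  split_ifs at h <;> simp only [List.mem_singleton, List.not_mem_nil] at h <;> subst h <;>
    subst i <;> decide

theorem Sk_ne {k : ℕ} {v : Kl × ℕ} {σ : List Ps} (h : σ ∈ Sk k v) :
    ∃ o τ, σ = (v.1, v.2, o) :: τ ∧ τ.length = k := by
  induction k generalizing v σ with
  | zero => obtain ⟨b, -, rfl⟩ := mem_Sk_zero.1 h; exact ⟨_, _, rfl, rfl⟩
  | succ k ih =>
    obtain ⟨b, -, p, -, τ, h', rfl⟩ := mem_Sk_succ.1 h
    obtain ⟨o, τ, rfl, e⟩ := ih h'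
    exact ⟨_, _, rfl, by simp [e]⟩

/-- the list of used ports -/
def usl (h : Ps) (mid : List Ps) (l : Ps) : List (Kl × ℕ) :=
  (h.1, h.2.2) :: (ends mid ++ [(l.1, l.2.1)])

theorem usl_lk {l : Ps} : ∀ {mid : List Ps} {h : Ps} {k : ℕ} {v : Kl × ℕ},
    h :: (mid ++ [l]) ∈ Sk k v → ∀ x ∈ usl h mid l, ∃ r ∈ lk x.2, (x.1 * r.1, r.2) ∈ usl h mid l := by
  intro mid h k v H
  obtain _ | k := k
  · simpa using mem_Sk_zero.1 H
  obtain ⟨b, -, p, hp, τ, H', e⟩ := mem_Sk_succ.1 H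
  obtain ⟨rfl, rfl⟩ := List.cons.inj e
  obtain ⟨o, τ, e, -⟩ := Sk_ne H'
  obtain _ | ⟨m, mid⟩ := mid
  · obtain rfl : l = _ := (List.cons.inj e).1
    simp only [usl, ends, List.flatMap_nil, List.nil_append, List.forall_mem_cons]
    exact ⟨⟨p, hp, by simp⟩, ⟨_, (lk_ok hp).1, by simp⟩, by simp⟩
  obtain rfl : m = _ := (List.cons.inj e).1
  refine List.forall_mem_cons.2 ⟨⟨p, hp, by simp [usl, ends]⟩, List.forall_mem_cons.2
    ⟨⟨_, (lk_ok hp).1, by simp [usl]⟩, fun x hx => ?_⟩⟩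
  obtain ⟨r, a, c⟩ := usl_lk H' x hx
  exact ⟨r, a, List.mem_cons_of_mem _ (List.mem_cons_of_mem _ c)⟩

theorem en_app (l : Ps) : ∀ σ : List Ps, en (σ ++ [l]) = (l.1, l.2.2)
  | [] => rfl
  | [_] => rfl
  | _ :: q :: σ => en_app l (q :: σ)

theorem Wt_ne {σ : List Ps} (h : Wt σ ≠ 0) (g : Kl) : Z xx (cell g σ) ∅ ≠ 0 := by
  by_cases e : g ∈ (σ.map (·.1)).toFinset
  · exact prod_ne_zero_iff.1 h g e
  · rw [cell, List.filter_eq_nil_iff.2 fun x hx e' => e (List.mem_toFinset.2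
      (List.mem_map.2 ⟨x, hx, of_decide_eq_true e'⟩))]
    exact one_ne_zero

/-- the ports of one cell in a list of ports -/
def prj (g : Kl) (L : List (Kl × ℕ)) : List ℕ := (L.filter (·.1 = g)).map (·.2)

theorem mem_prj {g : Kl} {L : List (Kl × ℕ)} {i : ℕ} : i ∈ prj g L ↔ (g, i) ∈ L := by
  simp only [prj, List.mem_map, List.mem_filter, decide_eq_true_eq]
  exact ⟨by rintro ⟨_, ⟨h, rfl⟩, rfl⟩; exact h, fun h => ⟨_, ⟨h, rfl⟩, rfl⟩⟩

theorem prj_nodup {g : Kl} {L : List (Kl × ℕ)} (h : L.Nodup) : (prj g L).Nodup :=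
  (h.filter _).map_on fun _ hx _ hy e => Prod.ext ((of_decide_eq_true (List.mem_filter.1 hx).2).trans
    (of_decide_eq_true (List.mem_filter.1 hy).2).symm) e

theorem prj_ends (g : Kl) : ∀ σ : List Ps, prj g (ends σ) = fl (cell g σ)
  | [] => rfl
  | p :: σ => by
    have := prj_ends g σ
    by_cases e : p.1 = g <;> simp_all [prj, ends, fl, cell]

theorem mem_cell {g : Kl} {σ : List Ps} {p : ℕ × ℕ} : p ∈ cell g σ ↔ (g, p) ∈ σ := by
  simp only [cell, List.mem_map, List.mem_filter, decide_eq_true_eq]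
  exact ⟨by rintro ⟨_, ⟨h, rfl⟩, rfl⟩; exact h, fun h => ⟨_, ⟨h, rfl⟩, rfl⟩⟩

theorem prj_usl (g : Kl) (h l : Ps) (mid : List Ps) : prj g (usl h mid l) =
    (if h.1 = g then [h.2.2] else []) ++ (fl (cell g mid) ++ if l.1 = g then [l.2.1] else []) := by
  rw [← prj_ends]
  split_ifs <;> simp [prj, usl, *]

theorem cell_app (g : Kl) (h l : Ps) (mid : List Ps) : cell g (h :: (mid ++ [l])) =
    (if h.1 = g then [h.2] else []) ++ (cell g mid ++ if l.1 = g then [l.2] else []) := by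
  split_ifs <;> simp [cell, *]

theorem fl_nrm {i : ℕ} : ∀ {τ : List (ℕ × ℕ)}, i ∈ fl (τ.map nrm) ↔ i ∈ fl τ := by
  simp only [fl, List.mem_flatMap, List.mem_map, exists_exists_and_eq_and, nrm]
  exact exists_congr fun p => and_congr_right fun _ => by split_ifs <;> simp [or_comm]

theorem short {τ : List (ℕ × ℕ)} {c : ℕ} {l : List ℕ} (h : (c :: fl τ).Nodup) (hl : l.length ≤ 4)
    (h' : ∀ i ∈ c :: fl τ, i ∈ l) : τ = [] ∨ ∃ p, τ = [p] := by
  have := (List.subperm_of_subset h h').length_le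
  obtain _ | ⟨p, _ | ⟨q, τ⟩⟩ := τ
  exacts [.inl rfl, .inr ⟨p, rfl⟩, by simp [fl] at this; omega]

/-- the data of a surviving skeleton with at least one link -/
structure Sv (a q p b : ℕ) (J K : ℤ) (mid : List Ps) : Prop where
  lk : ∀ x ∈ usl (kl 0 0, a, q) mid (kl J K, p, b),
    ∃ r ∈ lk x.2, (x.1 * r.1, r.2) ∈ usl (kl 0 0, a, q) mid (kl J K, p, b)
  nd : (usl (kl 0 0, a, q) mid (kl J K, p, b)).Nodup
  wt : ∀ g, Z xx (cell g ((kl 0 0, a, q) :: (mid ++ [(kl J K, p, b)]))) ∅ ≠ 0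

theorem sv_of (H : SkNodup) {k a : ℕ} {σ : List Ps} (h : σ ∈ Sk (k + 1) (1, a)) (hw : Wt σ ≠ 0) :
    ∃ q p b J K mid, σ = (kl 0 0, a, q) :: (mid ++ [(kl J K, p, b)]) ∧ mid.length = k ∧
      Sv a q p b J K mid := by
  obtain ⟨q, τ, rfl, e⟩ := Sk_ne h
  obtain rfl | ⟨mid, ⟨⟨J, K⟩, p, b⟩, rfl⟩ := τ.eq_nil_or_concat'
  · simp at e
  exact ⟨q, p, b, J, K, mid, rfl, by simpa using e, usl_lk h, H _ _ _ _ _ h hw, Wt_ne hw⟩

variable {a q p b : ℕ} {J K j k : ℤ} {mid : List Ps}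

variable (a q p b J K mid) in
/-- the used ports -/
def Us (j k : ℤ) (i : ℕ) : Prop := (kl j k, i) ∈ usl (kl 0 0, a, q) mid (kl J K, p, b)

theorem Us.of_mid {i o : ℕ} (h : (kl j k, i, o) ∈ mid) :
    Us a q p b J K mid j k i ∧ Us a q p b J K mid j k o :=
  ⟨List.mem_cons_of_mem _ (List.mem_append_left _ (List.mem_flatMap.2 ⟨_, h, by simp⟩)),
    List.mem_cons_of_mem _ (List.mem_append_left _ (List.mem_flatMap.2 ⟨_, h, by simp⟩))⟩

variable (S : Sv a q p b J K mid)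
include S

theorem Sv.pts {i : ℕ} (h : Us a q p b J K mid j k i) : i ∈ pts :=
  let ⟨_, h, _⟩ := S.lk _ h; (lk_ok h).2

theorem Sv.good (h1 : ¬(j = 0 ∧ k = 0)) (h2 : ¬(j = J ∧ k = K)) : ∃ γ ∈ good,
    (∀ i, Us a q p b J K mid j k i ↔ i ∈ fl γ) ∧ ∀ x, (kl j k, x) ∈ mid → nrm x ∈ γ := by
  have e1 : ¬kl 0 0 = kl j k := fun e => h1 (kl_inj.1 e.symm)
  have e2 : ¬kl J K = kl j k := fun e => h2 (kl_inj.1 e.symm)
  have e := prj_usl (kl j k) (kl 0 0, a, q) (kl J K, p, b) mid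
  have w := S.wt (kl j k)
  rw [cell_app] at w
  simp only [if_neg e1, if_neg e2, List.nil_append, List.append_nil] at e w
  obtain ⟨γ, h, hp⟩ := pat (e ▸ prj_nodup S.nd) (fun i hi => S.pts (mem_prj.1 (e ▸ hi))) w
  refine ⟨γ, h, fun i => ?_, fun x hx => hp.subset (List.mem_map_of_mem (mem_cell.2 hx))⟩
  rw [Us, ← mem_prj, e, ← fl_nrm]
  exact (hp.flatMap_right _).mem_iff

theorem Sv.cf : Cf (Us a q p b J K mid) J K := by
  have key : ∀ {j k i j' k' i'} (r : Kl), Tb.lk i = [(r, i')] → kl j k * r = kl j' k' →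
      Us a q p b J K mid j k i → Us a q p b J K mid j' k' i' := fun r e e' h => by
    obtain ⟨r', h1, h2⟩ := S.lk _ h
    obtain rfl := List.mem_singleton.1 (e ▸ h1)
    rwa [e'] at h2
  refine ⟨?_, key _ rfl rfl, key _ rfl rfl, key _ rfl (Prod.ext rfl (add_zero _)),
    key _ rfl (Prod.ext rfl (add_zero _)), key _ rfl (Prod.ext rfl (add_zero _)),
    key _ rfl (Prod.ext rfl (add_zero _)), fun j k h1 h2 => ?_⟩
  · obtain ⟨M, hM⟩ := ((usl (kl 0 0, a, q) mid (kl J K, p, b)).map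
      fun x => |x.1.1| + |x.1.2|).toFinset.bddAbove
    refine ⟨M, fun j k i h => ?_⟩
    have : |j| + |k| ≤ M := hM (List.mem_toFinset.2 (List.mem_map_of_mem h))
    have := abs_nonneg j
    have := abs_nonneg k
    have := le_abs_self j
    have := le_abs_self k
    have := neg_abs_le j
    omega
  · obtain ⟨γ, h, h', -⟩ := S.good h1 h2
    simp only [Rules, h']
    clear h'
    revert γ
    decide

theorem Sv.pass (h1 : ¬(j = 0 ∧ k = 0)) (h2 : ¬(j = J ∧ k = K)) {i o : ℕ}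
    (h : (kl j k, i, o) ∈ mid) : (i = 0 → o = 92 ∨ o = 100) ∧ (i = 101 ∨ i = 104 → o = 107) ∧
      (i = 92 → o = 0) ∧ (i = 107 → o = 101 ∨ o = 104) := by
  obtain ⟨γ, hγ, -, h'⟩ := S.good h1 h2
  have : nrm (i, o) ∈ [(0, 92), (0, 100), (101, 107), (104, 107)] :=
    (by decide : ∀ γ ∈ Tb.good, ∀ x ∈ γ, x ∈ [(0, 92), (0, 100), (101, 107), (104, 107)]) _ hγ _
      (h' _ h)
  simp only [nrm] at this
  split_ifs at this <;> simp at this <;> omega

omit S in
theorem near_bd (H : SkNodup) : NearBd := by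
  have key : ∀ (K : ℤ) (L : List ((ℤ × ℤ) × ℕ)), L.Nodup → (∀ x ∈ L, ((-2 ≤ x.1.1 ∧ x.1.1 ≤ 2) ∧
      (-5 ≤ x.1.2 ∧ x.1.2 ≤ 5 ∨ K - 5 ≤ x.1.2 ∧ x.1.2 ≤ K + 5 ∨ -K - 5 ≤ x.1.2 ∧ x.1.2 ≤ -K + 5)) ∧
        x.2 ∈ Tb.pts) → L.length ≤ 990 := fun K L h h' => by
    have : L.toFinset ⊆ (Icc (-2) 2 ×ˢ (Icc (-5) 5 ∪ (Icc (K - 5) (K + 5) ∪ Icc (-K - 5) (-K + 5))))
        ×ˢ Tb.pts.toFinset := fun x hx => by
      simpa only [mem_product, mem_union, mem_Icc, List.mem_toFinset] using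
        h' x (List.mem_toFinset.1 hx)
    have := card_le_card this
    have h2 := card_union_le (Icc (-5 : ℤ) 5) (Icc (K - 5) (K + 5) ∪ Icc (-K - 5) (-K + 5))
    have h3 := card_union_le (Icc (K - 5) (K + 5)) (Icc (-K - 5) (-K + 5))
    rw [List.toFinset_card_of_nodup h, card_product, card_product,
      show #Tb.pts.toFinset = 6 from rfl] at this
    simp only [Int.card_Icc, show (2 + 1 - -2 : ℤ).toNat = 5 from rfl] at this h2 h3
    omega
  refine ⟨1000, fun k a σ h hw hj => ?_⟩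
  obtain _ | k := k
  · omega
  obtain ⟨q, p, b, J, K, mid, rfl, rfl, S⟩ := sv_of H h hw
  rw [← List.cons_append, en_app] at hj
  have e : (usl (kl 0 0, a, q) mid (kl J K, p, b)).length = mid.length * 2 + 2 := by
    simp [usl, ends, List.length_flatMap]
  have := e.symm.trans_le (key K _ S.nd fun x hx => ⟨S.cf.near hj (S.pts hx) hx, S.pts hx⟩)
  omega

variable (hJ : 2 ≤ J)
include hJ

theorem Sv.atY (h : ¬(Us a q p b J K mid J K 101 ∧ Us a q p b J K mid J K 104)) :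
    (Us a q p b J K mid J K 107 → Us a q p b J K mid J K 101 ∨ Us a q p b J K mid J K 104) ∧
      ∀ i o, (kl J K, i, o) ∈ mid → i ≠ 0 ∧ (i = 101 ∨ i = 104 → o = 107) := by
  have e1 : ¬kl 0 0 = kl J K := fun e => by have := kl_inj.1 e; omega
  have e := prj_usl (kl J K) (kl 0 0, a, q) (kl J K, p, b) mid
  have w := S.wt (kl J K)
  rw [cell_app] at w
  simp only [if_neg e1, if_true, List.nil_append] at e w
  have u : ∀ i, Us a q p b J K mid J K i ↔ i ∈ p :: fl (cell (kl J K) mid) := fun i => by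
    rw [Us, ← mem_prj, e, List.perm_append_singleton _ _ |>.mem_iff]
  have n : (p :: fl (cell (kl J K) mid)).Nodup :=
    (List.perm_append_singleton _ _).nodup_iff.1 (e ▸ prj_nodup S.nd)
  have m : ∀ i ∈ p :: fl (cell (kl J K) mid), i ∈ [0, 101, 104, 107] := fun i hi => by
    have h1 := (u i).2 hi
    have h2 := S.pts h1
    have h3 : i ≠ 92 := fun e => S.cf.ye hJ (e ▸ h1)
    have h4 : i ≠ 100 := fun e => S.cf.yD hJ (e ▸ h1)
    simp only [Tb.pts, List.mem_cons, List.not_mem_nil] at h2 ⊢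
    tauto
  have y := S.cf.ya hJ
  simp only [← mem_cell, u] at h y ⊢
  obtain c | ⟨⟨i, o⟩, c⟩ := short n (by simp) m <;> rw [c] at h y w n m ⊢
  · simp [fl] at y ⊢
    omega
  have z1 : ∀ p', p' = 101 ∨ p' = 104 → p = 107 → nrm (i, o) ≠ (0, p') := fun p' h1 h2 h3 => w (by
    rw [← Z_nrm, ← lf1 h1 b, ← Z_nrm [(107, b), _], h2]
    exact congrFun (Z_perm (by
      rcases h1 with rfl | rfl <;> simp only [List.map, List.cons_append, List.nil_append, h3] <;>
        exact List.Perm.swap _ _ [])) _)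
  have z2 : p = 101 ∨ p = 104 → nrm (i, o) ≠ (0, 107) := fun h1 h3 => w (by
    rw [← Z_nrm, ← lf2 h1 b, ← Z_nrm [(p, b), _]]
    exact congrFun (Z_perm (by
      simp only [List.map, List.cons_append, List.nil_append, h3]; exact List.Perm.swap _ _ [])) _)
  have z3 := z1 101 (.inl rfl)
  have z4 := z1 104 (.inr rfl)
  clear z1 w u e c
  simp only [fl, List.flatMap_cons, List.flatMap_nil, List.append_nil, forall_eq_or_imp, forall_eq,
    List.mem_cons, List.not_mem_nil, or_false, List.nodup_cons, Prod.mk.injEq] at h y n m ⊢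
  obtain ⟨m1, m2, m3⟩ := m
  rcases m1 with rfl | rfl | rfl | rfl <;> rcases m2 with rfl | rfl | rfl | rfl <;>
    rcases m3 with rfl | rfl | rfl | rfl <;> simp [nrm] at *

theorem Sv.atX : ¬(Us a q p b J K mid 0 0 92 ∧ Us a q p b J K mid 0 0 100) ∧
    (q = 92 ∨ q = 100 ∨ q = 0 ∨ q = 107) ∧ ∀ i o, (kl 0 0, i, o) ∈ mid →
      (i = 0 ∧ q = 107 ∨ i = 107 ∧ q = 0) → o = 92 ∨ o = 100 := by
  have e1 : ¬kl J K = kl 0 0 := fun e => by have := kl_inj.1 e; omega
  have e := prj_usl (kl 0 0) (kl 0 0, a, q) (kl J K, p, b) mid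
  simp only [if_neg e1, if_true, List.append_nil, List.singleton_append] at e
  have u : ∀ i, Us a q p b J K mid 0 0 i ↔ i ∈ q :: fl (cell (kl 0 0) mid) := fun i => by
    rw [Us, ← mem_prj, e]
  have n : (q :: fl (cell (kl 0 0) mid)).Nodup := e ▸ prj_nodup S.nd
  have m : ∀ i ∈ q :: fl (cell (kl 0 0) mid), i ∈ [0, 92, 100, 107] := fun i hi => by
    have h1 := (u i).2 hi
    have h2 := S.pts h1
    have h3 : i ≠ 101 := fun e => S.cf.xd hJ (e ▸ h1)
    have h4 : i ≠ 104 := fun e => S.cf.xf hJ (e ▸ h1)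
    simp only [Tb.pts, List.mem_cons, List.not_mem_nil] at h2 ⊢
    tauto
  have y := S.cf.xc hJ
  simp only [← mem_cell, u] at y ⊢
  obtain c | ⟨⟨i, o⟩, c⟩ := short n (by simp) m <;> rw [c] at y n m ⊢
  · simp [fl] at y m ⊢
    omega
  simp only [fl, List.flatMap_cons, List.flatMap_nil, List.append_nil, forall_eq_or_imp, forall_eq,
    List.mem_cons, List.not_mem_nil, or_false, List.nodup_cons, Prod.mk.injEq] at y n m ⊢
  refine ⟨by omega, by omega, fun _ _ _ _ => by omega⟩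

omit S hJ in
theorem step {m : ℕ} {v : Kl × ℕ} {τ : List Ps} {l : Ps} (h : τ ∈ Sk m v) (hs : τ <:+ mid ++ [l]) :
    m = 0 ∧ l.1 = v.1 ∧ τ = [(v.1, v.2, l.2.2)] ∨ ∃ m' o r τ', m = m' + 1 ∧ (v.1, v.2, o) ∈ mid ∧
      r ∈ lk o ∧ τ = (v.1, v.2, o) :: τ' ∧ τ' ∈ Sk m' (v.1 * r.1, r.2) ∧ τ' <:+ mid ++ [l] := by
  obtain _ | m := m
  · obtain ⟨c, -, rfl⟩ := mem_Sk_zero.1 h
    obtain ⟨t, ht⟩ := hs
    obtain rfl := (List.cons.inj (List.append_inj_right' ht rfl)).1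
    exact .inl ⟨rfl, rfl, rfl⟩
  obtain ⟨o, -, r, hr, τ', h', rfl⟩ := mem_Sk_succ.1 h
  refine .inr ⟨m, o, r, τ', rfl, ?_, hr, rfl, h', (List.suffix_cons _ _).trans hs⟩
  obtain ⟨o, τ, rfl, -⟩ := Sk_ne h'
  obtain ⟨t, ht⟩ := hs
  have := congrArg List.dropLast ht
  rw [List.dropLast_concat, List.dropLast_append_cons, List.dropLast_cons_cons] at this
  simp [← this]

/-- the invariant of the ideal trajectory -/
structure Iv (U : ℤ → ℤ → ℕ → Prop) (J K : ℤ) (t : St) : Prop where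
  j2 : 2 ≤ t.j
  rn : t.r ≤ t.n
  f : ∀ k, U t.j k 104 → k = t.s
  a : ∀ k, U (t.j - 1) k 107 ↔ t.s + 1 ≤ -k ∧ -k ≤ t.s + t.n
  pre : ∀ k, t.s ≤ k → k < t.s + t.r + (bif t.c then 1 else 0) → U t.j k 107
  df : J < t.j → ¬(U J K 101 ∧ U J K 104)

theorem Sv.traj : ∀ (m : ℕ) (t : St) (τ : List Ps), τ ∈ Sk m t.ent → τ <:+ mid ++ [(kl J K, p, b)] →
    Iv (Us a q p b J K mid) J K t → τ = fw m t b := by
  intro m
  induction m with
  | zero => exact fun t τ h hs _ => ((step h hs).resolve_right (by simp)).2.2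
  | succ m ih =>
  intro ⟨j, s, n, r, c⟩ τ h hs ⟨i1, i2, i3, i4, i5, i6⟩
  obtain ⟨m', o, ρ, τ', e, h1, h2, rfl, h3, h4⟩ := (step h hs).resolve_left (by simp)
  obtain rfl : m = m' := by omega
  clear h hs
  dsimp only at i1 i2 i3 i4 i5 i6
  have C := S.cf
  have d : ∀ k, Us a q p b J K mid j k 101 → s + 1 ≤ k ∧ k ≤ s + n := fun k h => by
    simpa using (i4 _).1 (C.dD hJ i1 h)
  have df : J < j + 1 → ¬(Us a q p b J K mid J K 101 ∧ Us a q p b J K mid J K 104) := fun e h => by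
    obtain e | rfl := (Int.lt_add_one_iff.1 e).lt_or_eq
    · exact i6 e h
    · have := d _ h.1
      have := i3 _ h.2
      omega
  have y : J ≤ j → _ := fun e => S.atY hJ (df (by omega))
  cases c
  · replace h1 : (kl j (s + r), if r = 0 then 104 else 101, o) ∈ mid := h1
    have hi : (if r = 0 then 104 else 101) = 101 ∨ (if r = 0 then 104 else 101) = 104 := by
      split_ifs <;> simp
    obtain rfl : o = 107 := by
      by_cases e : j = J ∧ s + r = K
      · obtain ⟨rfl, rfl⟩ := e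
        exact ((y le_rfl).2 _ _ h1).2 hi
      · exact (S.pass (by omega) e h1).2.1 hi
    obtain rfl := List.mem_singleton.1 h2
    refine congrArg _ (ih ⟨j, s, n, r, true⟩ τ' ?_ h4 ⟨i1, i2, i3, i4, fun k a1 a2 => ?_, i6⟩)
    · convert h3 using 2
      exact Prod.ext (Prod.ext rfl (by simp [St.ent, Kl.mul_def]; ring)) rfl
    · by_cases e : k = s + r
      · exact e ▸ (Us.of_mid h1).2
      · exact i5 k a1 (by simp at a2 ⊢; omega)
  replace h1 : (kl (j - 1) (-s - r - 1), 0, o) ∈ mid := h1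
  have e : ¬(j - 1 = J ∧ -s - r - 1 = K) := fun e =>
    ((y (by omega)).2 _ _ (by rw [← e.1, ← e.2]; exact h1)).1 rfl
  have R := C.nd _ _ (by omega) e
  have u := (Us.of_mid (a := a) (q := q) (p := p) (b := b) (J := J) (K := K) h1).2
  have i7 := i4 (-s - r - 1)
  simp only [cond_true] at i5
  rcases (S.pass (by omega) e h1).1 rfl with rfl | rfl <;> obtain rfl := List.mem_singleton.1 h2
  · obtain rfl : r = n := by have := mt i7.2 (R.2.2.2 u); omega
    have a1 : ∀ k, Us a q p b J K mid j k 107 ↔ s ≤ k ∧ k ≤ s + r := fun k => by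
      refine ⟨fun h => ?_, fun h => i5 k h.1 (by omega)⟩
      have : Us a q p b J K mid j k 101 ∨ Us a q p b J K mid j k 104 := by
        by_cases e : j = J ∧ k = K
        · obtain ⟨rfl, rfl⟩ := e
          exact (y le_rfl).1 h
        · exact (C.nd _ _ (by omega) e).1.1 h
      rcases this with c | c
      · have := d _ c; omega
      · have := i3 _ c; omega
    simp only [fw, St.ex, St.nx, cond_true, lt_irrefl, if_false]
    refine congrArg _ (ih _ τ' ?_ h4 ⟨by simp; omega, by simp, fun k h => ?_, fun k => ?_,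
      fun k a1 a2 => by simp at a1 a2; omega, df⟩)
    · convert h3 using 2
      exact Prod.ext (Prod.ext (by simp [St.ent, Kl.mul_def]; ring)
        (by simp [St.ent, Kl.mul_def])) rfl
    · obtain ⟨b1, b2⟩ := C.fe hJ i1 h
      rw [a1] at b1
      rw [i4] at b2
      dsimp only
      omega
    · simp only [add_sub_cancel_right, a1]
      omega
  · have hr : r < n := by have := i7.1 (R.2.2.1 u); omega
    simp only [fw, St.ex, St.nx, cond_true, hr, if_true]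
    refine congrArg _ (ih _ τ' ?_ h4 ⟨i1, hr, i3, i4, fun k a1 a2 => i5 k a1 ?_, i6⟩)
    · convert h3 using 2
      exact Prod.ext (Prod.ext (by simp [St.ent, Kl.mul_def])
        (by simp [St.ent, Kl.mul_def]; ring)) rfl
    · simp at a2
      omega

omit S hJ in
theorem fw_row : ∀ (m : ℕ) (t : St), 2 ≤ t.j → ∀ x ∈ fw m t b, 1 ≤ x.1.1
  | 0, ⟨j, s, n, r, c⟩, h => by cases c <;> simp [fw, St.ent] at * <;> omega
  | m + 1, ⟨j, s, n, r, c⟩, h => List.forall_mem_cons.2 ⟨by cases c <;> simp [St.ent] at * <;> omega,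
    fw_row m _ (by cases c <;> simp only [St.nx, cond_true, cond_false] <;>
      (try split_ifs) <;> simp at * <;> omega)⟩

omit S in
theorem go {m i i' o : ℕ} {τ : List Ps} {g : Kl} (h : τ ∈ Sk m (kl j k, i))
    (hs : τ <:+ mid ++ [(kl J K, p, b)]) (hj : j ≤ 1) (h0 : ∀ o', (kl j k, i, o') ∈ mid → o' = o)
    (h1 : (Tb.lk o).map (fun r => (kl j k * r.1, r.2)) = [(g, i')]) :
    ∃ m' τ', τ = (kl j k, i, o) :: τ' ∧ τ' ∈ Sk m' (g, i') ∧ τ' <:+ mid ++ [(kl J K, p, b)] := by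
  obtain ⟨m', o, ρ, τ', -, h2, h3, rfl, h4, h5⟩ := (step h hs).resolve_left fun e => by
    have := kl_inj.1 e.2.1; omega
  obtain rfl := h0 _ h2
  exact ⟨m', τ', rfl, List.mem_singleton.1 (h1 ▸ List.mem_map_of_mem h3) ▸ h4, h5⟩

theorem Sv.exit {m o : ℕ} {τ : List Ps} {r : Kl × ℕ} (l : Fin 3) (ho : o = 92 ∨ o = 100)
    (hu : Us a q p b J K mid 0 0 o) (hl : l = 0 ↔ ¬Us a q p b J K mid 0 0 107) (hr : r ∈ Tb.lk o)
    (h : τ ∈ Sk m (kl 0 0 * r.1, r.2)) (hs : τ <:+ mid ++ [(kl J K, p, b)]) :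
    ∃ d m', (loop l a o ++ τ = ini l d a ++ fw m' (st0 l d) b) ∧ ∀ x ∈ τ, x.1 ≠ kl 0 0 := by
  have C := S.cf
  have x := (S.atX hJ).1
  have f : ∀ m d, ∀ x ∈ fw m (st0 l d) b, x.1 ≠ kl 0 0 := fun m d x hx e => by
    have := fw_row m _ le_rfl x hx
    rw [e] at this
    exact absurd this (by decide)
  rcases ho with rfl | rfl <;> obtain rfl := List.mem_singleton.1 hr
  · have := S.traj hJ m (st0 l false) τ h hs ⟨le_rfl, Nat.zero_le _, fun k h => ?_, fun k => ?_,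
      fun k a1 a2 => by simp [st0] at a1 a2; omega, fun h => absurd hJ (not_le.2 h)⟩
    · exact ⟨false, m, congrArg _ this, this ▸ f _ _⟩
    · exact ((C.f2 hJ h).resolve_right fun e => x ⟨hu, e.2⟩).1
    · refine (C.r1 hJ).trans ?_
      have := mt (And.intro hu) x
      by_cases e : l = 0 <;> simp [st0, e] at hl ⊢ <;> simp [*] <;> omega
  obtain ⟨m, τ, rfl, h, hs⟩ := go hJ (j := 1) (k := 0) (o := 107) (g := kl 0 (-1)) h hs le_rfl
    (fun o h => (S.pass (by omega) (by omega) h).2.1 (.inl rfl)) rfl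
  obtain ⟨m, τ, rfl, h, hs⟩ := go hJ (o := 92) (g := kl 2 (-1)) h hs (by omega) (fun o h =>
    ((S.pass (by omega) (by omega) h).1 rfl).resolve_right fun e => by
      have := C.r0 hJ ((C.nd _ _ (by omega) (by omega)).2.2.1 (e ▸ (Us.of_mid h).2))
      omega) rfl
  have := S.traj hJ m (st0 l true) τ h hs ⟨le_rfl, Nat.zero_le _, fun k h => ?_, fun k => ?_,
    fun k a1 a2 => by simp [st0] at a1 a2; omega, fun h => absurd hJ (not_le.2 h)⟩
  · refine ⟨true, m, by rw [this, ini, cond_true, List.append_assoc]; rfl, ?_⟩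
    exact List.forall_mem_cons.2 ⟨by decide, List.forall_mem_cons.2 ⟨by decide, this ▸ f _ _⟩⟩
  · exact ((C.f2 hJ h).resolve_left fun e => x ⟨e.2, hu⟩).1
  · refine (C.r1 hJ).trans ?_
    by_cases e : l = 0 <;> simp [st0, e] at hl ⊢ <;> simp [*] <;> omega

omit S hJ in
theorem far_class (H : SkNodup) : FarClass := by
  intro k a σ h hw hJ
  obtain _ | k := k
  · obtain ⟨b, -, rfl⟩ := mem_Sk_zero.1 h
    exact absurd (show (2 : ℤ) ≤ 0 from hJ) (by decide)
  obtain ⟨q, p, b, J, K, mid, rfl, rfl, S⟩ := sv_of H h hw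
  obtain ⟨q', -, r, hr, τ, h, e⟩ := mem_Sk_succ.1 h
  obtain ⟨e', rfl⟩ := List.cons.inj e
  obtain rfl : q = q' := congrArg (·.2.2) e'
  clear e e'
  rw [← List.cons_append, en_app] at hJ ⊢
  replace hJ : 2 ≤ J := hJ
  have C := S.cf
  have hs := List.suffix_refl (mid ++ [(kl J K, p, b)])
  have u : Us a q p b J K mid 0 0 q := List.mem_cons_self
  obtain ⟨-, x1, x2⟩ := S.atX hJ
  rw [← or_assoc] at x1
  have fin : ∀ {l : Fin 3} {i m τ}, l ≠ 0 → (i = 0 ∧ q = 107 ∨ i = 107 ∧ q = 0) →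
      τ ∈ Sk m (kl 0 0, i) → τ <:+ mid ++ [(kl J K, p, b)] → ∃ o τ' d m', τ = (kl 0 0, i, o) :: τ' ∧
        loop l a o ++ τ' = ini l d a ++ fw m' (st0 l d) b := fun {l i m τ} hl hi h hs => by
    obtain ⟨m', o, ρ, τ', -, h2, h3, rfl, h4, h5⟩ := (step h hs).resolve_left fun e => by
      have := kl_inj.1 e.2.1; omega
    obtain ⟨d, m, e, -⟩ := S.exit hJ l (x2 _ _ h2 hi) (Us.of_mid h2).2 (iff_of_false hl (not_not.2 (by
      rcases hi with ⟨-, rfl⟩ | ⟨-, rfl⟩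
      exacts [u, (C.xc hJ).1 u]))) h3 h4 h5
    exact ⟨o, τ', d, m, rfl, e⟩
  rcases x1 with x1 | rfl | rfl
  · by_cases e : Us a q p b J K mid 0 0 107
    · obtain ⟨-, -, -, f⟩ := S.exit hJ 1 x1 u (by simpa) hr h hs
      rcases List.mem_cons.1 e with e | e
      · have : 107 = q := (Prod.mk.inj e).2
        omega
      rcases List.mem_append.1 e with e | e
      · obtain ⟨x, hx, e⟩ := List.mem_flatMap.1 e
        refine (f x (List.mem_append_left _ hx) ?_).elim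
        simp only [List.mem_cons, List.not_mem_nil, or_false, Prod.mk.injEq] at e
        exact e.elim (·.1.symm) (·.1.symm)
      · have := kl_inj.1 (Prod.mk.inj (List.mem_singleton.1 e)).1; omega
    · obtain ⟨d, m, e, -⟩ := S.exit hJ 0 x1 u (by simpa) hr h hs
      exact ⟨0, d, m, e⟩
  all_goals obtain rfl := List.mem_singleton.1 hr
  · obtain ⟨m, τ, e1, h, hs⟩ := go hJ (j := 1) (k := -1) (o := 104) (g := kl (-1) (-1)) h hs
      le_rfl (fun o h => ((S.pass (by omega) (by omega) h).2.2.2 rfl).resolve_left fun e => by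
        have := C.r0 hJ (C.cg ((C.nd _ _ (by omega) (by omega)).2.2.1
          (C.ld (e ▸ (Us.of_mid h).2))) ⟨rfl, rfl⟩)
        omega) rfl
    obtain ⟨m, τ, rfl, h, hs⟩ := go hJ (o := 0) (g := kl 0 0) h hs (by omega)
      (fun o h => (S.pass (by omega) (by omega) h).2.2.1 rfl) rfl
    obtain ⟨o, τ, d, m, rfl, e⟩ := fin (l := 2) (by decide) (.inr ⟨rfl, rfl⟩) h hs
    exact ⟨2, d, m, by rw [List.cons_append, e1]; exact e⟩
  · obtain ⟨m, τ, e1, h, hs⟩ := go hJ (j := -1) (k := -1) (o := 92) (g := kl 1 (-1)) h hs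
      (by omega) (fun o h => ((S.pass (by omega) (by omega) h).1 rfl).resolve_right fun e =>
        C.neg hJ (by omega) ((C.nd _ _ (by omega) (by omega)).2.2.1 (e ▸ (Us.of_mid h).2))) rfl
    obtain ⟨m, τ, rfl, h, hs⟩ := go hJ (o := 107) (g := kl 0 0) h hs le_rfl
      (fun o h => (S.pass (by omega) (by omega) h).2.1 (.inr rfl)) rfl
    obtain ⟨o, τ, d, m, rfl, e⟩ := fin (l := 1) (by decide) (.inl ⟨rfl, rfl⟩) h hs
    exact ⟨1, d, m, by rw [List.cons_append, e1]; exact e⟩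

end Pool.Agent.Lib.MP_820104_pr.Tb
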