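import Pool.Agent.Lib.MP_820104_pr.Walk

/-! Self-avoiding walks on free powers: the block decomposition. -/

noncomputable section

namespace Pool.Agent.Lib.MP_820104_pr

open Finset Filter Monoid CoprodI
open scoped Classical

variable {G : Type} [Group G] {k : ℕ} {S : Finset G}

theorem mem_gens {x : FP G k} : x ∈ gens k S ↔ ∃ j, ∃ s ∈ S, inc j s = x := by
  simp [gens, mem_image₂]

/-- the factor of the first syllable -/
def fi (x : FP G k) : Option (Fin k) := (Word.equiv x).fstIdx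

theorem fi_one : fi (1 : FP G k) = none := by
  rw [fi, show Word.equiv (1 : FP G k) = Word.empty from one_smul (FP G k) Word.empty]; rfl

theorem fi_mul {j : Fin k} {a : G} {b : FP G k} (ha : a ≠ 1) (hb : fi b ≠ some j) :
    fi (inc j a * b) = some j := by
  have e : Word.equiv (inc j a * b) = Word.cons a (Word.equiv b) hb ha :=
    (mul_smul _ _ _).trans Word.cons_eq_smul.symm
  exact (congrArg Word.fstIdx e).trans (Word.fstIdx_cons _ _ _ _)

theorem fi_inc {j : Fin k} {a : G} (ha : a ≠ 1) : fi (inc j a) = some j := by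
  simpa using fi_mul (b := 1) ha (by simp [fi_one])

theorem pair_inj {j : Fin k} {a a' : G} {b b' : FP G k} (hb : fi b ≠ some j)
    (hb' : fi b' ≠ some j) (e : inc j a * b = inc j a' * b') : a = a' ∧ b = b' := by
  obtain rfl : a = a' := by
    by_contra h
    refine hb' ?_
    rw [← fi_mul (a := a'⁻¹ * a) (by rwa [Ne, inv_mul_eq_one, eq_comm]) hb, map_mul, mul_assoc, e,
      map_inv, inv_mul_cancel_left]
  exact ⟨rfl, mul_left_cancel e⟩

/-- the first letter comes from a factor in `J` -/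
def St (J : Finset (Fin k)) (l : List (FP G k)) : Prop := ∀ x ∈ l.head?, ∀ i, fi x = some i → i ∈ J

theorem St.ne {j : Fin k} {l : List (FP G k)} (h : St {j}ᶜ l) : l.head?.bind fi ≠ some j := by
  cases l with
  | nil => simp
  | cons x t => exact fun e => by simpa using h x rfl j e

theorem dec_ex (h1 : 1 ∉ S) (j : Fin k) : ∀ l : List (FP G k), (∀ x ∈ l, x ∈ gens k S) →
    ∃ u l', l = List.map (inc j) u ++ l' ∧ (∀ x ∈ u, x ∈ S) ∧ St {j}ᶜ l'
  | [], _ => ⟨[], [], rfl, by simp, by simp [St]⟩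
  | x :: t, h => by
    obtain ⟨i, s, hs, rfl⟩ := mem_gens.1 (h x (by simp))
    by_cases e : i = j
    · obtain ⟨u, l', rfl, hu, hl⟩ := dec_ex h1 j t fun y hy => h y (by simp [hy])
      exact ⟨s :: u, l', by simp [e], by simpa [hs], hl⟩
    · refine ⟨[], _, rfl, by simp, ?_⟩
      simpa [St, fi_inc (fun e : s = 1 => h1 (e ▸ hs))]

theorem dec_uniq {j : Fin k} {l l' : List (FP G k)} (h : St {j}ᶜ l) (h' : St {j}ᶜ l') :
    ∀ u u' : List G, 1 ∉ u → 1 ∉ u' → u.map (inc j) ++ l = u'.map (inc j) ++ l' → u = u' ∧ l = l'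
  | [], [], _, _, e => ⟨rfl, e⟩
  | [], s :: u, _, b, e => (h.ne (by
      rw [show l = _ from e]; exact fi_inc fun e => b (by simp [e]))).elim
  | s :: u, [], b, _, e => (h'.ne (by
      rw [show l' = _ from e.symm]; exact fi_inc fun e => b (by simp [e]))).elim
  | s :: u, s' :: u', a, b, e => by
    obtain ⟨e1, e2⟩ := List.cons.inj e
    obtain ⟨rfl, e3⟩ := dec_uniq h h' u u' (fun h => a (by simp [h])) (fun h => b (by simp [h])) e2
    exact ⟨by rw [of_injective (M := fun _ : Fin k => G) j e1], e3⟩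

theorem NT.left {a b : List G} (h : NT (a ++ b)) : NT a := fun x u y e =>
  h x u (y ++ b) (by simp [e])

theorem NT.right {a b : List G} (h : NT (a ++ b)) : NT b := fun x u y e =>
  h (a ++ x) u y (by simp [e])

theorem NT.of_map {j : Fin k} {u : List G} (h : NT (u.map (inc j))) : NT u := fun x v y e v0 v1 =>
  h (x.map (inc j)) (v.map (inc j)) (y.map (inc j)) (by simp [e]) (by simpa)
    (by rw [← map_list_prod, v1, map_one])

theorem NT.inj {l : List G} (h : NT l) {i j : ℕ} (ij : i < j)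
    (e : (l.take i).prod = (l.take j).prod) : l.length ≤ i := by
  by_contra hi
  exact NT_iff.1 h i (min j l.length) (by omega) (by omega) (by rwa [← List.take_eq_take_min])

theorem fi_prod (h1 : 1 ∉ S) : ∀ (n : ℕ) (l : List (FP G k)), l.length ≤ n →
    (∀ x ∈ l, x ∈ gens k S) → NT l → fi l.prod = l.head?.bind fi
  | _, [], _, _, _ => fi_one
  | 0, _ :: _, h, _, _ => by simp at h
  | n + 1, x :: t, h, hm, hn => by
    obtain ⟨i, s, hs, rfl⟩ := mem_gens.1 (hm x (by simp))
    obtain ⟨u, l', rfl, hu, hl⟩ := dec_ex h1 i t fun y hy => hm y (by simp [hy])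
    have e : inc i s :: (u.map (inc i) ++ l') = (s :: u).map (inc i) ++ l' := rfl
    refine Eq.trans ?_ (fi_inc fun e : s = 1 => h1 (e ▸ hs)).symm
    rw [e] at hn ⊢
    rw [List.prod_append, ← map_list_prod]
    refine fi_mul (hn.left.of_map [] _ [] (by simp) (by simp)) ?_
    rw [fi_prod h1 n l' (by simp at h; omega) (fun y hy => hm y (by simp [hy])) hn.right]
    exact hl.ne

theorem NT.glue (h1 : 1 ∉ S) {j : Fin k} {u : List G} {l : List (FP G k)} (hu : NT u) (hl : NT l)
    (hm : ∀ x ∈ l, x ∈ gens k S) (hs : St {j}ᶜ l) : NT (u.map (inc j) ++ l) := by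
  have key : ∀ i, fi (l.take i).prod ≠ some j := fun i => by
    rw [fi_prod h1 _ _ le_rfl (fun x hx => hm x (List.mem_of_mem_take hx))
      (NT.left (b := l.drop i) (by simpa))]
    cases i with
    | zero => simp
    | succ i => simpa [List.head?_take] using hs.ne
  refine NT_iff.2 fun a b ab hb e => ?_
  simp only [List.take_append, List.prod_append, ← List.map_take, ← map_list_prod,
    List.length_map, List.length_append] at e hb
  obtain ⟨e1, e2⟩ := pair_inj (key _) (key _) e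
  have := hu.inj ab e1
  have := hl.inj (by omega) e2
  omega

/-- the walks whose first step lies in a factor in `J` -/
def NJ (S : Finset G) (J : Finset (Fin k)) (n : ℕ) : Finset (List (FP G k)) :=
  (Wd (gens k S) n).filter (St J)

theorem mem_Wd {l : List G} {n : ℕ} : l ∈ Wd S n ↔ (l.length = n ∧ ∀ x ∈ l, x ∈ S) ∧ NT l := by
  rw [Wd, mem_filter, mem_Ls]

theorem card_NJ (h1 : 1 ∉ S) (J : Finset (Fin k)) (n : ℕ) : #(NJ S J (n + 1)) =
    ∑ i ∈ J, ∑ p ∈ antidiagonal n, saw S (p.1 + 1) * #(NJ S {i}ᶜ p.2) := by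
  simp_rw [saw_eq, ← card_product, ← card_sigma]
  symm
  have hd : ∀ {u : List G} {m : ℕ} (i : Fin k) (l : List (FP G k)), u ∈ Wd S (m + 1) →
      (u.map (inc i) ++ l).head?.bind fi = some i := fun {u m} i l hu => by
    obtain ⟨⟨h, h'⟩, -⟩ := mem_Wd.1 hu
    cases u with
    | nil => simp at h
    | cons s u => exact fi_inc fun e => h1 (e ▸ h' s (by simp))
  refine card_bij (fun x _ => x.2.2.1.map (inc x.1) ++ x.2.2.2) ?_ ?_ fun l hl => ?_
  · rintro ⟨i, p, u, l⟩ hx
    simp only [mem_sigma, mem_product, NJ, mem_filter, HasAntidiagonal.mem_antidiagonal] at hx ⊢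
    obtain ⟨hi, hp, hu, hl, hs⟩ := hx
    have := hd i l hu
    rw [mem_Wd] at hu hl ⊢
    refine ⟨⟨⟨by simp [hu.1.1, hl.1.1]; omega, fun x hx => ?_⟩, hu.2.glue h1 hl.2 hl.1.2 hs⟩,
      fun x hx j e => ?_⟩
    · rcases List.mem_append.1 hx with h | h
      · obtain ⟨s, hs, rfl⟩ := List.mem_map.1 h
        exact mem_gens.2 ⟨i, s, hu.1.2 s hs, rfl⟩
      · exact hl.1.2 x h
    · rw [Option.mem_def.1 hx, Option.bind_some, e] at this
      exact Option.some.inj this ▸ hi
  · rintro ⟨i, ⟨a, b⟩, u, l⟩ hx ⟨i', ⟨a', b'⟩, u', l'⟩ hx' e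
    simp only [mem_sigma, mem_product, NJ, mem_filter, HasAntidiagonal.mem_antidiagonal] at hx hx' e
    obtain ⟨-, hp, hu, hl, hs⟩ := hx
    obtain ⟨-, hp', hu', hl', hs'⟩ := hx'
    obtain rfl : i = i' := Option.some.inj (by rw [← hd i l hu, e, hd i' l' hu'])
    rw [mem_Wd] at hu hu'
    obtain ⟨rfl, rfl⟩ := dec_uniq hs hs' u u' (fun h => h1 (hu.1.2 _ h)) (fun h => h1 (hu'.1.2 _ h)) e
    obtain rfl : a = a' := by have := hu.1.1; have := hu'.1.1; omega
    obtain rfl : b = b' := by omega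
    rfl
  · obtain ⟨hl, hs⟩ := mem_filter.1 hl
    obtain ⟨⟨h, hm⟩, hn⟩ := mem_Wd.1 hl
    cases l with
    | nil => simp at h
    | cons x t =>
      obtain ⟨i, s, hs', rfl⟩ := mem_gens.1 (hm x (by simp))
      obtain ⟨u, l', rfl, hu, hl⟩ := dec_ex h1 i t fun y hy => hm y (by simp [hy])
      have e : inc i s :: (u.map (inc i) ++ l') = (s :: u).map (inc i) ++ l' := rfl
      rw [e] at hn
      refine ⟨⟨i, (u.length, l'.length), s :: u, l'⟩, ?_, rfl⟩
      simp only [mem_sigma, mem_product, NJ, mem_filter, HasAntidiagonal.mem_antidiagonal, mem_Wd]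
      exact ⟨hs _ rfl i (fi_inc fun e => h1 (e ▸ hs')), by simpa using h,
        ⟨⟨rfl, by simpa [hs']⟩, hn.left.of_map⟩,
        ⟨⟨trivial, fun y hy => hm y (by simp [hy])⟩, hn.right⟩, hl⟩

/-- the walks counted once for each factor in which they do not start -/
def FJ (k : ℕ) (S : Finset G) (n : ℕ) : ℕ := ∑ j : Fin k, #(NJ S {j}ᶜ n)

theorem FJ_zero : FJ k S 0 = k := by
  simp [FJ, NJ, Wd, Ls, filter_singleton, NT_nil, St]

theorem saw_succ (h1 : 1 ∉ S) (n : ℕ) :
    saw (gens k S) (n + 1) = ∑ p ∈ antidiagonal n, saw S (p.1 + 1) * FJ k S p.2 := by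
  rw [saw_eq, ← filter_true_of_mem (p := St univ) (s := Wd _ _) fun _ _ _ _ _ _ => mem_univ _]
  refine (card_NJ h1 _ n).trans ?_
  rw [sum_comm]
  simp_rw [FJ, mul_sum]

theorem FJ_succ (h1 : 1 ∉ S) (n : ℕ) :
    FJ k S (n + 1) + saw (gens k S) (n + 1) = k * saw (gens k S) (n + 1) := by
  have e : saw (gens k S) (n + 1) =
      ∑ i : Fin k, ∑ p ∈ antidiagonal n, saw S (p.1 + 1) * #(NJ S {i}ᶜ p.2) := by
    rw [saw_succ h1, sum_comm]
    simp_rw [FJ, mul_sum]
  rw [FJ]
  simp_rw [card_NJ h1]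
  conv_lhs => rw [e, ← sum_add_distrib]
  refine (sum_congr rfl fun j _ => (?_ : _ = saw (gens k S) (n + 1))).trans (by simp)
  rw [e, ← sum_compl_add_sum {j}, sum_singleton]

end Pool.Agent.Lib.MP_820104_pr
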