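import Pool.Agent.Lib.MP_820104_pr.Val

/-! Skeletons of walks in the block, the ideal trajectory and the series of the final formula. -/

noncomputable section

namespace Pool.Agent.Lib.MP_820104_pr.Tb

open Finset Polynomial

/-- walks in the block from type `a` to type `b`, counted with a weight `φ` of the last cell -/
def Wk (φ : Kl → ZMod 3) (a b : ℕ) : PS :=
  PowerSeries.mk fun n => ∑ u ∈ AW DD a n, if tg a u = b then φ (lp u) else 0

/-- a pass: cell, first vertex, last vertex -/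
abbrev Ps : Type := Kl × ℕ × ℕ

/-- the skeletons with `k` links from the vertex `v` -/
def Sk : ℕ → Kl × ℕ → Finset (List Ps)
  | 0, v => (range 108).image fun b => [(v.1, v.2, b)]
  | k + 1, v => (range 108).biUnion fun b => (lk b).toFinset.biUnion fun p =>
      (Sk k (v.1 * p.1, p.2)).image (List.cons (v.1, v.2, b))

theorem mem_Sk_zero {v : Kl × ℕ} {σ : List Ps} : σ ∈ Sk 0 v ↔ ∃ b < 108, σ = [(v.1, v.2, b)] := by
  simp only [Sk, mem_image, mem_range, @eq_comm _ σ]

theorem mem_Sk_succ {k : ℕ} {v : Kl × ℕ} {σ : List Ps} : σ ∈ Sk (k + 1) v ↔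
    ∃ b < 108, ∃ p ∈ lk b, ∃ τ ∈ Sk k (v.1 * p.1, p.2), σ = (v.1, v.2, b) :: τ := by
  simp only [Sk, mem_biUnion, mem_image, mem_range, List.mem_toFinset, @eq_comm _ σ]

/-- the pattern of passes through the cell `g` -/
def cell (g : Kl) (σ : List Ps) : List (ℕ × ℕ) := (σ.filter (·.1 = g)).map (·.2)

/-- the weight of a skeleton -/
def Wt (σ : List Ps) : PS := ∏ g ∈ (σ.map (·.1)).toFinset, Z xx (cell g σ) ∅

/-- the last vertex -/
def en : List Ps → Kl × ℕ
  | [] => (1, 0)
  | [p] => (p.1, p.2.2)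
  | _ :: q :: σ => en (q :: σ)

/-- the ends of the passes -/
def ends (σ : List Ps) : List (Kl × ℕ) := σ.flatMap fun p => [(p.1, p.2.1), (p.1, p.2.2)]

/-- a state of the ideal trajectory: row, first column, length of the last row, step, phase -/
structure St where
  j : ℤ
  s : ℤ
  n : ℕ
  r : ℕ
  c : Bool

/-- the vertex where the next pass starts -/
def St.ent (t : St) : Kl × ℕ :=
  bif t.c then ((t.j - 1, -t.s - t.r - 1), 0) else ((t.j, t.s + t.r), if t.r = 0 then 104 else 101)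

/-- the port where the next pass ends -/
def St.ex (t : St) : ℕ := bif t.c then (if t.r < t.n then 100 else 92) else 107

/-- the next state -/
def St.nx (t : St) : St :=
  bif t.c then (if t.r < t.n then ⟨t.j, t.s, t.n, t.r + 1, false⟩
    else ⟨t.j + 1, -t.s - t.r - 1, t.n + 1, 0, false⟩) else ⟨t.j, t.s, t.n, t.r, true⟩

/-- the ideal trajectory with `m` links that stops at type `b` -/
def fw : ℕ → St → ℕ → List Ps
  | 0, t, b => [(t.ent.1, t.ent.2, b)]
  | m + 1, t, b => (t.ent.1, t.ent.2, t.ex) :: fw m t.nx b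

/-- the passes before the first cell is left for good through the port `q` -/
def loop (l : Fin 3) (a q : ℕ) : List Ps :=
  if l = 0 then [((0, 0), a, q)]
  else if l = 1 then [((0, 0), a, 107), ((-1, -1), 0, 92), ((1, -1), 104, 107), ((0, 0), 0, q)]
  else [((0, 0), a, 0), ((1, -1), 107, 104), ((-1, -1), 92, 0), ((0, 0), 107, q)]

/-- the passes before the second row -/
def ini (l : Fin 3) (d : Bool) (a : ℕ) : List Ps :=
  bif d then loop l a 100 ++ ([((1, 0), 101, 107), ((0, -1), 0, 92)] : List Ps) else loop l a 92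

/-- the state at the start of the second row -/
def st0 (l : Fin 3) (d : Bool) : St :=
  ⟨2, bif d then -1 else 0, (bif d then 1 else 0) + if l = 0 then 0 else 1, 0, false⟩

/-- the weight of one step in a row -/
def tt : PS := xx ^ 2 * wp * wb

/-- the walks that stop in a row after a row of length `n` -/
def row (n b : ℕ) : PS := ∑ r ∈ range (n + 1), tt ^ r *
  (A xx (if r = 0 then 104 else 101) b one ∅ + xx * wp * A xx 0 b one (if r < n then {106} else ∅))

/-- the weights of the initial parts -/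
def al (n a : ℕ) : PS :=
  if n = 0 then xx * A xx a 92 one ∅
  else if n = 1 then -(xx * tt) * (A xx a 100 one ∅ +
    xx * (Z xx [(a, 107), (0, 92)] ∅ + Z xx [(a, 0), (107, 92)] ∅))
  else (xx * tt) ^ 2 * (Z xx [(a, 107), (0, 100)] ∅ + Z xx [(a, 0), (107, 100)] ∅)

/-- the polynomials -/
abbrev Po : Subring PS := (algebraMap (ZMod 3)[X] PS).range

theorem ph_po (p : ℕ[X]) : ph p ∈ Po :=
  ⟨p.map (Nat.castRingHom _), by simp [ph, PowerSeries.algebraMap_apply']⟩

theorem Z_po (τ : List (ℕ × ℕ)) (S : Finset ℕ) : Z xx τ S ∈ Po := by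
  rw [xx, ← ph_X, ← Z_map]
  exact ph_po _

theorem A_po (v b : ℕ) (S : Finset ℕ) : A xx v b one S ∈ Po := Z_po [(v, b)] S

/-- the final formula for the walks in the block -/
def Dyn : Prop := ∃ Ψ : ℕ → ℕ → PS, (∀ n b, Ψ n b = row n b - tt ^ (n + 1) * Ψ (n + 1) b) ∧
  ∀ a < 108, ∀ b < 108,
    Wk 1 a b - ∑ n ∈ range 3, (al n a * Ψ n b + al n b * Ψ n a) ∈ Po

/-- the expansion in skeletons -/
def SkMain : Prop := ∀ (φ : Kl → ZMod 3) (a b K : ℕ), a < 108 → xx ^ K ∣ Wk φ a b -
  ∑ k ∈ range K, xx ^ k * ∑ σ ∈ Sk k (1, a),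
    if (en σ).2 = b then PowerSeries.C (φ (en σ).1) * Wt σ else 0

/-- no port is used twice -/
def SkNodup : Prop := ∀ (k : ℕ) (v : Kl × ℕ) (h l : Ps) (mid : List Ps),
  h :: (mid ++ [l]) ∈ Sk k v → Wt (h :: (mid ++ [l])) ≠ 0 →
    ((h.1, h.2.2) :: (ends mid ++ [(l.1, l.2.1)])).Nodup

/-- the approximate solution -/
def NNy : Prop := ∀ a < 108, xx ^ 4 ∣ ∑ b ∈ range 108, Wk 1 a b * yv xx b - 1

/-- short skeletons when the ends are close -/
def NearBd : Prop := ∃ K, ∀ k a σ, σ ∈ Sk k (1, a) → Wt σ ≠ 0 → |(en σ).1.1| ≤ 1 → k < K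

/-- ideal skeletons when the end is far above -/
def FarClass : Prop := ∀ k a σ, σ ∈ Sk k (1, a) → Wt σ ≠ 0 → 2 ≤ (en σ).1.1 →
  ∃ l d m, σ = ini l d a ++ fw m (st0 l d) (en σ).2

end Pool.Agent.Lib.MP_820104_pr.Tb
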