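import Mathlib

/-! A Liouville type inequality, and evaluation of convergent integer power series. -/

noncomputable section

namespace Pool.Agent.Lib.MP_820104_pr

open Polynomial Finset IntermediateField

theorem root_le {R : ℤ[X]} (hR : R ≠ 0) {H : ℝ} (hH : ∀ i, (|R.coeff i| : ℝ) ≤ H) {w : ℂ}
    (hw : aeval w R = 0) : ‖w‖ ≤ 2 * H := by
  have inj : Function.Injective (algebraMap ℤ ℂ) := RingHom.injective_int _
  have h1 : (1 : ℝ) ≤ |(R.leadingCoeff : ℝ)| := by
    exact_mod_cast Int.one_le_abs (leadingCoeff_ne_zero.2 hR)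
  have H1 : 1 ≤ H := h1.trans (hH _)
  have h := IsRoot.norm_lt_cauchyBound ((Polynomial.map_ne_zero_iff inj).2 hR)
    (a := w) (by rwa [IsRoot.def, eval_map_algebraMap])
  have h2 : (cauchyBound (R.map (algebraMap ℤ ℂ)) : ℝ) ≤ H + 1 := by
    rw [cauchyBound, leadingCoeff_map_of_injective inj]
    push_cast
    refine add_le_add_left ((div_le_self (by positivity) (by simpa using h1)).trans ?_) _
    lift H to NNReal using by linarith
    refine NNReal.coe_le_coe.2 (Finset.sup_le fun i _ => NNReal.coe_le_coe.1 ?_)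
    simpa [← Int.norm_cast_real] using hH i
  have h3 : ‖w‖ < _ := NNReal.coe_lt_coe.2 h
  linarith

theorem aeval_le {Q : ℤ[X]} {N : ℕ} (hN : Q.natDegree ≤ N) {K r : ℝ} (hK : ∀ i, (|Q.coeff i| : ℝ) ≤ K)
    (hr : 1 ≤ r) {w : ℂ} (hw : ‖w‖ ≤ r) : ‖aeval w Q‖ ≤ (N + 1) * K * r ^ N := by
  have K0 : 0 ≤ K := (abs_nonneg _).trans (hK 0)
  rw [aeval_eq_sum_range' (Nat.lt_succ_of_le hN)]
  refine (norm_sum_le _ _).trans ((sum_le_card_nsmul _ _ (K * r ^ N) fun i hi => ?_).trans_eq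
    (by simp; ring))
  rw [norm_smul, norm_pow]
  exact mul_le_mul (by simpa [← Int.norm_cast_real] using hK i) ((pow_le_pow_left₀ (norm_nonneg _) hw i).trans
    (pow_le_pow_right₀ hr (Nat.lt_succ_iff.1 (mem_range.1 hi)))) (by positivity) K0

/-- Liouville's inequality -/
theorem liou {α : ℝ} {R Q : ℤ[X]} {D N : ℕ} {H K : ℝ} (hR : R ≠ 0) (hα : aeval α R = 0)
    (hD : R.natDegree ≤ D) (hH : ∀ i, (|R.coeff i| : ℝ) ≤ H) (hN : Q.natDegree ≤ N)
    (hK : ∀ i, (|Q.coeff i| : ℝ) ≤ K) (hQ : aeval α Q ≠ 0) :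
    1 ≤ H ^ N * |aeval α Q| * (H ^ N * ((N + 1) * K * (2 * H) ^ N)) ^ D := by
  have inj : Function.Injective (algebraMap ℤ ℚ) := RingHom.injective_int _
  have hR' : R.map (algebraMap ℤ ℚ) ≠ 0 := (Polynomial.map_ne_zero_iff inj).2 hR
  have hα' : aeval α (R.map (algebraMap ℤ ℚ)) = 0 := by rwa [aeval_map_algebraMap]
  have hi : IsIntegral ℚ α := IsAlgebraic.isIntegral ⟨_, hR', hα'⟩
  have := adjoin.finiteDimensional hi
  have : NumberField ℚ⟮α⟯ := {}
  have hd : Module.finrank ℚ ℚ⟮α⟯ ≤ D := by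
    rw [adjoin.finrank hi]
    exact (natDegree_le_natDegree (minpoly.degree_le_of_ne_zero ℚ α hR' hα')).trans
      (natDegree_map_le.trans hD)
  set a := AdjoinSimple.gen ℚ α
  have e : ∀ P : ℤ[X], (algebraMap ℚ⟮α⟯ ℝ) (aeval a P) = aeval α P := fun P =>
    (aeval_algHom_apply (algebraMap ℚ⟮α⟯ ℝ).toIntAlgHom a P).symm
  have ha : aeval a R = 0 := (algebraMap ℚ⟮α⟯ ℝ).injective (by rw [e, hα, map_zero])
  have h1 : (1 : ℝ) ≤ |(R.leadingCoeff : ℝ)| := by
    exact_mod_cast Int.one_le_abs (leadingCoeff_ne_zero.2 hR)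
  have H1 : 1 ≤ H := h1.trans (hH _)
  set b : ℚ⟮α⟯ := (R.leadingCoeff : ℚ⟮α⟯) ^ N * aeval a Q with hb
  have bi : IsIntegral ℤ b := by
    rw [hb, aeval_eq_sum_range' (Nat.lt_succ_of_le hN), mul_sum]
    refine IsIntegral.sum _ fun i hi => ?_
    obtain ⟨j, rfl⟩ := Nat.exists_eq_add_of_le (Nat.lt_succ_iff.1 (mem_range.1 hi))
    have := (((isIntegral_leadingCoeff_smul R a ha).pow i).zsmul (R.leadingCoeff ^ j)).zsmul
      (Q.coeff i)
    convert this using 1
    simp only [zsmul_eq_mul]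
    push_cast
    ring
  have b0 : b ≠ 0 := mul_ne_zero (pow_ne_zero _ (Int.cast_ne_zero.2 (leadingCoeff_ne_zero.2 hR)))
    fun h => hQ (by rw [← e, h, map_zero])
  have n1 : 1 ≤ ‖Algebra.norm ℚ b‖ := by
    obtain ⟨m, hm⟩ := IsIntegrallyClosed.isIntegral_iff.1 (Algebra.isIntegral_norm ℚ bi)
    have := Algebra.norm_ne_zero_iff (R := ℚ).2 b0
    rw [← hm] at this ⊢
    have h2 : (1 : ℝ) ≤ |(m : ℝ)| := by exact_mod_cast Int.one_le_abs (by simpa using this)
    simpa [← Rat.norm_cast_real] using h2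
  have s : ∀ σ : ℚ⟮α⟯ →+* ℂ, ‖σ b‖ ≤ H ^ N * ‖aeval (σ a) Q‖ := fun σ => by
    rw [hb, map_mul, map_pow, map_intCast, norm_mul, norm_pow, Complex.norm_intCast]
    exact mul_le_mul (pow_le_pow_left₀ (abs_nonneg _) (hH _) N)
      (congrArg _ (aeval_algHom_apply σ.toIntAlgHom a Q).symm).le (norm_nonneg _) (by positivity)
  have hh : NumberField.house b ≤ H ^ N * ((N + 1) * K * (2 * H) ^ N) := by
    obtain ⟨σ, -, hσ⟩ := exists_mem_eq_sup' univ_nonempty fun φ : ℚ⟮α⟯ →+* ℂ => ‖φ b‖₊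
    rw [NumberField.house_eq_sup', hσ]
    exact (s σ).trans (mul_le_mul_of_nonneg_left (aeval_le hN hK (by linarith) (root_le hR hH
      ((aeval_algHom_apply σ.toIntAlgHom a R).trans (by rw [ha, map_zero])))) (by positivity))
  have h3 := NumberField.one_le_house_of_isIntegral bi b0
  refine n1.trans ((NumberField.norm_norm_le_norm_mul_house_pow b
    (Complex.ofRealHom.comp (algebraMap ℚ⟮α⟯ ℝ))).trans (mul_le_mul ((s _).trans_eq ?_)
      ((pow_le_pow_right₀ h3 (by omega)).trans (pow_le_pow_left₀ (by linarith) hh D))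
      (by positivity) (by positivity)))
  congr 1
  exact (congrArg _ (aeval_algHom_apply Complex.ofRealHom.toIntAlgHom α Q)).trans
    (Complex.norm_real _)

/-- the terms of a series -/
abbrev tm (f : PowerSeries ℤ) (z : ℝ) (n : ℕ) : ℝ := (PowerSeries.coeff n f : ℤ) * z ^ n

/-- the series converges absolutely at `r` and its value at `z` is `v` -/
def Ev (r z : ℝ) (f : PowerSeries ℤ) (v : ℝ) : Prop :=
  (Summable fun n => ‖tm f r n‖) ∧ HasSum (tm f z) v

namespace Ev

variable {r z v w : ℝ} {f g : PowerSeries ℤ}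

theorem add (h : Ev r z f v) (h' : Ev r z g w) : Ev r z (f + g) (v + w) :=
  ⟨(h.1.add h'.1).of_nonneg_of_le (fun _ => norm_nonneg _) fun n => by
    rw [tm, map_add, Int.cast_add, add_mul]; exact norm_add_le _ _, by
    convert h.2.add h'.2 using 2
    rw [tm, map_add, Int.cast_add, add_mul]⟩

theorem mono (n : ℕ) (a : ℤ) : Ev r z (PowerSeries.monomial n a) (a * z ^ n) :=
  ⟨summable_of_ne_finset_zero (s := {n}) fun m hm => by
    simp [tm, PowerSeries.coeff_monomial, mem_singleton.not.1 hm], by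
    convert hasSum_single n fun m hm => ?_ <;> simp [tm, PowerSeries.coeff_monomial, *]⟩

theorem mul (hz : |z| ≤ r) (h : Ev r z f v) (h' : Ev r z g w) : Ev r z (f * g) (v * w) := by
  have e : ∀ x : ℝ, tm (f * g) x = fun n => ∑ p ∈ antidiagonal n, tm f x p.1 * tm g x p.2 :=
    fun x => funext fun n => by
      rw [tm, PowerSeries.coeff_mul, Int.cast_sum, sum_mul]
      exact sum_congr rfl fun p hp => by rw [← mem_antidiagonal.1 hp]; push_cast; ring
  have s : ∀ {f v}, Ev r z f v → Summable fun n => ‖tm f z n‖ :=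
    fun h => h.1.of_nonneg_of_le (fun _ => norm_nonneg _) fun n => by
      simp only [tm, norm_mul, norm_pow, Real.norm_eq_abs]
      exact mul_le_mul_of_nonneg_left (pow_le_pow_left₀ (abs_nonneg _)
        (hz.trans (le_abs_self r)) n) (abs_nonneg _)
  refine ⟨?_, ?_⟩
  · rw [e]
    exact summable_norm_sum_mul_antidiagonal_of_summable_norm h.1 h'.1
  · rw [e, ← h.2.tsum_eq, ← h'.2.tsum_eq,
      tsum_mul_tsum_eq_tsum_sum_antidiagonal_of_summable_norm (s h) (s h')]
    exact (summable_norm_sum_mul_antidiagonal_of_summable_norm (s h) (s h')).of_norm.hasSum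

theorem pow (hz : |z| ≤ r) (h : Ev r z f v) (n : ℕ) : Ev r z (f ^ n) (v ^ n) := by
  induction n with
  | zero => simpa using mono (r := r) (z := z) 0 1
  | succ n ih => exact pow_succ f n ▸ pow_succ v n ▸ ih.mul hz h

theorem sum {ι : Type} {s : Finset ι} {f : ι → PowerSeries ℤ} {v : ι → ℝ}
    (h : ∀ i ∈ s, Ev r z (f i) (v i)) : Ev r z (∑ i ∈ s, f i) (∑ i ∈ s, v i) := by
  induction s using Finset.cons_induction with
  | empty => simpa using mono (r := r) (z := z) 0 0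
  | cons a s _ ih =>
    rw [sum_cons, sum_cons]
    exact (h a (mem_cons_self ..)).add (ih fun i hi => h i (mem_cons_of_mem hi))

/-- a series which vanishes to order `M` -/
theorem small (r0 : 0 < r) (z0 : 0 ≤ z) (hz : z ≤ r) (h : Ev r z f v) {M : ℕ}
    (hM : ∀ n < M, PowerSeries.coeff n f = 0) :
    |v| ≤ (z / r) ^ M * ∑' n, ‖tm f r n‖ := by
  rw [← h.2.tsum_eq, ← tsum_mul_left]
  refine tsum_of_norm_bounded (f := tm f z) (h.1.mul_left _).hasSum fun n => ?_
  rcases lt_or_ge n M with hn | hn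
  · simp [tm, hM n hn]
  · have : (z / r) ^ n ≤ (z / r) ^ M :=
      pow_le_pow_of_le_one (by positivity) (div_le_one_of_le₀ hz r0.le) hn
    rw [norm_mul, norm_mul, mul_left_comm, norm_pow, norm_pow, Real.norm_of_nonneg z0,
      Real.norm_of_nonneg r0.le]
    gcongr
    calc _ = (z / r) ^ n * r ^ n := by rw [← mul_pow, div_mul_cancel₀ _ r0.ne']
      _ ≤ _ := by gcongr

end Ev

end Pool.Agent.Lib.MP_820104_pr
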