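import Pool.Agent.Lib.MP_820104_pr.Data

/-! Systems of disjoint paths inside one cell. -/

noncomputable section

namespace Pool.Agent.Lib.MP_820104_pr.Tb

open Finset

theorem nb_ok : ∀ i < 108, (nb i).Nodup ∧ ∀ w ∈ nb i, w < 108 ∧ i ∈ nb w ∧
    (w = 106 ∨ i = 106 ∨ ((i ≤ 100 ↔ w ≤ 100) ∧ i ≠ 107)) := by decide +kernel

/-- the paths from `v` to `b` inside a cell -/
@[irreducible] def Pth (v b : ℕ) : Finset (List ℕ) :=
  ((range 109).biUnion (Ls (range 108))).filter fun l =>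
    l.IsChain (fun a b => b ∈ nb a) ∧ l.Nodup ∧ l.head? = some v ∧ l.getLast? = some b

theorem mem_Pth {v b : ℕ} {l : List ℕ} : l ∈ Pth v b ↔ (∀ i ∈ l, i < 108) ∧
    l.IsChain (fun a b => b ∈ nb a) ∧ l.Nodup ∧ l.head? = some v ∧ l.getLast? = some b := by
  have : ∀ N, l.Nodup → (l ∈ (range (N + 1)).biUnion (Ls (range N)) ↔ ∀ i ∈ l, i < N) :=
    fun N h => by
    simp only [mem_biUnion, mem_Ls, mem_range]
    refine ⟨fun ⟨_, _, _, h⟩ => h, fun h' => ⟨_, Nat.lt_succ_of_le ?_, rfl, h'⟩⟩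
    rw [← List.toFinset_card_of_nodup h]
    exact (card_le_card fun i hi => mem_range.2 (h' i (List.mem_toFinset.1 hi))).trans_eq
      (card_range N)
  unfold Pth
  rw [mem_filter]
  exact and_congr_left fun h => this 108 h.2.1

theorem rev_Pth {v b : ℕ} {l : List ℕ} (h : l ∈ Pth v b) : l.reverse ∈ Pth b v := by
  obtain ⟨h1, h2, h3, h4, h5⟩ := mem_Pth.1 h
  refine mem_Pth.2 ⟨by simpa using h1, ?_, by simpa, by simpa, by simpa⟩
  rw [List.isChain_reverse]
  exact h2.imp_of_mem_imp fun a b ha _ hb => ((nb_ok a (h1 a ha)).2 b hb).2.1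

variable {R : Type} [CommSemiring R] (x : R)

/-- choose a path from `v` to `b` that avoids `S` and go on with `K` -/
def A (v b : ℕ) (K : Finset ℕ → R) (S : Finset ℕ) : R :=
  ∑ l ∈ Pth v b, if Disjoint l.toFinset S then x ^ (l.length - 1) * K (S ∪ l.toFinset) else 0

variable {x} {v b : ℕ} {K K' : Finset ℕ → R} {S S' : Finset ℕ}

theorem A_congr (h : ∀ l ∈ Pth v b, (Disjoint l.toFinset S ↔ Disjoint l.toFinset S') ∧
    (Disjoint l.toFinset S → K (S ∪ l.toFinset) = K' (S' ∪ l.toFinset))) :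
    A x v b K S = A x v b K' S' :=
  sum_congr rfl fun l hl => by
    by_cases e : Disjoint l.toFinset S
    · rw [if_pos e, if_pos ((h l hl).1.1 e), (h l hl).2 e]
    · rw [if_neg e, if_neg (mt (h l hl).1.2 e)]

theorem A_zero (h : ∀ l ∈ Pth v b, Disjoint l.toFinset S → K (S ∪ l.toFinset) = 0) :
    A x v b K S = 0 :=
  sum_eq_zero fun l hl => ite_eq_right_iff.2 fun e => by rw [h l hl e, mul_zero]

theorem A_mul (c : R) : A x v b (fun S => K S * c) S = A x v b K S * c := by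
  simp only [A, sum_mul, ite_mul, zero_mul, mul_assoc]

theorem A_add : A x v b (fun S => K S + K' S) S = A x v b K S + A x v b K' S := by
  simp only [A, ← sum_add_distrib, mul_add]
  exact sum_congr rfl fun l _ => by split_ifs <;> simp

theorem A_sum {ι : Type} (s : Finset ι) (K : ι → Finset ℕ → R) :
    A x v b (fun S => ∑ i ∈ s, K i S) S = ∑ i ∈ s, A x v b (K i) S := by
  simp only [A, mul_sum]
  rw [sum_comm]
  exact sum_congr rfl fun l _ => by split_ifs <;> simp

theorem A_map {R' : Type} [CommSemiring R'] (φ : R →+* R') :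
    φ (A x v b K S) = A (φ x) v b (fun S => φ (K S)) S := by
  simp only [A, map_sum, apply_ite φ, map_mul, map_pow, map_zero]

theorem A_rev : A x v b K S = A x b v K S :=
  sum_nbij' List.reverse List.reverse (fun _ => rev_Pth) (fun _ => rev_Pth) (by simp) (by simp)
    (by simp)

theorem A_comm (c d : ℕ) : A x v b (A x c d K) S = A x c d (A x v b K) S := by
  have key : ∀ (l l' : List ℕ), (if Disjoint l.toFinset S then x ^ (l.length - 1) *
      (if Disjoint l'.toFinset (S ∪ l.toFinset) then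
        x ^ (l'.length - 1) * K (S ∪ l.toFinset ∪ l'.toFinset) else 0) else 0) =
      if Disjoint l.toFinset S ∧ Disjoint l'.toFinset S ∧ Disjoint l'.toFinset l.toFinset then
        x ^ (l.length - 1) * x ^ (l'.length - 1) * K (S ∪ (l.toFinset ∪ l'.toFinset)) else 0 :=
    fun l l' => by
    simp only [disjoint_union_right, mul_ite, mul_zero, ← ite_and, mul_assoc, union_assoc]
  have e : ∀ (v b c d : ℕ), A x v b (A x c d K) S = ∑ l ∈ Pth v b, ∑ l' ∈ Pth c d, _ :=
    fun v b c d => sum_congr rfl fun l _ => by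
      rw [← sum_congr rfl fun l' _ => key l l', A, mul_sum]
      split_ifs <;> simp
  rw [e, e, sum_comm]
  refine sum_congr rfl fun l _ => sum_congr rfl fun l' _ => ?_
  rw [union_comm l.toFinset, mul_comm (x ^ _) (x ^ _)]
  exact if_congr (by rw [disjoint_comm (a := l.toFinset) (b := l'.toFinset), and_left_comm]) rfl rfl

theorem hd_mem {l : List ℕ} (h : l ∈ Pth v b) : v ∈ l ∧ b ∈ l :=
  ⟨List.mem_of_head? (mem_Pth.1 h).2.2.2.1, List.mem_of_getLast? (mem_Pth.1 h).2.2.2.2⟩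

theorem A_mem (h : v ∈ S ∨ b ∈ S) : A x v b K S = 0 :=
  A_zero fun _ hl e => (h.elim (disjoint_left.1 e (List.mem_toFinset.2 (hd_mem hl).1))
    (disjoint_left.1 e (List.mem_toFinset.2 (hd_mem hl).2))).elim

theorem A_step (hv : v < 108) (h : v ∉ S) : A x v b K S = (if v = b then K (insert v S) else 0) +
    x * ((nb v).map fun w => A x w b K (insert v S)).sum := by
  rw [← List.sum_toFinset _ (nb_ok v hv).1, A, ← sum_filter_add_sum_filter_not _ (· = [v])]
  congr 1
  · rw [filter_eq']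
    by_cases e : v = b
    · subst e
      simp [mem_Pth, hv, h]
    · simp [mem_Pth, e]
  simp only [A, mul_sum]
  have : ∀ w, ∑ l ∈ Pth w b, x * (if Disjoint l.toFinset (insert v S) then
      x ^ (l.length - 1) * K (insert v S ∪ l.toFinset) else 0) = ∑ l ∈ (Pth w b).filter (v ∉ ·),
        if Disjoint (v :: l).toFinset S then x ^ ((v :: l).length - 1) *
          K (S ∪ (v :: l).toFinset) else 0 := fun w => by
    rw [sum_filter]
    refine sum_congr rfl fun l hl => ?_
    obtain _ | ⟨u, l⟩ := l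
    · simpa using hd_mem hl
    simp only [disjoint_insert_right, List.mem_toFinset, mul_ite, mul_zero, ite_and,
      List.toFinset_cons (a := v), disjoint_insert_left, h, not_false_eq_true, if_true,
      List.length_cons, Nat.add_sub_cancel, pow_succ', mul_assoc, insert_union, union_insert]
  simp only [this]
  rw [sum_sigma']
  symm
  refine sum_bij (fun p _ => v :: p.2) ?_ ?_ ?_ fun _ _ => rfl
  · rintro ⟨w, l⟩ hp
    simp only [mem_sigma, mem_filter, List.mem_toFinset, mem_Pth] at hp ⊢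
    obtain ⟨hw, ⟨h1, h2, h3, h4, h5⟩, h6⟩ := hp
    obtain _ | ⟨u, l⟩ := l
    · simp at h4
    obtain rfl : u = w := by simpa using h4
    exact ⟨⟨List.forall_mem_cons.2 ⟨hv, h1⟩, List.isChain_cons_cons.2 ⟨hw, h2⟩,
      List.nodup_cons.2 ⟨h6, h3⟩, rfl, h5⟩, by simp⟩
  · rintro ⟨w, l⟩ hp ⟨w', l'⟩ hp' e
    obtain rfl : l = l' := (List.cons.inj e).2
    obtain rfl : w = w' := Option.some.inj
      ((mem_Pth.1 (mem_filter.1 (mem_sigma.1 hp).2).1).2.2.2.1.symm.trans
        (mem_Pth.1 (mem_filter.1 (mem_sigma.1 hp').2).1).2.2.2.1)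
    rfl
  · intro l hl
    simp only [mem_filter, mem_Pth] at hl
    obtain ⟨⟨h1, h2, h3, h4, h5⟩, h6⟩ := hl
    obtain _ | ⟨u, _ | ⟨w, l⟩⟩ := l
    · simp at h4
    · simp_all
    obtain rfl : u = v := by simpa using h4
    rw [List.isChain_cons_cons] at h2
    rw [List.nodup_cons] at h3
    refine ⟨⟨w, w :: l⟩, ?_, rfl⟩
    simp only [mem_sigma, mem_filter, List.mem_toFinset, mem_Pth]
    exact ⟨h2.1, ⟨(List.forall_mem_cons.1 h1).2, h2.2, h3.2, rfl, h5⟩, h3.1⟩

theorem side : ∀ {l : List ℕ} {v : ℕ}, (∀ i ∈ v :: l, i < 108) →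
    (v :: l).IsChain (fun a b => b ∈ nb a) → 106 ∉ v :: l →
      ∀ i ∈ v :: l, (i ≤ 100 ↔ v ≤ 100) ∧ (i = 107 ↔ v = 107)
  | [], _, _, _, _ => by simp
  | w :: l, v, h1, h2, h3 => by
    rw [List.isChain_cons_cons] at h2
    have h4 := side (List.forall_mem_cons.1 h1).2 h2.2 fun h => h3 (List.mem_cons_of_mem _ h)
    obtain ⟨a1, a2, a3⟩ := (nb_ok v (h1 v (by simp))).2 w h2.1
    have a4 := ((nb_ok w a1).2 v a2).2.2
    simp only [List.mem_cons, not_or] at h3
    refine List.forall_mem_cons.2 ⟨by simp, fun i hi => ?_⟩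
    have := h4 i hi
    omega

theorem side_Pth {l : List ℕ} (h : l ∈ Pth v b) (hz : 106 ∉ l) :
    ∀ i ∈ l, (i ≤ 100 ↔ v ≤ 100) ∧ (i = 107 ↔ v = 107) := by
  obtain ⟨h1, h2, -, h4, -⟩ := mem_Pth.1 h
  obtain _ | ⟨u, l⟩ := l
  · simp
  obtain rfl : u = v := by simpa using h4
  exact side h1 h2 hz

theorem A_sep (hz : 106 ∈ S) (h : ¬((b ≤ 100 ↔ v ≤ 100) ∧ (b = 107 ↔ v = 107))) :
    A x v b K S = 0 :=
  A_zero fun _ hl e => (h (side_Pth hl (fun h => disjoint_left.1 e (List.mem_toFinset.2 h) hz) b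
    (hd_mem hl).2)).elim

theorem from_a {l : List ℕ} (h : l ∈ Pth 107 b) (hb : b < 106) :
    106 ∈ l ∧ ∀ i ∈ l, i < 106 → (i ≤ 100 ↔ b ≤ 100) := by
  obtain ⟨h1, h2, h3, h4, h5⟩ := mem_Pth.1 h
  obtain _ | ⟨u, _ | ⟨w, _ | ⟨y, l⟩⟩⟩ := l
  · simp at h4
  · simp at h4 h5; omega
  all_goals
    obtain rfl : u = 107 := by simpa using h4
    rw [List.isChain_cons_cons] at h2
    obtain rfl : w = 106 := List.mem_singleton.1 h2.1
  · simp at h5; omega
  have := side (fun i hi => h1 i (by simp [hi])) (List.isChain_cons_cons.1 h2.2).2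
    (List.nodup_cons.1 (List.nodup_cons.1 h3).2).1
  have hb' := (this b (List.mem_of_getLast? (by simpa using h5))).1
  refine ⟨by simp, fun i hi h6 => ?_⟩
  simp only [List.mem_cons (b := 107), List.mem_cons (b := 106)] at hi
  rw [(this i ((hi.resolve_left (by omega)).resolve_left (by omega))).1, hb']

variable (x) in
/-- the weight of a pattern of passes through a cell -/
def Z : List (ℕ × ℕ) → Finset ℕ → R
  | [] => fun _ => 1
  | p :: τ => A x p.1 p.2 (Z τ)

theorem Z_perm {τ τ' : List (ℕ × ℕ)} (h : τ.Perm τ') : Z x τ = Z x τ' := by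
  induction h with
  | nil => rfl
  | cons p _ ih => rw [Z, Z, ih]
  | swap p q τ => exact funext fun S => A_comm _ _
  | trans _ _ h1 h2 => exact h1.trans h2

theorem Z_map {R' : Type} [CommSemiring R'] (φ : R →+* R') :
    ∀ (τ : List (ℕ × ℕ)) (S : Finset ℕ), φ (Z x τ S) = Z (φ x) τ S
  | [], _ => map_one φ
  | p :: τ, S => by rw [Z, A_map, funext (Z_map φ τ), Z]

theorem Z_mem {τ : List (ℕ × ℕ)} {p : ℕ × ℕ} (hp : p ∈ τ) (h : p.1 ∈ S ∨ p.2 ∈ S) :
    Z x τ S = 0 := by
  rw [Z_perm (List.perm_cons_erase hp)]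
  exact A_mem h

end Pool.Agent.Lib.MP_820104_pr.Tb
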