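import Pool.Agent.Lib.MP_820104_pr.Free

/-! Planarity of free powers of the square lattice through two page book embeddings. -/

noncomputable section

namespace Pool.Agent.Lib.MP_820104_pr

open Finset Filter Monoid CoprodI
open scoped Classical

variable {G : Type} [Group G] {S : Finset G} {k : ℕ}

/-- two page book embeddings along a linear order -/
def Book (S : Finset G) {α : Type} [LinearOrder α] (o : G → α) (pg : G → G → Prop) : Prop :=
  Function.Injective o ∧ (∀ a b, pg a b → pg b a) ∧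
    ∀ a b c d, a⁻¹ * b ∈ S → c⁻¹ * d ∈ S → (pg a b ↔ pg c d) → o a < o c → o c < o b →
      ¬o b < o d

theorem Book.planar {α : Type} [LinearOrder α] [Countable α] {o : G → α} {pg : G → G → Prop}
    (h : Book S o pg) (h1 : 1 ∉ S) (hS : ∀ s ∈ S, s⁻¹ ∈ S) : Planar S := by
  obtain ⟨e⟩ := Order.embedding_from_countable_to_dense α ℝ
  obtain ⟨i, sy, nc⟩ := h
  let x : G → ℝ := fun g => e (o g)
  have xi : Function.Injective x := e.injective.comp i
  have sy' : ∀ a b, pg a b ↔ pg b a := fun a b => ⟨sy a b, sy b a⟩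
  have ad : ∀ {a b : G}, a⁻¹ * b ∈ S → b⁻¹ * a ∈ S := fun h => by simpa using hS _ h
  have ne : ∀ {a b : G}, a⁻¹ * b ∈ S → x b - x a ≠ 0 := fun {a b} h e => by
    rw [xi (sub_eq_zero.1 e), inv_mul_cancel] at h
    exact h1 h
  let ε : G → G → ℝ := fun a b => if pg a b then 1 else -1
  have key : ∀ a b c d, a⁻¹ * b ∈ S → c⁻¹ * d ∈ S → (pg a b ↔ pg c d) → ∀ y, x a < y → y < x b →
      x c < y → y < x d → (y - x a) * (x b - y) = (y - x c) * (x d - y) → a = c ∧ b = d := by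
    have k1 : ∀ a b c d, a⁻¹ * b ∈ S → c⁻¹ * d ∈ S → (pg a b ↔ pg c d) → ∀ y, x a < y → y < x b →
        x c < y → y < x d → (y - x a) * (x b - y) = (y - x c) * (x d - y) → ¬x a < x c :=
      fun a b c d h2 h3 h4 y a1 a2 a3 a4 a5 a6 => nc a b c d h2 h3 h4 (e.lt_iff_lt.1 a6)
        (e.lt_iff_lt.1 (a3.trans a2)) (e.lt_iff_lt.1 (show x b < x d by nlinarith))
    intro a b c d h2 h3 h4 y a1 a2 a3 a4 a5
    obtain rfl := xi (le_antisymm (not_lt.1 (k1 c d a b h3 h2 h4.symm y a3 a4 a1 a2 a5.symm))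
      (not_lt.1 (k1 a b c d h2 h3 h4 y a1 a2 a3 a4 a5)))
    exact ⟨rfl, xi (by linarith [mul_left_cancel₀ (sub_pos.2 a1).ne' a5])⟩
  have pos : ∀ {a b : G}, a⁻¹ * b ∈ S → ∀ t ∈ Set.Ioo (0 : ℝ) 1,
      0 < t * (x b - x a) * ((1 - t) * (x b - x a)) := fun {a b} h t ht => by
    have := mul_pos (mul_pos ht.1 (sub_pos.2 ht.2)) (mul_self_pos.2 (ne h))
    linarith
  refine ⟨fun g => x g, Complex.ofReal_injective.comp xi, fun a b t =>
    (x a + t * (x b - x a) : ℝ) + (ε a b * (t * (x b - x a) * ((1 - t) * (x b - x a))) : ℝ) *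
      Complex.I, fun a b h => ⟨by fun_prop, fun s _ t _ e => ?_, by simp, by simp, ?_⟩,
    fun a b c d h2 h3 h4 h5 => Set.disjoint_left.2 ?_⟩
  · have := congrArg Complex.re e
    simp only [Complex.add_re, Complex.ofReal_re, Complex.mul_re, Complex.I_re, mul_zero,
      Complex.ofReal_im, Complex.I_im, sub_self, add_zero, add_right_inj, mul_one] at this
    exact mul_right_cancel₀ (ne h) this
  · rintro y ⟨t, ht, e⟩
    have := congrArg Complex.im e
    simp only [Complex.add_im, Complex.ofReal_im, Complex.mul_im, Complex.ofReal_re, Complex.I_im,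
      mul_one, Complex.I_re, mul_zero, add_zero, zero_add] at this
    exact mul_ne_zero (by simp only [ε]; split_ifs <;> norm_num) (pos h t ht).ne' this
  · rintro _ ⟨t, ht, rfl⟩ ⟨s, hs, e⟩
    have e1 := congrArg Complex.re e
    have e2 := congrArg Complex.im e
    simp only [Complex.add_re, Complex.ofReal_re, Complex.mul_re, Complex.I_re, mul_zero,
      Complex.ofReal_im, Complex.I_im, sub_self, add_zero, mul_one, Complex.add_im, Complex.mul_im,
      zero_add] at e1 e2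
    have p1 := pos h2 t ht
    have p2 := pos h3 s hs
    have h6 : (pg a b ↔ pg c d) ∧ t * (x b - x a) * ((1 - t) * (x b - x a)) =
        s * (x d - x c) * ((1 - s) * (x d - x c)) := by
      simp only [ε] at e2
      split_ifs at e2 with c1 c2 c2
      · exact ⟨iff_of_true c2 c1, by linarith⟩
      · exact absurd e2 (by linarith)
      · exact absurd e2 (by linarith)
      · exact ⟨iff_of_false c2 c1, by linarith⟩
    obtain ⟨y, hy⟩ : ∃ y, y = x a + t * (x b - x a) := ⟨_, rfl⟩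
    have q1 : t * (x b - x a) = y - x a := by linarith
    have q2 : (1 - t) * (x b - x a) = x b - y := by linarith
    have q3 : s * (x d - x c) = y - x c := by linarith
    have q4 : (1 - s) * (x d - x c) = x d - y := by linarith
    rw [q1, q2, q3, q4] at h6
    rw [q1, q2] at p1
    rw [q3, q4] at p2
    rcases mul_pos_iff.1 p1 with p1 | p1 <;> rcases mul_pos_iff.1 p2 with p2 | p2
    · exact h4 (key a b c d h2 h3 h6.1 y (by linarith) (by linarith) (by linarith) (by linarith)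
        h6.2)
    · exact h5 (key a b d c h2 (ad h3) (h6.1.trans (sy' _ _)) y (by linarith) (by linarith)
        (by linarith) (by linarith) (by linarith))
    · exact h5 (key b a c d (ad h2) h3 ((sy' _ _).trans h6.1) y (by linarith) (by linarith)
        (by linarith) (by linarith) (by linarith)).symm
    · exact h4 (key b a d c (ad h2) (ad h3) ((sy' _ _).trans (h6.1.trans (sy' _ _))) y
        (by linarith) (by linarith) (by linarith) (by linarith) (by linarith)).symm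

section Lex

variable {β : Type} [LinearOrder β]

theorem le_of_pre {w x : List β} (h : w <+: x) : w ≤ x := by
  obtain ⟨t, rfl⟩ := h
  refine not_lt.1 ?_
  induction w with
  | nil => exact List.not_lt_nil _
  | cons a w ih => simpa [List.cons_lt_cons_iff] using ih

theorem pre_of_between {w y z : List β} (h : w ≤ y) (h' : y ≤ z) (hz : w <+: z) : w <+: y := by
  obtain ⟨t, rfl⟩ := hz
  replace h := h.not_gt
  replace h' := h'.not_gt
  induction w generalizing y with
  | nil => exact List.nil_prefix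
  | cons a w ih =>
    cases y with
    | nil => exact absurd (List.nil_lt_cons _ _) h
    | cons b y =>
      rw [List.cons_append] at h'
      rw [List.cons_lt_cons_iff, not_or] at h h'
      obtain rfl := le_antisymm (not_lt.1 h.1) (not_lt.1 h'.1)
      exact List.cons_prefix_cons.2 ⟨rfl, ih (fun e => h.2 ⟨rfl, e⟩) fun e => h'.2 ⟨rfl, e⟩⟩

theorem app_lt {w : List β} {a b : β} : w ++ [a] < w ++ [b] ↔ a < b := by
  induction w with
  | nil => simp [List.cons_lt_cons_iff]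
  | cons c w ih => simp [ih]

end Lex

/-- the reversed normal form -/
def nf {α : Type} (o : G → α) (x : FP G k) : List (Fin k ×ₗ α) :=
  ((Word.equiv x).toList.map fun s => toLex (s.1, o s.2⁻¹)).reverse

theorem nf_mul {α : Type} (o : G → α) {j : Fin k} {a : G} {b : FP G k} (ha : a ≠ 1)
    (hb : fi b ≠ some j) : nf o (inc j a⁻¹ * b) = nf o b ++ [toLex (j, o a)] := by
  have e : Word.equiv (inc j a⁻¹ * b) = Word.cons a⁻¹ (Word.equiv b) hb (inv_ne_one.2 ha) :=
    (mul_smul _ _ _).trans Word.cons_eq_smul.symm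
  rw [nf, e]
  simp [nf, Word.cons]

theorem pair_ex (j : Fin k) (x : FP G k) : ∃ a b, fi b ≠ some j ∧ x = inc j a⁻¹ * b := by
  let p := Word.equivPair j (Word.equiv x)
  refine ⟨p.head⁻¹, p.tail.prod, ?_, ?_⟩
  · rw [fi, show Word.equiv p.tail.prod = p.tail from Word.equiv.apply_symm_apply _]
    exact p.fstIdx_ne
  · rw [inv_inv, ← Word.prod_rcons, ← Word.equivPair_symm, Equiv.symm_apply_apply]
    exact (Word.equiv.symm_apply_apply x).symm

theorem edge_ex {g h : FP G k} (e : g⁻¹ * h ∈ gens k S) : ∃ j a a' b, fi b ≠ some j ∧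
    a⁻¹ * a' ∈ S ∧ g⁻¹ = inc j a⁻¹ * b ∧ h⁻¹ = inc j a'⁻¹ * b := by
  obtain ⟨j, s, hs, e⟩ := mem_gens.1 e
  obtain ⟨a, b, h1, h2⟩ := pair_ex j g⁻¹
  refine ⟨j, a, a * s, b, h1, by simpa, h2, ?_⟩
  rw [mul_inv_rev, map_mul, mul_assoc, ← h2, map_inv, e]
  simp

theorem Book.free {α : Type} [LinearOrder α] {o : G → α} {pg : G → G → Prop} (h : Book S o pg)
    (h1 : 1 ∉ S) (h0 : ∀ a, o 1 ≤ o a) : Book (gens k S) (fun g => nf o g⁻¹)
      fun g h => ∃ j a a' b, fi b ≠ some j ∧ g⁻¹ = inc j a⁻¹ * b ∧ h⁻¹ = inc j a'⁻¹ * b ∧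
        pg a a' := by
  obtain ⟨i, sy, nc⟩ := h
  have ni : Function.Injective (nf o : FP G k → _) := fun x y e => by
    refine Word.equiv.injective (Word.ext (List.map_injective_iff.2 ?_ (List.reverse_injective e)))
    rintro ⟨j, a⟩ ⟨j', a'⟩ e
    obtain ⟨rfl, e⟩ := Prod.mk.inj (toLex.injective e)
    exact congrArg _ (inv_injective (i e))
  have pre : ∀ {j a} {b : FP G k}, fi b ≠ some j → nf o b <+: nf o (inc j a⁻¹ * b) :=
    fun {j a b} hb => by
    by_cases ha : a = 1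
    · simp [ha]
    · rw [nf_mul o ha hb]; exact List.prefix_append _ _
  have pre' : ∀ {j a} {b : FP G k} {w}, fi b ≠ some j → w <+: nf o (inc j a⁻¹ * b) →
      w <+: nf o b ∨ w = nf o (inc j a⁻¹ * b) := fun {j a b w} hb hw => by
    by_cases ha : a = 1
    · exact Or.inl (by simpa [ha] using hw)
    · rw [nf_mul o ha hb] at hw ⊢
      exact (List.prefix_concat_iff.1 hw).symm
  have lt : ∀ {j j' a a'} {b : FP G k}, fi b ≠ some j → fi b ≠ some j' →
      nf o (inc j a⁻¹ * b) < nf o (inc j' a'⁻¹ * b) →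
      a' ≠ 1 ∧ (a ≠ 1 → j ≤ j') ∧ (j = j' → o a < o a') := fun {j j' a a' b} hb hb' hl => by
    have h2 : a' ≠ 1 := fun e => hl.not_ge (by simpa [e] using le_of_pre (pre hb))
    by_cases ha : a = 1
    · exact ⟨h2, fun e => absurd ha e, fun _ => ha ▸ (h0 a').lt_of_ne fun e => h2 (i e).symm⟩
    rw [nf_mul o ha hb, nf_mul o h2 hb', app_lt, Prod.Lex.toLex_lt_toLex] at hl
    exact ⟨h2, fun _ => hl.elim le_of_lt fun h => h.1.le, fun e => (hl.resolve_left e.not_lt).2⟩
  have pgi : ∀ {j a a'} {b g h : FP G k}, fi b ≠ some j → a⁻¹ * a' ∈ S → g⁻¹ = inc j a⁻¹ * b →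
      h⁻¹ = inc j a'⁻¹ * b → ((∃ j a a' b, fi b ≠ some j ∧ g⁻¹ = inc j a⁻¹ * b ∧
        h⁻¹ = inc j a'⁻¹ * b ∧ pg a a') ↔ pg a a') := fun {j a a' b g h} hb hs e1 e2 => by
    refine ⟨?_, fun hp => ⟨j, a, a', b, hb, e1, e2, hp⟩⟩
    rintro ⟨j', c, c', b', hb', e3, e4, hp⟩
    have ne : a⁻¹ * a' ≠ 1 := fun e => h1 (e ▸ hs)
    have e5 : inc j (a⁻¹ * a') = inc j' (c⁻¹ * c') := by
      have f1 : g⁻¹ * h = inc j (a⁻¹ * a') := by
        rw [← inv_inv h, e1, e2]; simp [mul_assoc]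
      have f2 : g⁻¹ * h = inc j' (c⁻¹ * c') := by
        rw [← inv_inv h, e3, e4]; simp [mul_assoc]
      exact f1.symm.trans f2
    obtain rfl : j = j' := by
      have ne' : c⁻¹ * c' ≠ 1 := fun e => ne (of_injective j (a₂ := 1) (e5.trans (by rw [e, map_one, map_one])))
      exact Option.some.inj ((fi_inc ne).symm.trans ((congrArg fi e5).trans (fi_inc ne')))
    rw [inv_injective (pair_inj hb hb' (e1.symm.trans e3)).1,
      inv_injective (pair_inj hb hb' (e2.symm.trans e4)).1]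
    exact hp
  refine ⟨ni.comp inv_injective, fun g h ⟨j, a, a', b, h2, h3, h4, h5⟩ =>
    ⟨j, a', a, b, h2, h4, h3, sy _ _ h5⟩, fun x y z w e e' hp l1 l2 l3 => ?_⟩
  obtain ⟨j, a, a', b, hb, s1, x1, y1⟩ := edge_ex e
  obtain ⟨j', c, c', b', hb', s2, z1, w1⟩ := edge_ex e'
  replace hp := (pgi hb s1 x1 y1).symm.trans (hp.trans (pgi hb' s2 z1 w1))
  simp only [x1, y1, z1, w1] at l1 l2 l3
  have p1 := pre_of_between ((le_of_pre (pre hb')).trans l2.le) l3.le (pre hb')
  have p2 := pre_of_between ((le_of_pre (pre hb)).trans l1.le) l2.le (pre hb)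
  have p3 := (pre' hb p1).resolve_right fun e => l2.not_ge (e ▸ le_of_pre (pre hb'))
  have p4 := (pre' hb' p2).resolve_right fun e => l1.not_ge (e ▸ le_of_pre (pre hb))
  obtain rfl := ni ((le_of_pre p4).antisymm (le_of_pre p3))
  obtain ⟨a1, -, a2⟩ := lt hb hb' l1
  obtain ⟨a3, a4, a5⟩ := lt hb' hb l2
  obtain ⟨-, a6, a7⟩ := lt hb hb' l3
  obtain rfl := (a6 a3).antisymm (a4 a1)
  exact nc a a' c c' s1 s2 hp (a2 rfl) (a5 rfl) (a7 rfl)

theorem mem_sq {a : Multiplicative (ℤ × ℤ)} : a ∈ sqGen ↔ a.toAdd.1 = 1 ∧ a.toAdd.2 = 0 ∨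
    a.toAdd.1 = -1 ∧ a.toAdd.2 = 0 ∨ a.toAdd.1 = 0 ∧ a.toAdd.2 = 1 ∨
      a.toAdd.1 = 0 ∧ a.toAdd.2 = -1 := by
  simp only [sqGen, mem_insert, mem_singleton, ← Multiplicative.toAdd.injective.eq_iff,
    toAdd_ofAdd, Prod.ext_iff]

theorem one_sq : 1 ∉ sqGen := by simp [mem_sq]

theorem Book.rot {α : Type} [LinearOrder α] {o : G → α} {pg : G → G → Prop} (h : Book S o pg)
    (hS : ∀ s ∈ S, s⁻¹ ∈ S) :
    Book S (fun a => (toLex (if o a < o 1 then 1 else 0, o a) : ℕ ×ₗ α)) pg := by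
  obtain ⟨i, sy, nc⟩ := h
  have sy' : ∀ a b, pg a b ↔ pg b a := fun a b => ⟨sy a b, sy b a⟩
  have ad : ∀ {a b : G}, a⁻¹ * b ∈ S → b⁻¹ * a ∈ S := fun h => by simpa using hS _ h
  refine ⟨fun a b e => i (congrArg (fun x => (ofLex x).2) e), sy, fun a b c d h1 h2 hp => ?_⟩
  have n1 := nc a b c d h1 h2 hp
  have n2 := nc c d b a h2 (ad h1) (hp.symm.trans (sy' _ _))
  have n3 := nc b a d c (ad h1) (ad h2) ((sy' _ _).trans (hp.trans (sy' _ _)))
  have n4 := nc d c a b (ad h2) h1 ((sy' _ _).trans hp.symm)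
  simp only [Prod.Lex.toLex_lt_toLex]
  intro l1 l2 l3
  split_ifs at l1 l2 l3 <;> simp only [lt_irrefl, false_or, true_and, zero_lt_one, true_or,
    not_lt_zero, false_and, or_self] at l1 l2 l3
  · exact n1 l1 l2 l3
  · exact n2 l2 l3 (by order)
  · exact n3 l3 (by order) l1
  · exact n4 (by order) l1 l2
  · exact n1 l1 l2 l3

theorem inv_sq : ∀ s ∈ sqGen, s⁻¹ ∈ sqGen := fun s h1 => by
  simp only [mem_sq, toAdd_inv, Prod.fst_neg, Prod.snd_neg] at h1 ⊢
  omega

theorem book_sq : Book sqGen (fun a => (toLex (a.toAdd.2,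
    if a.toAdd.2 % 2 = 0 then a.toAdd.1 else -a.toAdd.1) : ℤ ×ₗ ℤ))
    fun a b => min a.toAdd.2 b.toAdd.2 % 2 = 0 := by
  refine ⟨fun a b e => ?_, fun a b h => by beta_reduce; rwa [min_comm], fun a b c d h1 h2 => ?_⟩
  · simp only [toLex_inj, Prod.mk.injEq] at e
    refine Multiplicative.toAdd.injective (Prod.ext ?_ e.1)
    omega
  · simp only [mem_sq, toAdd_mul, toAdd_inv, Prod.fst_add, Prod.fst_neg, Prod.snd_add,
      Prod.snd_neg] at h1 h2
    simp only [Prod.Lex.toLex_lt_toLex]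
    rcases h1 with h1 | h1 | h1 | h1 <;> rcases h2 with h2 | h2 | h2 | h2 <;> omega

theorem rot_le {α : Type} [LinearOrder α] (x y : α) :
    (toLex (if x < x then 1 else 0, x) : ℕ ×ₗ α) ≤ toLex (if y < x then 1 else 0, y) := by
  rw [Prod.Lex.toLex_le_toLex, if_neg (lt_irrefl x)]
  split_ifs with h
  · exact Or.inl zero_lt_one
  · exact Or.inr ⟨rfl, not_lt.1 h⟩

theorem one_gens (h1 : 1 ∉ S) : 1 ∉ gens k S := fun h => by
  obtain ⟨j, s, h2, h3⟩ := mem_gens.1 h
  exact h1 (of_injective j (h3.trans (map_one _).symm) ▸ h2)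

theorem inv_gens (hS : ∀ s ∈ S, s⁻¹ ∈ S) : ∀ s ∈ gens k S, s⁻¹ ∈ gens k S := fun s h => by
  obtain ⟨j, s, h1, rfl⟩ := mem_gens.1 h
  exact mem_gens.2 ⟨j, s⁻¹, hS s h1, map_inv _ _⟩

theorem closure_gens (hS : Subgroup.closure (S : Set G) = ⊤) :
    Subgroup.closure (gens k S : Set (FP G k)) = ⊤ := by
  refine eq_top_iff.2 fun x _ => induction_on x (one_mem _) (fun j a => ?_) fun _ _ => mul_mem
  have h : Subgroup.closure (S : Set G) ≤ (Subgroup.closure (gens k S : Set (FP G k))).comap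
      (inc j) := (Subgroup.closure_le _).2 fun s hs =>
    Subgroup.subset_closure (mem_gens.2 ⟨j, s, hs, rfl⟩)
  exact h (hS ▸ Subgroup.mem_top a)

theorem closure_sq : Subgroup.closure (sqGen : Set (Multiplicative (ℤ × ℤ))) = ⊤ := by
  refine eq_top_iff.2 fun x _ => ?_
  have e : x = Multiplicative.ofAdd (1, 0) ^ x.toAdd.1 * Multiplicative.ofAdd (0, 1) ^ x.toAdd.2 :=
    Multiplicative.toAdd.injective (by simp)
  rw [e]
  exact mul_mem (zpow_mem (Subgroup.subset_closure (by simp [sqGen])) _)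
    (zpow_mem (Subgroup.subset_closure (by simp [sqGen])) _)

theorem planar_sq (k : ℕ) : Planar (gens k sqGen) := by
  have : Countable (Fin k ×ₗ ℕ ×ₗ ℤ ×ₗ ℤ) := inferInstanceAs (Countable (Fin k × ℕ × ℤ × ℤ))
  exact ((book_sq.rot inv_sq).free one_sq fun a => rot_le _ _).planar (one_gens one_sq)
    (inv_gens inv_sq)

end Pool.Agent.Lib.MP_820104_pr
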