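import Pool.Agent.Lib.MP_820104_pr.Ifc

/-! Walks in the block that avoid a visited set, and their depth first recursion. -/

noncomputable section

namespace Pool.Agent.Lib.MP_820104_pr.Tb

open Finset Polynomial
open scoped Classical

theorem skSum_Ls {α M : Type} [AddCommMonoid M] (S : Finset α) (n : ℕ) (f : List α → M) :
    ∑ l ∈ Ls S (n + 1), f l = ∑ d ∈ S, ∑ u ∈ Ls S n, f (d :: u) := by
  rw [← sum_product']
  symm
  refine sum_bij (fun p _ => p.1 :: p.2) (fun p hp => ?_) (fun p _ q _ e => ?_) (fun l hl => ?_)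
    fun _ _ => rfl
  · simp only [mem_product, mem_Ls] at hp ⊢
    exact ⟨by simp [hp.2.1], List.forall_mem_cons.2 ⟨hp.1, hp.2.2⟩⟩
  · exact Prod.ext (List.cons.inj e).1 (List.cons.inj e).2
  · obtain ⟨h1, h2⟩ := mem_Ls.1 hl
    obtain _ | ⟨d, u⟩ := l
    · simp at h1
    rw [List.forall_mem_cons] at h2
    exact ⟨(d, u), mem_product.2 ⟨h2.1, mem_Ls.2 ⟨by simpa using h1, h2.2⟩⟩, rfl⟩

theorem skSum_DD {M : Type} [AddCommMonoid M] {i : ℕ} (hi : i < 108) (f : Ar Kl → M) :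
    ∑ d ∈ DD, (if d.1 = i then f d else 0) = ((ar i).map fun p => f (i, p)).sum := by
  rw [← List.sum_toFinset _ (ar_ok i hi).1, ← sum_filter]
  symm
  refine sum_bij (fun p _ => (i, p)) (fun p hp => ?_) (fun p _ q _ e => (Prod.mk.inj e).2)
    (fun d hd => ?_) fun _ _ => rfl
  · exact mem_filter.2 ⟨mem_DD.2 ⟨hi, List.mem_toFinset.1 hp⟩, rfl⟩
  · obtain ⟨h, rfl⟩ := mem_filter.1 hd
    exact ⟨d.2, List.mem_toFinset.2 (mem_DD.1 h).2, rfl⟩

theorem skDvd_list {ι R : Type} [CommRing R] {c : R} {f g : ι → R} : ∀ {l : List ι},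
    (∀ w ∈ l, c ∣ f w - g w) → c ∣ (l.map f).sum - (l.map g).sum
  | [], _ => by simp
  | w :: l, h => by
    rw [List.forall_mem_cons] at h
    rw [List.map_cons, List.map_cons, List.sum_cons, List.sum_cons, add_sub_add_comm]
    exact dvd_add h.1 (skDvd_list h.2)

/-- mark a vertex as visited -/
def skIns (U : Kl → Finset ℕ) (v : Kl × ℕ) : Kl → Finset ℕ :=
  Function.update U v.1 (insert v.2 (U v.1))

theorem mem_skIns {U : Kl → Finset ℕ} {v w : Kl × ℕ} :
    w.2 ∈ skIns U v w.1 ↔ w = v ∨ w.2 ∈ U w.1 := by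
  unfold skIns
  by_cases e : w.1 = v.1
  · rw [e, Function.update_self, mem_insert, Prod.ext_iff, and_iff_right e]
  · rw [Function.update_of_ne e, or_iff_right fun h => e (congrArg _ h)]

/-- self-avoiding lists of arrows from `v` that avoid `U` -/
def SkOk : (Kl → Finset ℕ) → Kl × ℕ → List (Ar Kl) → Prop
  | U, v, [] => v.2 ∉ U v.1
  | U, v, d :: u => v.2 ∉ U v.1 ∧ d.1 = v.2 ∧ SkOk (skIns U v) (v.1 * d.2.1, d.2.2) u

/-- the last vertex -/
def skLa (v : Kl × ℕ) (u : List (Ar Kl)) : Kl × ℕ := (v.1 * lp u, tg v.2 u)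

theorem skLa_nil (v : Kl × ℕ) : skLa v [] = v := Prod.ext (mul_one _) rfl

theorem skLa_cons (v : Kl × ℕ) (d : Ar Kl) (u : List (Ar Kl)) :
    skLa v (d :: u) = skLa (v.1 * d.2.1, d.2.2) u := Prod.ext (mul_assoc _ _ _).symm rfl

/-- the vertices of a walk -/
def skVs (v : Kl × ℕ) (u : List (Ar Kl)) : List (Kl × ℕ) :=
  (List.range (u.length + 1)).map fun j => skLa v (u.take j)

theorem skVs_cons (v : Kl × ℕ) (d : Ar Kl) (u : List (Ar Kl)) :
    skVs v (d :: u) = v :: skVs (v.1 * d.2.1, d.2.2) u := by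
  rw [skVs, List.length_cons, List.range_succ_eq_map, List.map_cons, List.map_map, List.take_zero,
    skLa_nil]
  exact congrArg _ (List.map_congr_left fun j _ => skLa_cons _ _ _)

theorem skOk_iff : ∀ {u : List (Ar Kl)} {U : Kl → Finset ℕ} {v : Kl × ℕ}, SkOk U v u ↔
    Cmp v.2 u ∧ (skVs v u).Nodup ∧ ∀ w ∈ skVs v u, w.2 ∉ U w.1
  | [], U, v => by simp [SkOk, Cmp, skVs, skLa_nil]
  | d :: u, U, v => by
    rw [SkOk, skOk_iff, Cmp, skVs_cons, List.nodup_cons, List.forall_mem_cons]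
    simp only [mem_skIns, not_or]
    exact ⟨fun ⟨a, b, c, e, f⟩ => ⟨⟨b, c⟩, ⟨fun h => (f _ h).1 rfl, e⟩, a, fun w h => (f w h).2⟩,
      fun ⟨⟨b, c⟩, ⟨g, e⟩, a, f⟩ => ⟨a, b, c, e, fun w h => ⟨fun q => g (q ▸ h), f w h⟩⟩⟩

theorem skNT_iff {a : ℕ} {u : List (Ar Kl)} (hc : Cmp a u) :
    NT (u.map ia) ↔ (skVs (1, a) u).Nodup := by
  have ct : ∀ i, Cmp a (u.take i) := fun i =>
    (cmp_app.1.1 (by rwa [List.take_append_drop i u])).1
  have key : ∀ i j, ((u.map ia).take i).prod = ((u.map ia).take j).prod ↔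
      skLa (1, a) (u.take i) = skLa (1, a) (u.take j) := fun i j => by
    rw [← List.map_take, ← List.map_take, prod_ia (ct _), prod_ia (ct _), skLa, skLa, one_mul,
      one_mul, Prod.mk.injEq]
    refine ⟨fun e => ?_, fun e => by rw [e.1, e.2]⟩
    have := pair_inj (x := 1) (x' := 1) (by simp [fi_one]) (by simp [fi_one]) (congrArg (· * 1) e)
    exact ⟨this.1, this.2.1⟩
  rw [NT_iff, skVs, List.nodup_map_iff_inj_on List.nodup_range]
  simp only [ne_eq, key, List.length_map, List.mem_range, Nat.lt_succ_iff]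
  refine ⟨fun h i hi j hj e => ?_, fun h i j ij hj e => ij.ne (h i (by omega) j hj e)⟩
  rcases lt_trichotomy i j with q | q | q
  exacts [(h i j q hj e).elim, q, (h j i q hi e.symm).elim]

/-- the series of the walks from `v` that avoid `U` -/
def skF (ψ : Kl × ℕ → ZMod 3) (U : Kl → Finset ℕ) (v : Kl × ℕ) : PS :=
  PowerSeries.mk fun n => ∑ u ∈ Ls DD n, if SkOk U v u then ψ (skLa v u) else 0

theorem Wk_eq_skF (φ : Kl → ZMod 3) (a b : ℕ) :
    Wk φ a b = skF (fun w => if w.2 = b then φ w.1 else 0) (fun _ => ∅) (1, a) := by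
  ext n
  rw [Wk, skF, PowerSeries.coeff_mk, PowerSeries.coeff_mk, AW, sum_filter]
  refine sum_congr rfl fun u _ => ?_
  refine if_congr ?_ (by simp only [skLa, one_mul]) rfl
  rw [skOk_iff]
  exact and_congr_right fun hc => by simp [skNT_iff hc]

/-- the depth first recursion -/
def SkRec (ψ : Kl × ℕ → PS) (F : (Kl → Finset ℕ) → Kl × ℕ → PS) : Prop :=
  ∀ U v, v.2 < 108 → F U v = if v.2 ∈ U v.1 then 0 else
    ψ v + xx * ((ar v.2).map fun p => F (skIns U v) (v.1 * p.1, p.2)).sum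

theorem skF_rec (ψ : Kl × ℕ → ZMod 3) : SkRec (fun w => PowerSeries.C (ψ w)) (skF ψ) := by
  intro U v hv
  ext n
  rcases n with _ | n
  · rw [skF, PowerSeries.coeff_mk]
    split_ifs with h <;> simp [Ls, SkOk, h, skLa_nil]
  rw [skF, PowerSeries.coeff_mk, skSum_Ls]
  split_ifs with h
  · simp [SkOk, h]
  rw [map_add, PowerSeries.coeff_succ_X_mul, PowerSeries.coeff_C, if_neg n.succ_ne_zero, zero_add,
    map_list_sum, List.map_map]
  refine Eq.trans (sum_congr rfl fun d _ => ?_) (skSum_DD hv fun d =>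
    PowerSeries.coeff n (skF ψ (skIns U v) (v.1 * d.2.1, d.2.2)))
  rw [skF, PowerSeries.coeff_mk]
  split_ifs with e <;> simp [SkOk, h, e, skLa_cons]

/-- truncated depth first search with a list of visited vertices -/
def skG {R : Type} [CommSemiring R] (x : R) (y : ℕ → R) : ℕ → List (Kl × ℕ) → Kl × ℕ → R
  | 0, _, _ => 0
  | f + 1, vis, v => if v ∈ vis then 0 else
      y v.2 + x * ((ar v.2).map fun p => skG x y f (v :: vis) (v.1 * p.1, p.2)).sum

theorem skG_dvd {y : ℕ → PS} {F : (Kl → Finset ℕ) → Kl × ℕ → PS} (h : SkRec (fun w => y w.2) F) :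
    ∀ f vis U v, v.2 < 108 → (∀ w : Kl × ℕ, w ∈ vis ↔ w.2 ∈ U w.1) →
      xx ^ f ∣ F U v - skG xx y f vis v
  | 0, _, _, _, _, _ => by simp
  | f + 1, vis, U, v, hv, hU => by
    rw [h U v hv, skG, if_congr (hU v) rfl rfl]
    split_ifs
    · simp
    rw [add_sub_add_left_eq_sub, ← mul_sub, pow_succ']
    exact mul_dvd_mul_left _ (skDvd_list fun p hp => skG_dvd h f _ _ _
      ((ar_ok _ hv).2 p hp).1 fun w => by rw [mem_skIns, List.mem_cons, hU])

theorem skG_map {R R' : Type} [CommSemiring R] [CommSemiring R'] (φ : R →+* R') (x : R)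
    (y : ℕ → R) : ∀ f vis v, φ (skG x y f vis v) = skG (φ x) (fun b => φ (y b)) f vis v
  | 0, _, _ => map_zero φ
  | f + 1, vis, v => by
    rw [skG, skG]
    split_ifs
    · exact map_zero φ
    simp only [map_add, map_mul, map_list_sum, List.map_map, Function.comp_def, skG_map φ x y f]

end Pool.Agent.Lib.MP_820104_pr.Tb
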