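import Pool.Agent.Lib.MP_820104_pr.SumS

/-! The weight of the ideal trajectory. -/

noncomputable section

namespace Pool.Agent.Lib.MP_820104_pr.Tb

open Finset Polynomial

theorem sm_cell_eq (g : Kl) (σ : List Ps) (p : ℕ × ℕ) :
    cell g (σ ++ [(g, p)]) = cell g σ ++ [p] := by simp [cell, List.filter_append]

theorem sm_cell_ne {g g' : Kl} (h : g' ≠ g) (σ : List Ps) (p : ℕ × ℕ) :
    cell g (σ ++ [(g', p)]) = cell g σ := by simp [cell, List.filter_append, h]

theorem sm_ne {j k j' k' : ℤ} (h : j' ≠ j ∨ k' ≠ k) : ((j', k') : Kl) ≠ (j, k) := fun e => by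
  have h1 : j' = j := congrArg Prod.fst e
  have h2 : k' = k := congrArg Prod.snd e
  omega

theorem sm_Wt (σ : List Ps) {s : Finset Kl} (h : (σ.map (·.1)).toFinset ⊆ s) :
    Wt σ = ∏ g ∈ s, Z xx (cell g σ) ∅ := by
  refine prod_subset h fun g _ hg => ?_
  have : cell g σ = [] := by
    simp only [cell, List.map_eq_nil_iff, List.filter_eq_nil_iff, decide_eq_true_eq]
    exact fun p hp e => hg (List.mem_toFinset.2 (List.mem_map.2 ⟨p, hp, e⟩))
  rw [this]; rfl

theorem Wt_snoc {σ : List Ps} {g : Kl} {p : ℕ × ℕ} {w : PS}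
    (h : Z xx (cell g σ ++ [p]) ∅ = Z xx (cell g σ) ∅ * w) : Wt (σ ++ [(g, p)]) = Wt σ * w := by
  rw [sm_Wt σ (subset_insert g _), sm_Wt (σ ++ [(g, p)]) (s := insert g (σ.map (·.1)).toFinset)
    (fun x => by simp), ← mul_prod_erase _ _ (mem_insert_self g _),
    ← mul_prod_erase _ _ (mem_insert_self g _), sm_cell_eq, h, mul_right_comm]
  congr 2
  exact prod_congr rfl fun x hx => by rw [sm_cell_ne (ne_of_mem_erase hx).symm]

theorem Wt_nil_cell {σ : List Ps} {g : Kl} (h : cell g σ = []) (u v : ℕ) :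
    Wt (σ ++ [(g, u, v)]) = Wt σ * A xx u v one ∅ :=
  Wt_snoc (by rw [h]; exact (one_mul _).symm)

/-- one provider pass -/
def PP (τ : List (ℕ × ℕ)) : Prop := ∃ p, (p = 101 ∨ p = 104) ∧ (τ = [(p, 107)] ∨ τ = [(107, p)])

theorem Wt_pp_cell {σ : List Ps} {g : Kl} (h : PP (cell g σ)) (b : ℕ) :
    Wt (σ ++ [(g, 0, b)]) = Wt σ * A xx 0 b one {106} := by
  obtain ⟨p, hp, h⟩ := h
  have key : A xx p 107 (A xx 0 b one) ∅ = A xx p 107 one ∅ * A xx 0 b one {106} := by
    rw [← A_mul]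
    exact A_congr fun l hl => ⟨Iff.rfl, fun _ => by rw [(prov hp hl).val, one_mul]⟩
  refine Wt_snoc ?_
  rcases h with h | h <;> rw [h]
  · exact key
  · exact A_rev.trans (key.trans (congrArg (· * _) A_rev))

/-- what is known about the cells before the state `t` -/
structure SmInv (σ : List Ps) (t : St) : Prop where
  j2 : 2 ≤ t.j
  rn : t.r ≤ t.n
  lo : ∀ k : ℤ, -t.s - t.n ≤ k → k < -t.s - t.r → PP (cell (t.j - 1, k) σ)
  lo0 : ∀ k : ℤ, k < -t.s - t.n → cell (t.j - 1, k) σ = []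
  cu : ∀ k : ℤ, t.s ≤ k → k < t.s + t.r + (bif t.c then 1 else 0) → PP (cell (t.j, k) σ)
  cu0 : ∀ k : ℤ, k < t.s ∨ t.s + t.r + (bif t.c then 1 else 0) ≤ k → cell (t.j, k) σ = []
  up : ∀ j k : ℤ, t.j < j → cell (j, k) σ = []

theorem SmInv.nx {σ : List Ps} {t : St} (h : SmInv σ t) :
    SmInv (σ ++ [(t.ent.1, t.ent.2, t.ex)]) t.nx := by
  obtain ⟨j, s, n, r, c⟩ := t
  obtain ⟨h1, h2, h3, h4, h5, h6, h7⟩ := h
  cases c
  · simp only [cond_false, St.ent, St.ex, St.nx] at *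
    refine ⟨h1, h2, fun k a b => ?_, fun k a => ?_, fun k a b => ?_, fun k a => ?_,
      fun i k a => ?_⟩ <;> simp only [cond_true] at *
    · rw [sm_cell_ne (sm_ne (by omega))]; exact h3 k a b
    · rw [sm_cell_ne (sm_ne (by omega))]; exact h4 k a
    · by_cases e : k = s + r
      · subst e
        refine ⟨if r = 0 then 104 else 101, by split_ifs <;> simp, Or.inl ?_⟩
        exact (sm_cell_eq _ _ _).trans (by rw [h6 _ (by omega)]; rfl)
      · rw [sm_cell_ne (sm_ne (by omega))]; exact h5 k a (by omega)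
    · rw [sm_cell_ne (sm_ne (by omega))]; exact h6 k (by omega)
    · rw [sm_cell_ne (sm_ne (by omega))]; exact h7 i k a
  · simp only [cond_true, St.ent, St.ex, St.nx] at *
    split_ifs with e
    · refine ⟨h1, e, fun k a b => ?_, fun k a => ?_, fun k a b => ?_, fun k a => ?_,
        fun i k a => ?_⟩ <;> simp only [cond_false, Nat.cast_add, Nat.cast_one] at *
      · rw [sm_cell_ne (sm_ne (by omega))]; exact h3 k a (by omega)
      · rw [sm_cell_ne (sm_ne (by omega))]; exact h4 k a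
      · rw [sm_cell_ne (sm_ne (by omega))]; exact h5 k a (by omega)
      · rw [sm_cell_ne (sm_ne (by omega))]; exact h6 k (by omega)
      · rw [sm_cell_ne (sm_ne (by omega))]; exact h7 i k a
    · refine ⟨by simp only; omega, Nat.zero_le _, fun k a b => ?_, fun k a => ?_, fun k a b => ?_,
        fun k a => ?_, fun i k a => ?_⟩ <;>
        simp only [cond_false, Nat.cast_add, Nat.cast_one, Nat.cast_zero, add_sub_cancel_right] at *
      · rw [sm_cell_ne (sm_ne (by omega))]; exact h5 k (by omega) (by omega)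
      · rw [sm_cell_ne (sm_ne (by omega))]; exact h6 k (by omega)
      · omega
      · rw [sm_cell_ne (sm_ne (by omega))]; exact h7 _ k (by omega)
      · rw [sm_cell_ne (sm_ne (by omega))]; exact h7 i k (by omega)

theorem SmInv.last {σ : List Ps} {t : St} (h : SmInv σ t) (b : ℕ) :
    Wt (σ ++ [(t.ent.1, t.ent.2, b)]) = Wt σ * ewt t b := by
  obtain ⟨j, s, n, r, c⟩ := t
  cases c
  · exact Wt_nil_cell (h.cu0 _ (Or.inr (add_zero _).le)) _ _
  · have h2 : r ≤ n := h.rn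
    by_cases e : r < n
    · have e1 : ewt ⟨j, s, n, r, true⟩ b = A xx 0 b one {106} :=
        congrArg (A xx 0 b one) (if_pos e)
      rw [e1]
      exact Wt_pp_cell (h.lo _ (by simp only; omega) (by simp only; omega)) b
    · have e1 : ewt ⟨j, s, n, r, true⟩ b = A xx 0 b one ∅ :=
        congrArg (A xx 0 b one) (if_neg e)
      rw [e1]
      exact Wt_nil_cell (h.lo0 _ (by simp only; omega)) _ _

theorem sm_en (q : Ps) (τ : List Ps) : ∀ σ : List Ps, en (σ ++ q :: τ) = en (q :: τ)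
  | [] => rfl
  | [_] => rfl
  | _ :: p :: σ => sm_en q τ (p :: σ)

/-- the indicator of the rows far above -/
def smUp (g : Kl) : ZMod 3 := if 2 ≤ g.1 then 1 else 0

theorem sm_fw (b : ℕ) : ∀ (m : ℕ) (σ : List Ps) (t : St), SmInv σ t →
    (en (σ ++ fw m t b)).2 = b ∧ PowerSeries.C (smUp (en (σ ++ fw m t b)).1) * Wt (σ ++ fw m t b) =
      Wt σ * Wm b m t
  | 0, σ, t, h => by
    rw [fw, sm_en, h.last]
    refine ⟨rfl, ?_⟩
    change PowerSeries.C (if 2 ≤ t.ent.1.1 then 1 else 0) * _ = _ * if 2 ≤ t.ent.1.1 then _ else 0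
    split_ifs
    · rw [map_one, one_mul]
    · rw [map_zero, zero_mul, mul_zero]
  | m + 1, σ, t, h => by
    have := sm_fw b m _ _ h.nx
    rw [List.append_assoc, h.last, ewt_ex, mul_assoc] at this
    exact this

theorem sm_cons {k : ℕ} {g g' : Kl} {a b a' : ℕ} {τ : List Ps} (hb : b < 108)
    (h : ∃ p ∈ lk b, g * p.1 = g' ∧ p.2 = a') (hτ : τ ∈ Sk k (g', a')) :
    (g, a, b) :: τ ∈ Sk (k + 1) (g, a) := by
  obtain ⟨p, hp, rfl, rfl⟩ := h
  exact mem_Sk_succ.2 ⟨b, hb, p, hp, τ, hτ, rfl⟩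

theorem sm_mul (j k p q j' k' : ℤ) (h1 : j + p = j') (h2 : (if p % 2 = 0 then k else -k) + q = k') :
    (HMul.hMul (α := Kl) (β := Kl) (j, k) (p, q)) = (j', k') := Prod.ext h1 h2

theorem sm_fw_mem {b : ℕ} (hb : b < 108) : ∀ (m : ℕ) (t : St), fw m t b ∈ Sk m t.ent
  | 0, _ => mem_Sk_zero.2 ⟨b, hb, rfl⟩
  | m + 1, t => by
    have ih := sm_fw_mem hb m t.nx
    obtain ⟨j, s, n, r, c⟩ := t
    cases c
    · exact sm_cons (b := 107) (by norm_num) ⟨((-1, -1), 0), by decide,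
        sm_mul _ _ _ _ _ _ rfl (by simp only [St.nx, cond_false]; omega), rfl⟩ ih
    · by_cases e : r < n
      · have e1 : St.nx ⟨j, s, n, r, true⟩ = ⟨j, s, n, r + 1, false⟩ := if_pos e
        have e2 : St.ex ⟨j, s, n, r, true⟩ = 100 := if_pos e
        rw [fw, e2]
        refine sm_cons (by norm_num) ⟨((1, 0), 101), by decide, ?_, ?_⟩ ih <;> rw [e1]
        · exact sm_mul _ _ _ _ _ _ (by simp only; omega) (by simp only; omega)
        · rfl
      · have e1 : St.nx ⟨j, s, n, r, true⟩ = ⟨j + 1, -s - r - 1, n + 1, 0, false⟩ := if_neg e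
        have e2 : St.ex ⟨j, s, n, r, true⟩ = 92 := if_neg e
        rw [fw, e2]
        refine sm_cons (by norm_num) ⟨((2, 0), 104), by decide, ?_, ?_⟩ ih <;> rw [e1]
        · exact sm_mul _ _ _ _ _ _ (by simp only; omega) (by simp only; omega)
        · rfl

theorem sm_len : ∀ {k : ℕ} {v : Kl × ℕ} {σ : List Ps}, σ ∈ Sk k v → σ.length = k + 1
  | 0, _, _, h => by obtain ⟨b, -, rfl⟩ := mem_Sk_zero.1 h; rfl
  | k + 1, _, _, h => by
    obtain ⟨b, -, p, -, τ, h1, rfl⟩ := mem_Sk_succ.1 h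
    rw [List.length_cons, sm_len h1]

theorem sm_fw_len (b : ℕ) : ∀ (m : ℕ) (t : St), (fw m t b).length = m + 1
  | 0, _ => rfl
  | m + 1, t => by rw [fw, List.length_cons, sm_fw_len b m]

end Pool.Agent.Lib.MP_820104_pr.Tb
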