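import Pool.Agent.Lib.MP_820104_pr.Ifc

/-! The series along the ideal trajectory. -/

noncomputable section

namespace Pool.Agent.Lib.MP_820104_pr.Tb

open Finset Polynomial

theorem eq_of_dvd {f g : PS} (h : ∀ K, xx ^ K ∣ f - g) : f = g :=
  PowerSeries.ext fun k => by
    have := PowerSeries.X_pow_dvd_iff.1 (h (k + 1)) k (Nat.lt_succ_self k)
    rwa [map_sub, sub_eq_zero] at this

theorem ser_dvd {σ : Type} {P : σ → Prop} {e c Φ : σ → PS} {nx : σ → σ} {w : ℕ → σ → PS}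
    (hP : ∀ t, P t → P (nx t)) (hΦ : ∀ t, P t → Φ t = e t + xx * c t * Φ (nx t))
    (h0 : ∀ t, w 0 t = e t) (h1 : ∀ m t, w (m + 1) t = c t * w m (nx t)) :
    ∀ K t, P t → xx ^ K ∣ Φ t - ∑ m ∈ range K, xx ^ m * w m t
  | 0, _, _ => by simp
  | K + 1, t, ht => by
    have := mul_dvd_mul (dvd_mul_right xx (c t)) (ser_dvd hP hΦ h0 h1 K _ (hP t ht))
    rw [← pow_succ'] at this
    convert this using 1
    rw [hΦ t ht, sum_range_succ', h0, mul_sub, mul_sum]
    simp only [h1, pow_succ, pow_zero, one_mul]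
    rw [add_comm (e t), add_sub_add_right_eq_sub]
    exact congrArg _ (sum_congr rfl fun m _ => by ring)

theorem ser_exists {σ : Type} (e c : σ → PS) (nx : σ → σ) :
    ∃ Φ : σ → PS, ∀ t, Φ t = e t + xx * c t * Φ (nx t) := by
  let S : ℕ → σ → PS := fun K => Nat.rec (fun _ => 0) (fun _ f t => e t + xx * c t * f (nx t)) K
  have s1 : ∀ K t, xx ^ K ∣ S (K + 1) t - S K t := fun K => by
    induction K with
    | zero => simp
    | succ K ih =>
      intro t
      have := mul_dvd_mul (dvd_mul_right xx (c t)) (ih (nx t))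
      rw [← pow_succ'] at this
      convert this using 1
      change e t + xx * c t * S (K + 1) (nx t) - (e t + xx * c t * S K (nx t)) = _
      ring
  have s2 : ∀ k M t, k ≤ M → xx ^ k ∣ S M t - S k t := fun k M t h => by
    induction M, h using Nat.le_induction with
    | base => simp
    | succ M h ih => simpa using dvd_add ((pow_dvd_pow _ h).trans (s1 M t)) ih
  let Φ : σ → PS := fun t => PowerSeries.mk fun k => PowerSeries.coeff k (S (k + 1) t)
  have s3 : ∀ k t, xx ^ k ∣ Φ t - S k t := fun k t => by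
    refine PowerSeries.X_pow_dvd_iff.2 fun j hj => ?_
    have := PowerSeries.X_pow_dvd_iff.1 (s2 (j + 1) k t hj) j (by omega)
    rw [map_sub, sub_eq_zero] at this ⊢
    rw [this]
    exact PowerSeries.coeff_mk _ _
  refine ⟨Φ, fun t => eq_of_dvd fun K => ?_⟩
  have := dvd_sub ((pow_dvd_pow _ (Nat.le_succ K)).trans (s3 (K + 1) t))
    ((s3 K (nx t)).mul_left (xx * c t))
  convert this using 1
  change _ = Φ t - (e t + xx * c t * S K (nx t)) - _
  ring

/-- the weight of the next full pass -/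
def cwt (t : St) : PS := bif t.c then (if t.r < t.n then wb else -wb) else wp

/-- the weight of the next pass when it ends at type `b` -/
def ewt (t : St) (b : ℕ) : PS :=
  bif t.c then A xx 0 b one (if t.r < t.n then {106} else ∅)
  else A xx (if t.r = 0 then 104 else 101) b one ∅

theorem ewt_ex (t : St) : ewt t t.ex = cwt t := by
  obtain ⟨j, s, n, r, _ | _⟩ := t
  all_goals simp only [ewt, cwt, St.ex, cond_true, cond_false]; split_ifs
  exacts [val_f, val_d, val_D, val_e]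

/-- the weight of the ideal trajectory with `m` links when it ends far above -/
def Wm (b : ℕ) : ℕ → St → PS
  | 0, t => if 2 ≤ t.ent.1.1 then ewt t b else 0
  | m + 1, t => cwt t * Wm b m t.nx

theorem xx_po : xx ∈ Po := by rw [xx, ← ph_X]; exact ph_po X

theorem wp_po : wp ∈ Po := ph_po _

theorem wb_po : wb ∈ Po := ph_po _

theorem tt_po : tt ∈ Po := mul_mem (mul_mem (pow_mem xx_po 2) wp_po) wb_po

theorem Wt_po (σ : List Ps) : Wt σ ∈ Po := prod_mem fun _ _ => Z_po _ _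

theorem C_po (c : ZMod 3) : PowerSeries.C c ∈ Po :=
  ⟨C c, by simp [PowerSeries.algebraMap_apply']⟩

theorem ser_main : ∃ Ψ : ℕ → ℕ → PS, (∀ n b, Ψ n b = row n b - tt ^ (n + 1) * Ψ (n + 1) b) ∧
    ∀ n b s, ∃ p ∈ Po, ∀ K, xx ^ K ∣ Ψ n b + p -
      ∑ m ∈ range K, xx ^ m * Wm b m ⟨2, s, n, 0, false⟩ := by
  have h0 : ∀ b, ∃ Ψ : ℕ → PS, ∀ n, Ψ n = row n b - tt ^ (n + 1) * Ψ (n + 1) := fun b => by
    obtain ⟨Ψ, h⟩ := ser_exists (fun n => row n b) (fun n => -(xx * wp * wb * tt ^ n)) (· + 1)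
    exact ⟨Ψ, fun n => by rw [h n, pow_succ tt, tt]; ring⟩
  choose Ψ hΨ using h0
  refine ⟨fun n b => Ψ b n, fun n b => hΨ b n, fun n b s => ?_⟩
  let G : ℤ → ℕ → ℕ → PS := fun j n r =>
    if j = 2 then 0 else A xx 0 b one (if r < n then {106} else ∅)
  let q : ℤ → ℕ → ℕ → PS := fun j n r =>
    A xx (if r = 0 then 104 else 101) b one ∅ + xx * wp * G j n r
  let F : ℤ → ℕ → ℕ → PS := fun j n r =>
    ∑ i ∈ range (n + 1 - r), tt ^ i * q j n (r + i) - tt ^ (n + 1 - r) * Ψ b (n + 1)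
  have f1 : ∀ j n r, r ≤ n → F j n r = q j n r + tt * F j n (r + 1) := fun j n r h => by
    simp only [F, show n + 1 - r = n - r + 1 by omega, show n + 1 - (r + 1) = n - r by omega]
    rw [sum_range_succ', mul_sub, mul_sum, pow_zero, one_mul, add_zero, add_comm, add_sub_assoc,
      pow_succ', mul_assoc]
    congr 2
    exact sum_congr rfl fun i _ => by rw [pow_succ', mul_assoc, add_right_comm, add_assoc]
  have f2 : ∀ j n, j ≠ 2 → F j n 0 = Ψ b n := fun j n h => by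
    rw [hΨ b n]; simp only [F, q, G, if_neg h, row, Nat.sub_zero, zero_add]
  have f3 : ∀ j n, F j n (n + 1) = -Ψ b (n + 1) := fun j n => by simp [F]
  have key := ser_dvd (P := fun t : St => 2 ≤ t.j ∧ t.r ≤ t.n) (nx := St.nx) (c := cwt)
    (Φ := fun t => bif t.c then G t.j t.n t.r + xx * wb * F t.j t.n (t.r + 1) else F t.j t.n t.r)
    (w := Wm b) (e := Wm b 0) ?_ ?_ (fun _ => rfl) fun _ _ => rfl
  · refine ⟨F 2 n 0 - Ψ b n, ?_, fun K => ?_⟩
    · rw [hΨ b n]
      simp only [F, Nat.sub_zero, sub_sub_sub_cancel_right, q, G, if_true, row]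
      refine sub_mem (sum_mem fun i _ => mul_mem (pow_mem tt_po _) ?_)
        (sum_mem fun i _ => mul_mem (pow_mem tt_po _) ?_)
      · exact add_mem (A_po _ _ _) (mul_mem (mul_mem xx_po wp_po) (zero_mem _))
      · exact add_mem (A_po _ _ _) (mul_mem (mul_mem xx_po wp_po) (A_po _ _ _))
    · rw [add_sub_cancel]
      exact key K ⟨2, s, n, 0, false⟩ ⟨le_rfl, Nat.zero_le _⟩
  · rintro ⟨j, s, n, r, _ | _⟩ h
    · exact h
    · simp only [St.nx, cond_true] at h ⊢
      split_ifs <;> simp only [] <;> omega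
  · rintro ⟨j, s, n, r, _ | _⟩ ⟨h1, h2⟩
    · simp only [St.nx, cond_false, cond_true, Wm, St.ent, ewt, cwt] at h1 h2 ⊢
      rw [if_pos h1, f1 j n r h2, tt]
      simp only [q]
      ring
    · simp only [St.nx, cond_true, Wm, St.ent, ewt, cwt] at h1 h2 ⊢
      have e : (if 2 ≤ j - 1 then A xx 0 b one (if r < n then {106} else ∅) else 0) = G j n r := by
        simp only [G]
        split_ifs <;> first | rfl | omega
      rw [e]
      split_ifs with h
      · rfl
      · obtain rfl : r = n := by omega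
        simp only [cond_false]
        rw [f3, f2 _ _ (by omega)]
        ring

theorem cell_nil {g : Kl} {σ : List Ps} (h : g ∉ σ.map (·.1)) : cell g σ = [] := by
  rw [cell, List.map_eq_nil_iff, List.filter_eq_nil_iff]
  exact fun p hp e => h (List.mem_map.2 ⟨p, hp, of_decide_eq_true e⟩)

theorem Wt_eq {σ : List Ps} {T : Finset Kl} (h : ∀ p ∈ σ, p.1 ∈ T) :
    Wt σ = ∏ g ∈ T, Z xx (cell g σ) ∅ :=
  prod_subset (fun g hg => by
    obtain ⟨p, hp, rfl⟩ := List.mem_map.1 (List.mem_toFinset.1 hg)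
    exact h p hp) fun g _ hg => by rw [cell_nil (mt List.mem_toFinset.2 hg)]; rfl

theorem Wt_ini (l : Fin 3) (d : Bool) (a : ℕ) : Wt (ini l d a) =
    Z xx (cell (0, 0) (ini l d a)) ∅ * (Z xx (cell (-1, -1) (ini l d a)) ∅ *
      (Z xx (cell (1, -1) (ini l d a)) ∅ * (Z xx (cell (1, 0) (ini l d a)) ∅ *
        Z xx (cell (0, -1) (ini l d a)) ∅))) := by
  let L : List Kl := [(0, 0), (-1, -1), (1, -1), (1, 0), (0, -1)]
  rw [Wt_eq (T := L.toFinset), List.prod_toFinset _ (by decide)]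
  · exact congrArg _ (congrArg _ (congrArg _ (congrArg _ (mul_one _))))
  have : ∀ g ∈ (ini l d 0).map (·.1), g ∈ L.toFinset := by
    revert l d; decide
  have e : (ini l d a).map (·.1) = (ini l d 0).map (·.1) := by
    fin_cases l <;> cases d <;> rfl
  exact fun p hp => this _ (e ▸ List.mem_map_of_mem hp)

theorem ini_sum (a : ℕ) (Ψ : ℕ → PS) :
    ∑ x : Fin 3 × Bool, xx ^ (ini x.1 x.2 a).length * Wt (ini x.1 x.2 a) * Ψ (st0 x.1 x.2).n =
      ∑ n ∈ range 3, al n a * Ψ n := by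
  have v1 : A xx 107 104 one ∅ = wp := A_rev.trans val_f
  have v2 : A xx 92 0 one ∅ = -wb := A_rev.trans val_e
  simp only [Fintype.sum_prod_type, Fin.sum_univ_three, Fintype.sum_bool, sum_range_succ,
    sum_range_zero, Wt_ini]
  change xx ^ 3 * (A xx a 100 one ∅ * (1 * (1 * (A xx 101 107 one ∅ * A xx 0 92 one ∅)))) * Ψ 1 +
    xx ^ 1 * (A xx a 92 one ∅ * (1 * (1 * (1 * 1)))) * Ψ 0 +
    (xx ^ 6 * (Z xx [(a, 107), (0, 100)] ∅ * (A xx 0 92 one ∅ * (A xx 104 107 one ∅ *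
      (A xx 101 107 one ∅ * A xx 0 92 one ∅)))) * Ψ 2 +
    xx ^ 4 * (Z xx [(a, 107), (0, 92)] ∅ * (A xx 0 92 one ∅ * (A xx 104 107 one ∅ *
      (1 * 1)))) * Ψ 1) +
    (xx ^ 6 * (Z xx [(a, 0), (107, 100)] ∅ * (A xx 92 0 one ∅ * (A xx 107 104 one ∅ *
      (A xx 101 107 one ∅ * A xx 0 92 one ∅)))) * Ψ 2 +
    xx ^ 4 * (Z xx [(a, 0), (107, 92)] ∅ * (A xx 92 0 one ∅ * (A xx 107 104 one ∅ *
      (1 * 1)))) * Ψ 1) = _
  rw [v1, v2, val_f, val_d, val_e]
  simp only [al, tt, if_true, one_ne_zero, if_false, OfNat.ofNat_ne_zero, OfNat.ofNat_ne_one]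
  ring

theorem up_of {Ψ : ℕ → ℕ → PS} (h : ∀ n b s, ∃ p ∈ Po, ∀ K, xx ^ K ∣ Ψ n b + p -
      ∑ m ∈ range K, xx ^ m * Wm b m ⟨2, s, n, 0, false⟩) {a b : ℕ} {F : PS}
    (hF : ∀ K, xx ^ K ∣ F - ∑ k ∈ range K, xx ^ k * ∑ x : Fin 3 × Bool,
      if (ini x.1 x.2 a).length ≤ k then
        Wt (ini x.1 x.2 a) * Wm b (k - (ini x.1 x.2 a).length) (st0 x.1 x.2) else 0) :
    F - ∑ n ∈ range 3, al n a * Ψ n b ∈ Po := by
  choose p hp hd using fun x : Fin 3 × Bool => h (st0 x.1 x.2).n b (st0 x.1 x.2).s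
  have e : F = ∑ x : Fin 3 × Bool, xx ^ (ini x.1 x.2 a).length * Wt (ini x.1 x.2 a) *
      (Ψ (st0 x.1 x.2).n b + p x) := eq_of_dvd fun K => by
    have h1 := hF K
    simp only [mul_sum] at h1
    rw [sum_comm] at h1
    rw [← sub_add_sub_cancel F (∑ x : Fin 3 × Bool, ∑ k ∈ range K, _), ← sum_sub_distrib]
    refine dvd_add h1 (dvd_sum fun x _ => ?_)
    have h2 := hd x (K - (ini x.1 x.2 a).length)
    change _ ∣ _ - ∑ m ∈ _, xx ^ m * Wm b m (st0 x.1 x.2) at h2
    generalize (ini x.1 x.2 a).length = L at h2 ⊢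
    have h3 : ∑ k ∈ range K, xx ^ k * (if L ≤ k then
        Wt (ini x.1 x.2 a) * Wm b (k - L) (st0 x.1 x.2) else 0) = xx ^ L * Wt (ini x.1 x.2 a) *
          ∑ m ∈ range (K - L), xx ^ m * Wm b m (st0 x.1 x.2) := by
      simp only [mul_ite, mul_zero]
      rw [← sum_filter, show (range K).filter (L ≤ ·) = Ico L K by ext; simp [and_comm],
        sum_Ico_eq_sum_range, mul_sum]
      exact sum_congr rfl fun m _ => by rw [Nat.add_sub_cancel_left]; ring
    rw [h3, ← neg_sub, dvd_neg, ← mul_sub, mul_right_comm]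
    exact ((pow_dvd_pow _ (by omega : K ≤ L + (K - L))).trans
      (pow_add xx L _ ▸ mul_dvd_mul_left _ h2)).mul_right _
  rw [e, ← ini_sum a fun n => Ψ n b, ← sum_sub_distrib]
  refine sum_mem fun x _ => ?_
  rw [mul_add, add_sub_cancel_left]
  exact mul_mem (mul_mem (pow_mem xx_po _) (Wt_po _)) (hp x)

end Pool.Agent.Lib.MP_820104_pr.Tb
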