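import Pool.Agent.Lib.MP_820104_pr.Plan

/-! The universal group of the groupoid with objects the naturals and arrows labelled by `L`. -/

noncomputable section

namespace Pool.Agent.Lib.MP_820104_pr.Tb

open Finset
open scoped Classical

variable {L : Type} [Group L]

/-- arrows -/
abbrev Ar (L : Type) : Type := ℕ × L × ℕ

/-- identity arrows -/
def Idn (d : Ar L) : Prop := d.2.1 = 1 ∧ d.1 = d.2.2

/-- put an arrow in front unless it is an identity -/
def mk (d : Ar L) (w : List (Ar L)) : List (Ar L) := if Idn d then w else d :: w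

/-- the source of the first arrow -/
def hd (w : List (Ar L)) : Option ℕ := w.head?.map Prod.fst

/-- reduced words -/
def Red : List (Ar L) → Prop
  | [] => True
  | d :: w => ¬Idn d ∧ hd w ≠ some d.2.2 ∧ Red w

/-- split off the first arrow when its source is `b` -/
def spl (b : ℕ) : List (Ar L) → L × ℕ × List (Ar L)
  | [] => (1, b, [])
  | e :: w => if e.1 = b then (e.2.1, e.2.2, w) else (1, b, e :: w)

theorem spl_ne {b : ℕ} : ∀ {w : List (Ar L)}, hd w ≠ some b → spl b w = (1, b, w)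
  | [], _ => rfl
  | _ :: _, h => if_neg fun e => h (congrArg some e)

theorem spl_mk {a c : ℕ} {g : L} {w : List (Ar L)} (h : hd w ≠ some c) :
    spl a (mk (a, g, c) w) = (g, c, w) := by
  unfold mk
  split_ifs with e
  · obtain ⟨rfl, rfl⟩ : g = 1 ∧ a = c := e
    exact spl_ne h
  · exact if_pos rfl

theorem spl_ok (b : ℕ) : ∀ {w : List (Ar L)}, Red w → Red (spl b w).2.2 ∧
    hd (spl b w).2.2 ≠ some (spl b w).2.1 ∧ mk (b, (spl b w).1, (spl b w).2.1) (spl b w).2.2 = w
  | [], _ => ⟨trivial, by simp [spl, hd], if_pos ⟨rfl, rfl⟩⟩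
  | e :: w, h => by
    rw [spl]
    split_ifs with h1
    · subst h1
      exact ⟨h.2.2, h.2.1, if_neg h.1⟩
    · exact ⟨h, fun e => h1 (Option.some.inj e), if_pos ⟨rfl, rfl⟩⟩

theorem red_mk {d : Ar L} {w : List (Ar L)} (h : Red w) (h' : hd w ≠ some d.2.2) :
    Red (mk d w) := by
  unfold mk
  split_ifs with e
  exacts [h, ⟨e, h', h⟩]

/-- the action of an arrow on reduced words -/
def act (a : ℕ) (g : L) (b : ℕ) (w : {w : List (Ar L) // Red w}) : {w : List (Ar L) // Red w} :=
  ⟨mk (a, g * (spl b w.1).1, (spl b w.1).2.1) (spl b w.1).2.2,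
    red_mk (spl_ok b w.2).1 (spl_ok b w.2).2.1⟩

theorem act_mul (a b c : ℕ) (g h : L) (w) : act a g b (act b h c w) = act a (g * h) c w :=
  Subtype.ext (by simp only [act, spl_mk (spl_ok c w.2).2.1, mul_assoc])

theorem act_one (a : ℕ) (w) : act a (1 : L) a w = w :=
  Subtype.ext (by simpa only [act, one_mul] using (spl_ok a w.2).2.2)

/-- the permutation of an arrow -/
def pm (d : Ar L) : Equiv.Perm {w : List (Ar L) // Red w} :=
  ⟨act d.1 d.2.1 d.2.2, act d.2.2 d.2.1⁻¹ d.1, fun w => by rw [act_mul, inv_mul_cancel, act_one],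
    fun w => by rw [act_mul, mul_inv_cancel, act_one]⟩

/-- the universal group -/
abbrev H (L : Type) [Group L] : Type := Subgroup.closure (Set.range (pm (L := L)))

/-- the element of an arrow -/
def io (a : ℕ) (g : L) (b : ℕ) : H L := ⟨pm (a, g, b), Subgroup.subset_closure ⟨_, rfl⟩⟩

theorem io_mul (a b c : ℕ) (g h : L) : io a g b * io b h c = io a (g * h) c :=
  Subtype.ext (Equiv.ext (act_mul a b c g h))

theorem io_one (a : ℕ) : io a (1 : L) a = 1 := Subtype.ext (Equiv.ext (act_one a))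

theorem io_inv (a b : ℕ) (g : L) : (io a g b)⁻¹ = io b g⁻¹ a :=
  inv_eq_of_mul_eq_one_right (by rw [io_mul, mul_inv_cancel, io_one])

/-- the normal form -/
def wd (x : H L) : {w : List (Ar L) // Red w} := x.1 ⟨[], trivial⟩

/-- the source of the first arrow of the normal form -/
def fi (x : H L) : Option ℕ := hd (wd x).1

theorem fi_one : fi (1 : H L) = none := rfl

theorem wd_mul {a b : ℕ} {g : L} {x : H L} (h : fi x ≠ some b) :
    (wd (io a g b * x)).1 = mk (a, g, b) (wd x).1 := by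
  show (act a g b (wd x)).1 = _
  simp only [act, spl_ne h, mul_one]

theorem fi_mul {a b : ℕ} {g : L} {x : H L} (hn : ¬Idn (a, g, b)) (h : fi x ≠ some b) :
    fi (io a g b * x) = some a := by
  rw [fi, wd_mul h, mk, if_neg hn]; rfl

theorem fi_io {a b : ℕ} {g : L} (hn : ¬Idn (a, g, b)) : fi (io a g b) = some a := by
  simpa using fi_mul (x := 1) hn (by simp [fi_one])

theorem pair_inj {a b b' : ℕ} {g g' : L} {x x' : H L} (h : fi x ≠ some b) (h' : fi x' ≠ some b')
    (e : io a g b * x = io a g' b' * x') : g = g' ∧ b = b' ∧ x = x' := by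
  have e2 : io b' (g'⁻¹ * g) b * x = x' := by
    rw [← io_mul b' a b, mul_assoc, e, ← mul_assoc, io_mul, inv_mul_cancel, io_one, one_mul]
  obtain ⟨h1, rfl⟩ : g'⁻¹ * g = 1 ∧ b' = b := by
    by_contra hn
    exact h' (e2 ▸ fi_mul hn h)
  obtain rfl : g' = g := inv_mul_eq_one.1 h1
  exact ⟨rfl, rfl, mul_left_cancel e⟩

theorem pair_ex (a : ℕ) (x : H L) : ∃ g b y, fi y ≠ some b ∧ x = io a g b * y := by
  obtain ⟨-, h2, h3⟩ := spl_ok a (wd x).2
  refine ⟨(spl a (wd x).1).1, (spl a (wd x).1).2.1, (io _ _ _)⁻¹ * x, ?_,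
    (mul_inv_cancel_left _ _).symm⟩
  rw [io_inv]
  show hd (act _ _ _ (wd x)).1 ≠ _
  simp only [act, inv_mul_cancel]
  rwa [mk, if_pos ⟨rfl, rfl⟩]

theorem wd_inj : Function.Injective fun x : H L => (wd x).1 := by
  let ev : List (Ar L) → H L := fun w => (w.map fun d => io d.1 d.2.1 d.2.2).prod
  have em : ∀ a g b w, ev (mk (a, g, b) w) = io a g b * ev w := fun a g b w => by
    unfold mk
    split_ifs with e
    · obtain ⟨rfl, rfl⟩ : g = 1 ∧ a = b := e
      rw [io_one, one_mul]
    · rfl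
  have ea : ∀ a g b w, ev (act a g b w).1 = io a g b * ev w.1 := fun a g b w => by
    conv_rhs => rw [← (spl_ok b w.2).2.2, em, ← mul_assoc, io_mul, ← em]
    rfl
  refine Function.LeftInverse.injective (g := ev) fun ⟨x, hx⟩ => ?_
  induction hx using Subgroup.closure_induction_left with
  | one => rfl
  | mul_left x hx y hy ih =>
    obtain ⟨d, rfl⟩ := hx
    exact (ea _ _ _ _).trans (congrArg (io d.1 d.2.1 d.2.2 * ·) ih)
  | inv_mul_cancel x hx y hy ih =>
    obtain ⟨d, rfl⟩ := hx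
    exact (ea d.2.2 d.2.1⁻¹ d.1 (wd ⟨y, hy⟩)).trans
      ((congrArg (io d.2.2 d.2.1⁻¹ d.1 * ·) ih).trans (Subtype.ext (Equiv.ext fun _ => rfl)))

end Pool.Agent.Lib.MP_820104_pr.Tb
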