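import Pool.Agent.Lib.MP_820104_pr.Data

/-! A two page book embedding of the tree of blocks. -/

noncomputable section

namespace Pool.Agent.Lib.MP_820104_pr.Tb

open Finset

/-- no two edges of one page cross -/
def NoX {V α : Type} [LinearOrder α] (R : V → V → Prop) (o : V → α) (pg : V → V → Prop) : Prop :=
  ∀ a b c d, R a b → R c d → (pg a b ↔ pg c d) → o a < o c → o c < o b → ¬o b < o d

/-- adjacency in the block -/
def Adj {L : Type} [Group L] (D : Finset (Ar L)) (v w : L × ℕ) : Prop := (v.2, v.1⁻¹ * w.1, w.2) ∈ D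

/-- the row of a vertex -/
def rowK (v : Kl × ℕ) : ℤ := if v.2 ≤ 100 then v.1.1 + 1 else v.1.1

/-- the position of a vertex in its row -/
def posK (v : Kl × ℕ) : ℤ := if v.2 ≤ 100 then -v.1.2 else v.1.2

/-- the place on the spine -/
def keyK (v : Kl × ℕ) : ℤ ×ₗ ℤ ×ₗ ℕ := toLex (rowK v, toLex (posK v, v.2))

/-- the page of an edge -/
def pgK (v w : Kl × ℕ) : Prop := (min (rowK v) (rowK w) +
  if rowK v = rowK w ∧ (min v.2 w.2, max v.2 w.2) ∈ low then 1 else 0) % 2 = 0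

/-- the neighbours in the same cell of the row -/
def nbK (i : ℕ) : List ℕ :=
  (nb i).filter (fun j => (i ≤ 100 ↔ j ≤ 100 : Prop)) ++ if i = 100 then [101] else []

theorem keyK_inj : Function.Injective keyK := by
  rintro ⟨⟨j, k⟩, i⟩ ⟨⟨j', k'⟩, i'⟩ e
  simp only [keyK, toLex_inj, Prod.mk.injEq, rowK, posK] at e
  obtain ⟨e1, e2, rfl⟩ := e
  refine Prod.ext (Prod.ext ?_ ?_) rfl <;> dsimp only <;> split_ifs at e1 e2 <;> omega

set_option synthInstance.maxSize 4000 in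
theorem kind0 : ∀ i < 108, ∀ p ∈ ar i, p.2 < 108 ∧
    (p.1 = (0, 0) ∧ ((i ≤ 100 ↔ p.2 ≤ 100) ∧ p.2 ∈ nbK i ∨
      i = 106 ∧ p.2 ∈ [55, 56, 57, 59, 60, 61] ∨ i ≤ 100 ∧ p.2 = 106) ∨
    i = 107 ∧ p = ((-1, -1), 0) ∨ i = 0 ∧ p = ((1, -1), 107) ∨ i = 100 ∧ p = ((1, 0), 101) ∨
    i = 101 ∧ p = ((-1, 0), 100) ∨ i = 92 ∧ p = ((2, 0), 104) ∨ i = 104 ∧ p = ((-2, 0), 92)) := by
  decide +kernel

theorem kind {v w : Kl × ℕ} (h : Adj DD v w) (hl : keyK v < keyK w) : v.2 < 108 ∧ w.2 < 108 ∧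
    (rowK w = rowK v ∧ posK w = posK v ∧ v.2 < w.2 ∧ w.2 ∈ nbK v.2 ∨
     rowK w = rowK v ∧ posK w = posK v + 1 ∧ v.2 = 107 ∧ w.2 = 0 ∨
     rowK w = rowK v + 1 ∧ posK w = -posK v ∧
      (v.2 = 106 ∧ w.2 ∈ [55, 56, 57, 59, 60, 61] ∨ v.2 = 92 ∧ w.2 = 104)) := by
  obtain ⟨g, i⟩ := v
  obtain ⟨g', i'⟩ := w
  obtain ⟨s, rfl⟩ : ∃ s, g' = g * s := ⟨g⁻¹ * g', (mul_inv_cancel_left _ _).symm⟩
  obtain ⟨h1, h2⟩ := mem_DD.1 h
  simp only [inv_mul_cancel_left] at h1 h2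
  obtain ⟨h3, h4⟩ := kind0 i h1 _ h2
  refine ⟨h1, h3, ?_⟩
  simp only [keyK, Prod.Lex.toLex_lt_toLex] at hl
  have h5 : (101 : ℕ) ∈ nbK 100 := by decide +kernel
  rcases h4 with ⟨rfl, ⟨h4, h6⟩ | ⟨rfl, h4⟩ | ⟨h4, rfl⟩⟩ | ⟨rfl, h4⟩ | ⟨rfl, h4⟩ | ⟨rfl, h4⟩ |
    ⟨rfl, h4⟩ | ⟨rfl, h4⟩ | ⟨rfl, h4⟩
  · have h7 : i' ≤ 100 ↔ i ≤ 100 := h4.symm
    simp [rowK, posK, Kl.mul_def, h7] at hl ⊢
    simp [hl, h6]
  · have : i' ≤ 100 := by simp at h4; omega
    simp [rowK, posK, Kl.mul_def, h4, this]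
  · simp [rowK, posK, Kl.mul_def, h4] at hl
  all_goals
    obtain ⟨rfl, rfl⟩ := Prod.mk.inj h4
    simp [rowK, posK, Kl.mul_def, h5] at hl ⊢
    try omega

set_option synthInstance.maxSize 4000 in
theorem chk1 : ∀ i < 108, ∀ j ∈ nbK i, ∀ k < j, i < k → ∀ l ∈ nbK k, j < l →
    ¬((i, j) ∈ low ↔ (k, l) ∈ low) := by decide +kernel

set_option synthInstance.maxSize 4000 in
theorem chk2 : ∀ i < 108, ∀ j ∈ nbK i, ((i, j) ∉ low → ∀ k ∈ [92, 106], ¬(i < k ∧ k < j)) ∧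
    ((i, j) ∈ low → ∀ k ∈ [55, 56, 57, 59, 60, 61, 104], ¬(i < k ∧ k < j)) := by decide +kernel

theorem noX_key : NoX (Adj DD) keyK pgK := fun a b c d h1 h2 hp l1 l2 l3 => by
  obtain ⟨a1, a2, k1⟩ := kind h1 (l1.trans l2)
  obtain ⟨a3, a4, k2⟩ := kind h2 (l2.trans l3)
  simp only [keyK, Prod.Lex.toLex_lt_toLex] at l1 l2 l3
  simp only [pgK] at hp
  rcases k1 with ⟨r1, p1, q1, m1⟩ | k1 | ⟨r1, p1, m1⟩ <;>
    rcases k2 with ⟨r2, p2, q2, m2⟩ | k2 | ⟨r2, p2, m2⟩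
  · refine chk1 _ a1 _ m1 c.2 (by omega) (by omega) _ m2 (by omega) ?_
    rw [min_eq_left q1.le, max_eq_right q1.le, min_eq_left q2.le, max_eq_right q2.le] at hp
    by_cases e1 : (a.2, b.2) ∈ low <;> by_cases e2 : (c.2, d.2) ∈ low <;>
      simp only [e1, e2, r1, r2, and_self, and_false, if_true, if_false] at hp ⊢ <;> omega
  · omega
  · rw [min_eq_left q1.le, max_eq_right q1.le, if_neg (c := rowK c = rowK d ∧ _) (by omega)] at hp
    refine (chk2 _ a1 _ m1).1 (fun e => ?_) c.2 (by simp; omega) (by omega)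
    rw [if_pos ⟨r1.symm, e⟩] at hp
    omega
  · omega
  · omega
  · omega
  · rw [min_eq_left q2.le, max_eq_right q2.le, if_neg (c := rowK a = rowK b ∧ _) (by omega)] at hp
    refine (chk2 _ a3 _ m2).2 (by_contra fun e => ?_) b.2 (by simp at m1 ⊢; omega) (by omega)
    rw [if_neg fun h => e h.2] at hp
    omega
  · omega
  · rw [if_neg (c := rowK a = rowK b ∧ _) (by omega), if_neg (c := rowK c = rowK d ∧ _) (by omega)]
      at hp
    simp only [List.mem_cons, List.not_mem_nil, or_false] at m1 m2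
    omega

open scoped Classical

theorem NoX.rot {V α : Type} [LinearOrder α] {R : V → V → Prop} {o : V → α} {pg : V → V → Prop}
    (nc : NoX R o pg) (ad : ∀ {a b}, R a b → R b a) (sy : ∀ a b, pg a b → pg b a) (x : α) :
    NoX R (fun a => (toLex (if o a < x then 1 else 0, o a) : ℕ ×ₗ α)) pg := by
  have sy' : ∀ a b, pg a b ↔ pg b a := fun a b => ⟨sy a b, sy b a⟩
  intro a b c d h1 h2 hp
  have n1 := nc a b c d h1 h2 hp
  have n2 := nc c d b a h2 (ad h1) (hp.symm.trans (sy' _ _))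
  have n3 := nc b a d c (ad h1) (ad h2) ((sy' _ _).trans (hp.trans (sy' _ _)))
  have n4 := nc d c a b (ad h2) h1 ((sy' _ _).trans hp.symm)
  simp only [Prod.Lex.toLex_lt_toLex]
  intro l1 l2 l3
  split_ifs at l1 l2 l3 <;> simp only [lt_irrefl, false_or, true_and, zero_lt_one, true_or,
    not_lt_zero, false_and, or_self] at l1 l2 l3
  · exact n1 l1 l2 l3
  · exact n2 l2 l3 (by order)
  · exact n3 l3 (by order) l1
  · exact n4 (by order) l1 l2
  · exact n1 l1 l2 l3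

section tree

variable {L : Type} [Group L] {D : Finset (Ar L)} {α : Type}

/-- the vertex `v` of the block of type `a` at the identity -/
def emb (a : ℕ) (v : L × ℕ) : H L := io v.2 v.1⁻¹ a

/-- the reversed normal form -/
def nfT (o : ℕ → L × ℕ → α) (x : H L) : List (ℕ ×ₗ α) :=
  ((wd x).1.map fun d => toLex (d.2.2, o d.2.2 (d.2.1⁻¹, d.1))).reverse

theorem emb_one (a : ℕ) : emb a ((1, a) : L × ℕ) = 1 := by rw [emb, inv_one, io_one]

theorem nfT_mul (o : ℕ → L × ℕ → α) {a : ℕ} {v : L × ℕ} {b : H L} (hv : v ≠ (1, a))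
    (hb : fi b ≠ some a) : nfT o (emb a v * b) = nfT o b ++ [toLex (a, o a v)] := by
  rw [nfT, emb, wd_mul hb, mk, if_neg fun h => hv (Prod.ext (inv_eq_one.1 h.1) h.2)]
  simp [nfT]

theorem emb_div (a : ℕ) (v w : L × ℕ) (b : H L) :
    emb a v * b * (emb a w * b)⁻¹ = io v.2 (v.1⁻¹ * w.1) w.2 := by
  rw [mul_inv_rev, mul_assoc, mul_inv_cancel_left, emb, emb, io_inv, io_mul, inv_inv]

theorem emb_same {a a' : ℕ} {v w c d : L × ℕ} {b b' : H L} (hb : fi b ≠ some a)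
    (hb' : fi b' ≠ some a') (e1 : emb a v * b = emb a' c * b') (e2 : emb a w * b = emb a' d * b')
    (h : v ≠ w) : v = c := by
  have e3 : io v.2 (v.1⁻¹ * w.1) w.2 = io c.2 (c.1⁻¹ * d.1) d.2 := by
    rw [← emb_div a v w b, e1, e2, emb_div]
  have e4 := fi_io (a := v.2) (b := w.2) (g := v.1⁻¹ * w.1) fun e =>
    h (Prod.ext (inv_mul_eq_one.1 e.1) e.2)
  have e5 : c.2 = v.2 := by
    by_cases hn : Idn (c.2, c.1⁻¹ * d.1, d.2)
    · rw [e3, show c.1⁻¹ * d.1 = 1 from hn.1, show c.2 = d.2 from hn.2, io_one, fi_one] at e4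
      exact absurd e4 (by simp)
    · exact Option.some.inj ((fi_io hn).symm.trans (e3 ▸ e4))
  rw [emb, emb, e5] at e1
  exact Prod.ext (inv_injective (pair_inj hb hb' e1).1) e5.symm

theorem edgeT {g h : H L} (e : g⁻¹ * h ∈ D.image ia) : ∃ a v w b, fi b ≠ some a ∧
    Adj D v w ∧ g⁻¹ = emb a v * b ∧ h⁻¹ = emb a w * b := by
  obtain ⟨⟨t, s, t'⟩, hs, e⟩ := mem_image.1 e
  obtain ⟨l, a, b, h1, h2⟩ := pair_ex t g⁻¹
  refine ⟨a, (l⁻¹, t), (l⁻¹ * s, t'), b, h1, by simpa [Adj] using hs, by simpa [emb] using h2, ?_⟩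
  rw [emb, mul_inv_rev, inv_inv, ← io_mul t' t a, mul_assoc, ← h2, ← io_inv,
    show io t s t' = g⁻¹ * h from e]
  simp

theorem book_tree [LinearOrder α] {o : ℕ → L × ℕ → α} {pg : L × ℕ → L × ℕ → Prop}
    (hD : ∀ d ∈ D, ¬Idn d) (i : ∀ a, Function.Injective (o a)) (sy : ∀ v w, pg v w → pg w v)
    (nc : ∀ a, NoX (Adj D) (o a) pg) (h0 : ∀ a v, o a (1, a) ≤ o a v) :
    Book (D.image ia) (fun g => nfT o g⁻¹)
      fun g h => ∃ a v w b, fi b ≠ some a ∧ g⁻¹ = emb a v * b ∧ h⁻¹ = emb a w * b ∧ pg v w := by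
  have ni : Function.Injective (nfT o : H L → _) := fun x y e => by
    refine wd_inj (List.map_injective_iff.2 ?_ (List.reverse_injective e))
    rintro ⟨t, l, a⟩ ⟨t', l', a'⟩ e
    obtain ⟨rfl, e⟩ := Prod.mk.inj (toLex.injective e)
    obtain ⟨e1, rfl⟩ := Prod.mk.inj (i _ e)
    obtain rfl : l = l' := inv_injective e1
    rfl
  have pre : ∀ {j a} {b : H L}, fi b ≠ some j → nfT o b <+: nfT o (emb j a * b) :=
    fun {j a b} hb => by
    by_cases ha : a = (1, j)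
    · simp [ha, emb_one]
    · rw [nfT_mul o ha hb]; exact List.prefix_append _ _
  have pre' : ∀ {j a} {b : H L} {w}, fi b ≠ some j → w <+: nfT o (emb j a * b) →
      w <+: nfT o b ∨ w = nfT o (emb j a * b) := fun {j a b w} hb hw => by
    by_cases ha : a = (1, j)
    · exact Or.inl (by simpa [ha, emb_one] using hw)
    · rw [nfT_mul o ha hb] at hw ⊢
      exact (List.prefix_concat_iff.1 hw).symm
  have lt : ∀ {j j' a a'} {b : H L}, fi b ≠ some j → fi b ≠ some j' →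
      nfT o (emb j a * b) < nfT o (emb j' a' * b) → a' ≠ (1, j') ∧ (a ≠ (1, j) → j ≤ j') ∧
        (j = j' → o j a < o j' a') := fun {j j' a a' b} hb hb' hl => by
    have h2 : a' ≠ (1, j') := fun e => hl.not_ge (by simpa [e, emb_one] using le_of_pre (pre hb))
    by_cases ha : a = (1, j)
    · exact ⟨h2, fun e => absurd ha e, fun e => by
        subst e
        exact ha ▸ (h0 j a').lt_of_ne fun e => h2 (i _ e).symm⟩
    rw [nfT_mul o ha hb, nfT_mul o h2 hb', app_lt, Prod.Lex.toLex_lt_toLex] at hl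
    exact ⟨h2, fun _ => hl.elim le_of_lt fun h => h.1.le, fun e => (hl.resolve_left e.not_lt).2⟩
  have pgi : ∀ {j a a'} {b g h : H L}, fi b ≠ some j → Adj D a a' → g⁻¹ = emb j a * b →
      h⁻¹ = emb j a' * b → ((∃ j a a' b, fi b ≠ some j ∧ g⁻¹ = emb j a * b ∧
        h⁻¹ = emb j a' * b ∧ pg a a') ↔ pg a a') := fun {j a a' b g h} hb hs e1 e2 => by
    refine ⟨?_, fun hp => ⟨j, a, a', b, hb, e1, e2, hp⟩⟩
    rintro ⟨j', c, c', b', hb', e3, e4, hp⟩
    have ne : a ≠ a' := fun e => hD _ hs ⟨by simp [e], by simp [e]⟩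
    rwa [emb_same hb hb' (e1.symm.trans e3) (e2.symm.trans e4) ne,
      emb_same hb hb' (e2.symm.trans e4) (e1.symm.trans e3) ne.symm]
  refine ⟨ni.comp inv_injective, fun g h ⟨j, a, a', b, h2, h3, h4, h5⟩ =>
    ⟨j, a', a, b, h2, h4, h3, sy _ _ h5⟩, fun x y z w e e' hp l1 l2 l3 => ?_⟩
  obtain ⟨j, a, a', b, hb, s1, x1, y1⟩ := edgeT e
  obtain ⟨j', c, c', b', hb', s2, z1, w1⟩ := edgeT e'
  replace hp := (pgi hb s1 x1 y1).symm.trans (hp.trans (pgi hb' s2 z1 w1))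
  simp only [x1, y1, z1, w1] at l1 l2 l3
  have p1 := pre_of_between ((le_of_pre (pre hb')).trans l2.le) l3.le (pre hb')
  have p2 := pre_of_between ((le_of_pre (pre hb)).trans l1.le) l2.le (pre hb)
  have p3 := (pre' hb p1).resolve_right fun e => l2.not_ge (e ▸ le_of_pre (pre hb'))
  have p4 := (pre' hb' p2).resolve_right fun e => l1.not_ge (e ▸ le_of_pre (pre hb))
  obtain rfl := ni ((le_of_pre p4).antisymm (le_of_pre p3))
  obtain ⟨a1, -, a2⟩ := lt hb hb' l1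
  obtain ⟨a3, a4, a5⟩ := lt hb' hb l2
  obtain ⟨-, a6, a7⟩ := lt hb hb' l3
  obtain rfl := (a6 a3).antisymm (a4 a1)
  exact nc j a a' c c' s1 s2 hp (a2 rfl) (a5 rfl) (a7 rfl)

end tree

theorem exists_cayley : ∃ (G : Type) (_ : Group G) (S : Finset G) (α : Type) (_ : LinearOrder α)
    (_ : Countable α) (o : G → α) (pg : G → G → Prop), 1 ∉ S ∧ (∀ s ∈ S, s⁻¹ ∈ S) ∧
      Subgroup.closure (S : Set G) = ⊤ ∧ S.Nonempty ∧ Book S o pg ∧
        ∀ n, saw S n = saw (DD.image ia) n := by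
  have sy : ∀ v w, pgK v w → pgK w v := fun v w h => by
    rw [pgK] at h ⊢
    simpa only [min_comm (rowK w), min_comm w.2, max_comm w.2, @eq_comm _ (rowK w)] using h
  have hb := book_tree DD_idn (o := fun a v => (toLex (if keyK v < keyK (1, a) then 1 else 0,
    keyK v) : ℕ ×ₗ _)) (fun a v w e => keyK_inj (congrArg (fun x => (ofLex x).2) e)) sy
    (fun a => noX_key.rot (fun h => by simpa [Adj] using DD_inv _ h) sy _) fun a v => rot_le _ _
  have : Countable (ℕ ×ₗ ℕ ×ₗ ℤ ×ₗ ℤ ×ₗ ℕ) := inferInstanceAs (Countable (ℕ × ℕ × ℤ × ℤ × ℕ))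
  obtain ⟨T, hT⟩ : ∃ T, T = DD.image ia := ⟨_, rfl⟩
  have t1 : 1 ∉ T := fun h => by
    obtain ⟨d, hd, e⟩ := mem_image.1 (hT ▸ h)
    have := fi_io (DD_idn d hd)
    rw [show io d.1 d.2.1 d.2.2 = 1 from e, fi_one] at this
    exact absurd this (by simp)
  have t2 : ∀ s ∈ T, s⁻¹ ∈ T := fun s h => by
    obtain ⟨d, hd, rfl⟩ := mem_image.1 (hT ▸ h)
    exact hT ▸ mem_image.2 ⟨_, DD_inv d hd, (io_inv _ _ _).symm⟩
  have t3 : ia (0, 1, 1) ∈ T := hT ▸ mem_image_of_mem _ (mem_DD.2 (by decide +kernel))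
  rw [← hT] at hb ⊢
  refine ⟨Subgroup.closure (T : Set (H Kl)), inferInstance, T.subtype _, _, inferInstance,
    inferInstance, _, _, fun h => t1 (mem_subtype.1 h),
    fun s h => mem_subtype.2 (t2 _ (mem_subtype.1 h)), ?_,
    ⟨⟨_, Subgroup.subset_closure t3⟩, mem_subtype.2 t3⟩, ⟨hb.1.comp Subtype.val_injective,
      fun a b => hb.2.1 a.1 b.1, fun a b c d h1 h2 =>
        hb.2.2 a.1 b.1 c.1 d.1 (mem_subtype.1 h1) (mem_subtype.1 h2)⟩, fun n => ?_⟩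
  · convert Subgroup.closure_closure_coe_preimage (k := (T : Set (H Kl))) using 2
    ext x
    exact mem_subtype
  · refine Set.ncard_congr (fun f _ => Subtype.val ∘ f) (fun f ⟨h1, h2, h3⟩ =>
      ⟨Subtype.val_injective.comp h1, congrArg Subtype.val h2, fun i => mem_subtype.1 (h3 i)⟩)
      (fun f g _ _ e => funext fun i => Subtype.ext (congrFun e i)) fun f ⟨h1, h2, h3⟩ => ?_
    have h4 : ∀ i, f i ∈ Subgroup.closure (T : Set (H Kl)) := Fin.induction (h2 ▸ one_mem _)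
      fun i ih => by simpa using mul_mem ih (Subgroup.subset_closure (h3 i))
    exact ⟨fun i => ⟨f i, h4 i⟩, ⟨fun i j e => h1 (congrArg Subtype.val e), Subtype.ext h2,
      fun i => mem_subtype.2 (h3 i)⟩, rfl⟩

end Pool.Agent.Lib.MP_820104_pr.Tb
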