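import Pool.Agent.Lib.MP_820104_pr.Tb

/-! Self-avoiding walks on a tree of blocks: the renewal equations. -/

noncomputable section

namespace Pool.Agent.Lib.MP_820104_pr.Tb

open Finset
open scoped Classical

variable {L : Type} [Group L] {D : Finset (Ar L)}

/-- the element of an arrow -/
def ia (d : Ar L) : H L := io d.1 d.2.1 d.2.2

/-- composable lists of arrows from a given source -/
def Cmp : ℕ → List (Ar L) → Prop
  | _, [] => True
  | a, d :: u => d.1 = a ∧ Cmp d.2.2 u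

/-- the target of a list of arrows -/
def tg : ℕ → List (Ar L) → ℕ
  | a, [] => a
  | _, d :: u => tg d.2.2 u

/-- the label of a list of arrows -/
def lp (u : List (Ar L)) : L := (u.map fun d => d.2.1).prod

omit [Group L] in
theorem cmp_app : ∀ {u v : List (Ar L)} {a : ℕ}, (Cmp a (u ++ v) ↔ Cmp a u ∧ Cmp (tg a u) v) ∧
    tg a (u ++ v) = tg (tg a u) v
  | [], _, _ => by simp [Cmp, tg]
  | d :: u, v, a => by simp [Cmp, tg, cmp_app (u := u), and_assoc]

theorem prod_ia : ∀ {u : List (Ar L)} {a : ℕ}, Cmp a u → (u.map ia).prod = io a (lp u) (tg a u)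
  | [], a, _ => (io_one a).symm
  | d :: u, a, h => by
    rw [List.map_cons, List.prod_cons, prod_ia h.2, ia, io_mul, h.1]; rfl

/-- the walks in a block -/
def AW (D : Finset (Ar L)) (a n : ℕ) : Finset (List (Ar L)) :=
  (Ls D n).filter fun u => Cmp a u ∧ NT (u.map ia)

/-- the walks that do not start in the block of type `b` -/
def GW (D : Finset (Ar L)) (b n : ℕ) : Finset (List (H L)) :=
  (Wd (D.image ia) n).filter fun l => l.head?.bind fi ≠ some b

variable (hD : ∀ d ∈ D, ¬Idn d)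
include hD

theorem dec_ex : ∀ (l : List (H L)) (a : ℕ), (∀ x ∈ l, x ∈ D.image ia) →
    ∃ u l', l = List.map ia u ++ l' ∧ (∀ d ∈ u, d ∈ D) ∧ Cmp a u ∧
      l'.head?.bind fi ≠ some (tg a u)
  | [], _, _ => ⟨[], [], rfl, by simp, trivial, by simp⟩
  | x :: t, a, h => by
    obtain ⟨d, hd, rfl⟩ := mem_image.1 (h x (by simp))
    by_cases e : d.1 = a
    · obtain ⟨u, l', rfl, hu, hc, hl⟩ := dec_ex t d.2.2 fun y hy => h y (by simp [hy])
      exact ⟨d :: u, l', rfl, List.forall_mem_cons.2 ⟨hd, hu⟩, ⟨e, hc⟩, hl⟩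
    · exact ⟨[], _, rfl, by simp, trivial, fun e' =>
        e (Option.some.inj ((fi_io (hD d hd)).symm.trans e'))⟩

theorem dec_uniq {l l' : List (H L)} : ∀ (u u' : List (Ar L)) (a : ℕ), (∀ d ∈ u, d ∈ D) →
    (∀ d ∈ u', d ∈ D) → Cmp a u → Cmp a u' → l.head?.bind fi ≠ some (tg a u) →
    l'.head?.bind fi ≠ some (tg a u') → u.map ia ++ l = u'.map ia ++ l' → u = u' ∧ l = l'
  | [], [], _, _, _, _, _, _, _, e => ⟨rfl, e⟩
  | [], d :: u, _, _, b, _, c, h, _, e => (h (by
      rw [show l = _ from e, tg, ← c.1]; exact fi_io (hD d (b d (by simp))))).elim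
  | d :: u, [], _, b, _, c, _, _, h, e => (h (by
      rw [show l' = _ from e.symm, tg, ← c.1]; exact fi_io (hD d (b d (by simp))))).elim
  | ⟨a1, g, b⟩ :: u, ⟨a2, g', b'⟩ :: u', a, m, m', c, c', h, h', e => by
    obtain ⟨e1, e2⟩ := List.cons.inj e
    obtain rfl : a1 = a2 := c.1.trans c'.1.symm
    obtain ⟨rfl, rfl, -⟩ := pair_inj (x := 1) (x' := 1) (by simp [fi_one]) (by simp [fi_one])
      (congrArg (· * 1) e1 : io a1 g b * 1 = io a1 g' b' * 1)
    obtain ⟨rfl, e3⟩ := dec_uniq u u' b (fun d h => m d (by simp [h])) (fun d h => m' d (by simp [h]))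
      c.2 c'.2 h h' e2
    exact ⟨rfl, e3⟩

theorem fi_prod : ∀ (n : ℕ) (l : List (H L)), l.length ≤ n →
    (∀ x ∈ l, x ∈ D.image ia) → NT l → fi l.prod = l.head?.bind fi
  | _, [], _, _, _ => fi_one
  | 0, _ :: _, h, _, _ => by simp at h
  | n + 1, x :: t, h, hm, hn => by
    obtain ⟨d, hd, rfl⟩ := mem_image.1 (hm x (by simp))
    obtain ⟨u, l', rfl, hu, hc, hl⟩ := dec_ex hD t d.2.2 fun y hy => hm y (by simp [hy])
    have e : ia d :: (u.map ia ++ l') = (d :: u).map ia ++ l' := rfl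
    refine Eq.trans ?_ (fi_io (hD d hd)).symm
    rw [e] at hn ⊢
    have hp := prod_ia (u := d :: u) ⟨rfl, hc⟩
    rw [List.prod_append, hp]
    refine fi_mul (fun hi => hn.left [] ((d :: u).map ia) [] (by simp) (by simp) ?_) ?_
    · rw [hp, show lp (d :: u) = 1 from hi.1,
        ← show d.1 = tg d.1 (d :: u) from hi.2, io_one]
    rwa [fi_prod n l' (by simp at h; omega) (fun y hy => hm y (by simp [hy])) hn.right]

theorem glue {a : ℕ} {u : List (Ar L)} {l : List (H L)} (hc : Cmp a u) (hu : NT (u.map ia))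
    (hl : NT l) (hm : ∀ x ∈ l, x ∈ D.image ia) (hs : l.head?.bind fi ≠ some (tg a u)) :
    NT (u.map ia ++ l) := by
  have ct : ∀ i, Cmp a (u.take i) := fun i =>
    (cmp_app.1.1 (by rwa [List.take_append_drop i u])).1
  have key : ∀ i, fi (l.take (i - u.length)).prod ≠ some (tg a (u.take i)) := fun i => by
    rw [fi_prod hD _ _ le_rfl (fun x hx => hm x (List.mem_of_mem_take hx))
      (NT.left (b := l.drop (i - u.length)) (by simpa))]
    rcases e : i - u.length with _ | j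
    · simp
    · rw [List.take_of_length_le (l := u) (by omega)]
      simpa [List.head?_take] using hs
  refine NT_iff.2 fun i j ab hb e => ?_
  simp only [List.take_append, List.prod_append, ← List.map_take, prod_ia (ct _),
    List.length_map, List.length_append] at e hb
  obtain ⟨e1, e3, e2⟩ := pair_inj (key _) (key _) e
  have := hu.inj ab (by rw [← List.map_take, ← List.map_take, prod_ia (ct _), prod_ia (ct _), e1, e3])
  have := hl.inj (by simp at this; omega) e2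
  simp at *
  omega

theorem ren1 (a n : ℕ) : saw (D.image ia) n =
    ∑ p ∈ antidiagonal n, ∑ u ∈ AW D a p.1, #(GW D (tg a u) p.2) := by
  simp_rw [saw_eq, ← card_sigma]
  symm
  refine card_bij (fun x _ => x.2.1.map ia ++ x.2.2) ?_ ?_ fun l hl => ?_
  · rintro ⟨p, u, l⟩ hx
    simp only [mem_sigma, AW, GW, mem_filter, HasAntidiagonal.mem_antidiagonal, mem_Ls, mem_Wd] at hx ⊢
    obtain ⟨hp, ⟨hu, hc, hn⟩, hl, hs⟩ := hx
    refine ⟨⟨by simp [hu.1, hl.1.1, hp], fun x hx => ?_⟩, glue hD hc hn hl.2 hl.1.2 hs⟩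
    rcases List.mem_append.1 hx with h | h
    · obtain ⟨s, hs, rfl⟩ := List.mem_map.1 h
      exact mem_image_of_mem _ (hu.2 s hs)
    · exact hl.1.2 x h
  · rintro ⟨⟨p, q⟩, u, l⟩ hx ⟨⟨p', q'⟩, u', l'⟩ hx' e
    simp only [mem_sigma, AW, GW, mem_filter, HasAntidiagonal.mem_antidiagonal, mem_Ls, mem_Wd] at hx hx' e
    obtain ⟨hp, ⟨hu, hc, -⟩, hl, hs⟩ := hx
    obtain ⟨hp', ⟨hu', hc', -⟩, hl', hs'⟩ := hx'
    obtain ⟨rfl, rfl⟩ := dec_uniq hD u u' a hu.2 hu'.2 hc hc' hs hs' e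
    obtain rfl : p = p' := hu.1.symm.trans hu'.1
    obtain rfl : q = q' := by omega
    rfl
  · obtain ⟨⟨h, hm⟩, hn⟩ := mem_Wd.1 hl
    obtain ⟨u, l', rfl, hu, hc, hs⟩ := dec_ex hD l a hm
    refine ⟨⟨(u.length, l'.length), u, l'⟩, ?_, rfl⟩
    simp only [mem_sigma, AW, GW, mem_filter, HasAntidiagonal.mem_antidiagonal, mem_Ls, mem_Wd]
    exact ⟨by simpa using h, ⟨⟨trivial, hu⟩, hc, hn.left⟩,
      ⟨⟨trivial, fun y hy => hm y (by simp [hy])⟩, hn.right⟩, hs⟩

theorem ren2 {N : ℕ} (hN : ∀ d ∈ D, d.1 < N) (n : ℕ) :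
    ∑ a ∈ range N, #(GW D a n) + saw (D.image ia) n =
      N * saw (D.image ia) n + if n = 0 then 1 else 0 := by
  rcases n with _ | n
  · simp [saw_zero, GW, Wd, Ls, filter_singleton, NT_nil]
  simp_rw [saw_eq, GW, card_filter]
  rw [sum_comm, card_eq_sum_ones, ← sum_add_distrib, mul_sum, if_neg n.succ_ne_zero, add_zero]
  refine sum_congr rfl fun l hl => ?_
  obtain ⟨⟨h, hm⟩, -⟩ := mem_Wd.1 hl
  obtain _ | ⟨x, t⟩ := l
  · simp at h
  obtain ⟨d, hd, rfl⟩ := mem_image.1 (hm x (by simp))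
  have := hN d hd
  simp only [List.head?_cons, Option.bind_some, show fi (ia d) = _ from fi_io (hD d hd), ne_eq,
    Option.some.injEq, ← card_filter, filter_ne, card_erase_of_mem (mem_range.2 this), card_range]
  omega

omit hD

/-- the reversed list of arrows -/
def rv (u : List (Ar L)) : List (Ar L) := (u.map fun d => (d.2.2, d.2.1⁻¹, d.1)).reverse

theorem rv_rv (u : List (Ar L)) : rv (rv u) = u := by simp [rv, Function.comp_def]

theorem rv_ok : ∀ {u : List (Ar L)} {a : ℕ}, Cmp a u →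
    Cmp (tg a u) (rv u) ∧ tg (tg a u) (rv u) = a ∧ lp (rv u) = (lp u)⁻¹
  | [], _, _ => ⟨trivial, rfl, inv_one.symm⟩
  | d :: u, a, h => by
    obtain ⟨h1, h2, h3⟩ := rv_ok h.2
    have e : rv (d :: u) = rv u ++ [(d.2.2, d.2.1⁻¹, d.1)] := by simp [rv]
    rw [e, cmp_app.1, cmp_app.2]
    refine ⟨⟨h1, h2.symm, trivial⟩, h.1, ?_⟩
    simp only [lp, List.map_append, List.prod_append, List.map_cons, List.prod_cons,
      mul_inv_rev] at h3 ⊢
    simp [h3]

theorem AW_symm (hS : ∀ d ∈ D, (d.2.2, d.2.1⁻¹, d.1) ∈ D) {R : Type} [AddCommMonoid R] (φ : L → R)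
    (a b n : ℕ) : ∑ u ∈ AW D a n, (if tg a u = b then φ (lp u) else 0) =
      ∑ u ∈ AW D b n, if tg b u = a then φ (lp u)⁻¹ else 0 := by
  have key : ∀ a b u, u ∈ (AW D a n).filter (tg a · = b) →
      rv u ∈ (AW D b n).filter (tg b · = a) ∧ lp (rv u) = (lp u)⁻¹ := fun a b u hu => by
    simp only [AW, mem_filter, mem_Ls] at hu ⊢
    obtain ⟨⟨⟨h1, h2⟩, hc, hn⟩, rfl⟩ := hu
    obtain ⟨c1, c2, c3⟩ := rv_ok hc
    refine ⟨⟨⟨⟨by simp [rv, h1], fun x hx => ?_⟩, c1, fun x v y e v0 v1 => ?_⟩, c2⟩, c3⟩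
    · obtain ⟨d, hd, rfl⟩ := List.mem_map.1 (List.mem_reverse.1 hx)
      exact hS d (h2 d hd)
    · refine hn (y.map (·⁻¹)).reverse (v.map (·⁻¹)).reverse (x.map (·⁻¹)).reverse ?_ (by simpa)
        (by rw [← List.prod_inv_reverse, v1, inv_one])
      have := congrArg (fun l => (l.map (·⁻¹)).reverse) e
      simp only [rv, List.map_reverse, List.reverse_reverse, List.map_map, Function.comp_def, ia,
        io_inv, inv_inv, List.map_append, List.reverse_append] at this
      rw [List.append_assoc]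
      exact this
  rw [← sum_filter, ← sum_filter]
  exact sum_nbij' rv rv (fun u h => (key _ _ u h).1) (fun u h => (key _ _ u h).1)
    (fun u _ => rv_rv u) (fun u _ => rv_rv u) fun u h => by rw [(key _ _ u h).2, inv_inv]

end Pool.Agent.Lib.MP_820104_pr.Tb
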