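import Pool.Agent.Lib.MP_820104_pr.Core

/-! Values of the surviving patterns, cells with an end of the walk, and leading terms. -/

noncomputable section

namespace Pool.Agent.Lib.MP_820104_pr.Tb

open Finset Polynomial

/-- the variable -/
abbrev xx : PS := PowerSeries.X

/-- the weight of a provider pass -/
def wp : PS := ph (X ^ 3 + 2 * X ^ 5)

/-- the weight of a bound pass -/
def wb : PS := ph (X ^ 9 + 2 * X ^ 11 + 2 * X ^ 15 + X ^ 17)

/-- the constant one -/
abbrev one : Finset ℕ → PS := fun _ => 1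

theorem A_self {R : Type} [CommSemiring R] {x : R} {v : ℕ} {K : Finset ℕ → R} {S : Finset ℕ}
    (hv : v < 108) (h : v ∉ S) : A x v v K S = K (insert v S) := by
  rw [A_step hv h, if_pos rfl, List.sum_eq_zero, mul_zero, add_zero]
  exact List.forall_mem_map.2 fun w _ => A_mem (Or.inr (mem_insert_self _ _))

theorem val_f : A xx 104 107 one ∅ = wp :=
  Z_of_tst (τ := [(104, 107)]) (by norm_num) (by simp; decide +kernel)

theorem val_d : A xx 101 107 one ∅ = wp :=
  Z_of_tst (τ := [(101, 107)]) (by norm_num) (by simp; decide +kernel)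

theorem val_D : A xx 0 100 one {106} = wb :=
  (A_self (K := A xx 0 100 one) (S := ∅) (by norm_num) (by simp)).symm.trans
    (Z_of_tst (τ := [(106, 106), (0, 100)]) (by norm_num) (by simp; decide +kernel))

theorem three : (3 : PS) = 0 := by
  rw [← map_ofNat (PowerSeries.C (R := ZMod 3)), show (OfNat.ofNat 3 : ZMod 3) = 0 from rfl,
    map_zero]

theorem val_e : A xx 0 92 one ∅ = -wb := by
  have : A xx 0 92 one ∅ = ph (2 * X ^ 9 + X ^ 11 + X ^ 15 + 2 * X ^ 17) :=
    Z_of_tst (τ := [(0, 92)]) (by norm_num) (by simp; decide +kernel)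
  simp only [this, wb, map_add, map_mul, map_pow, map_ofNat, ph_X]
  linear_combination (PowerSeries.X ^ 9 + PowerSeries.X ^ 11 + PowerSeries.X ^ 15 +
    PowerSeries.X ^ 17) * three

theorem Z0 {τ : List (ℕ × ℕ)} (h : tst τ 0) : Z xx τ ∅ = 0 :=
  (Z_of_tst (q := 0) (by simp) (by simpa using h)).trans (map_zero _)

theorem lf1 {p : ℕ} (hp : p = 101 ∨ p = 104) (b : ℕ) : Z xx [(107, b), (p, 0)] ∅ = 0 := by
  refine A_zero fun l hl _ => ?_
  by_cases hz : 106 ∈ l
  · exact A_sep (by simpa) (by omega)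
  have : ∅ ∪ l.toFinset = insert 107 ∅ := by
    ext i
    simpa using ⟨fun h => (side_Pth hl hz i h).2.2 rfl, fun h => h ▸ (hd_mem hl).1⟩
  rw [this, ← A_self (x := xx) (K := Z xx [(p, 0)]) (by norm_num) (by simp)]
  rcases hp with rfl | rfl
  · exact Z0 (τ := [(107, 107), (101, 0)]) (by decide +kernel)
  · exact Z0 (τ := [(107, 107), (104, 0)]) (by decide +kernel)

theorem lf2 {p : ℕ} (hp : p = 101 ∨ p = 104) (b : ℕ) : Z xx [(p, b), (107, 0)] ∅ = 0 := by
  refine A_zero fun l hl _ => ?_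
  by_cases hz : 106 ∈ l
  · exact A_sep (by simpa) (by omega)
  have h0 : A xx 107 0 one ∅ = 0 := Z0 (τ := [(107, 0)]) (by decide +kernel)
  show A xx 107 0 one _ = 0
  rw [← h0]
  refine A_congr fun l' hl' => ⟨iff_of_true (disjoint_left.2 fun i h h' => ?_) (by simp),
    fun _ => rfl⟩
  simp only [empty_union, List.mem_toFinset] at h h'
  have h1 := side_Pth hl hz i h'
  have h2 := (from_a hl' (by norm_num)).2 i h
  have h3 := (mem_Pth.1 hl).1 i h'
  have : i ≠ 106 := fun e => hz (e ▸ h')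
  omega

/-- the state of a cell after a provider pass -/
def Prov (S : Finset ℕ) : Prop := 106 ∈ S ∧ ∀ i ∈ S, 100 < i

theorem prov {p : ℕ} (hp : p = 101 ∨ p = 104) {l : List ℕ} (h : l ∈ Pth p 107) :
    Prov (∅ ∪ l.toFinset) := by
  have := from_a (rev_Pth h) (by omega)
  refine ⟨by simpa using this.1, fun i hi => ?_⟩
  have := this.2 i (by simpa using hi)
  omega

theorem Prov.val {S : Finset ℕ} (h : Prov S) (b : ℕ) : A xx 0 b one S = A xx 0 b one {106} :=
  A_congr fun l hl => ⟨⟨fun e => e.mono_right (singleton_subset_iff.2 h.1), fun e =>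
    disjoint_left.2 fun i h1 h2 => (h.2 i h2).not_ge ((side_Pth hl (by simpa using e) i
      (List.mem_toFinset.1 h1)).1.2 (Nat.zero_le _))⟩, fun _ => rfl⟩

/-- expressions that commute with ring homomorphisms -/
def Nl (F : ∀ (R : Type) [CommSemiring R], R → R) : Prop :=
  ∀ (R R' : Type) [CommSemiring R] [CommSemiring R'] (φ : R →+* R') (x : R), φ (F R x) = F R' (φ x)

theorem Nl.dvd {F G : ∀ (R : Type) [CommSemiring R], R → R} (hF : Nl F) (hG : Nl G) {M : ℕ}
    (h : Nat.ble (F ℕ 1 + 1) (2 ^ 32) && Nat.ble (G ℕ 1 + 1) (2 ^ 32) &&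
      ck M (F ℕ (2 ^ 32)) (G ℕ (2 ^ 32))) : xx ^ M ∣ F PS xx - G PS xx := by
  have e : ∀ F, Nl F → ∀ y, (F ℕ[X] X).eval y = F ℕ y := fun F hF y =>
    (hF _ _ (evalRingHom y) X).trans (by simp)
  simp only [Bool.and_eq_true, Nat.ble_eq] at h
  have := ph_dvd (p := F _ X) (q := G _ X) (M := M) (e F hF 1 ▸ h.1.1) (e G hG 1 ▸ h.1.2)
    (by rw [e F hF, e G hG]; exact h.2)
  rwa [hF, hG, ph_X] at this

/-- an approximate solution of the linear system -/
def yv {R : Type} [CommSemiring R] (x : R) (b : ℕ) : R :=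
  1 + (yt b).1 * x + (yt b).2.1 * x ^ 2 + (yt b).2.2 * x ^ 3

theorem yv_map {R R' : Type} [CommSemiring R] [CommSemiring R'] (φ : R →+* R') (x : R) (b : ℕ) :
    φ (yv x b) = yv (φ x) b := by simp [yv]

theorem bit0 (i : ℕ) : i ∈ (∅ : Finset ℕ) ↔ Nat.testBit 0 i := by simp

theorem bit1 (i : ℕ) : i ∈ ({106} : Finset ℕ) ↔ Nat.testBit (2 ^ 106) i := by
  rw [Nat.testBit_two_pow, decide_eq_true_eq, mem_singleton, eq_comm]

/-- ends and lengths of the short paths -/
def TrL : ℕ → ℕ → ℕ → List (ℕ × ℕ)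
  | 0, _, _ => []
  | f + 1, vis, v => bif vis.testBit v then [] else
      (v, 0) :: ((nb v).flatMap (TrL f (vis ||| 2 ^ v))).map fun p => (p.1, p.2 + 1)

theorem Tr_eq (K : ℕ → PS) : ∀ f vis v, Tr xx (fun _ c _ => K c) f vis v =
    ((TrL f vis v).map fun p => xx ^ p.2 * K p.1).sum
  | 0, _, _ => rfl
  | f + 1, vis, v => by
    rw [Tr, TrL]
    cases vis.testBit v
    · simp only [cond_false, List.map_cons, List.sum_cons, pow_zero, one_mul, List.map_map,
        Function.comp_def, pow_succ', mul_assoc, List.sum_map_mul_left, funext (Tr_eq K f _),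
        List.flatMap_def, List.map_flatten, List.sum_flatten]
    · rfl

theorem e1 (K : ℕ → PS) : xx ^ 5 ∣ En xx (fun b _ => K b) 0 ∅ - En xx (fun b _ => K b) 0 {106} := by
  have t := fun vis S => En_Tr (x := xx) (K := fun b _ => K b) (K' := fun _ c _ => K c)
    (by simp) 5 vis 0 S (by norm_num)
  have p : (TrL 5 0 0).Perm (List.replicate 3 (106, 4) ++ TrL 5 (2 ^ 106) 0) := by decide +kernel
  have := dvd_sub (t _ _ bit0) (t _ _ bit1)
  rw [Tr_eq, Tr_eq, (p.map _).sum_eq] at this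
  simp only [List.map_append, List.sum_append, List.map_replicate, List.sum_replicate,
    nsmul_eq_mul, Nat.cast_ofNat, three] at this
  convert this using 1
  ring

theorem e2 : xx ^ 9 ∣ En xx (fun b _ => yv xx b) 0 ∅ - En xx (fun b _ => yv xx b) 0 {106} -
    xx ^ 8 := by
  have n : ∀ vis, Nl fun R _ x => Tr x (fun _ c _ => yv x c) 9 vis 0 :=
    fun vis _ _ _ _ φ _ => Tr_map φ (fun _ _ _ => yv_map _ _ _) _ _ _
  have t := fun vis S => En_Tr (x := xx) (K := fun b _ => yv xx b) (K' := fun _ c _ => yv xx c)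
    (by simp) 9 vis 0 S (by norm_num)
  have := dvd_sub (dvd_add (t _ _ bit0) ((n 0).dvd (G := fun R _ x =>
    Tr x (fun _ c _ => yv x c) 9 (2 ^ 106) 0 + x ^ 8) (fun _ _ _ _ φ _ => by
      rw [map_add, n, map_pow]) (by decide +kernel))) (t _ _ bit1)
  convert this using 1
  ring

theorem a2 : xx ^ 10 ∣ A xx 0 100 (En xx (fun b _ => yv xx b) 107) ∅ +
    A xx 107 100 (En xx (fun b _ => yv xx b) 0) ∅ - xx ^ 9 := by
  have n : ∀ u v, Nl fun R _ x => Tr x (fun f c vis => if c = 100 then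
      Tr x (fun _ c _ => yv x c) f vis v else 0) 10 0 u :=
    fun u v _ _ _ _ φ _ => Tr_map φ (fun _ _ _ => by
      rw [apply_ite φ, map_zero, Tr_map φ fun _ _ _ => yv_map _ _ _]) _ _ _
  have t := fun u v (hu : u < 108) (hv : v < 108) => En_Tr (x := xx)
    (K := fun c S => if c = 100 then En xx (fun b _ => yv xx b) v S else 0)
    (K' := fun f c vis => if c = 100 then Tr xx (fun _ c _ => yv xx c) f vis v else 0)
    (fun f b S vis h => by
      split_ifs
      exacts [En_Tr (by simp) _ _ _ _ hv h, by simp]) 10 0 u ∅ hu bit0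
  have := dvd_add (dvd_add (t 0 107 (by norm_num) (by norm_num))
    (t 107 0 (by norm_num) (by norm_num))) (Nl.dvd (F := fun R _ x =>
      Tr x (fun f c vis => if c = 100 then Tr x (fun _ c _ => yv x c) f vis 107 else 0) 10 0 0 +
      Tr x (fun f c vis => if c = 100 then Tr x (fun _ c _ => yv x c) f vis 0 else 0) 10 0 107)
      (G := fun R _ x => x ^ 9)
      (fun _ _ _ _ φ _ => by rw [map_add, n 0 107, n 107 0]) (fun _ _ _ _ φ _ => map_pow _ _ _)
      (by decide +kernel))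
  rw [En_one (by norm_num), En_one (by norm_num)]
  convert this using 1
  ring

/-- the distance to the port `D`, cut at six -/
def ds (i : ℕ) : ℕ := [6, 6, 6, 6, 6, 6, 6, 6, 6, 6, 6, 6, 6, 6, 6, 6, 6, 6, 6, 6, 6, 6, 6, 6, 6, 6,
  6, 6, 6, 6, 6, 6, 6, 6, 6, 6, 6, 6, 6, 6, 6, 6, 6, 6, 6, 6, 6, 6, 6, 6, 5, 6, 6, 6, 5, 6, 6, 4, 5,
  6, 4, 4, 3, 5, 4, 3, 5, 4, 3, 6, 6, 5, 4, 3, 6, 6, 6, 6, 5, 4, 3, 6, 6, 6, 6, 5, 4, 3, 2, 4, 4, 3,
  4, 2, 2, 1, 2, 1, 2, 1, 0, 6, 6, 6, 6, 6, 5, 6].getD i 0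

theorem a1 {v : ℕ} (hv : ds v = 6) (K : Finset ℕ → PS) : xx ^ 6 ∣ A xx v 100 K ∅ := by
  have h0 : ∀ i < 108, ∀ w ∈ nb i, ds i ≤ ds w + 1 := by decide +kernel
  have h1 : ∀ (l : List ℕ) (v : ℕ), (∀ i ∈ v :: l, i < 108) → (v :: l).IsChain (fun a b => b ∈ nb a) →
      (v :: l).getLast? = some 100 → ds v ≤ l.length := fun l => by
    induction l with
    | nil => exact fun v _ _ h => by rw [show v = 100 by simpa using h]; rfl
    | cons w l ih =>
      intro v a b c
      rw [List.isChain_cons_cons] at b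
      exact (h0 v (a v (by simp)) w b.1).trans
        (Nat.succ_le_succ (ih w (List.forall_mem_cons.1 a).2 b.2 c))
  refine dvd_sum fun l hl => ?_
  obtain ⟨a, b, -, c, d⟩ := mem_Pth.1 hl
  obtain _ | ⟨u, l⟩ := l
  · simp at c
  obtain rfl : u = v := by simpa using c
  split_ifs
  exacts [(pow_dvd_pow _ (hv ▸ h1 l u a b d)).mul_right _, dvd_zero _]

end Pool.Agent.Lib.MP_820104_pr.Tb
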