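import Pool.Agent.Lib.MP_820104_pr.Defs

/-! Self-avoiding walks as words. -/

noncomputable section

namespace Pool.Agent.Lib.MP_820104_pr

open Finset Filter
open scoped Classical

variable {K : Type} [Group K]

/-- no nonempty block of consecutive letters has product one -/
def NT (l : List K) : Prop := ∀ a u b, l = a ++ u ++ b → u ≠ [] → u.prod ≠ 1

/-- the words of given length -/
def Ls {α : Type} (S : Finset α) : ℕ → Finset (List α)
  | 0 => {[]}
  | n + 1 => image₂ List.cons S (Ls S n)

theorem mem_Ls {α : Type} {S : Finset α} : ∀ {n : ℕ} {l : List α},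
    l ∈ Ls S n ↔ l.length = n ∧ ∀ x ∈ l, x ∈ S
  | 0, l => by cases l <;> simp [Ls]
  | n + 1, [] => by simp [Ls]
  | n + 1, x :: l => by simp [Ls, mem_image₂, mem_Ls (n := n), and_left_comm]

theorem card_Ls {α : Type} (S : Finset α) : ∀ n, #(Ls S n) ≤ #S ^ n
  | 0 => by simp [Ls]
  | n + 1 => (card_image₂_le _ _ _).trans (by rw [pow_succ']; gcongr; exact card_Ls S n)

theorem NT_iff {l : List K} : NT l ↔ ∀ i j, i < j → j ≤ l.length →
    (l.take i).prod ≠ (l.take j).prod := by
  refine ⟨fun h i j ij hj e => ?_, fun h a u b e u0 u1 => ?_⟩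
  · have e2 : l.take j = l.take i ++ (l.take j).drop i := by
      conv_lhs => rw [← List.take_append_drop i (l.take j), List.take_take, min_eq_left ij.le]
    refine h (l.take i) ((l.take j).drop i) (l.drop j) (by rw [← e2, List.take_append_drop])
      (List.length_pos_iff.1 (by simp; omega)) ?_
    rw [e2, List.prod_append] at e
    exact (mul_eq_left.1 e.symm)
  · refine h a.length (a ++ u).length (by simpa using List.length_pos_iff.2 u0) (by simp [e]) ?_
    rw [e, List.take_left, List.append_assoc, List.take_left, List.prod_append, u1, mul_one]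

/-- the words that spell self-avoiding walks -/
def Wd (S : Finset K) (n : ℕ) : Finset (List K) := (Ls S n).filter NT

theorem saw_eq (S : Finset K) (n : ℕ) : saw S n = #(Wd S n) := by
  rw [saw, ← Set.ncard_coe_finset]
  have st : ∀ (l : List K) (i : ℕ) (h : i < l.length),
      (l.take i).prod⁻¹ * (l.take (i + 1)).prod = l[i] := fun l i h => by
    rw [List.prod_take_succ _ _ h, inv_mul_cancel_left]
  symm
  refine Set.ncard_congr (fun l _ (i : Fin (n + 1)) => (l.take i).prod) (fun l hl => ?_)
    (fun l l' hl hl' e => ?_) fun f ⟨h1, h2, h3⟩ => ?_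
  · obtain ⟨hl, h⟩ := mem_filter.1 hl
    obtain ⟨rfl, hm⟩ := mem_Ls.1 hl
    refine ⟨fun i j e => ?_, by simp, fun i => ?_⟩
    · rcases lt_trichotomy i j with h' | h' | h'
      · exact (NT_iff.1 h _ _ h' (Nat.lt_succ_iff.1 j.2) e).elim
      · exact h'
      · exact (NT_iff.1 h _ _ h' (Nat.lt_succ_iff.1 i.2) e.symm).elim
    · exact (st l i i.2).symm ▸ hm _ (List.getElem_mem _)
  · have a := (mem_Ls.1 (mem_filter.1 hl).1).1
    have b := (mem_Ls.1 (mem_filter.1 hl').1).1
    refine List.ext_getElem (a.trans b.symm) fun i h h' => ?_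
    rw [← st, ← st]
    exact congrArg₂ (·⁻¹ * ·) (congrFun e ⟨i, by omega⟩) (congrFun e ⟨i + 1, by omega⟩)
  · set l := List.ofFn fun i : Fin n => (f i.castSucc)⁻¹ * f i.succ with hl
    have len : l.length = n := by simp [hl]
    have e : ∀ i (h : i < n + 1), (l.take i).prod = f ⟨i, h⟩ := fun i => by
      induction i with
      | zero => exact fun _ => h2.symm
      | succ i ih =>
        intro h
        rw [List.prod_take_succ _ _ (by omega), ih (by omega)]
        simp [hl]
    refine ⟨l, mem_filter.2 ⟨mem_Ls.2 ⟨len, fun x hx => ?_⟩, NT_iff.2 fun i j ij hj e' => ?_⟩,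
      funext fun i => e i i.2⟩
    · obtain ⟨i, rfl⟩ := List.mem_ofFn.1 hx
      exact h3 i
    · rw [e i (by omega), e j (by omega)] at e'
      exact ij.ne (congrArg Fin.val (h1 e'))

theorem saw_le (S : Finset K) (n : ℕ) : saw S n ≤ #S ^ n :=
  (saw_eq S n).trans_le ((card_filter_le _ _).trans (card_Ls S n))

theorem NT_nil : NT ([] : List K) := fun a u b e h => by simp_all

theorem saw_zero (S : Finset K) : saw S 0 = 1 := by
  rw [saw_eq, Wd, Ls, filter_singleton, if_pos NT_nil, card_singleton]

theorem saw_one {S : Finset K} (h : 1 ∉ S) : #S ≤ saw S 1 := by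
  rw [saw_eq]
  refine card_le_card_of_injOn (fun s => [s]) (fun s hs => mem_filter.2 ⟨mem_Ls.2 (by simpa),
    NT_iff.2 fun i j ij hj => ?_⟩) fun a _ b _ e => by simpa using e
  obtain rfl : j = 1 := by simp at hj; omega
  obtain rfl : i = 0 := by omega
  simpa using fun e : 1 = s => h (e ▸ hs)

end Pool.Agent.Lib.MP_820104_pr
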